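import Pool.Agent.HVM.Defs

/-! # Every body is comparable to a box (module BOX) -/

set_option autoImplicit false

namespace Pool.Agent.HVM

open MeasureTheory Metric Set
open Pool.Agent.Helper85.Herm Pool.Agent.Helper85.Cap

namespace BoxAux

/-- one greedy step -/
theorem step {E : Type*} [NormedAddCommGroup E] [InnerProductSpace ℝ E] [FiniteDimensional ℝ E]
    [MeasurableSpace E] [BorelSpace E]
    (S : Set E) (hS : IsCompact S) (hne : S.Nonempty) (hvol : volume S ≠ 0)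
    (W : Submodule ℝ E) (hW : W ≠ ⊤) :
    ∃ e ∈ S, ∃ b ∈ Wᗮ, ∃ d : ℝ, 0 < d ∧ ‖b‖ = 1 ∧ e - d • b ∈ W ∧
      ∀ x ∈ S, ∀ c ∈ Wᗮ, ‖c‖ = 1 → |inner ℝ x c| ≤ d := by
  set P := Wᗮ.starProjection with hP
  obtain ⟨e, he, hmax⟩ := hS.exists_isMaxOn hne
    (f := fun x => ‖P x‖) (by fun_prop)
  have hmax' : ∀ x ∈ S, ‖P x‖ ≤ ‖P e‖ := fun x hx => hmax hx
  have hWW : ∀ x : E, x - P x ∈ W := by
    intro x
    have := Submodule.sub_starProjection_mem_orthogonal (K := Wᗮ) x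
    rwa [Submodule.orthogonal_orthogonal] at this
  have hd : 0 < ‖P e‖ := by
    rcases (norm_nonneg (P e)).lt_or_eq with h | h
    · exact h
    · exfalso
      apply hvol
      have hsub : S ⊆ (W : Set E) := by
        intro x hx
        have h1 := hmax' x hx
        rw [← h] at h1
        have h2 : P x = 0 := norm_le_zero_iff.1 h1
        have h3 := hWW x
        rwa [h2, sub_zero] at h3
      exact measure_mono_null hsub (Measure.addHaar_submodule volume W hW)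
  refine ⟨e, he, (‖P e‖)⁻¹ • P e, ?_, ‖P e‖, hd, ?_, ?_, ?_⟩
  · exact Wᗮ.smul_mem _ (Submodule.starProjection_apply_mem _ _)
  · rw [norm_smul, norm_inv, norm_norm, inv_mul_cancel₀ hd.ne']
  · rw [smul_smul, mul_inv_cancel₀ hd.ne', one_smul]
    exact hWW e
  · intro x hx c hc hc1
    have h1 : inner ℝ (x - P x) c = 0 := Submodule.starProjection_inner_eq_zero x c hc
    rw [inner_sub_left, sub_eq_zero] at h1
    rw [h1]
    calc |inner ℝ (P x) c| ≤ ‖P x‖ * ‖c‖ := abs_real_inner_le_norm _ _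
      _ = ‖P x‖ := by rw [hc1, mul_one]
      _ ≤ ‖P e‖ := hmax' x hx

/-- the volume of a box -/
theorem vol_box (b : OrthonormalBasis (Fin 4) ℝ C2) (a : Fin 4 → ℝ) :
    volume {y : C2 | ∀ i, |inner ℝ y (b i)| ≤ a i} = ∏ i, ENNReal.ofReal (2 * a i) := by
  have h1 : {y : C2 | ∀ i, |inner ℝ y (b i)| ≤ a i} =
      b.repr ⁻¹' ((WithLp.ofLp : EuclideanSpace ℝ (Fin 4) → (Fin 4 → ℝ)) ⁻¹'
        (Set.Icc (fun i => - a i) a)) := by
    ext y
    simp only [Set.mem_ofPred_eq, Set.mem_preimage, Set.mem_Icc, Pi.le_def]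
    constructor
    · intro h
      refine ⟨fun i => ?_, fun i => ?_⟩
      · have := abs_le.1 (h i)
        rw [b.repr_apply_apply, real_inner_comm]
        exact this.1
      · have := abs_le.1 (h i)
        rw [b.repr_apply_apply, real_inner_comm]
        exact this.2
    · rintro ⟨h1, h2⟩ i
      rw [abs_le]
      have e1 := h1 i
      have e2 := h2 i
      rw [b.repr_apply_apply, real_inner_comm] at e1 e2
      exact ⟨e1, e2⟩
  have hm : MeasurableSet (Set.Icc (fun i => - a i) a) := measurableSet_Icc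
  rw [h1, b.measurePreserving_repr.measure_preimage
    ((PiLp.volume_preserving_ofLp (Fin 4)).measurable hm).nullMeasurableSet,
    (PiLp.volume_preserving_ofLp (Fin 4)).measure_preimage hm.nullMeasurableSet,
    Real.volume_Icc_pi]
  apply Finset.prod_congr rfl
  intro i _
  congr 1
  ring

theorem span_ne (s : Finset C2) (hs : s.card ≤ 3) : Submodule.span ℝ (s : Set C2) ≠ ⊤ := by
  intro h
  have h1 := finrank_span_finset_le_card (R := ℝ) s
  rw [Set.finrank, h, finrank_top, finrank_euclideanSpace_fin] at h1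
  omega

/-- the greedy construction -/
theorem greedy (S : Set C2) (hS : IsCompact S) (hne : S.Nonempty) (hvol : volume S ≠ 0) :
    ∃ (b : OrthonormalBasis (Fin 4) ℝ C2) (d0 d1 d2 d3 α β γ κ ν τ : ℝ),
      0 < d3 ∧ d3 ≤ d2 ∧ d2 ≤ d1 ∧ d1 ≤ d0 ∧ |α| ≤ d0 ∧ |β| ≤ d0 ∧ |γ| ≤ d1 ∧
      |κ| ≤ d0 ∧ |ν| ≤ d1 ∧ |τ| ≤ d2 ∧
      d0 • b 0 ∈ S ∧ α • b 0 + d1 • b 1 ∈ S ∧ β • b 0 + γ • b 1 + d2 • b 2 ∈ S ∧
      κ • b 0 + ν • b 1 + τ • b 2 + d3 • b 3 ∈ S ∧
      ∀ x ∈ S, |inner ℝ x (b 0)| ≤ d0 ∧ |inner ℝ x (b 1)| ≤ d1 ∧ |inner ℝ x (b 2)| ≤ d2 ∧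
        |inner ℝ x (b 3)| ≤ d3 := by
  classical
  obtain ⟨e0, he0, b0, hb0, d0, hd0, hn0, hm0, hB0⟩ := step S hS hne hvol ⊥ (by
    intro h
    exact absurd h bot_ne_top)
  obtain ⟨e1, he1, b1, hb1, d1, hd1, hn1, hm1, hB1⟩ := step S hS hne hvol
    (Submodule.span ℝ ((({b0} : Finset C2)) : Set C2)) (span_ne _ (by simp))
  obtain ⟨e2, he2, b2, hb2, d2, hd2, hn2, hm2, hB2⟩ := step S hS hne hvol
    (Submodule.span ℝ ((({b0, b1} : Finset C2)) : Set C2))
      (span_ne _ (Finset.card_le_two.trans (by norm_num)))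
  obtain ⟨e3, he3, b3, hb3, d3, hd3, hn3, hm3, hB3⟩ := step S hS hne hvol
    (Submodule.span ℝ ((({b0, b1, b2} : Finset C2)) : Set C2)) (span_ne _ Finset.card_le_three)
  simp only [Finset.coe_insert, Finset.coe_singleton] at hb1 hm1 hB1 hb2 hm2 hB2 hb3 hm3 hB3
  rw [Submodule.mem_bot, sub_eq_zero] at hm0
  -- orthogonality
  have o01 : inner ℝ b0 b1 = 0 := (Submodule.mem_orthogonal _ _).1 hb1 b0
    (Submodule.subset_span (by simp))
  have o02 : inner ℝ b0 b2 = 0 := (Submodule.mem_orthogonal _ _).1 hb2 b0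
    (Submodule.subset_span (by simp))
  have o12 : inner ℝ b1 b2 = 0 := (Submodule.mem_orthogonal _ _).1 hb2 b1
    (Submodule.subset_span (by simp))
  have o03 : inner ℝ b0 b3 = 0 := (Submodule.mem_orthogonal _ _).1 hb3 b0
    (Submodule.subset_span (by simp))
  have o13 : inner ℝ b1 b3 = 0 := (Submodule.mem_orthogonal _ _).1 hb3 b1
    (Submodule.subset_span (by simp))
  have o23 : inner ℝ b2 b3 = 0 := (Submodule.mem_orthogonal _ _).1 hb3 b2
    (Submodule.subset_span (by simp))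
  have n0 : inner ℝ b0 b0 = 1 := by rw [real_inner_self_eq_norm_sq, hn0]; norm_num
  have n1 : inner ℝ b1 b1 = 1 := by rw [real_inner_self_eq_norm_sq, hn1]; norm_num
  have n2 : inner ℝ b2 b2 = 1 := by rw [real_inner_self_eq_norm_sq, hn2]; norm_num
  have n3 : inner ℝ b3 b3 = 1 := by rw [real_inner_self_eq_norm_sq, hn3]; norm_num
  have o10 : inner ℝ b1 b0 = 0 := by rw [real_inner_comm]; exact o01
  have o20 : inner ℝ b2 b0 = 0 := by rw [real_inner_comm]; exact o02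
  have o21 : inner ℝ b2 b1 = 0 := by rw [real_inner_comm]; exact o12
  have o30 : inner ℝ b3 b0 = 0 := by rw [real_inner_comm]; exact o03
  have o31 : inner ℝ b3 b1 = 0 := by rw [real_inner_comm]; exact o13
  have o32 : inner ℝ b3 b2 = 0 := by rw [real_inner_comm]; exact o23
  -- membership in the larger orthogonal complements
  have hbot : ∀ c : C2, c ∈ (⊥ : Submodule ℝ C2)ᗮ := fun c => by simp
  have hb2' : b2 ∈ (Submodule.span ℝ {b0})ᗮ := by
    rw [Submodule.mem_orthogonal_singleton_iff_inner_right]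
    exact o02
  have hb3' : b3 ∈ (Submodule.span ℝ {b0, b1})ᗮ :=
    Submodule.orthogonal_le (Submodule.span_mono (by
      intro x hx
      simp only [Set.mem_insert_iff, Set.mem_singleton_iff] at hx ⊢
      tauto)) hb3
  obtain ⟨α, hα⟩ := Submodule.mem_span_singleton.1 hm1
  obtain ⟨β, γ, hβγ⟩ := Submodule.mem_span_pair.1 hm2
  obtain ⟨κ, ν, τ, hκ⟩ := Submodule.mem_span_triple.1 hm3
  have E1 : e1 = α • b0 + d1 • b1 := by rw [hα]; abel
  have E2 : e2 = β • b0 + γ • b1 + d2 • b2 := by rw [hβγ]; abel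
  have E3 : e3 = κ • b0 + ν • b1 + τ • b2 + d3 • b3 := by rw [hκ]; abel
  have i10 : inner ℝ e1 b0 = α := by
    rw [E1]
    simp only [inner_add_left, inner_smul_left, n0, o10]
    simp
  have i20 : inner ℝ e2 b0 = β := by
    rw [E2]
    simp only [inner_add_left, inner_smul_left, n0, o10, o20]
    simp
  have i21 : inner ℝ e2 b1 = γ := by
    rw [E2]
    simp only [inner_add_left, inner_smul_left, n1, o01, o21]
    simp
  have i30 : inner ℝ e3 b0 = κ := by
    rw [E3]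
    simp only [inner_add_left, inner_smul_left, n0, o10, o20, o30]
    simp
  have i31 : inner ℝ e3 b1 = ν := by
    rw [E3]
    simp only [inner_add_left, inner_smul_left, n1, o01, o21, o31]
    simp
  have i32 : inner ℝ e3 b2 = τ := by
    rw [E3]
    simp only [inner_add_left, inner_smul_left, n2, o02, o12, o32]
    simp
  have i11 : inner ℝ e1 b1 = d1 := by
    rw [E1]
    simp only [inner_add_left, inner_smul_left, n1, o01]
    simp
  have i22 : inner ℝ e2 b2 = d2 := by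
    rw [E2]
    simp only [inner_add_left, inner_smul_left, n2, o02, o12]
    simp
  have i33 : inner ℝ e3 b3 = d3 := by
    rw [E3]
    simp only [inner_add_left, inner_smul_left, n3, o03, o13, o23]
    simp
  have hon : Orthonormal ℝ (![b0, b1, b2, b3] : Fin 4 → C2) := by
    rw [orthonormal_iff_ite]
    intro i j
    fin_cases i <;> fin_cases j <;>
      simp [o01, o02, o03, o10, o12, o13, o20, o21, o23, o30, o31, o32, hn0, hn1,
        hn2, hn3]
  obtain ⟨b, hb⟩ := Orthonormal.exists_orthonormalBasis_extension_of_card_eq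
    (𝕜 := ℝ) (E := C2) (ι := Fin 4) (by simp) (v := ![b0, b1, b2, b3]) (s := Set.univ)
    (hon.comp _ Subtype.val_injective)
  have hb_0 : b 0 = b0 := hb 0 (Set.mem_univ _)
  have hb_1 : b 1 = b1 := hb 1 (Set.mem_univ _)
  have hb_2 : b 2 = b2 := hb 2 (Set.mem_univ _)
  have hb_3 : b 3 = b3 := hb 3 (Set.mem_univ _)
  refine ⟨b, d0, d1, d2, d3, α, β, γ, κ, ν, τ, hd3, ?_, ?_, ?_, ?_, ?_, ?_, ?_, ?_, ?_, ?_, ?_,
    ?_, ?_, ?_⟩
  · rw [← i33]
    exact (le_abs_self _).trans (hB2 e3 he3 b3 hb3' hn3)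
  · rw [← i22]
    exact (le_abs_self _).trans (hB1 e2 he2 b2 hb2' hn2)
  · rw [← i11]
    exact (le_abs_self _).trans (hB0 e1 he1 b1 (hbot _) hn1)
  · rw [← i10]
    exact hB0 e1 he1 b0 hb0 hn0
  · rw [← i20]
    exact hB0 e2 he2 b0 hb0 hn0
  · rw [← i21]
    exact hB1 e2 he2 b1 hb1 hn1
  · rw [← i30]
    exact hB0 e3 he3 b0 hb0 hn0
  · rw [← i31]
    exact hB1 e3 he3 b1 hb1 hn1
  · rw [← i32]
    exact hB2 e3 he3 b2 hb2 hn2
  · rw [hb_0, ← hm0]
    exact he0
  · rw [hb_0, hb_1, ← E1]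
    exact he1
  · rw [hb_0, hb_1, hb_2, ← E2]
    exact he2
  · rw [hb_0, hb_1, hb_2, hb_3, ← E3]
    exact he3
  · intro x hx
    rw [hb_0, hb_1, hb_2, hb_3]
    exact ⟨hB0 x hx b0 hb0 hn0, hB1 x hx b1 hb1 hn1, hB2 x hx b2 hb2 hn2, hB3 x hx b3 hb3 hn3⟩

/-- convex combinations with the origin -/
theorem conv4 {S : Set C2} (hS : Convex ℝ S) (h0 : (0 : C2) ∈ S) {e0 e1 e2 e3 : C2}
    (h0' : e0 ∈ S) (h1 : e1 ∈ S) (h2 : e2 ∈ S) (h3 : e3 ∈ S) {c0 c1 c2 c3 : ℝ}
    (p0 : 0 ≤ c0) (p1 : 0 ≤ c1) (p2 : 0 ≤ c2) (p3 : 0 ≤ c3) (hs : c0 + c1 + c2 + c3 ≤ 1) :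
    c0 • e0 + c1 • e1 + c2 • e2 + c3 • e3 ∈ S := by
  have := hS.sum_mem (t := Finset.univ) (w := (![c0, c1, c2, c3, 1 - (c0 + c1 + c2 + c3)] : Fin 5 → ℝ))
    (z := (![e0, e1, e2, e3, 0] : Fin 5 → C2)) (by
      intro i _
      fin_cases i <;> simp <;> linarith) (by
      rw [Fin.sum_univ_five]
      simp) (by
      intro i _
      fin_cases i <;> simp <;> assumption)
  rw [Fin.sum_univ_five] at this
  simpa using this

/-- backward substitution -/
theorem div_bound {x D c : ℝ} (hD : 0 < D) (h : |x| ≤ c * D) : |x / D| ≤ c := by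
  rw [abs_div, abs_of_pos hD, div_le_iff₀ hD]
  exact h

end BoxAux

open BoxAux

theorem box (K : Body) (hK : 0 < (volume (pts K)).toReal) :
    ∃ (v : C2) (K' : Body) (b : OrthonormalBasis (Fin 4) ℝ C2) (r : Fin 4 → ℝ),
      pts K' = (fun x => x + v) '' pts K ∧
      0 < r 3 ∧ r 3 ≤ r 2 ∧ r 2 ≤ r 1 ∧ r 1 ≤ r 0 ∧
      (∀ i, ∀ y ∈ pts K', |inner ℝ y (b i)| ≤ 4 * r i) ∧
      closedBall 0 (r 3 / 20) ⊆ pts K' ∧
      (volume (pts K')).toReal ≤ 1300 * (r 0 * r 1 * r 2 * r 3) ∧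
      (1 / 40000) * (r 0 * r 1 * r 2 * r 3) ≤ (volume (pts K')).toReal := by
  classical
  obtain ⟨x0, hx0⟩ := K.nonempty
  set S : Set C2 := (fun x => x + x0) ⁻¹' pts K with hSdef
  have hSK : volume S = volume (pts K) := measure_preimage_add_right volume x0 (pts K)
  have hvol : volume S ≠ 0 := by
    intro h
    rw [← hSK, h] at hK
    simp at hK
  have hScomp : IsCompact S := (Homeomorph.addRight x0).isCompact_preimage.2 K.isCompact
  have h0S : (0 : C2) ∈ S := by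
    change (0 : C2) + x0 ∈ pts K
    rw [zero_add]
    exact hx0
  have hSconv : Convex ℝ S := by
    intro x hx y hy a b ha hb hab
    change a • x + b • y + x0 ∈ pts K
    have h1 : a • x + b • y + x0 = a • (x + x0) + b • (y + x0) := by
      have h2 : x0 = (a + b) • x0 := by rw [hab, one_smul]
      conv_lhs => rw [h2]
      simp only [smul_add, add_smul]
      abel
    rw [h1]
    exact K.convex hx hy ha hb hab
  obtain ⟨b, d0, d1, d2, d3, α, β, γ, κ, ν, τ, hd3, hd32, hd21, hd10, hα, hβ, hγ, hκ, hν, hτ,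
    he0, he1, he2, he3, hbd⟩ := greedy S hScomp ⟨0, h0S⟩ hvol
  have hd2 : 0 < d2 := by linarith
  have hd1 : 0 < d1 := by linarith
  have hd0 : 0 < d0 := by linarith
  set e0 : C2 := d0 • b 0 with E0
  set e1 : C2 := α • b 0 + d1 • b 1 with E1
  set e2 : C2 := β • b 0 + γ • b 1 + d2 • b 2 with E2
  set e3 : C2 := κ • b 0 + ν • b 1 + τ • b 2 + d3 • b 3 with E3
  set c : C2 := (8 / 30 : ℝ) • e0 + (4 / 30 : ℝ) • e1 + (2 / 30 : ℝ) • e2 + (1 / 30 : ℝ) • e3 with hc
  -- coordinates of `c`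
  have hin : ∀ i j : Fin 4, inner ℝ (b i) (b j) = if i = j then (1 : ℝ) else 0 :=
    fun i j => orthonormal_iff_ite.1 b.orthonormal i j
  have hc0 : inner ℝ c (b 0) = (8 / 30) * d0 + (4 / 30) * α + (2 / 30) * β + (1 / 30) * κ := by
    rw [hc, E0, E1, E2, E3]
    simp only [inner_add_left, inner_smul_left, hin]
    simp
  have hc1 : inner ℝ c (b 1) = (4 / 30) * d1 + (2 / 30) * γ + (1 / 30) * ν := by
    rw [hc, E0, E1, E2, E3]
    simp only [inner_add_left, inner_smul_left, hin]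
    simp
  have hc2 : inner ℝ c (b 2) = (2 / 30) * d2 + (1 / 30) * τ := by
    rw [hc, E0, E1, E2, E3]
    simp only [inner_add_left, inner_smul_left, hin]
    simp
  have hc3 : inner ℝ c (b 3) = (1 / 30) * d3 := by
    rw [hc, E0, E1, E2, E3]
    simp only [inner_add_left, inner_smul_left, hin]
    simp
  have hα' := abs_le.1 hα
  have hβ' := abs_le.1 hβ
  have hγ' := abs_le.1 hγ
  have hκ' := abs_le.1 hκ
  have hν' := abs_le.1 hν
  have hτ' := abs_le.1 hτ
  -- the inner box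
  have hinner : ∀ y : C2, |inner ℝ y (b 0)| ≤ d0 / 30 → |inner ℝ y (b 1)| ≤ d1 / 30 →
      |inner ℝ y (b 2)| ≤ d2 / 30 → |inner ℝ y (b 3)| ≤ d3 / 30 → y + c ∈ S := by
    intro y g0 g1 g2 g3
    obtain ⟨w3, hw3⟩ : ∃ w3 : ℝ, w3 = inner ℝ y (b 3) / d3 := ⟨_, rfl⟩
    have a3 : |w3| ≤ 1 / 30 := by
      rw [hw3]
      exact div_bound hd3 (by linarith)
    obtain ⟨w2, hw2⟩ : ∃ w2 : ℝ, w2 = (inner ℝ y (b 2) - w3 * τ) / d2 := ⟨_, rfl⟩
    have a2 : |w2| ≤ 2 / 30 := by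
      rw [hw2]
      refine div_bound hd2 ?_
      calc |inner ℝ y (b 2) - w3 * τ| ≤ |inner ℝ y (b 2)| + |w3 * τ| := abs_sub _ _
        _ ≤ d2 / 30 + 1 / 30 * d2 := by
          rw [abs_mul]
          gcongr
        _ = 2 / 30 * d2 := by ring
    obtain ⟨w1, hw1⟩ : ∃ w1 : ℝ, w1 = (inner ℝ y (b 1) - w3 * ν - w2 * γ) / d1 := ⟨_, rfl⟩
    have a1 : |w1| ≤ 4 / 30 := by
      rw [hw1]
      refine div_bound hd1 ?_
      calc |inner ℝ y (b 1) - w3 * ν - w2 * γ| ≤ |inner ℝ y (b 1) - w3 * ν| + |w2 * γ| :=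
            abs_sub _ _
        _ ≤ |inner ℝ y (b 1)| + |w3 * ν| + |w2 * γ| := by
          gcongr
          exact abs_sub _ _
        _ ≤ d1 / 30 + 1 / 30 * d1 + 2 / 30 * d1 := by
          rw [abs_mul, abs_mul]
          gcongr
        _ = 4 / 30 * d1 := by ring
    obtain ⟨w0, hw0⟩ : ∃ w0 : ℝ, w0 = (inner ℝ y (b 0) - w3 * κ - w2 * β - w1 * α) / d0 := ⟨_, rfl⟩
    have a0 : |w0| ≤ 8 / 30 := by
      rw [hw0]
      refine div_bound hd0 ?_
      calc |inner ℝ y (b 0) - w3 * κ - w2 * β - w1 * α|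
          ≤ |inner ℝ y (b 0) - w3 * κ - w2 * β| + |w1 * α| := abs_sub _ _
        _ ≤ |inner ℝ y (b 0) - w3 * κ| + |w2 * β| + |w1 * α| := by
          gcongr
          exact abs_sub _ _
        _ ≤ |inner ℝ y (b 0)| + |w3 * κ| + |w2 * β| + |w1 * α| := by
          gcongr
          exact abs_sub _ _
        _ ≤ d0 / 30 + 1 / 30 * d0 + 2 / 30 * d0 + 4 / 30 * d0 := by
          rw [abs_mul, abs_mul, abs_mul]
          gcongr
        _ = 8 / 30 * d0 := by ring
    have hy : y = w0 • e0 + w1 • e1 + w2 • e2 + w3 • e3 := by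
      have h1 : y = ∑ i, inner ℝ (b i) y • b i := (b.sum_repr' y).symm
      rw [Fin.sum_univ_four] at h1
      have s3 : inner ℝ (b 3) y = w3 * d3 := by
        rw [hw3, real_inner_comm, div_mul_cancel₀ _ hd3.ne']
      have s2 : inner ℝ (b 2) y = w2 * d2 + w3 * τ := by
        rw [hw2, real_inner_comm, div_mul_cancel₀ _ hd2.ne']
        ring
      have s1 : inner ℝ (b 1) y = w1 * d1 + w2 * γ + w3 * ν := by
        rw [hw1, real_inner_comm, div_mul_cancel₀ _ hd1.ne']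
        ring
      have s0 : inner ℝ (b 0) y = w0 * d0 + w1 * α + w2 * β + w3 * κ := by
        rw [hw0, real_inner_comm, div_mul_cancel₀ _ hd0.ne']
        ring
      rw [s0, s1, s2, s3] at h1
      rw [h1, E0, E1, E2, E3]
      module
    have hyc : y + c = (w0 + 8 / 30) • e0 + (w1 + 4 / 30) • e1 + (w2 + 2 / 30) • e2 +
        (w3 + 1 / 30) • e3 := by
      rw [hy, hc]
      module
    rw [hyc]
    have a0' := abs_le.1 a0
    have a1' := abs_le.1 a1
    have a2' := abs_le.1 a2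
    have a3' := abs_le.1 a3
    exact conv4 hSconv h0S he0 he1 he2 he3 (by linarith [a0'.1]) (by linarith [a1'.1])
      (by linarith [a2'.1]) (by linarith [a3'.1]) (by linarith [a0'.2, a1'.2, a2'.2, a3'.2])
  -- the outer box
  have houter : ∀ y : C2, y + c ∈ S → |inner ℝ y (b 0)| ≤ 3 / 2 * d0 ∧
      |inner ℝ y (b 1)| ≤ 3 / 2 * d1 ∧ |inner ℝ y (b 2)| ≤ 3 / 2 * d2 ∧
      |inner ℝ y (b 3)| ≤ 3 / 2 * d3 := by
    intro y hy
    obtain ⟨g0, g1, g2, g3⟩ := hbd (y + c) hy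
    rw [inner_add_left, abs_le] at g0 g1 g2 g3
    rw [hc0] at g0
    rw [hc1] at g1
    rw [hc2] at g2
    rw [hc3] at g3
    refine ⟨abs_le.2 ⟨?_, ?_⟩, abs_le.2 ⟨?_, ?_⟩, abs_le.2 ⟨?_, ?_⟩, abs_le.2 ⟨?_, ?_⟩⟩
    · linarith [g0.1, g0.2, hα'.1, hα'.2, hβ'.1, hβ'.2, hκ'.1, hκ'.2]
    · linarith [g0.1, g0.2, hα'.1, hα'.2, hβ'.1, hβ'.2, hκ'.1, hκ'.2]
    · linarith [g1.1, g1.2, hγ'.1, hγ'.2, hν'.1, hν'.2]
    · linarith [g1.1, g1.2, hγ'.1, hγ'.2, hν'.1, hν'.2]
    · linarith [g2.1, g2.2, hτ'.1, hτ'.2]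
    · linarith [g2.1, g2.2, hτ'.1, hτ'.2]
    · linarith [g3.1, g3.2]
    · linarith [g3.1, g3.2]
  -- the translated body
  let v : C2 := -(x0 + c)
  let K' : Body := ⟨(fun x => x + v) '' pts K, by
      rintro _ ⟨x, hx, rfl⟩ _ ⟨y, hy, rfl⟩ s t hs ht hst
      refine ⟨s • x + t • y, K.convex hx hy hs ht hst, ?_⟩
      have h2 : v = (s + t) • v := by rw [hst, one_smul]
      simp only
      conv_lhs => rw [h2]
      simp only [smul_add, add_smul]
      abel, K.isCompact.image (by fun_prop), K.nonempty.image _⟩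
  have hK' : pts K' = (fun x => x + v) '' pts K := rfl
  have hmem : ∀ y, y ∈ pts K' ↔ y + c ∈ S := by
    intro y
    rw [hK']
    constructor
    · rintro ⟨x, hx, rfl⟩
      change x + -(x0 + c) + c + x0 ∈ pts K
      have : x + -(x0 + c) + c + x0 = x := by abel
      rw [this]
      exact hx
    · intro h
      refine ⟨y + c + x0, h, ?_⟩
      change y + c + x0 + -(x0 + c) = y
      abel
  have hsub1 : pts K' ⊆ {y : C2 | ∀ i, |inner ℝ y (b i)| ≤
      (![3 / 2 * d0, 3 / 2 * d1, 3 / 2 * d2, 3 / 2 * d3] : Fin 4 → ℝ) i} := by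
    intro y hy i
    obtain ⟨g0, g1, g2, g3⟩ := houter y ((hmem y).1 hy)
    fin_cases i
    · exact g0
    · exact g1
    · exact g2
    · exact g3
  have hsub2 : {y : C2 | ∀ i, |inner ℝ y (b i)| ≤
      (![d0 / 30, d1 / 30, d2 / 30, d3 / 30] : Fin 4 → ℝ) i} ⊆ pts K' := by
    intro y hy
    rw [hmem]
    exact hinner y (hy 0) (hy 1) (hy 2) (hy 3)
  have hfin : volume (pts K') ≠ ⊤ := K'.isCompact.measure_lt_top.ne
  refine ⟨v, K', b, ![d0 / 2, d1 / 2, d2 / 2, d3 / 2], hK', ?_, ?_, ?_, ?_, ?_, ?_, ?_, ?_⟩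
  · change 0 < d3 / 2
    positivity
  · change d3 / 2 ≤ d2 / 2
    linarith
  · change d2 / 2 ≤ d1 / 2
    linarith
  · change d1 / 2 ≤ d0 / 2
    linarith
  · intro i y hy
    obtain ⟨g0, g1, g2, g3⟩ := houter y ((hmem y).1 hy)
    fin_cases i
    · change |inner ℝ y (b 0)| ≤ 4 * (d0 / 2)
      linarith
    · change |inner ℝ y (b 1)| ≤ 4 * (d1 / 2)
      linarith
    · change |inner ℝ y (b 2)| ≤ 4 * (d2 / 2)
      linarith
    · change |inner ℝ y (b 3)| ≤ 4 * (d3 / 2)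
      linarith
  · intro y hy
    rw [mem_closedBall_zero_iff] at hy
    change ‖y‖ ≤ d3 / 2 / 20 at hy
    have hle : ∀ i, |inner ℝ y (b i)| ≤ d3 / 30 := by
      intro i
      calc |inner ℝ y (b i)| ≤ ‖y‖ * ‖b i‖ := abs_real_inner_le_norm _ _
        _ = ‖y‖ := by rw [b.orthonormal.1 i, mul_one]
        _ ≤ d3 / 30 := by linarith
    rw [hmem]
    exact hinner y ((hle 0).trans (by linarith)) ((hle 1).trans (by linarith))
      ((hle 2).trans (by linarith)) (hle 3)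
  · have h1 := measure_mono (μ := volume) hsub1
    rw [vol_box, Fin.prod_univ_four] at h1
    change volume (pts K') ≤ ENNReal.ofReal (2 * (3 / 2 * d0)) * ENNReal.ofReal (2 * (3 / 2 * d1)) *
      ENNReal.ofReal (2 * (3 / 2 * d2)) * ENNReal.ofReal (2 * (3 / 2 * d3)) at h1
    rw [← ENNReal.ofReal_mul (by positivity), ← ENNReal.ofReal_mul (by positivity),
      ← ENNReal.ofReal_mul (by positivity)] at h1
    have h2 := ENNReal.toReal_mono ENNReal.ofReal_ne_top h1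
    rw [ENNReal.toReal_ofReal (by positivity)] at h2
    refine h2.trans ?_
    change _ ≤ 1300 * (d0 / 2 * (d1 / 2) * (d2 / 2) * (d3 / 2))
    have : 0 < d0 * d1 * d2 * d3 := by positivity
    nlinarith
  · have h1 := measure_mono (μ := volume) hsub2
    rw [vol_box, Fin.prod_univ_four] at h1
    change ENNReal.ofReal (2 * (d0 / 30)) * ENNReal.ofReal (2 * (d1 / 30)) *
      ENNReal.ofReal (2 * (d2 / 30)) * ENNReal.ofReal (2 * (d3 / 30)) ≤ volume (pts K') at h1
    rw [← ENNReal.ofReal_mul (by positivity), ← ENNReal.ofReal_mul (by positivity),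
      ← ENNReal.ofReal_mul (by positivity)] at h1
    have h2 := ENNReal.toReal_mono hfin h1
    rw [ENNReal.toReal_ofReal (by positivity)] at h2
    refine le_trans ?_ h2
    change 1 / 40000 * (d0 / 2 * (d1 / 2) * (d2 / 2) * (d3 / 2)) ≤ _
    have : 0 < d0 * d1 * d2 * d3 := by positivity
    nlinarith

end Pool.Agent.HVM
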