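import Pool.Agent.HVM.Ext
import Pool.Agent.HVM.Box
import Pool.Agent.Helper85.Cap.I1a
import Pool.Agent.Helper85.Cap.G4

/-! # The lower bounds (module FIN) -/

set_option autoImplicit false

namespace Pool.Agent.HVM

open MeasureTheory Metric Set
open Pool.Agent.Helper85.Herm Pool.Agent.Helper85.Cap

private theorem fin_muab01 (K : Body) : muab 0 1 K = 4 * Mu J K - V2 K := by
  unfold V2 muab
  ring

private theorem fin_muab10 (K : Body) (α : ℝ) :
    muab 1 0 K = (4 * Mu (Uq α) K - V2 K) + (4 * Mu (Uq (α + Real.pi / 2)) K - V2 K) := by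
  have h := tri K α
  unfold V2 muab
  linarith

theorem muab_nonneg (K : Body) : 0 ≤ muab 1 0 K ∧ 0 ≤ muab 0 1 K := by
  constructor
  · rw [fin_muab10 K 0]
    have h1 := G_nonneg K (UL 0) (Uq_Uq 0)
    have h2 := G_nonneg K (UL (0 + Real.pi / 2)) (Uq_Uq _)
    rw [UL_coe] at h1 h2
    linarith
  · rw [fin_muab01]
    have h1 := G_nonneg K JL J_J
    rwa [JL_coe] at h1

private theorem fin_angle (p q : ℝ) : ∃ α : ℝ, Real.cos α * p + Real.sin α * q = 0 := by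
  by_cases hq : q = 0
  · exact ⟨Real.pi / 2, by rw [hq, Real.cos_pi_div_two]; ring⟩
  · refine ⟨Real.arctan (-p / q), ?_⟩
    have h1 : Real.sin (Real.arctan (-p / q)) =
        Real.tan (Real.arctan (-p / q)) * Real.cos (Real.arctan (-p / q)) := by
      rw [Real.tan_mul_cos (Real.cos_arctan_pos _).ne']
    rw [h1, Real.tan_arctan]
    field_simp
    ring

/-- bounds for `⟨y, w⟩` from a box -/
private theorem fin_box (b : OrthonormalBasis (Fin 4) ℝ C2) (r : Fin 4 → ℝ) (y w : C2)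
    (hy : ∀ i, |inner ℝ y (b i)| ≤ 4 * r i) (_hw : ‖w‖ = 1) (m : Fin 4 → ℝ)
    (hm : ∀ i, |inner ℝ (b i) w| ≤ m i) (hr : ∀ i, 0 ≤ r i) :
    |inner ℝ y w| ≤ 4 * r 0 * m 0 + 4 * r 1 * m 1 + 4 * r 2 * m 2 + 4 * r 3 * m 3 := by
  have h1 : (inner ℝ y w : ℝ) = ∑ i, inner ℝ y (b i) * inner ℝ (b i) w :=
    (b.sum_inner_mul_inner y w).symm
  rw [h1]
  refine (Finset.abs_sum_le_sum_abs _ _).trans ?_
  rw [Fin.sum_univ_four]
  have h2 : ∀ i, |inner ℝ y (b i) * inner ℝ (b i) w| ≤ 4 * r i * m i := by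
    intro i
    rw [abs_mul]
    exact mul_le_mul (hy i) (hm i) (abs_nonneg _) (by linarith [hr i])
  linarith [h2 0, h2 1, h2 2, h2 3]

private theorem fin_le_one (b : OrthonormalBasis (Fin 4) ℝ C2) (w : C2) (hw : ‖w‖ = 1) (i : Fin 4) :
    |inner ℝ (b i) w| ≤ 1 := by
  have := abs_real_inner_le_norm (b i) w
  rwa [hw, b.norm_eq_one, mul_one] at this

private theorem fin_pi : Real.pi ^ 2 ≤ 10 := by
  have h1 := Real.pi_lt_d2
  have h2 := Real.pi_pos
  nlinarith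

/-- the core: all inequalities -/
private theorem fin_core (K : Body) (hK : UnitVolume K) :
    ∃ (v : C2) (r : Fin 4 → ℝ),
      0 < r 3 ∧ r 3 ≤ r 2 ∧ r 2 ≤ r 1 ∧ r 1 ≤ r 0 ∧
      1 ≤ 1300 * (r 0 * r 1 * r 2 * r 3) ∧
      (∀ y ∈ pts K, ‖y + v‖ ≤ 8 * r 0) ∧
      r 0 * r 1 ≤ 204800000 * V2 K ∧
      (r 1 * r 2) ^ 2 ≤ 819200000 ^ 2 * (muab 0 1 K * V2 K) ∧
      r 0 ^ 2 * r 3 ^ 3 ≤ 25600 * 144 * 512 * 40000 ^ 2 * (muab 0 1 K * V2 K) * r 2 ∧
      (r 0 * r 2) ^ 2 ≤ 614400000 ^ 2 * (muab 1 0 K * V2 K) ∧ 0 ≤ V2 K := by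
  have hvolK : (volume (pts K)).toReal = 1 := by
    have h : volume (pts K) = 1 := hK
    rw [h]
    simp
  obtain ⟨v, K', b, r, hpts, h3, h32, h21, h10, hbox, hball, hvu, hvl⟩ :=
    box K (by rw [hvolK]; norm_num)
  have hvol' : volume (pts K') = volume (pts K) := by
    rw [hpts, Set.image_add_right, measure_preimage_add_right]
  have hV : V2 K' = V2 K := muab_translation 1 1 K K' v hpts
  have hG : muab 0 1 K' = muab 0 1 K := muab_translation 0 1 K K' v hpts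
  have hF : muab 1 0 K' = muab 1 0 K := muab_translation 1 0 K K' v hpts
  rw [← hV, ← hG, ← hF]
  rw [hvol', hvolK] at hvu hvl
  have hr2 : 0 < r 2 := lt_of_lt_of_le h3 h32
  have hr1 : 0 < r 1 := lt_of_lt_of_le hr2 h21
  have hr0 : 0 < r 0 := lt_of_lt_of_le hr1 h10
  have hr : ∀ i, 0 ≤ r i := by
    intro i
    fin_cases i
    · exact hr0.le
    · exact hr1.le
    · exact hr2.le
    · exact h3.le
  obtain ⟨R, hR⟩ : ∃ R, R = r 0 * r 1 * r 2 * r 3 := ⟨_, rfl⟩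
  rw [← hR] at hvu hvl
  have hR0 : 0 < R := by rw [hR]; positivity
  have hR1 : R ≤ 40000 := by linarith
  have hR2 : R ^ 2 ≤ 40000 ^ 2 := pow_le_pow_left₀ hR0.le hR1 2
  have hJn : 0 ≤ 4 * Mu JL K' - V2 K' := G_nonneg K' JL J_J
  have hJl : 4 * Mu JL K' - V2 K' ≤ V2 K' := G_le K' JL J_J
  have hV0 : 0 ≤ V2 K' := hJn.trans hJl
  -- the key inequality
  have key : ∀ (u : C2 ≃ₗᵢ[ℝ] C2) (hu : ∀ x, u (u x) = -x) (e : C2) (he : ‖e‖ = 1) (A B : ℝ)
      (hA : ∀ y ∈ pts K', |inner ℝ y (u e)| ≤ A) (hB : ∀ y ∈ pts K', |inner ℝ y e| ≤ B),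
      0 ≤ A → 0 ≤ B →
      r 3 ≤ 25600 * ((4 * Mu u K' - V2 K') * V2 K') * A ^ 2 * B ^ 3 := by
    intro u hu e he A B hA hB hA0 hB0
    have h1 := key_ineq K' (r 3 / 20) (by positivity) hball u hu e he A B hA hB
    rw [hvol', hvolK] at h1
    have h2 : 0 ≤ (4 * Mu u K' - V2 K') * V2 K' := mul_nonneg (G_nonneg K' u hu) hV0
    have h3 : 0 ≤ ((4 * Mu u K' - V2 K') * V2 K') * A ^ 2 * B ^ 3 := by positivity
    have h4 := mul_le_mul_of_nonneg_right fin_pi h3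
    nlinarith
  refine ⟨v, r, h3, h32, h21, h10, by linarith, ?_, ?_, ?_, ?_, ?_, hV0⟩
  · intro y hy
    have hy' : y + v ∈ pts K' := by rw [hpts]; exact ⟨y, hy, rfl⟩
    have h1 : ‖y + v‖ ^ 2 = ∑ i, (inner ℝ (y + v) (b i) : ℝ) ^ 2 := by
      rw [← real_inner_self_eq_norm_sq, ← b.sum_inner_mul_inner (y + v) (y + v)]
      refine Finset.sum_congr rfl fun i _ => ?_
      rw [real_inner_comm (y + v) (b i)]
      ring
    have h2 : ∀ i, (inner ℝ (y + v) (b i) : ℝ) ^ 2 ≤ (4 * r 0) ^ 2 := by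
      intro i
      rw [← sq_abs]
      refine pow_le_pow_left₀ (abs_nonneg _) ((hbox i _ hy').trans ?_) 2
      have : r i ≤ r 0 := by
        fin_cases i
        · exact le_rfl
        · exact h10
        · exact h21.trans h10
        · exact (h32.trans h21).trans h10
      linarith
    rw [Fin.sum_univ_four] at h1
    refine (pow_le_pow_iff_left₀ (norm_nonneg _) (by positivity) two_ne_zero).1 ?_
    rw [h1]
    linarith [h2 0, h2 1, h2 2, h2 3]
  · -- (i)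
    let u : C2 ≃ₗᵢ[ℝ] C2 := (b.repr.trans JL).trans b.repr.symm
    have hu : ∀ x, u (u x) = -x := by
      intro x
      change b.repr.symm (J (b.repr (b.repr.symm (J (b.repr x))))) = -x
      rw [b.repr.apply_symm_apply, J_J, map_neg, b.repr.symm_apply_apply]
    have hub : u (b 3) = -b 2 := by
      change b.repr.symm (J (b.repr (b 3))) = -b 2
      rw [b.repr_self]
      have hJ : J (EuclideanSpace.single (3 : Fin 4) (1 : ℝ)) =
          -EuclideanSpace.single (2 : Fin 4) (1 : ℝ) := by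
        apply C2_ext <;> simp [J]
      rw [hJ, map_neg, b.repr_symm_single]
    have h1 := key u hu (b 3) (b.norm_eq_one 3) (4 * r 2) (4 * r 3) (by
      intro y hy
      rw [hub, inner_neg_right, abs_neg]
      exact hbox 2 y hy) (fun y hy => hbox 3 y hy) (by positivity) (by positivity)
    have h2 : 0 ≤ 4 * Mu u K' - V2 K' := G_nonneg K' u hu
    have h4 : 4 * Mu u K' - V2 K' ≤ V2 K' := G_le K' u hu
    have h5 : (4 * Mu u K' - V2 K') * V2 K' ≤ V2 K' ^ 2 := by nlinarith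
    have h6 : (r 0 * r 1) ^ 2 * r 3 ≤ (204800000 * V2 K') ^ 2 * r 3 := by
      have h7 : r 3 ≤ 25600 * V2 K' ^ 2 * (4 * r 2) ^ 2 * (4 * r 3) ^ 3 := by
        refine h1.trans ?_
        gcongr
      calc (r 0 * r 1) ^ 2 * r 3 ≤
          (r 0 * r 1) ^ 2 * (25600 * V2 K' ^ 2 * (4 * r 2) ^ 2 * (4 * r 3) ^ 3) :=
            mul_le_mul_of_nonneg_left h7 (by positivity)
        _ = 25600 * 1024 * V2 K' ^ 2 * R ^ 2 * r 3 := by rw [hR]; ring
        _ ≤ 25600 * 1024 * V2 K' ^ 2 * 40000 ^ 2 * r 3 := by gcongr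
        _ = (204800000 * V2 K') ^ 2 * r 3 := by ring
    have h8 := le_of_mul_le_mul_right h6 h3
    exact (pow_le_pow_iff_left₀ (by positivity) (by positivity) two_ne_zero).1 h8
  · -- (ii)
    rw [fin_muab01]
    have hJb : ‖J (b 3)‖ = 1 := by rw [J_norm, b.norm_eq_one]
    have h1 := key JL J_J (b 3) (b.norm_eq_one 3) (16 * r 0) (4 * r 3) (by
      intro y hy
      have h2 := fin_box b r y (J (b 3)) (fun i => hbox i y hy) hJb (fun _ => 1)
        (fun i => fin_le_one b _ hJb i) hr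
      refine h2.trans ?_
      linarith) (fun y hy => hbox 3 y hy) (by positivity) (by positivity)
    rw [JL_coe] at h1 hJn
    obtain ⟨P, hP⟩ : ∃ P, P = (4 * Mu J K' - V2 K') * V2 K' := ⟨_, rfl⟩
    rw [← hP] at h1 ⊢
    have hP0 : 0 ≤ P := by rw [hP]; exact mul_nonneg hJn hV0
    have h6 : (r 1 * r 2) ^ 2 * r 3 ≤ (819200000 ^ 2 * P) * r 3 := by
      calc (r 1 * r 2) ^ 2 * r 3 ≤
          (r 1 * r 2) ^ 2 * (25600 * P * (16 * r 0) ^ 2 * (4 * r 3) ^ 3) :=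
            mul_le_mul_of_nonneg_left h1 (by positivity)
        _ = 25600 * 16384 * P * R ^ 2 * r 3 := by rw [hR]; ring
        _ ≤ 25600 * 16384 * P * 40000 ^ 2 * r 3 := by gcongr
        _ = (819200000 ^ 2 * P) * r 3 := by ring
    exact le_of_mul_le_mul_right h6 h3
  · -- (iii)
    rw [fin_muab01]
    obtain ⟨α, hα⟩ := fin_angle (inner ℝ (b 2) (J (b 0))) (inner ℝ (b 3) (J (b 0)))
    obtain ⟨e, he⟩ : ∃ e, e = Real.cos α • b 2 + Real.sin α • b 3 := ⟨_, rfl⟩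
    have h23 : (inner ℝ (b 2) (b 3) : ℝ) = 0 := b.orthonormal.2 (by decide)
    have he1 : ‖e‖ = 1 := by
      have h1 : ‖e‖ ^ 2 = 1 := by
        rw [← real_inner_self_eq_norm_sq, he, inner_add_left, inner_add_right, inner_add_right]
        simp only [inner_smul_left, inner_smul_right, real_inner_self_eq_norm_sq,
          b.norm_eq_one, real_inner_comm (b 2) (b 3), h23, RCLike.conj_to_real]
        linear_combination Real.sin_sq_add_cos_sq α
      have h2 : ‖e‖ ^ 2 = 1 ^ 2 := by rw [h1]; norm_num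
      exact (pow_left_inj₀ (norm_nonneg _) zero_le_one two_ne_zero).1 h2
    have heJ : (inner ℝ e (J (b 0)) : ℝ) = 0 := by
      rw [he, inner_add_left, inner_smul_left, inner_smul_left]
      exact hα
    have hJe : ‖J e‖ = 1 := by rw [J_norm, he1]
    have h0e : (inner ℝ (b 0) (J e) : ℝ) = 0 := by
      have h1 : (inner ℝ (J (b 0)) (J (J e)) : ℝ) = inner ℝ (b 0) (J e) :=
        JL.inner_map_map (b 0) (J e)
      rw [J_J, inner_neg_right, real_inner_comm, heJ] at h1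
      linarith
    have h1 := key JL J_J e he1 (12 * r 1) (8 * r 2) (by
      intro y hy
      have h2 := fin_box b r y (J e) (fun i => hbox i y hy) hJe
        (fun i => if i = 0 then 0 else 1) (by
          intro i
          by_cases hi : i = 0
          · rw [hi, h0e, if_pos rfl, abs_zero]
          · rw [if_neg hi]
            exact fin_le_one b _ hJe i) hr
      refine h2.trans ?_
      simp only [if_true, if_neg (by decide : ¬ (1 : Fin 4) = 0),
        if_neg (by decide : ¬ (2 : Fin 4) = 0), if_neg (by decide : ¬ (3 : Fin 4) = 0)]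
      linarith) (by
      intro y hy
      rw [he, inner_add_right, inner_smul_right, inner_smul_right]
      have h2 := hbox 2 y hy
      have h4 := hbox 3 y hy
      have h5 : |Real.cos α * inner ℝ y (b 2)| ≤ 4 * r 2 := by
        rw [abs_mul]
        calc |Real.cos α| * |inner ℝ y (b 2)| ≤ 1 * (4 * r 2) :=
              mul_le_mul (Real.abs_cos_le_one α) h2 (abs_nonneg _) zero_le_one
          _ = 4 * r 2 := one_mul _
      have h6 : |Real.sin α * inner ℝ y (b 3)| ≤ 4 * r 3 := by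
        rw [abs_mul]
        calc |Real.sin α| * |inner ℝ y (b 3)| ≤ 1 * (4 * r 3) :=
              mul_le_mul (Real.abs_sin_le_one α) h4 (abs_nonneg _) zero_le_one
          _ = 4 * r 3 := one_mul _
      refine (abs_add_le _ _).trans ?_
      linarith) (by positivity) (by positivity)
    rw [JL_coe] at h1 hJn
    obtain ⟨P, hP⟩ : ∃ P, P = (4 * Mu J K' - V2 K') * V2 K' := ⟨_, rfl⟩
    rw [← hP] at h1 ⊢
    have hP0 : 0 ≤ P := by rw [hP]; exact mul_nonneg hJn hV0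
    calc r 0 ^ 2 * r 3 ^ 3 = (r 0 * r 3) ^ 2 * r 3 := by ring
      _ ≤ (r 0 * r 3) ^ 2 * (25600 * P * (12 * r 1) ^ 2 * (8 * r 2) ^ 3) :=
          mul_le_mul_of_nonneg_left h1 (by positivity)
      _ = 25600 * 144 * 512 * P * R ^ 2 * r 2 := by rw [hR]; ring
      _ ≤ 25600 * 144 * 512 * P * 40000 ^ 2 * r 2 := by gcongr
      _ = 25600 * 144 * 512 * 40000 ^ 2 * P * r 2 := by ring
  · -- (iv)
    obtain ⟨α, hα⟩ := fin_angle (inner ℝ (b 0) (Iq (b 3))) (inner ℝ (b 0) (Kq (b 3)))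
    have hUb : ‖Uq α (b 3)‖ = 1 := by rw [Uq_norm, b.norm_eq_one]
    have h0 : (inner ℝ (b 0) (Uq α (b 3)) : ℝ) = 0 := by
      unfold Uq
      rw [inner_add_right, inner_smul_right, inner_smul_right]
      exact hα
    have h1 := key (UL α) (Uq_Uq α) (b 3) (b.norm_eq_one 3) (12 * r 1) (4 * r 3) (by
      intro y hy
      have h2 := fin_box b r y (Uq α (b 3)) (fun i => hbox i y hy) hUb
        (fun i => if i = 0 then 0 else 1) (by
          intro i
          by_cases hi : i = 0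
          · rw [hi, h0, if_pos rfl, abs_zero]
          · rw [if_neg hi]
            exact fin_le_one b _ hUb i) hr
      refine h2.trans ?_
      simp only [if_true, if_neg (by decide : ¬ (1 : Fin 4) = 0),
        if_neg (by decide : ¬ (2 : Fin 4) = 0), if_neg (by decide : ¬ (3 : Fin 4) = 0)]
      linarith) (fun y hy => hbox 3 y hy) (by positivity) (by positivity)
    have h2 := G_nonneg K' (UL α) (Uq_Uq α)
    have h4 := G_nonneg K' (UL (α + Real.pi / 2)) (Uq_Uq _)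
    rw [UL_coe] at h1 h2 h4
    have h5 : 4 * Mu (Uq α) K' - V2 K' ≤ muab 1 0 K' := by
      rw [fin_muab10 K' α]
      linarith
    obtain ⟨P, hP⟩ : ∃ P, P = muab 1 0 K' * V2 K' := ⟨_, rfl⟩
    rw [← hP]
    have hP1 : (4 * Mu (Uq α) K' - V2 K') * V2 K' ≤ P := by
      rw [hP]; exact mul_le_mul_of_nonneg_right h5 hV0
    have hP0 : 0 ≤ P := (mul_nonneg h2 hV0).trans hP1
    have h7 : r 3 ≤ 25600 * P * (12 * r 1) ^ 2 * (4 * r 3) ^ 3 := by
      refine h1.trans ?_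
      gcongr
    have h6 : (r 0 * r 2) ^ 2 * r 3 ≤ (614400000 ^ 2 * P) * r 3 := by
      calc (r 0 * r 2) ^ 2 * r 3 ≤
          (r 0 * r 2) ^ 2 * (25600 * P * (12 * r 1) ^ 2 * (4 * r 3) ^ 3) :=
            mul_le_mul_of_nonneg_left h7 (by positivity)
        _ = 25600 * 9216 * P * R ^ 2 * r 3 := by rw [hR]; ring
        _ ≤ 25600 * 9216 * P * 40000 ^ 2 * r 3 := by gcongr
        _ = (614400000 ^ 2 * P) * r 3 := by ring
    exact le_of_mul_le_mul_right h6 h3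

theorem lower_bounds : ∃ c : ℝ, 0 < c ∧ ∀ K : Body, UnitVolume K →
    c ≤ V2 K ∧ c ≤ muab 1 0 K * V2 K ∧ c ≤ muab 0 1 K ^ 5 * V2 K ^ 7 := by
  obtain ⟨C, hC⟩ : ∃ C : ℝ, C = (819200000 ^ 2) ^ 3 * (25600 * 144 * 512 * 40000 ^ 2) ^ 2 *
    204800000 ^ 2 * 1300 ^ 6 := ⟨_, rfl⟩
  have hC0 : 0 < C := by rw [hC]; positivity
  refine ⟨min (1 / (37 * 204800000)) (min (1 / (1300 * 614400000 ^ 2)) (1 / C)), by positivity, ?_⟩
  intro K hK
  obtain ⟨v, r, h3, h32, h21, h10, hR, -, hi, hii, hiii, hiv, hV0⟩ := fin_core K hK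
  have hr2 : 0 < r 2 := lt_of_lt_of_le h3 h32
  have hr1 : 0 < r 1 := lt_of_lt_of_le hr2 h21
  have hr0 : 0 < r 0 := lt_of_lt_of_le hr1 h10
  have hG := (muab_nonneg K).2
  refine ⟨(min_le_left _ _).trans ?_, ((min_le_right _ _).trans (min_le_left _ _)).trans ?_,
    ((min_le_right _ _).trans (min_le_right _ _)).trans ?_⟩
  · have h1 : (1 / 37 : ℝ) ≤ r 0 * r 1 := by
      by_contra hcon
      push Not at hcon
      have h2 : r 2 * r 3 ≤ r 0 * r 1 := mul_le_mul (h21.trans h10) (h32.trans h21) h3.le hr0.le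
      have h4 : r 0 * r 1 * r 2 * r 3 ≤ (r 0 * r 1) * (r 0 * r 1) := by
        rw [mul_assoc (r 0 * r 1)]
        exact mul_le_mul_of_nonneg_left h2 (by positivity)
      have h5 : (r 0 * r 1) * (r 0 * r 1) < (1 / 37) * (1 / 37) :=
        mul_lt_mul'' hcon hcon (by positivity) (by positivity)
      nlinarith
    rw [div_le_iff₀ (by norm_num)]
    linarith
  · have h1 : r 0 * r 1 * r 2 * r 3 ≤ (r 0 * r 2) ^ 2 := by
      have h2 : r 1 * r 3 ≤ r 0 * r 2 := mul_le_mul h10 h32 h3.le hr0.le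
      calc r 0 * r 1 * r 2 * r 3 = (r 0 * r 2) * (r 1 * r 3) := by ring
        _ ≤ (r 0 * r 2) * (r 0 * r 2) := mul_le_mul_of_nonneg_left h2 (by positivity)
        _ = (r 0 * r 2) ^ 2 := by ring
    rw [div_le_iff₀ (by norm_num)]
    linarith
  · obtain ⟨P, hP⟩ : ∃ P, P = muab 0 1 K * V2 K := ⟨_, rfl⟩
    rw [← hP] at hii hiii
    have hP0 : 0 ≤ P := by rw [hP]; exact mul_nonneg hG hV0
    have e1 : muab 0 1 K ^ 5 * V2 K ^ 7 = P ^ 5 * V2 K ^ 2 := by rw [hP]; ring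
    rw [e1]
    have a1 : ((r 1 * r 2) ^ 2) ^ 3 ≤ (819200000 ^ 2 * P) ^ 3 :=
      pow_le_pow_left₀ (by positivity) hii 3
    have a2 : (r 0 ^ 2 * r 3 ^ 3) ^ 2 ≤
        (25600 * 144 * 512 * 40000 ^ 2 * P * r 2) ^ 2 :=
      pow_le_pow_left₀ (by positivity) hiii 2
    have a3 : (r 0 * r 1) ^ 2 ≤ (204800000 * V2 K) ^ 2 := pow_le_pow_left₀ (by positivity) hi 2
    have a4 : ((r 1 * r 2) ^ 2) ^ 3 * (r 0 ^ 2 * r 3 ^ 3) ^ 2 * (r 0 * r 1) ^ 2 ≤
        (819200000 ^ 2 * P) ^ 3 * (25600 * 144 * 512 * 40000 ^ 2 * P * r 2) ^ 2 *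
          (204800000 * V2 K) ^ 2 :=
      mul_le_mul (mul_le_mul a1 a2 (by positivity) (by positivity)) a3 (by positivity)
        (by positivity)
    obtain ⟨R, hR'⟩ : ∃ R, R = r 0 * r 1 * r 2 * r 3 := ⟨_, rfl⟩
    rw [← hR'] at hR
    have a5 : ((r 1 * r 2) ^ 2) ^ 3 * (r 0 ^ 2 * r 3 ^ 3) ^ 2 * (r 0 * r 1) ^ 2 =
        R ^ 6 * r 1 ^ 2 := by rw [hR']; ring
    have a6 : (819200000 ^ 2 * P) ^ 3 * (25600 * 144 * 512 * 40000 ^ 2 * P * r 2) ^ 2 *
          (204800000 * V2 K) ^ 2 = ((819200000 ^ 2) ^ 3 * (25600 * 144 * 512 * 40000 ^ 2) ^ 2 *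
          204800000 ^ 2) * (P ^ 5 * V2 K ^ 2) * r 2 ^ 2 := by ring
    rw [a5, a6] at a4
    have a7 : R ^ 6 * r 1 ^ 2 ≤ ((819200000 ^ 2) ^ 3 * (25600 * 144 * 512 * 40000 ^ 2) ^ 2 *
          204800000 ^ 2) * (P ^ 5 * V2 K ^ 2) * r 1 ^ 2 := by
      refine a4.trans (mul_le_mul_of_nonneg_left (pow_le_pow_left₀ hr2.le h21 2) (by positivity))
    have a8 := le_of_mul_le_mul_right a7 (by positivity)
    have a9 : 1 ≤ (1300 * R) ^ 6 := one_le_pow₀ hR
    rw [div_le_iff₀ hC0, hC]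
    calc (1 : ℝ) ≤ (1300 * R) ^ 6 := a9
      _ = 1300 ^ 6 * R ^ 6 := by ring
      _ ≤ 1300 ^ 6 * (((819200000 ^ 2) ^ 3 * (25600 * 144 * 512 * 40000 ^ 2) ^ 2 *
          204800000 ^ 2) * (P ^ 5 * V2 K ^ 2)) := mul_le_mul_of_nonneg_left a8 (by positivity)
      _ = P ^ 5 * V2 K ^ 2 * ((819200000 ^ 2) ^ 3 * (25600 * 144 * 512 * 40000 ^ 2) ^ 2 *
    204800000 ^ 2 * 1300 ^ 6) := by ring

/-- bodies of volume one with bounded `V2` lie in a ball of bounded radius -/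
theorem diam_bound (T : ℝ) : ∃ R : ℝ, ∀ K : Body, UnitVolume K → V2 K ≤ T →
    ∃ v : C2, ∀ y ∈ pts K, ‖y - v‖ ≤ R := by
  refine ⟨8 * Real.sqrt (1300 * (204800000 * T) ^ 3), ?_⟩
  intro K hK hT
  obtain ⟨v, r, h3, h32, h21, h10, hR, hy, hi, -, -, -, hV0⟩ := fin_core K hK
  have hr2 : 0 < r 2 := lt_of_lt_of_le h3 h32
  have hr1 : 0 < r 1 := lt_of_lt_of_le hr2 h21
  have hr0 : 0 < r 0 := lt_of_lt_of_le hr1 h10
  refine ⟨-v, fun y hyK => ?_⟩
  rw [sub_neg_eq_add]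
  refine (hy y hyK).trans (mul_le_mul_of_nonneg_left ?_ (by norm_num))
  refine Real.le_sqrt_of_sq_le ?_
  have h1 : r 0 * r 1 ≤ 204800000 * T := by linarith
  have h2 : (r 0 * r 1) ^ 3 ≤ (204800000 * T) ^ 3 := pow_le_pow_left₀ (by positivity) h1 3
  have h4 : r 0 * r 1 * r 2 * r 3 ≤ r 0 * r 1 * r 1 * r 1 := by
    have h5 : r 3 ≤ r 1 := h32.trans h21
    gcongr
  have h6 : 1 ≤ 1300 * (r 0 * r 1 * r 1 * r 1) := by linarith
  calc r 0 ^ 2 = r 0 ^ 2 * 1 := by ring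
    _ ≤ r 0 ^ 2 * (1300 * (r 0 * r 1 * r 1 * r 1)) := mul_le_mul_of_nonneg_left h6 (by positivity)
    _ = 1300 * (r 0 * r 1) ^ 3 := by ring
    _ ≤ 1300 * (204800000 * T) ^ 3 := mul_le_mul_of_nonneg_left h2 (by norm_num)

end Pool.Agent.HVM
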