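import Pool.Agent.HVM.AppA

/-! # Approximation by smooth bodies (module APPB) -/

set_option autoImplicit false

namespace Pool.Agent.HVM

open MeasureTheory Metric Set Filter
open Pool.Agent.Helper85.Herm Pool.Agent.Helper85.Cap

/-- the convex body of a smooth support function -/
noncomputable def wbody (h : C2 → ℝ) (hs : SmoothSupp h) : Body where
  carrier := wulff h
  convex' := wulff_convex h
  isCompact' := hs.wulff_compact
  nonempty' := ⟨0, fun w => by
    rw [inner_zero_left]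
    rcases eq_or_ne w 0 with rfl | hw
    · exact hs.zero.ge
    · exact (hs.pos w hw).le⟩

theorem appB_pnorm_ge {N : ℕ} (x : Fin N → C2) (p : ℕ) (hp : p ≠ 0) (w : C2) (j : Fin N) :
    inner ℝ w (x j) ≤ pnorm x p w := by
  have h0 : ∀ i, 0 ≤ (max (inner ℝ w (x i)) 0) ^ p := fun i => pow_nonneg (le_max_right _ _) p
  have h1 : (max (inner ℝ w (x j)) 0) ^ p ≤ ∑ i, (max (inner ℝ w (x i)) 0) ^ p :=
    Finset.single_le_sum (f := fun i => (max (inner ℝ w (x i)) 0) ^ p) (fun i _ => h0 i)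
      (Finset.mem_univ j)
  have h2 : ((max (inner ℝ w (x j)) 0) ^ p) ^ ((1:ℝ)/p) ≤ pnorm x p w :=
    Real.rpow_le_rpow (h0 j) h1 (by positivity)
  rw [one_div, Real.pow_rpow_inv_natCast (le_max_right _ _) hp] at h2
  exact (le_max_left _ _).trans h2

theorem appB_pnorm_le {N : ℕ} (x : Fin N → C2) (p : ℕ) (hp : p ≠ 0) (w : C2) (m : ℝ) (hm : 0 ≤ m)
    (h : ∀ j, inner ℝ w (x j) ≤ m) : pnorm x p w ≤ ((N : ℝ) + 1) ^ ((1:ℝ)/p) * m := by
  have h1 : ∑ i, (max (inner ℝ w (x i)) 0) ^ p ≤ ((N:ℝ)+1) * m ^ p := by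
    calc _ ≤ ∑ i : Fin N, m ^ p := Finset.sum_le_sum
          (fun i _ => pow_le_pow_left₀ (le_max_right _ _) (max_le (h i) hm) p)
      _ = N * m ^ p := by simp
      _ ≤ _ := by nlinarith [pow_nonneg hm p]
  calc pnorm x p w ≤ (((N:ℝ)+1) * m ^ p) ^ ((1:ℝ)/p) :=
        Real.rpow_le_rpow (Finset.sum_nonneg fun i _ => pow_nonneg (le_max_right _ _) p) h1
          (by positivity)
    _ = _ := by
        rw [Real.mul_rpow (by positivity) (pow_nonneg hm p), one_div,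
          Real.pow_rpow_inv_natCast hm hp]

theorem appB_root (N : ℕ) (R δ : ℝ) (hδ : 0 < δ) :
    ∃ p : ℕ, 4 ≤ p ∧ (((N : ℝ) + 1) ^ ((1:ℝ)/p) - 1) * R < δ := by
  have h1 : Tendsto (fun p : ℕ => ((N : ℝ) + 1) ^ ((1:ℝ)/(p : ℝ))) atTop
      (nhds (((N : ℝ) + 1) ^ (0 : ℝ))) := by
    have hc : Continuous (fun t : ℝ => ((N : ℝ) + 1) ^ t) :=
      Real.continuous_const_rpow (by positivity)
    exact (hc.tendsto 0).comp tendsto_one_div_atTop_nhds_zero_nat
  rw [Real.rpow_zero] at h1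
  have h2 : Tendsto (fun p : ℕ => (((N : ℝ) + 1) ^ ((1:ℝ)/(p : ℝ)) - 1) * R) atTop
      (nhds ((1 - 1) * R)) := (h1.sub_const 1).mul_const R
  rw [sub_self, zero_mul] at h2
  have h3 := (h2.eventually (gt_mem_nhds hδ)).and (eventually_ge_atTop 4)
  obtain ⟨p, hp1, hp2⟩ := h3.exists
  exact ⟨p, hp2, hp1⟩

theorem exists_smooth_aux (K : Body) (r : ℝ) (hr : 0 < r) (hK : closedBall 0 r ⊆ pts K) (ε : ℝ)
    (hε : 0 < ε) :
    ∃ h : C2 → ℝ, SmoothSupp h ∧ pts K ⊆ wulff h ∧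
      ∀ y ∈ wulff h, ∃ z ∈ pts K, dist y z ≤ ε := by
  obtain ⟨δ, hδ0, hδr, hδε⟩ : ∃ δ : ℝ, 0 < δ ∧ δ < r ∧ 2 * δ ≤ ε :=
    ⟨min (r / 2) (ε / 2), by positivity, (min_le_left _ _).trans_lt (by linarith), by
      linarith [min_le_right (r / 2) (ε / 2)]⟩
  have hcpt : IsCompact (pts K) := K.isCompact
  obtain ⟨t, htK, htf, hcov⟩ := hcpt.finite_cover_balls hδ0
  obtain ⟨R, hR⟩ := hcpt.isBounded.exists_norm_le
  let e := htf.toFinset.equivFin
  let x : Fin htf.toFinset.card → C2 := fun j => (e.symm j : C2)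
  have hxK : ∀ j, x j ∈ pts K := fun j => htK (htf.mem_toFinset.1 (e.symm j).2)
  have hnet : ∀ y ∈ pts K, ∃ j, dist y (x j) < δ := by
    intro y hy
    have h1 := hcov hy
    simp only [mem_iUnion, mem_ball] at h1
    obtain ⟨z, hz, hyz⟩ := h1
    refine ⟨e ⟨z, htf.mem_toFinset.2 hz⟩, ?_⟩
    show dist y ((e.symm (e ⟨z, htf.mem_toFinset.2 hz⟩) : htf.toFinset) : C2) < δ
    rw [Equiv.symm_apply_apply]
    exact hyz
  obtain ⟨p, hp4, hpR⟩ := appB_root htf.toFinset.card R δ hδ0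
  have hp0 : p ≠ 0 := by omega
  have hclose : ∀ (w y z : C2), dist y z < δ → inner ℝ w y ≤ inner ℝ w z + δ * ‖w‖ := by
    intro w y z hyz
    have h1 : inner ℝ w (y - z) ≤ ‖w‖ * ‖y - z‖ := real_inner_le_norm _ _
    rw [inner_sub_right] at h1
    rw [dist_eq_norm] at hyz
    nlinarith [norm_nonneg w, norm_nonneg (y - z)]
  have h0K : (0 : C2) ∈ pts K := hK (mem_closedBall_self hr.le)
  refine ⟨fun w => pnorm x p w + δ * ‖w‖, pnorm_smoothSupp x p hp4 δ hδ0 ?_, ?_, ?_⟩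
  · intro w hw
    have hwn : 0 < ‖w‖ := norm_pos_iff.2 hw
    have hmem : (r / ‖w‖) • w ∈ pts K := by
      apply hK
      rw [mem_closedBall_zero_iff, norm_smul, Real.norm_of_nonneg (by positivity)]
      exact le_of_eq (by field_simp)
    obtain ⟨j, hj⟩ := hnet _ hmem
    refine ⟨j, ?_⟩
    have h1 := hclose w _ _ hj
    rw [inner_smul_right, real_inner_self_eq_norm_sq] at h1
    have h2 : r / ‖w‖ * ‖w‖ ^ 2 = r * ‖w‖ := by field_simp
    rw [h2] at h1
    nlinarith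
  · intro y hy w
    obtain ⟨j, hj⟩ := hnet y hy
    have h1 := hclose w _ _ hj
    have h2 := appB_pnorm_ge x p hp0 w j
    rw [real_inner_comm]
    show inner ℝ w y ≤ pnorm x p w + δ * ‖w‖
    linarith
  · intro y hy
    obtain ⟨z, hz, hmin⟩ := exists_norm_eq_iInf_of_complete_convex ⟨0, h0K⟩ hcpt.isComplete
      K.convex y
    have hvar := (norm_eq_iInf_iff_real_inner_le_zero K.convex hz).1 hmin
    refine ⟨z, hz, ?_⟩
    have hsup : ∀ k ∈ pts K, inner ℝ (y - z) k ≤ inner ℝ (y - z) z := by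
      intro k hk
      have h1 := hvar k hk
      rw [inner_sub_right] at h1
      linarith
    have hz0 : 0 ≤ inner ℝ (y - z) z := by
      have h1 := hsup 0 h0K
      rwa [inner_zero_right] at h1
    have hle := appB_pnorm_le x p hp0 (y - z) _ hz0 (fun j => hsup _ (hxK j))
    have hy1 : inner ℝ y (y - z) ≤ pnorm x p (y - z) + δ * ‖y - z‖ := hy (y - z)
    have hzR : inner ℝ (y - z) z ≤ ‖y - z‖ * R :=
      (real_inner_le_norm _ _).trans (mul_le_mul_of_nonneg_left (hR z hz) (norm_nonneg _))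
    have hsq : inner ℝ y (y - z) - inner ℝ (y - z) z = ‖y - z‖ ^ 2 := by
      rw [real_inner_comm z (y - z), ← inner_sub_left, real_inner_self_eq_norm_sq]
    have hc1 : 1 ≤ ((htf.toFinset.card : ℝ) + 1) ^ ((1:ℝ)/p) :=
      Real.one_le_rpow (by linarith [(Nat.cast_nonneg htf.toFinset.card : (0:ℝ) ≤ _)])
        (by positivity)
    rw [dist_eq_norm]
    rcases (norm_nonneg (y - z)).eq_or_lt with h0 | h0
    · rw [← h0]; exact hε.le
    · set c := ((htf.toFinset.card : ℝ) + 1) ^ ((1:ℝ)/p) with hc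
      have h3 : ‖y - z‖ ^ 2 ≤ (c - 1) * (‖y - z‖ * R) + δ * ‖y - z‖ := by
        have h4 : (c - 1) * inner ℝ (y - z) z ≤ (c - 1) * (‖y - z‖ * R) :=
          mul_le_mul_of_nonneg_left hzR (by linarith)
        nlinarith
      have h5 : ‖y - z‖ ^ 2 ≤ (2 * δ) * ‖y - z‖ := by
        have h6 : (c - 1) * (‖y - z‖ * R) = ((c - 1) * R) * ‖y - z‖ := by ring
        rw [h6] at h3
        nlinarith
      have h7 : ‖y - z‖ ≤ 2 * δ := by
        by_contra hcon
        push Not at hcon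
        nlinarith
      linarith

theorem exists_smooth (K : Body) (r : ℝ) (hr : 0 < r) (hK : closedBall 0 r ⊆ pts K) :
    ∃ (L : ℕ → Body) (h : ℕ → C2 → ℝ), (∀ n, SmoothSupp (h n)) ∧ (∀ n, pts (L n) = wulff (h n)) ∧
      (∀ n, pts K ⊆ pts (L n)) ∧ Tendsto L atTop (nhds K) := by
  have haux := fun n : ℕ => exists_smooth_aux K r hr hK (1 / ((n : ℝ) + 1)) (by positivity)
  choose h hs hsub hnear using haux
  refine ⟨fun n => wbody (h n) (hs n), h, hs, fun n => rfl, hsub, ?_⟩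
  rw [tendsto_iff_dist_tendsto_zero]
  refine squeeze_zero (fun n => dist_nonneg) (fun n => ?_) tendsto_one_div_add_atTop_nhds_zero_nat
  rw [← ConvexBody.hausdorffDist_coe]
  apply hausdorffDist_le_of_mem_dist (by positivity)
  · intro y hy
    exact hnear n y hy
  · intro z hz
    exact ⟨z, hsub n hz, by rw [dist_self]; positivity⟩

end Pool.Agent.HVM
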