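import Pool.Agent.HVM.Alg

/-! # Determinants and complex structures (module ALGB) -/

set_option autoImplicit false

namespace Pool.Agent.HVM

open MeasureTheory Metric Set
open Pool.Agent.Helper85.Herm Pool.Agent.Helper85.Cap

namespace AlgB

theorem skew (u : C2 ≃ₗᵢ[ℝ] C2) (hu : ∀ x, u (u x) = -x) (x y : C2) :
    inner ℝ (u x) y = - inner ℝ x (u y) := by
  have h1 : inner ℝ (u x) (u (u y)) = inner ℝ x (u y) := u.inner_map_map x (u y)
  rw [hu, inner_neg_right] at h1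
  linarith

theorem expand (b : OrthonormalBasis (Fin 4) ℝ C2) (x : C2) :
    x = inner ℝ (b 0) x • b 0 + inner ℝ (b 1) x • b 1 + inner ℝ (b 2) x • b 2 +
      inner ℝ (b 3) x • b 3 := by
  have h := b.sum_repr' x
  rw [Fin.sum_univ_four] at h
  exact h.symm

theorem inner_sum (b : OrthonormalBasis (Fin 4) ℝ C2) (x y : C2) :
    inner ℝ x y = inner ℝ (b 0) x * inner ℝ (b 0) y + inner ℝ (b 1) x * inner ℝ (b 1) y +
      inner ℝ (b 2) x * inner ℝ (b 2) y + inner ℝ (b 3) x * inner ℝ (b 3) y := by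
  have h := b.sum_inner_mul_inner x y
  rw [Fin.sum_univ_four] at h
  rw [← h]
  simp only [real_inner_comm]

theorem s1_eq (b : OrthonormalBasis (Fin 4) ℝ C2) (A : C2 →L[ℝ] C2) :
    s1 A = inner ℝ (b 0) (A (b 0)) + inner ℝ (b 1) (A (b 1)) + inner ℝ (b 2) (A (b 2)) +
      inner ℝ (b 3) (A (b 3)) := by
  rw [s1, LinearMap.trace_eq_sum_inner _ b, Fin.sum_univ_four]
  rfl

end AlgB

open AlgB

/-- for an orthogonal complex structure `u` -/
theorem NT_ocs {M : C2 →L[ℝ] C2} {w : C2} (h : PK M w) (u : C2 ≃ₗᵢ[ℝ] C2)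
    (hu : ∀ x, u (u x) = -x) :
    inner ℝ (NT M (u w)) (u w) = -(‖w‖ ^ 2 / 2) *
      s1 (M ∘L (u : C2 →L[ℝ] C2) ∘L M ∘L (u : C2 →L[ℝ] C2)) := by
  obtain ⟨b, l, hw, hl0, _, hM, _, _, _, hN0, hN1, hN2, hN3⟩ := exists_eig h
  have hsk := skew u hu
  -- the matrix of `u`
  obtain ⟨a, ha⟩ : ∃ a : Fin 4 → Fin 4 → ℝ, ∀ i j, inner ℝ (b j) (u (b i)) = a i j :=
    ⟨fun i j => inner ℝ (b j) (u (b i)), fun _ _ => rfl⟩
  have haskew : ∀ i j, a i j = - a j i := by
    intro i j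
    rw [← ha, ← ha, real_inner_comm, hsk]
  have hnorm : ∀ i, a i 0 ^ 2 + a i 1 ^ 2 + a i 2 ^ 2 + a i 3 ^ 2 = 1 := by
    intro i
    have h1 := inner_sum b (u (b i)) (u (b i))
    rw [u.inner_map_map, real_inner_self_eq_norm_sq, b.norm_eq_one] at h1
    simp only [ha] at h1
    linarith
  have d0 : a 0 0 = 0 := by have := haskew 0 0; linarith
  have d1 : a 1 1 = 0 := by have := haskew 1 1; linarith
  have d2 : a 2 2 = 0 := by have := haskew 2 2; linarith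
  have d3 : a 3 3 = 0 := by have := haskew 3 3; linarith
  have s10 := haskew 1 0
  have s20 := haskew 2 0
  have s30 := haskew 3 0
  have s21 := haskew 2 1
  have s31 := haskew 3 1
  have s32 := haskew 3 2
  have n0 := hnorm 0
  have n1 := hnorm 1
  have n2 := hnorm 2
  have n3 := hnorm 3
  rw [d0] at n0
  rw [d1, s10] at n1
  rw [d2, s20, s21] at n2
  rw [d3, s30, s31, s32] at n3
  -- left side
  have hub : ∀ i, u (b i) = a i 0 • b 0 + a i 1 • b 1 + a i 2 • b 2 + a i 3 • b 3 := by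
    intro i
    have h1 := expand b (u (b i))
    simp only [ha] at h1
    exact h1
  have hbb : ∀ i j, inner ℝ (b i) (b j) = if i = j then (1 : ℝ) else 0 :=
    fun i j => b.inner_eq_ite i j
  have hL : inner ℝ (NT M (u w)) (u w) = ‖w‖ ^ 2 *
      (l 2 * l 3 * a 0 1 ^ 2 + l 1 * l 3 * a 0 2 ^ 2 + l 1 * l 2 * a 0 3 ^ 2) := by
    have h1 : u w = ‖w‖ • u (b 0) := by
      conv_lhs => rw [hw]
      exact u.map_smul _ _
    rw [h1, map_smul, inner_smul_left, inner_smul_right]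
    have h2 : NT M (u (b 0)) = (a 0 1 * (l 2 * l 3)) • b 1 + (a 0 2 * (l 1 * l 3)) • b 2 +
        (a 0 3 * (l 1 * l 2)) • b 3 := by
      rw [hub 0, d0]
      simp only [map_add, map_smul, hN1, hN2, hN3, smul_smul, zero_smul, zero_add]
    rw [h2, hub 0, d0]
    simp only [inner_add_left, inner_add_right, inner_smul_left, inner_smul_right, hbb]
    simp
    ring
  -- right side
  have hMu : ∀ i, M (u (b i)) = (a i 0 * l 0) • b 0 + (a i 1 * l 1) • b 1 +
      (a i 2 * l 2) • b 2 + (a i 3 * l 3) • b 3 := by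
    intro i
    rw [hub i]
    simp only [map_add, map_smul, hM, smul_smul]
  have hR : ∀ i, inner ℝ (b i)
      ((M ∘L (u : C2 →L[ℝ] C2) ∘L M ∘L (u : C2 →L[ℝ] C2)) (b i)) =
      - (l i * (l 0 * a i 0 ^ 2 + l 1 * a i 1 ^ 2 + l 2 * a i 2 ^ 2 + l 3 * a i 3 ^ 2)) := by
    intro i
    show inner ℝ (b i) (M (u (M (u (b i))))) = _
    rw [← h.symm, hM, inner_smul_left]
    have h1 : inner ℝ (b i) (u (M (u (b i)))) = - inner ℝ (u (b i)) (M (u (b i))) := by
      rw [hsk]; ring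
    rw [h1, hMu, hub i]
    simp only [inner_add_left, inner_add_right, inner_smul_left, inner_smul_right, hbb]
    simp
    ring
  rw [hL, s1_eq b, hR 0, hR 1, hR 2, hR 3, hl0, d1, d2, d3, s21, s31, s32]
  have e1 : a 1 2 ^ 2 = a 0 3 ^ 2 := by linarith
  have e2 : a 1 3 ^ 2 = a 0 2 ^ 2 := by linarith
  have e3 : a 2 3 ^ 2 = a 0 1 ^ 2 := by linarith
  have e4 : (- a 1 2) ^ 2 = a 1 2 ^ 2 := by ring
  have e5 : (- a 1 3) ^ 2 = a 1 3 ^ 2 := by ring
  have e6 : (- a 2 3) ^ 2 = a 2 3 ^ 2 := by ring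
  rw [e4, e5, e6, e1, e2, e3]
  ring

namespace AlgB

theorem inner_four (x y : C2) : inner ℝ x y = x 0 * y 0 + x 1 * y 1 + x 2 * y 2 + x 3 * y 3 := by
  rw [PiLp.inner_apply, Fin.sum_univ_four]
  simp only [RCLike.inner_apply, conj_trivial]
  ring

theorem quat_trace (T : C2 →L[ℝ] C2) (w : C2) :
    inner ℝ (T w) w + inner ℝ (T (Iq w)) (Iq w) + inner ℝ (T (J w)) (J w) +
      inner ℝ (T (Kq w)) (Kq w) = ‖w‖ ^ 2 * s1 T := by
  let b : OrthonormalBasis (Fin 4) ℝ C2 := EuclideanSpace.basisFun (Fin 4) ℝ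
  have hb : ∀ (i : Fin 4) (x : C2), inner ℝ (b i) x = x i := by
    intro i x
    have h := (b.repr_apply_apply x i).symm
    rw [h]
    rfl
  have hT : ∀ x : C2, T x = x 0 • T (b 0) + x 1 • T (b 1) + x 2 • T (b 2) + x 3 • T (b 3) := by
    intro x
    have h := expand b x
    simp only [hb] at h
    conv_lhs => rw [h]
    simp only [map_add, map_smul]
  have hTi : ∀ x y : C2, inner ℝ (T x) y = x 0 * inner ℝ (T (b 0)) y + x 1 * inner ℝ (T (b 1)) y +
      x 2 * inner ℝ (T (b 2)) y + x 3 * inner ℝ (T (b 3)) y := by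
    intro x y
    conv_lhs => rw [hT x]
    simp only [inner_add_left, inner_smul_left, conj_trivial]
  rw [s1_eq b, hb, hb, hb, hb, ← real_inner_self_eq_norm_sq, hTi w, hTi (Iq w), hTi (J w),
    hTi (Kq w)]
  simp only [inner_four]
  have i0 : Iq w 0 = - w 2 := rfl
  have i1 : Iq w 1 = w 3 := rfl
  have i2 : Iq w 2 = w 0 := rfl
  have i3 : Iq w 3 = - w 1 := rfl
  have j0 : J w 0 = - w 1 := rfl
  have j1 : J w 1 = w 0 := rfl
  have j2 : J w 2 = - w 3 := rfl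
  have j3 : J w 3 = w 2 := rfl
  have k0 : Kq w 0 = - w 3 := rfl
  have k1 : Kq w 1 = - w 2 := rfl
  have k2 : Kq w 2 = w 1 := rfl
  have k3 : Kq w 3 = w 0 := rfl
  rw [i0, i1, i2, i3, j0, j1, j2, j3, k0, k1, k2, k3]
  ring

end AlgB

theorem NT_quat {M : C2 →L[ℝ] C2} {w : C2} (h : PK M w) :
    inner ℝ (NT M (Iq w)) (Iq w) + inner ℝ (NT M (J w)) (J w) + inner ℝ (NT M (Kq w)) (Kq w)
      = ‖w‖ ^ 2 * s2 M := by
  have h1 := quat_trace (NT M) w
  rw [NT_ker h, inner_smul_left, real_inner_self_eq_norm_sq] at h1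
  obtain ⟨b, l, _, _, _, _, _, hs2, _, hN0, hN1, hN2, hN3⟩ := exists_eig h
  have h2 : s1 (NT M) = 2 * s2 M := by
    rw [s1_eq b, hN0, hN1, hN2, hN3]
    simp only [inner_smul_right, real_inner_self_eq_norm_sq, b.norm_eq_one]
    rw [hs2]
    ring
  rw [h2] at h1
  simp only [conj_trivial] at h1
  linarith

theorem det_rank_one {M : C2 →L[ℝ] C2} {w : C2} (h : PK M w) (X : C2) :
    (‖w‖⁻¹ • rk X w + ‖w‖ • M).det = inner ℝ X w * ‖w‖ ^ 2 * s3 M w := by
  obtain ⟨b, l, hw, hl0, _, hM, _, _, hs3, _, _, _, _⟩ := exists_eig h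
  have hn : ‖w‖ ≠ 0 := norm_ne_zero_iff.mpr h.ne
  have hbb : ∀ i j, inner ℝ (b i) (b j) = if i = j then (1 : ℝ) else 0 :=
    fun i j => b.inner_eq_ite i j
  have hwb : ∀ i, inner ℝ w (b i) = ‖w‖ * if 0 = i then (1 : ℝ) else 0 := by
    intro i
    conv_lhs => rw [hw]
    rw [inner_smul_left, hbb]
    rfl
  have hXw : inner ℝ X w = ‖w‖ * inner ℝ (b 0) X := by
    conv_lhs => rw [hw]
    rw [inner_smul_right, real_inner_comm]
  set T : C2 →L[ℝ] C2 := ‖w‖⁻¹ • rk X w + ‖w‖ • M with hT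
  have hTb : ∀ i, T (b i) = (if 0 = i then (1 : ℝ) else 0) • X + (‖w‖ * l i) • b i := by
    intro i
    have h1 : T (b i) = ‖w‖⁻¹ • (inner ℝ w (b i) • X) + ‖w‖ • M (b i) := rfl
    rw [h1, hwb, hM, smul_smul, smul_smul, ← mul_assoc, inv_mul_cancel₀ hn, one_mul]
  have hdet : T.det = (LinearMap.toMatrix b.toBasis b.toBasis (T : C2 →ₗ[ℝ] C2)).det := by
    rw [LinearMap.det_toMatrix]
  have hent : ∀ i j, LinearMap.toMatrix b.toBasis b.toBasis (T : C2 →ₗ[ℝ] C2) i j =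
      (if 0 = j then (1 : ℝ) else 0) * inner ℝ (b i) X + (‖w‖ * l j) * if i = j then 1 else 0 := by
    intro i j
    rw [LinearMap.toMatrix_apply, OrthonormalBasis.coe_toBasis_repr_apply,
      OrthonormalBasis.coe_toBasis, b.repr_apply_apply]
    show inner ℝ (b i) (T (b j)) = _
    rw [hTb, inner_add_right, inner_smul_right, inner_smul_right, hbb]
  rw [hdet, Matrix.det_of_lowerTriangular]
  · rw [Fin.prod_univ_four]
    simp only [hent]
    rw [hXw, hs3, hl0]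
    simp
    ring
  · intro i j hij
    have hij' : i < j := hij
    rw [hent, if_neg, if_neg (ne_of_lt hij')]
    · ring
    · exact (ne_of_lt (lt_of_le_of_lt (Fin.zero_le i) hij'))

/-- the planar case -/
theorem det_plane (M : EuclideanSpace ℝ (Fin 2) →L[ℝ] EuclideanSpace ℝ (Fin 2))
    (w X : EuclideanSpace ℝ (Fin 2)) (hw : w ≠ 0)
    (hs : ∀ a b, inner ℝ (M a) b = inner ℝ a (M b)) (h0 : M w = 0) :
    (‖w‖⁻¹ • rk X w + ‖w‖ • M).det = inner ℝ X w *
      LinearMap.trace ℝ (EuclideanSpace ℝ (Fin 2))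
        (M : EuclideanSpace ℝ (Fin 2) →ₗ[ℝ] EuclideanSpace ℝ (Fin 2)) := by
  have hn : ‖w‖ ≠ 0 := norm_ne_zero_iff.mpr hw
  let b : OrthonormalBasis (Fin 2) ℝ (EuclideanSpace ℝ (Fin 2)) :=
    EuclideanSpace.basisFun (Fin 2) ℝ
  have hb : ∀ (i : Fin 2) (x : EuclideanSpace ℝ (Fin 2)), inner ℝ (b i) x = x i := by
    intro i x
    rw [← b.repr_apply_apply x i]
    rfl
  have hx : ∀ x : EuclideanSpace ℝ (Fin 2), x = x 0 • b 0 + x 1 • b 1 := by
    intro x
    have h := b.sum_repr' x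
    rw [Fin.sum_univ_two] at h
    rw [hb, hb] at h
    exact h.symm
  obtain ⟨p, hp⟩ : ∃ p, p = M (b 0) 0 := ⟨_, rfl⟩
  obtain ⟨q, hq⟩ : ∃ q, q = M (b 0) 1 := ⟨_, rfl⟩
  obtain ⟨r, hr⟩ : ∃ r, r = M (b 1) 1 := ⟨_, rfl⟩
  have hq' : M (b 1) 0 = q := by
    rw [hq, ← hb, ← hb, ← hs]
    exact real_inner_comm _ _
  have hMw : w 0 • M (b 0) + w 1 • M (b 1) = 0 := by
    have h1 := h0
    rw [hx w, map_add, map_smul, map_smul] at h1
    exact h1
  have e0 : w 0 * p + w 1 * q = 0 := by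
    have h1 := congrArg (fun v : EuclideanSpace ℝ (Fin 2) => v 0) hMw
    have h2 : w 0 * M (b 0) 0 + w 1 * M (b 1) 0 = 0 := h1
    rw [← hp, hq'] at h2
    exact h2
  have e1 : w 0 * q + w 1 * r = 0 := by
    have h1 := congrArg (fun v : EuclideanSpace ℝ (Fin 2) => v 1) hMw
    have h2 : w 0 * M (b 0) 1 + w 1 * M (b 1) 1 = 0 := h1
    rw [← hq, ← hr] at h2
    exact h2
  have hdetM : p * r - q ^ 2 = 0 := by
    by_contra hne
    have a0 : (p * r - q ^ 2) * w 0 = 0 := by linear_combination r * e0 - q * e1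
    have a1 : (p * r - q ^ 2) * w 1 = 0 := by linear_combination p * e1 - q * e0
    have b0 := (mul_eq_zero.mp a0).resolve_left hne
    have b1 := (mul_eq_zero.mp a1).resolve_left hne
    apply hw
    rw [hx w, b0, b1, zero_smul, zero_smul, add_zero]
  have htr : LinearMap.trace ℝ (EuclideanSpace ℝ (Fin 2))
      (M : EuclideanSpace ℝ (Fin 2) →ₗ[ℝ] EuclideanSpace ℝ (Fin 2)) = p + r := by
    rw [LinearMap.trace_eq_sum_inner _ b, Fin.sum_univ_two]
    show inner ℝ (b 0) (M (b 0)) + inner ℝ (b 1) (M (b 1)) = _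
    rw [hb, hb, ← hp, ← hr]
  have hXw : inner ℝ X w = X 0 * w 0 + X 1 * w 1 := by
    rw [PiLp.inner_apply, Fin.sum_univ_two]
    simp only [RCLike.inner_apply, conj_trivial]
    ring
  set T : EuclideanSpace ℝ (Fin 2) →L[ℝ] EuclideanSpace ℝ (Fin 2) :=
    ‖w‖⁻¹ • rk X w + ‖w‖ • M with hT
  have hdet : T.det = (LinearMap.toMatrix b.toBasis b.toBasis
      (T : EuclideanSpace ℝ (Fin 2) →ₗ[ℝ] EuclideanSpace ℝ (Fin 2))).det := by
    rw [LinearMap.det_toMatrix]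
  have hent : ∀ i j, LinearMap.toMatrix b.toBasis b.toBasis
      (T : EuclideanSpace ℝ (Fin 2) →ₗ[ℝ] EuclideanSpace ℝ (Fin 2)) i j =
      ‖w‖⁻¹ * (w j * X i) + ‖w‖ * M (b j) i := by
    intro i j
    rw [LinearMap.toMatrix_apply, OrthonormalBasis.coe_toBasis_repr_apply,
      OrthonormalBasis.coe_toBasis, b.repr_apply_apply]
    show inner ℝ (b i) (T (b j)) = _
    have h1 : T (b j) = ‖w‖⁻¹ • (inner ℝ w (b j) • X) + ‖w‖ • M (b j) := rfl
    rw [h1, inner_add_right, inner_smul_right, inner_smul_right, inner_smul_right, hb, hb,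
      real_inner_comm, hb]
  rw [hdet, Matrix.det_fin_two, hent, hent, hent, hent, htr, hXw, hq', ← hp, ← hq, ← hr]
  have hnn : ‖w‖⁻¹ * ‖w‖ = 1 := inv_mul_cancel₀ hn
  linear_combination (X 0 * w 0 * r + X 1 * w 1 * p - X 0 * w 1 * q - X 1 * w 0 * q) * hnn +
    ‖w‖ ^ 2 * hdetM - X 0 * e0 - X 1 * e1

end Pool.Agent.HVM
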