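import Pool.Agent.HVM.Calc

/-! # Volume of a body with smooth support function by change of variables (module COV) -/

set_option autoImplicit false

namespace Pool.Agent.HVM

open MeasureTheory Metric Set

section cov
variable {E : Type*} [NormedAddCommGroup E] [InnerProductSpace ℝ E] [FiniteDimensional ℝ E]
  [CompleteSpace E]

/-- the map `w ↦ |w| X(w)` -/
noncomputable def covPsi (h : E → ℝ) (w : E) : E := ‖w‖ • gradient h w

theorem cov_hasFDerivAt_norm {w : E} (hw : w ≠ 0) :
    HasFDerivAt (fun x : E => ‖x‖) (‖w‖⁻¹ • innerSL ℝ w) w := by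
  have h1 : HasFDerivAt (fun x : E => ‖x‖ ^ 2) (2 • (innerSL ℝ w)) w :=
    (hasStrictFDerivAt_norm_sq w).hasFDerivAt
  have hpos : 0 < ‖w‖ := norm_pos_iff.2 hw
  have h2 := h1.sqrt (by positivity)
  have h3 : (fun x : E => √(‖x‖ ^ 2)) = fun x : E => ‖x‖ := by
    funext x
    exact Real.sqrt_sq (norm_nonneg x)
  rw [h3, Real.sqrt_sq (norm_nonneg w)] at h2
  have h4 : (1 / (2 * ‖w‖)) • (2 • (innerSL ℝ w) : E →L[ℝ] ℝ) = ‖w‖⁻¹ • innerSL ℝ w := by
    ext v
    simp only [ContinuousLinearMap.smul_apply, smul_eq_mul, nsmul_eq_mul]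
    simp only [Nat.cast_ofNat]
    field_simp
  rw [h4] at h2
  exact h2

theorem covPsi_hasFDerivAt {h : E → ℝ} (hs : SmoothSupp h) {w : E} (hw : w ≠ 0) :
    HasFDerivAt (covPsi h) (dPsi h w) w := by
  have h1 := (cov_hasFDerivAt_norm hw).smul (hs.hasFDerivAt_gradient hw)
  have h2 : ‖w‖ • hess h w + ContinuousLinearMap.smulRight (‖w‖⁻¹ • innerSL ℝ w) (gradient h w) =
      dPsi h w := by
    unfold dPsi rk
    ext v
    simp only [ContinuousLinearMap.add_apply, ContinuousLinearMap.smul_apply,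
      ContinuousLinearMap.smulRight_apply, smul_eq_mul, mul_smul]
    rw [add_comm]
  rw [h2] at h1
  exact h1

theorem covPsi_injOn {h : E → ℝ} (hs : SmoothSupp h) : InjOn (covPsi h) (ball 0 1 \ {0}) := by
  have key : ∀ v w : E, v ≠ 0 → w ≠ 0 → covPsi h v = covPsi h w → ‖w‖ ≤ ‖v‖ := by
    intro v w hv hw he
    have hm := hs.gradient_mem hv w
    have h1 : inner ℝ (covPsi h v) w ≤ ‖v‖ * h w := by
      unfold covPsi
      rw [real_inner_smul_left]
      exact mul_le_mul_of_nonneg_left hm (norm_nonneg v)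
    have h2 : inner ℝ (covPsi h w) w = ‖w‖ * h w := by
      unfold covPsi
      rw [real_inner_smul_left, hs.gradient_inner hw]
    rw [he, h2] at h1
    exact le_of_mul_le_mul_right h1 (hs.pos w hw)
  intro v hv w hw he
  have hv0 : v ≠ 0 := fun h0 => hv.2 (by simp [h0])
  have hw0 : w ≠ 0 := fun h0 => hw.2 (by simp [h0])
  have hn : ‖v‖ = ‖w‖ := le_antisymm (key w v hw0 hv0 he.symm) (key v w hv0 hw0 he)
  have hpos : 0 < ‖w‖ := norm_pos_iff.2 hw0
  have hg : gradient h v = gradient h w := by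
    unfold covPsi at he
    rw [hn] at he
    exact smul_right_injective E hpos.ne' he
  obtain ⟨c, hc, hcw⟩ := hs.gradient_inj hv0 hw0 hg
  have h3 : c = 1 := by
    rw [hcw, norm_smul, Real.norm_eq_abs, abs_of_pos hc] at hn
    have : c * ‖w‖ = 1 * ‖w‖ := by rw [hn, one_mul]
    exact mul_right_cancel₀ hpos.ne' this
  rw [hcw, h3, one_smul]

theorem wulff_zero_mem {h : E → ℝ} (hs : SmoothSupp h) : (0 : E) ∈ wulff h := by
  intro w
  rw [inner_zero_left]
  rcases eq_or_ne w 0 with hw | hw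
  · rw [hw, hs.zero]
  · exact (hs.pos w hw).le

theorem covPsi_image_subset {h : E → ℝ} (hs : SmoothSupp h) :
    covPsi h '' (ball 0 1 \ {0}) ⊆ wulff h := by
  rintro y ⟨w, hw, rfl⟩
  have hw0 : w ≠ 0 := fun h0 => hw.2 (by simp [h0])
  have hw1 : ‖w‖ ≤ 1 := (mem_ball_zero_iff.1 hw.1).le
  have h1 := (wulff_convex h) (wulff_zero_mem hs) (hs.gradient_mem hw0)
    (sub_nonneg.2 hw1) (norm_nonneg w) (by ring)
  rw [smul_zero, zero_add] at h1
  exact h1

theorem subset_covPsi_image {h : E → ℝ} (hs : SmoothSupp h) :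
    interior (wulff h) \ {0} ⊆ covPsi h '' (ball 0 1 \ {0}) := by
  rintro y ⟨hy, hy0⟩
  have hy0' : y ≠ 0 := fun h0 => hy0 (by simp [h0])
  -- a multiple of y in the body
  obtain ⟨ε, hε, hball⟩ := Metric.isOpen_iff.1 isOpen_interior y hy
  have hypos : 0 < ‖y‖ := norm_pos_iff.2 hy0'
  have hmem : (1 + ε / (2 * ‖y‖)) • y ∈ wulff h := by
    apply interior_subset
    apply hball
    rw [mem_ball, dist_eq_norm, add_smul, one_smul, add_sub_cancel_left, norm_smul,
      Real.norm_eq_abs, abs_of_pos (by positivity)]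
    have : ε / (2 * ‖y‖) * ‖y‖ = ε / 2 := by field_simp
    rw [this]
    linarith
  -- the maximum of the quotient on the sphere
  have hcomp : IsCompact (sphere (0 : E) 1) := isCompact_sphere 0 1
  have hn1 : (‖y‖⁻¹ • y) ∈ sphere (0 : E) 1 := by
    rw [mem_sphere_zero_iff_norm, norm_smul, norm_inv, norm_norm, inv_mul_cancel₀ hypos.ne']
  have hne : ∀ n ∈ sphere (0 : E) 1, n ≠ 0 := by
    intro n hn h0
    rw [h0, mem_sphere_zero_iff_norm, norm_zero] at hn
    exact zero_ne_one hn
  have hcont : ContinuousOn (fun n : E => inner ℝ y n / h n) (sphere (0 : E) 1) := by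
    apply ContinuousOn.div
    · exact (continuous_const.inner continuous_id).continuousOn
    · exact hs.continuous.continuousOn
    · intro n hn
      exact (hs.pos n (hne n hn)).ne'
  obtain ⟨n₀, hn₀, hmax⟩ := hcomp.exists_isMaxOn ⟨_, hn1⟩ hcont
  set r := inner ℝ y n₀ / h n₀ with hr
  have hn₀0 := hne n₀ hn₀
  have hn₀n : ‖n₀‖ = 1 := mem_sphere_zero_iff_norm.1 hn₀
  have hrpos : 0 < r := by
    have h1 : inner ℝ y (‖y‖⁻¹ • y) / h (‖y‖⁻¹ • y) ≤ r := hmax hn1
    refine lt_of_lt_of_le ?_ h1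
    apply div_pos
    · rw [real_inner_smul_right, real_inner_self_eq_norm_sq]
      positivity
    · exact hs.pos _ (hne _ hn1)
  have hr1 : r < 1 := by
    have h1 := hmem n₀
    rw [real_inner_smul_left] at h1
    have hh := hs.pos n₀ hn₀0
    have h2 : (1 + ε / (2 * ‖y‖)) * r ≤ 1 := by
      rw [hr, ← mul_div_assoc, div_le_one hh]
      exact h1
    have h3 : 0 < ε / (2 * ‖y‖) * r := by positivity
    nlinarith
  -- the point x = y / r
  have hx : r⁻¹ • y ∈ wulff h := by
    intro w
    rcases eq_or_ne w 0 with hw | hw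
    · rw [hw, inner_zero_right, hs.zero]
    · have hwpos : 0 < ‖w‖ := norm_pos_iff.2 hw
      have hwn : (‖w‖⁻¹ • w) ∈ sphere (0 : E) 1 := by
        rw [mem_sphere_zero_iff_norm, norm_smul, norm_inv, norm_norm, inv_mul_cancel₀ hwpos.ne']
      have h1 : inner ℝ y (‖w‖⁻¹ • w) / h (‖w‖⁻¹ • w) ≤ r := hmax hwn
      rw [hs.homog _ _ (inv_pos.2 hwpos), real_inner_smul_right,
        mul_div_mul_left _ _ (inv_pos.2 hwpos).ne', div_le_iff₀ (hs.pos w hw)] at h1
      rw [real_inner_smul_left, inv_mul_le_iff₀ hrpos]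
      exact h1
  have hxe : inner ℝ (r⁻¹ • y) n₀ = h n₀ := by
    have hh := hs.pos n₀ hn₀0
    have hin : inner ℝ y n₀ = r * h n₀ := by
      rw [hr, div_mul_cancel₀ _ hh.ne']
    rw [real_inner_smul_left, hin, ← mul_assoc, inv_mul_cancel₀ hrpos.ne', one_mul]
  have hxg := hs.eq_gradient hn₀0 hx hxe
  refine ⟨r • n₀, ⟨?_, ?_⟩, ?_⟩
  · rw [mem_ball_zero_iff, norm_smul, hn₀n, mul_one, Real.norm_eq_abs, abs_of_pos hrpos]
    exact hr1
  · intro h0
    rw [mem_singleton_iff, smul_eq_zero] at h0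
    rcases h0 with h0 | h0
    · exact hrpos.ne' h0
    · exact hn₀0 h0
  · unfold covPsi
    rw [hs.gradient_smul r hrpos n₀ hn₀0, ← hxg, norm_smul, hn₀n, mul_one, Real.norm_eq_abs,
      abs_of_pos hrpos, smul_smul, mul_inv_cancel₀ hrpos.ne', one_smul]

theorem dPsi_continuousOn {h : E → ℝ} (hs : SmoothSupp h) :
    ContinuousOn (dPsi h) {0}ᶜ := by
  have hg : ContinuousOn (gradient h) {0}ᶜ := hs.gradient_contDiffOn.continuousOn
  have hh : ContinuousOn (hess h) {0}ᶜ := hs.hess_contDiffOn.continuousOn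
  have hn : ContinuousOn (fun w : E => ‖w‖⁻¹) {0}ᶜ := by
    apply ContinuousOn.inv₀ continuous_norm.continuousOn
    intro w hw
    exact (norm_pos_iff.2 hw).ne'
  unfold dPsi rk
  apply ContinuousOn.add
  · apply hn.smul
    have h1 : ContinuousOn (fun w : E => innerSL ℝ w) {0}ᶜ :=
      (innerSL ℝ (E := E)).continuous.continuousOn
    exact (ContinuousLinearMap.smulRightL ℝ E E).continuous₂.comp_continuousOn (h1.prodMk hg)
  · exact continuous_norm.continuousOn.smul hh

end cov

theorem volume_wulff {d : ℕ} (hd : 2 ≤ d) (h : EuclideanSpace ℝ (Fin d) → ℝ) (hs : SmoothSupp h) :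
    (volume (wulff h)).toReal =
      ∫ w in ball (0 : EuclideanSpace ℝ (Fin d)) 1, |(dPsi h w).det| := by
  haveI : Nontrivial (EuclideanSpace ℝ (Fin d)) := by
    haveI : Nonempty (Fin d) := ⟨⟨0, by omega⟩⟩
    infer_instance
  set S : Set (EuclideanSpace ℝ (Fin d)) := ball 0 1 \ {0} with hS
  have hSm : MeasurableSet S := measurableSet_ball.diff (measurableSet_singleton 0)
  have hSne : ∀ w ∈ S, w ≠ 0 := fun w hw h0 => hw.2 (by simp [h0])
  have h1 : (∫⁻ w in S, ENNReal.ofReal |(dPsi h w).det|) = volume (covPsi h '' S) :=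
    lintegral_abs_det_fderiv_eq_addHaar_image volume hSm
      (fun w hw => (covPsi_hasFDerivAt hs (hSne w hw)).hasFDerivWithinAt) (covPsi_injOn hs)
  have h2 : volume (wulff h) = volume (covPsi h '' S) := by
    apply le_antisymm
    · have h3 : wulff h ⊆ interior (wulff h) \ {0} ∪ (frontier (wulff h) ∪ {0}) := by
        intro x hx
        by_cases hx0 : x = 0
        · exact Or.inr (Or.inr hx0)
        · by_cases hxi : x ∈ interior (wulff h)
          · exact Or.inl ⟨hxi, hx0⟩
          · exact Or.inr (Or.inl ⟨subset_closure hx, hxi⟩)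
      have h4 : volume (frontier (wulff h) ∪ {0}) = 0 := by
        apply measure_union_null
        · exact (wulff_convex h).addHaar_frontier volume
        · exact measure_singleton 0
      calc volume (wulff h) ≤ volume (interior (wulff h) \ {0} ∪ (frontier (wulff h) ∪ {0})) :=
            measure_mono h3
        _ ≤ volume (interior (wulff h) \ {0}) + volume (frontier (wulff h) ∪ {0}) :=
            measure_union_le _ _
        _ = volume (interior (wulff h) \ {0}) := by rw [h4, add_zero]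
        _ ≤ volume (covPsi h '' S) := measure_mono (subset_covPsi_image hs)
    · exact measure_mono (covPsi_image_subset hs)
  have h5 : ∫ w in ball (0 : EuclideanSpace ℝ (Fin d)) 1, |(dPsi h w).det| =
      ∫ w in S, |(dPsi h w).det| := by
    apply setIntegral_congr_set
    have h6 : volume ({0} : Set (EuclideanSpace ℝ (Fin d))) = 0 := measure_singleton 0
    exact (diff_null_ae_eq_self h6).symm
  rw [h5, h2, ← h1]
  rw [integral_eq_lintegral_of_nonneg_ae]
  · exact Filter.Eventually.of_forall fun w => abs_nonneg _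
  · apply ContinuousOn.aestronglyMeasurable _ hSm
    have hdet : Continuous (fun M : EuclideanSpace ℝ (Fin d) →L[ℝ] EuclideanSpace ℝ (Fin d) =>
        M.det) := ContinuousLinearMap.continuous_det
    have h7 : ContinuousOn (dPsi h) S := (dPsi_continuousOn hs).mono fun w hw => hSne w hw
    exact (hdet.comp_continuousOn h7).abs

end Pool.Agent.HVM
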