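import Pool.Agent.HVM.Defs

/-! # Integrals of homogeneous functions (module POLAR) -/

set_option autoImplicit false

namespace Pool.Agent.HVM

open MeasureTheory Metric Set
open Pool.Agent.Helper85.Herm Pool.Agent.Helper85.Cap

/-- polar coordinates for homogeneous functions of degree `d` -/
theorem polar (f : C2 → ℝ) (d : ℤ) (hf : ∀ (c : ℝ) (w : C2), 0 < c → w ≠ 0 → f (c • w) = c ^ d * f w)
    (g : ℝ → ℝ) :
    ∫ w : C2, g ‖w‖ * f w = (∫ r in Ioi (0 : ℝ), g r * r ^ (d + 3)) * Sph f := by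
  have hdim : Module.finrank ℝ C2 = 4 := by simp [C2]
  calc ∫ w : C2, g ‖w‖ * f w
      = ∫ x : ({(0 : C2)}ᶜ : Set C2), g ‖x.1‖ * f x.1 ∂((volume : Measure C2).comap (↑)) := by
        rw [integral_subtype_comap (measurableSet_singleton _).compl fun x => g ‖x‖ * f x,
          restrict_compl_singleton]
    _ = ∫ x : ({(0 : C2)}ᶜ : Set C2),
          (fun p : sphere (0 : C2) 1 × Ioi (0 : ℝ) => f p.1.1 * (g p.2.1 * p.2.1 ^ d))
            (homeomorphUnitSphereProd C2 x) ∂((volume : Measure C2).comap (↑)) := by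
        congr 1
        funext x
        have hx : x.1 ≠ 0 := x.2
        have hx0 : 0 < ‖x.1‖ := norm_pos_iff.2 hx
        have h1 : f x.1 = ‖x.1‖ ^ d * f (‖x.1‖⁻¹ • x.1) := by
          rw [← hf _ _ hx0 (smul_ne_zero (inv_ne_zero hx0.ne') hx), smul_smul, mul_inv_cancel₀ hx0.ne', one_smul]
        simp only [homeomorphUnitSphereProd_apply_fst_coe, homeomorphUnitSphereProd_apply_snd_coe]
        rw [h1]
        ring
    _ = ∫ p, f p.1.1 * (g p.2.1 * p.2.1 ^ d)
          ∂(((volume : Measure C2).toSphere).prod (Measure.volumeIoiPow (Module.finrank ℝ C2 - 1))) :=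
        ((volume : Measure C2).measurePreserving_homeomorphUnitSphereProd).integral_comp
          (Homeomorph.measurableEmbedding _)
          (fun p : sphere (0 : C2) 1 × Ioi (0 : ℝ) => f p.1.1 * (g p.2.1 * p.2.1 ^ d))
    _ = (∫ n : sphere (0 : C2) 1, f n.1 ∂((volume : Measure C2).toSphere)) *
          ∫ r : Ioi (0 : ℝ), (g r.1 * r.1 ^ d) ∂(Measure.volumeIoiPow (Module.finrank ℝ C2 - 1)) :=
        integral_prod_mul (μ := (volume : Measure C2).toSphere)
          (ν := Measure.volumeIoiPow (Module.finrank ℝ C2 - 1))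
          (fun n : sphere (0 : C2) 1 => f n.1) (fun r : Ioi (0 : ℝ) => g r.1 * r.1 ^ d)
    _ = _ := by
        rw [mul_comm, hdim]
        congr 1
        simp only [Measure.volumeIoiPow, ENNReal.ofReal]
        rw [integral_withDensity_eq_integral_smul,
          integral_subtype_comap measurableSet_Ioi fun a => Real.toNNReal (a ^ (4 - 1)) • (g a * a ^ d),
          setIntegral_congr_fun measurableSet_Ioi fun x hx => ?_]
        · have hx0 : (0 : ℝ) < x := hx
          rw [NNReal.smul_def, Real.coe_toNNReal _ (pow_nonneg hx0.le _), smul_eq_mul, zpow_add₀ hx0.ne']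
          norm_cast
          ring
        · exact (measurable_subtype_coe.pow_const _).real_toNNReal

theorem sph_cont (f : C2 → ℝ) (hf : ContinuousOn f {0}ᶜ) :
    Continuous (fun n : sphere (0 : C2) 1 => f n) := by
  refine hf.comp_continuous continuous_subtype_val (fun n => ?_)
  have h : ‖(n : C2)‖ = 1 := by simp
  intro h0
  rw [mem_singleton_iff] at h0
  rw [h0] at h
  simp at h

/-- continuous functions are integrable over the sphere -/
theorem sph_integrable (f : C2 → ℝ) (hf : ContinuousOn f {0}ᶜ) :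
    Integrable (fun n : sphere (0 : C2) 1 => f n) ((volume : Measure C2).toSphere) :=
  (sph_cont f hf).integrable_of_hasCompactSupport (HasCompactSupport.of_compactSpace _)

theorem sph_norm (n : sphere (0 : C2) 1) : ‖(n : C2)‖ = 1 := by simp

theorem sph_mono (f g : C2 → ℝ) (hf : ContinuousOn f {0}ᶜ) (hg : ContinuousOn g {0}ᶜ)
    (hfg : ∀ n : C2, ‖n‖ = 1 → f n ≤ g n) : Sph f ≤ Sph g :=
  integral_mono (sph_integrable f hf) (sph_integrable g hg) (fun n => hfg n (sph_norm n))

theorem sph_add (f g : C2 → ℝ) (hf : ContinuousOn f {0}ᶜ) (hg : ContinuousOn g {0}ᶜ) :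
    Sph (fun n => f n + g n) = Sph f + Sph g :=
  integral_add (sph_integrable f hf) (sph_integrable g hg)

theorem sph_sub (f g : C2 → ℝ) (hf : ContinuousOn f {0}ᶜ) (hg : ContinuousOn g {0}ᶜ) :
    Sph (fun n => f n - g n) = Sph f - Sph g :=
  integral_sub (sph_integrable f hf) (sph_integrable g hg)

theorem sph_smul (c : ℝ) (f : C2 → ℝ) : Sph (fun n => c * f n) = c * Sph f :=
  integral_const_mul c _

theorem sph_congr (f g : C2 → ℝ) (hfg : ∀ n : C2, ‖n‖ = 1 → f n = g n) : Sph f = Sph g := by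
  unfold Sph
  congr 1
  funext n
  exact hfg n (sph_norm n)

theorem sph_nonneg (f : C2 → ℝ) (hf : ∀ n : C2, ‖n‖ = 1 → 0 ≤ f n) : 0 ≤ Sph f :=
  integral_nonneg (fun n => hf n (sph_norm n))

/-- a continuous function on the sphere, positive everywhere, has positive integral -/
theorem sph_pos (f : C2 → ℝ) (hc : ContinuousOn f {0}ᶜ) (hf : ∀ n : C2, ‖n‖ = 1 → 0 < f n) :
    0 < Sph f := by
  have hne : (sphere (0 : C2) 1).Nonempty := NormedSpace.sphere_nonempty.2 zero_le_one
  obtain ⟨x, hx⟩ := hne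
  exact (sph_cont f hc).integral_pos_of_hasCompactSupport_nonneg_nonzero
    (HasCompactSupport.of_compactSpace _) (fun n => (hf n (sph_norm n)).le)
    (x := ⟨x, hx⟩) (hf _ (sph_norm ⟨x, hx⟩)).ne'

/-- Cauchy-Schwarz on the sphere -/
theorem sph_cs (I f g : C2 → ℝ) (hI : ContinuousOn I {0}ᶜ) (hf : ContinuousOn f {0}ᶜ)
    (hg : ContinuousOn g {0}ᶜ) (hf0 : ∀ n : C2, ‖n‖ = 1 → 0 ≤ f n)
    (hg0 : ∀ n : C2, ‖n‖ = 1 → 0 ≤ g n) (h : ∀ n : C2, ‖n‖ = 1 → I n ^ 2 ≤ f n * g n) :
    Sph I ^ 2 ≤ Sph f * Sph g := by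
  have key : ∀ t : ℝ, 0 ≤ Sph f * (t * t) + (2 * Sph I) * t + Sph g := by
    intro t
    have h1 : Sph (fun n => ((t * t) * f n + (2 * t) * I n) + g n) =
        Sph f * (t * t) + (2 * Sph I) * t + Sph g := by
      rw [sph_add _ _ (by fun_prop) hg, sph_add _ _ (by fun_prop) (by fun_prop), sph_smul, sph_smul]
      ring
    rw [← h1]
    apply sph_nonneg
    intro n hn
    have h2 := h n hn
    have h3 := hf0 n hn
    have h4 := hg0 n hn
    rcases h3.eq_or_lt with h5 | h5
    · rw [← h5] at h2 ⊢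
      have h6 : I n = 0 := by
        have : I n ^ 2 = 0 := le_antisymm (by simpa using h2) (sq_nonneg _)
        exact pow_eq_zero_iff (two_ne_zero) |>.1 this
      rw [h6]
      simpa using h4
    · have h6 : 0 ≤ f n * ((t * t) * f n + (2 * t) * I n + g n) := by
        nlinarith [sq_nonneg (t * f n + I n)]
      exact nonneg_of_mul_nonneg_right h6 h5
  have := discrim_le_zero key
  unfold discrim at this
  nlinarith

/-- a smooth bump supported in `[1, 2]` -/
theorem exists_bump : ∃ ρ : ℝ → ℝ, ContDiff ℝ 2 ρ ∧ (∀ r, 0 ≤ ρ r) ∧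
    (∀ r, r ∉ Icc (1 : ℝ) 2 → ρ r = 0) ∧ ∀ d : ℤ, 0 < ∫ r in Ioi (0 : ℝ), ρ r * r ^ d := by
  let b : ContDiffBump (3 / 2 : ℝ) := ⟨1 / 4, 1 / 2, by norm_num, by norm_num⟩
  have hz : ∀ r, r ∉ Ioo (1 : ℝ) 2 → b r = 0 := by
    intro r hr
    apply b.zero_of_le_dist
    show (1 / 2 : ℝ) ≤ dist r (3 / 2)
    rw [Real.dist_eq]
    by_contra hlt
    push Not at hlt
    rw [abs_lt] at hlt
    exact hr ⟨by linarith [hlt.1], by linarith [hlt.2]⟩
  refine ⟨b, b.contDiff, fun r => b.nonneg, fun r hr => hz r (fun h => hr (Ioo_subset_Icc_self h)), fun d => ?_⟩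
  have h1 : ∫ r in Ioi (0 : ℝ), b r * r ^ d = ∫ r in Ioc (1 : ℝ) 2, b r * r ^ d := by
    apply setIntegral_eq_of_subset_of_forall_sdiff_eq_zero measurableSet_Ioi
    · intro r hr
      exact lt_trans zero_lt_one hr.1
    · intro r hr
      rw [hz r (fun h => hr.2 ⟨h.1, h.2.le⟩), zero_mul]
  rw [h1, ← intervalIntegral.integral_of_le (by norm_num)]
  apply intervalIntegral.intervalIntegral_pos_of_pos_on
  · apply ContinuousOn.intervalIntegrable
    apply ContinuousOn.mul b.continuous.continuousOn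
    intro r hr
    rw [uIcc_of_le (by norm_num)] at hr
    have hr0 : r ≠ 0 := by have := hr.1; linarith
    exact (continuousAt_zpow₀ r d (Or.inl hr0)).continuousWithinAt
  · intro r hr
    have hr0 : (0 : ℝ) < r := by have := hr.1; linarith
    apply mul_pos _ (zpow_pos hr0 d)
    apply b.pos_of_mem_ball
    show dist r (3 / 2) < (1 / 2 : ℝ)
    rw [Real.dist_eq, abs_lt]
    constructor <;> [linarith [hr.1]; linarith [hr.2]]
  · norm_num

end Pool.Agent.HVM
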