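import Pool.Agent.HVM.Area2
import Pool.Agent.HVM.AlgB
import Pool.Agent.HVM.Cov
import Pool.Agent.HVM.Polar

/-! # `M_u` of a smooth body (module AREA3) -/

set_option autoImplicit false

namespace Pool.Agent.HVM

open MeasureTheory Metric Set
open Pool.Agent.Helper85.Herm Pool.Agent.Helper85.Cap

theorem ar3_ae_ne {E : Type*} [NormedAddCommGroup E] [MeasurableSpace E] (μ : Measure E)
    [NullSingletonClass μ] : ∀ᵐ z ∂μ, z ≠ (0 : E) := by
  have h1 : μ {(0 : E)} = 0 := measure_singleton 0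
  have h2 : {z : E | ¬ z ≠ 0} = {(0 : E)} := by
    ext z
    simp
  rw [ae_iff, h2, h1]

/-- area of a planar body -/
theorem area_plane (g : EuclideanSpace ℝ (Fin 2) → ℝ) (hg : SmoothSupp g) :
    (volume (wulff g)).toReal = ∫ z in ball (0 : EuclideanSpace ℝ (Fin 2)) 1,
      g z * LinearMap.trace ℝ (EuclideanSpace ℝ (Fin 2))
        (hess g z : EuclideanSpace ℝ (Fin 2) →ₗ[ℝ] EuclideanSpace ℝ (Fin 2)) := by
  rw [volume_wulff le_rfl g hg]
  refine setIntegral_congr_ae measurableSet_ball ?_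
  filter_upwards [ar3_ae_ne (volume : Measure (EuclideanSpace ℝ (Fin 2)))] with z hz _
  have h1 := det_plane (hess g z) z (gradient g z) hz (hg.hess_symm hz) (hg.hess_self hz)
  have h2 : 0 ≤ LinearMap.trace ℝ (EuclideanSpace ℝ (Fin 2))
      (hess g z : EuclideanSpace ℝ (Fin 2) →ₗ[ℝ] EuclideanSpace ℝ (Fin 2)) := by
    rw [LinearMap.trace_eq_sum_inner _ (EuclideanSpace.basisFun (Fin 2) ℝ)]
    refine Finset.sum_nonneg fun i _ => ?_
    rw [ContinuousLinearMap.coe_coe, real_inner_comm]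
    exact hg.hess_nonneg hz _
  rw [dPsi, h1, hg.gradient_inner hz, abs_of_nonneg (mul_nonneg (hg.pos z hz).le h2)]

/-- the integrand -/
noncomputable def ar3F (h : C2 → ℝ) (u : C2 ≃ₗᵢ[ℝ] C2) (p : C2) : ℝ :=
  h p * inner ℝ (hess h p (u p)) (u p)

theorem ar3F_smul {h : C2 → ℝ} (hs : SmoothSupp h) (u : C2 ≃ₗᵢ[ℝ] C2) (c : ℝ) (hc : 0 < c)
    (p : C2) : ar3F h u (c • p) = c ^ 2 * ar3F h u p := by
  by_cases hp : p = 0
  · rw [hp, smul_zero, ar3F, hs.zero]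
    ring
  · rw [ar3F, hs.homog c p hc, hs.hess_smul c hc p hp, ar3F, map_smul, map_smul,
      ContinuousLinearMap.smul_apply, inner_smul_left, inner_smul_left, inner_smul_right]
    simp only [conj_trivial]
    field_simp

theorem ar3F_contOn {h : C2 → ℝ} (hs : SmoothSupp h) (u : C2 ≃ₗᵢ[ℝ] C2) :
    ContinuousOn (ar3F h u) {0}ᶜ := by
  unfold ar3F
  have h1 : ContinuousOn (fun p : C2 => u p) {0}ᶜ := u.continuous.continuousOn
  exact hs.continuous.continuousOn.mul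
    ((((hess_continuousOn hs).clm_apply h1)).inner h1)

theorem ar3F_bound {h : C2 → ℝ} (hs : SmoothSupp h) (u : C2 ≃ₗᵢ[ℝ] C2) :
    ∃ C : ℝ, 0 ≤ C ∧ ∀ p, ‖ar3F h u p‖ ≤ C * ‖p‖ ^ 2 := by
  have h1 : IsCompact (sphere (0 : C2) 1) := isCompact_sphere 0 1
  have h2 : ContinuousOn (ar3F h u) (sphere (0 : C2) 1) := by
    refine (ar3F_contOn hs u).mono fun x hx => ?_
    rw [mem_sphere_zero_iff_norm] at hx
    intro h0
    rw [mem_singleton_iff] at h0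
    rw [h0, norm_zero] at hx
    exact zero_ne_one hx
  obtain ⟨C, hC⟩ := h1.exists_bound_of_continuousOn h2
  refine ⟨max C 0, le_max_right _ _, fun p => ?_⟩
  by_cases hp : p = 0
  · rw [hp, ar3F, hs.zero]
    simp
  · have hn : 0 < ‖p‖ := norm_pos_iff.mpr hp
    have h3 : p = ‖p‖ • (‖p‖⁻¹ • p) := by
      rw [smul_smul, mul_inv_cancel₀ hn.ne', one_smul]
    have h4 : ‖p‖⁻¹ • p ∈ sphere (0 : C2) 1 := by
      rw [mem_sphere_zero_iff_norm, norm_smul, norm_inv, norm_norm, inv_mul_cancel₀ hn.ne']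
    have h5 : ar3F h u p = ‖p‖ ^ 2 * ar3F h u (‖p‖⁻¹ • p) := by
      rw [← ar3F_smul hs u _ hn, ← h3]
    rw [h5, norm_mul, norm_pow, norm_norm, mul_comm]
    exact mul_le_mul_of_nonneg_right ((hC _ h4).trans (le_max_left _ _)) (by positivity)

theorem ar3F_cont {h : C2 → ℝ} (hs : SmoothSupp h) (u : C2 ≃ₗᵢ[ℝ] C2) :
    Continuous (ar3F h u) := by
  rw [continuous_iff_continuousAt]
  intro p
  by_cases hp : p = 0
  · obtain ⟨C, _, hC⟩ := ar3F_bound hs u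
    have h0 : ar3F h u 0 = 0 := by
      rw [ar3F, hs.zero, zero_mul]
    rw [hp, ContinuousAt, h0]
    refine squeeze_zero_norm hC ?_
    have h1 : Continuous fun p : C2 => C * ‖p‖ ^ 2 := by fun_prop
    have h2 := h1.tendsto 0
    simpa using h2
  · exact (ar3F_contOn hs u).continuousAt (isOpen_compl_singleton.mem_nhds hp)

theorem ar3_area {h : C2 → ℝ} (hs : SmoothSupp h) (K : Body) (hK : pts K = wulff h)
    (u : C2 ≃ₗᵢ[ℝ] C2) (hu : ∀ x, u (u x) = -x) (w : C2) (hw : w ≠ 0) :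
    area u K w = ∫ z in ball (0 : EuclideanSpace ℝ (Fin 2)) 1,
      ar3F h u (z 0 • w + z 1 • u w) * (‖z‖ ^ 2)⁻¹ := by
  rw [area_restr hs K hK u hu w hw, area_plane _ (restr_smoothSupp hs u hu w hw)]
  refine setIntegral_congr_ae measurableSet_ball ?_
  filter_upwards [ar3_ae_ne (volume : Measure (EuclideanSpace ℝ (Fin 2)))] with z hz _
  rw [restr_trace hs u hu w hw z hz, restr, ar3F]
  ring

/-- rotation in the planes spanned by `w`, `u w` -/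
noncomputable def ar3R (u : C2 ≃ₗᵢ[ℝ] C2) (hu : ∀ x, u (u x) = -x)
    (z : EuclideanSpace ℝ (Fin 2)) (hz : z ≠ 0) : C2 ≃ₗᵢ[ℝ] C2 :=
  LinearIsometry.toLinearIsometryEquiv
    { toLinearMap := (‖z‖⁻¹ * z 0) • LinearMap.id +
        (‖z‖⁻¹ * z 1) • (u.toLinearEquiv : C2 →ₗ[ℝ] C2)
      norm_map' := by
        intro w
        have h0 := area1_inner u hu w
        have h1 : ‖z‖ ^ 2 = z 0 ^ 2 + z 1 ^ 2 := by
          rw [EuclideanSpace.norm_sq_eq]
          simp [Fin.sum_univ_two]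
        show ‖(‖z‖⁻¹ * z 0) • w + (‖z‖⁻¹ * z 1) • u w‖ = ‖w‖
        have h3 : ‖(‖z‖⁻¹ * z 0) • w + (‖z‖⁻¹ * z 1) • u w‖ ^ 2 = ‖w‖ ^ 2 := by
          rw [norm_add_sq_real, inner_smul_left, inner_smul_right, h0, norm_smul, norm_smul,
            u.norm_map, mul_pow, mul_pow, Real.norm_eq_abs, Real.norm_eq_abs, sq_abs, sq_abs]
          have h4 : (‖z‖⁻¹ * z 0) ^ 2 + (‖z‖⁻¹ * z 1) ^ 2 = 1 := by
            have h5 : ‖z‖ ≠ 0 := norm_ne_zero_iff.mpr hz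
            have h6 : (‖z‖⁻¹ * z 0) ^ 2 + (‖z‖⁻¹ * z 1) ^ 2 =
                (‖z‖⁻¹) ^ 2 * (z 0 ^ 2 + z 1 ^ 2) := by ring
            rw [h6, ← h1, ← mul_pow, inv_mul_cancel₀ h5, one_pow]
          linear_combination ‖w‖ ^ 2 * h4
        exact (pow_left_inj₀ (norm_nonneg _) (norm_nonneg _) two_ne_zero).mp h3 } rfl

theorem ar3R_apply (u : C2 ≃ₗᵢ[ℝ] C2) (hu : ∀ x, u (u x) = -x)
    (z : EuclideanSpace ℝ (Fin 2)) (hz : z ≠ 0) (w : C2) :
    z 0 • w + z 1 • u w = ‖z‖ • ar3R u hu z hz w := by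
  have h1 : ar3R u hu z hz w = (‖z‖⁻¹ * z 0) • w + (‖z‖⁻¹ * z 1) • u w := rfl
  have h2 : ‖z‖ ≠ 0 := norm_ne_zero_iff.mpr hz
  rw [h1, smul_add, smul_smul, smul_smul, ← mul_assoc, ← mul_assoc, mul_inv_cancel₀ h2, one_mul,
    one_mul]

theorem ar3_inner_int {h : C2 → ℝ} (hs : SmoothSupp h) (u : C2 ≃ₗᵢ[ℝ] C2)
    (hu : ∀ x, u (u x) = -x) (z : EuclideanSpace ℝ (Fin 2)) (hz : z ≠ 0) :
    ∫ w : C2, ar3F h u (z 0 • w + z 1 • u w) * (‖z‖ ^ 2)⁻¹ * Real.exp (-‖w‖ ^ 2) =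
      ∫ w : C2, Real.exp (-‖w‖ ^ 2) * ar3F h u w := by
  have h2 : 0 < ‖z‖ := norm_pos_iff.mpr hz
  have h1 := (ar3R u hu z hz).measurePreserving.integral_comp
    (ar3R u hu z hz).toHomeomorph.measurableEmbedding
    (fun w : C2 => Real.exp (-‖w‖ ^ 2) * ar3F h u w)
  rw [← h1]
  refine integral_congr_ae (Filter.Eventually.of_forall fun w => ?_)
  show ar3F h u (z 0 • w + z 1 • u w) * (‖z‖ ^ 2)⁻¹ * Real.exp (-‖w‖ ^ 2) =
    Real.exp (-‖ar3R u hu z hz w‖ ^ 2) * ar3F h u (ar3R u hu z hz w)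
  rw [ar3R_apply u hu z hz w, ar3F_smul hs u _ h2, (ar3R u hu z hz).norm_map]
  field_simp

theorem ar3_radial : ∫ r in Ioi (0 : ℝ), Real.exp (-r ^ 2) * r ^ ((2 : ℤ) + 3) = 1 := by
  have h1 := integral_rpow_mul_exp_neg_rpow (p := 2) (q := 5) (by norm_num) (by norm_num)
  have h2 : Real.Gamma ((5 + 1) / 2) = 2 := by
    have h3 : ((5 : ℝ) + 1) / 2 = 2 + 1 := by norm_num
    have h4 := Real.Gamma_nat_eq_factorial 2
    rw [h3]
    rw [Nat.factorial_two] at h4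
    exact_mod_cast h4
  rw [h2] at h1
  have h5 : ∫ r in Ioi (0 : ℝ), Real.exp (-r ^ 2) * r ^ ((2 : ℤ) + 3) =
      ∫ x in Ioi (0 : ℝ), x ^ (5 : ℝ) * Real.exp (-x ^ (2 : ℝ)) := by
    refine setIntegral_congr_fun measurableSet_Ioi fun x hx => ?_
    have hx0 : (0 : ℝ) < x := hx
    have e1 : x ^ ((2 : ℤ) + 3) = x ^ (5 : ℝ) := by
      have : ((2 : ℤ) + 3) = ((5 : ℕ) : ℤ) := by norm_num
      rw [this, zpow_natCast]
      have h6 : (5 : ℝ) = ((5 : ℕ) : ℝ) := by norm_num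
      rw [h6, Real.rpow_natCast]
    have e2 : x ^ (2 : ℝ) = x ^ 2 := Real.rpow_two x
    show Real.exp (-x ^ 2) * x ^ ((2 : ℤ) + 3) = x ^ (5 : ℝ) * Real.exp (-x ^ (2 : ℝ))
    rw [e1, e2, mul_comm]
  rw [h5, h1]
  norm_num

theorem ar3_gauss_int : Integrable (fun w : C2 => ‖w‖ ^ 2 * Real.exp (-‖w‖ ^ 2)) volume := by
  have h1 : Integrable (fun w : C2 => Real.exp (-(1 / 2) * ‖w‖ ^ 2)) volume := by
    have h2 := GaussianFourier.integrable_cexp_neg_mul_sq_norm_add (V := C2) (b := (1 / 2 : ℂ))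
      (by norm_num) 0 0
    refine (h2.norm).congr (Filter.Eventually.of_forall fun w => ?_)
    simp only [zero_mul, add_zero]
    rw [Complex.norm_exp]
    congr 1
    have h3 : (-(1 / 2 : ℂ) * (‖w‖ : ℂ) ^ 2) = ((-(1 / 2) * ‖w‖ ^ 2 : ℝ) : ℂ) := by
      push_cast
      ring
    rw [h3, Complex.ofReal_re]
  refine (h1.const_mul 2).mono' (by fun_prop) (Filter.Eventually.of_forall fun w => ?_)
  rw [Real.norm_of_nonneg (by positivity)]
  have h3 : ‖w‖ ^ 2 ≤ 2 * Real.exp (‖w‖ ^ 2 / 2) := by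
    have := Real.add_one_le_exp (‖w‖ ^ 2 / 2)
    linarith
  calc ‖w‖ ^ 2 * Real.exp (-‖w‖ ^ 2) ≤ 2 * Real.exp (‖w‖ ^ 2 / 2) * Real.exp (-‖w‖ ^ 2) :=
        mul_le_mul_of_nonneg_right h3 (Real.exp_pos _).le
    _ = 2 * Real.exp (-(1 / 2) * ‖w‖ ^ 2) := by
        rw [mul_assoc, ← Real.exp_add]
        congr 2
        ring

theorem ar3_prod_int {h : C2 → ℝ} (hs : SmoothSupp h) (u : C2 ≃ₗᵢ[ℝ] C2)
    (hu : ∀ x, u (u x) = -x) :
    Integrable (Function.uncurry fun (w : C2) (z : EuclideanSpace ℝ (Fin 2)) =>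
      ar3F h u (z 0 • w + z 1 • u w) * (‖z‖ ^ 2)⁻¹ * Real.exp (-‖w‖ ^ 2))
      ((volume : Measure C2).prod
        ((volume : Measure (EuclideanSpace ℝ (Fin 2))).restrict (ball 0 1))) := by
  obtain ⟨C, hC0, hC⟩ := ar3F_bound hs u
  have hfin : IsFiniteMeasure
      ((volume : Measure (EuclideanSpace ℝ (Fin 2))).restrict (ball 0 1)) :=
    ⟨by rw [Measure.restrict_apply_univ]; exact measure_ball_lt_top⟩
  have h1 : Integrable (fun p : C2 × EuclideanSpace ℝ (Fin 2) =>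
      (‖p.1‖ ^ 2 * Real.exp (-‖p.1‖ ^ 2)) * C) ((volume : Measure C2).prod
        ((volume : Measure (EuclideanSpace ℝ (Fin 2))).restrict (ball 0 1))) :=
    ar3_gauss_int.mul_prod (integrable_const C)
  refine h1.mono' ?_ ?_
  · have hc : Continuous fun p : C2 × EuclideanSpace ℝ (Fin 2) =>
        ar3F h u (p.2 0 • p.1 + p.2 1 • u p.1) := by
      refine (ar3F_cont hs u).comp ?_
      have k0 : Continuous fun p : C2 × EuclideanSpace ℝ (Fin 2) => p.2 0 :=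
        (EuclideanSpace.proj (𝕜 := ℝ) (0 : Fin 2)).continuous.comp continuous_snd
      have k1 : Continuous fun p : C2 × EuclideanSpace ℝ (Fin 2) => p.2 1 :=
        (EuclideanSpace.proj (𝕜 := ℝ) (1 : Fin 2)).continuous.comp continuous_snd
      exact (k0.smul continuous_fst).add (k1.smul (u.continuous.comp continuous_fst))
    have hm : Measurable (Function.uncurry fun (w : C2) (z : EuclideanSpace ℝ (Fin 2)) =>
      ar3F h u (z 0 • w + z 1 • u w) * (‖z‖ ^ 2)⁻¹ * Real.exp (-‖w‖ ^ 2)) := by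
      have k2 : Measurable fun p : C2 × EuclideanSpace ℝ (Fin 2) => (‖p.2‖ ^ 2)⁻¹ :=
        (continuous_snd.norm.pow 2).measurable.inv
      have k3 : Measurable fun p : C2 × EuclideanSpace ℝ (Fin 2) => Real.exp (-‖p.1‖ ^ 2) :=
        (Real.continuous_exp.comp (continuous_fst.norm.pow 2).neg).measurable
      exact (hc.measurable.mul k2).mul k3
    exact hm.aestronglyMeasurable
  · refine Filter.Eventually.of_forall fun p => ?_
    obtain ⟨w, z⟩ := p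
    show ‖ar3F h u (z 0 • w + z 1 • u w) * (‖z‖ ^ 2)⁻¹ * Real.exp (-‖w‖ ^ 2)‖ ≤
      ‖w‖ ^ 2 * Real.exp (-‖w‖ ^ 2) * C
    rw [norm_mul, norm_mul, Real.norm_eq_abs (Real.exp _), Real.abs_exp]
    by_cases hz : z = 0
    · rw [hz]
      simp
      positivity
    · have h2 : 0 < ‖z‖ := norm_pos_iff.mpr hz
      have h3 := hC (z 0 • w + z 1 • u w)
      have h4 : ‖z 0 • w + z 1 • u w‖ = ‖z‖ * ‖w‖ := by
        rw [ar3R_apply u hu z hz w, norm_smul, norm_norm, (ar3R u hu z hz).norm_map]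
      rw [h4] at h3
      have h5 : ‖ar3F h u (z 0 • w + z 1 • u w)‖ * ‖(‖z‖ ^ 2)⁻¹‖ ≤ C * ‖w‖ ^ 2 := by
        rw [norm_inv, norm_pow, norm_norm, ← div_eq_mul_inv, div_le_iff₀ (by positivity)]
        calc _ ≤ C * (‖z‖ * ‖w‖) ^ 2 := h3
          _ = C * ‖w‖ ^ 2 * ‖z‖ ^ 2 := by ring
      calc _ ≤ C * ‖w‖ ^ 2 * Real.exp (-‖w‖ ^ 2) :=
            mul_le_mul_of_nonneg_right h5 (Real.exp_pos _).le
        _ = _ := by ring

theorem Mu_smooth {h : C2 → ℝ} (hs : SmoothSupp h) (K : Body) (hK : pts K = wulff h)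
    (u : C2 ≃ₗᵢ[ℝ] C2) (hu : ∀ x, u (u x) = -x) :
    Mu u K = (2 * Real.pi)⁻¹ * Sph (fun n => h n * inner ℝ (hess h n (u n)) (u n)) := by
  have h1 : ∫ w : C2, area u K w * Real.exp (-‖w‖ ^ 2) =
      ∫ w : C2, ∫ z in ball (0 : EuclideanSpace ℝ (Fin 2)) 1,
        ar3F h u (z 0 • w + z 1 • u w) * (‖z‖ ^ 2)⁻¹ * Real.exp (-‖w‖ ^ 2) := by
    refine integral_congr_ae ?_
    filter_upwards [ar3_ae_ne (volume : Measure C2)] with w hw
    rw [ar3_area hs K hK u hu w hw, integral_mul_const]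
  have h2 : ∫ w : C2, ∫ z in ball (0 : EuclideanSpace ℝ (Fin 2)) 1,
        ar3F h u (z 0 • w + z 1 • u w) * (‖z‖ ^ 2)⁻¹ * Real.exp (-‖w‖ ^ 2) =
      ∫ z in ball (0 : EuclideanSpace ℝ (Fin 2)) 1, ∫ w : C2,
        ar3F h u (z 0 • w + z 1 • u w) * (‖z‖ ^ 2)⁻¹ * Real.exp (-‖w‖ ^ 2) :=
    integral_integral_swap (ar3_prod_int hs u hu)
  have h3 : ∫ z in ball (0 : EuclideanSpace ℝ (Fin 2)) 1, ∫ w : C2,
        ar3F h u (z 0 • w + z 1 • u w) * (‖z‖ ^ 2)⁻¹ * Real.exp (-‖w‖ ^ 2) =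
      ∫ z in ball (0 : EuclideanSpace ℝ (Fin 2)) 1,
        ∫ w : C2, Real.exp (-‖w‖ ^ 2) * ar3F h u w := by
    refine setIntegral_congr_ae measurableSet_ball ?_
    filter_upwards [ar3_ae_ne (volume : Measure (EuclideanSpace ℝ (Fin 2)))] with z hz _
    exact ar3_inner_int hs u hu z hz
  have h4 : (volume : Measure (EuclideanSpace ℝ (Fin 2))).real (ball 0 1) = Real.pi := by
    rw [Measure.real, EuclideanSpace.volume_ball_fin_two]
    simp [Real.pi_pos.le]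
  have h5 : ∫ w : C2, Real.exp (-‖w‖ ^ 2) * ar3F h u w = Sph (ar3F h u) := by
    have h6 := polar (ar3F h u) 2 (fun c w hc _ => by
      rw [ar3F_smul hs u c hc w]
      norm_cast) (fun r => Real.exp (-r ^ 2))
    rw [h6, ar3_radial, one_mul]
  have h7 : Sph (fun n => h n * inner ℝ (hess h n (u n)) (u n)) = Sph (ar3F h u) := rfl
  rw [Mu, h1, h2, h3, setIntegral_const, h4, h5, h7, smul_eq_mul]
  have hpi := Real.pi_ne_zero
  field_simp

end Pool.Agent.HVM
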