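import Pool.Agent.HVM.Ibp
import Pool.Agent.HVM.Area3
import Pool.Agent.Helper85.Cap.I1
import Pool.Agent.Helper85.Cap.I1a

/-! # The valuations of a smooth body (module KEYC) -/

set_option autoImplicit false

namespace Pool.Agent.HVM

open MeasureTheory Metric Set
open Pool.Agent.Helper85.Herm Pool.Agent.Helper85.Cap

theorem keyc_cont_q {h : C2 → ℝ} (hs : SmoothSupp h) (u : C2 ≃ₗᵢ[ℝ] C2) :
    ContinuousOn (fun n => (inner ℝ (gradient h n) (u n) : ℝ)) {0}ᶜ :=
  (gradient_continuousOn hs).inner u.continuous.continuousOn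

theorem keyc_Mu {h : C2 → ℝ} (hs : SmoothSupp h) (K : Body) (hK : pts K = wulff h)
    (u : C2 ≃ₗᵢ[ℝ] C2) (hu : ∀ x, u (u x) = -x) :
    2 * Real.pi * Mu u K = Sph (fun n => h n ^ 2) -
      Sph (fun n => inner ℝ (gradient h n) (u n) ^ 2) := by
  rw [Mu_smooth hs K hK u hu, sph_MU hs u hu, sph_sub]
  · field_simp
  · exact (hs.continuous.pow 2).continuousOn
  · exact (keyc_cont_q hs u).pow 2

/-- the mixed integral for the circle of complex structures -/
theorem keyc_Qa {h : C2 → ℝ} (hs : SmoothSupp h) (α : ℝ) :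
    Sph (fun n => inner ℝ (gradient h n) (Uq α n) ^ 2) =
      Real.cos α ^ 2 * Sph (fun n => inner ℝ (gradient h n) (Iq n) ^ 2) +
      Real.sin α ^ 2 * Sph (fun n => inner ℝ (gradient h n) (Kq n) ^ 2) +
      2 * Real.sin α * Real.cos α *
        Sph (fun n => inner ℝ (gradient h n) (Iq n) * inner ℝ (gradient h n) (Kq n)) := by
  have cI : ContinuousOn (fun n => (inner ℝ (gradient h n) (Iq n) : ℝ)) {0}ᶜ :=
    (gradient_continuousOn hs).inner I1_contIq.continuousOn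
  have cK : ContinuousOn (fun n => (inner ℝ (gradient h n) (Kq n) : ℝ)) {0}ᶜ :=
    (gradient_continuousOn hs).inner I1_contKq.continuousOn
  rw [← sph_smul, ← sph_smul, ← sph_smul, ← sph_add, ← sph_add]
  · apply sph_congr
    intro n _
    rw [Uq, inner_add_right, inner_smul_right, inner_smul_right]
    ring
  · exact (continuousOn_const.mul (cI.pow 2)).add (continuousOn_const.mul (cK.pow 2))
  · exact continuousOn_const.mul (cI.mul cK)
  · exact continuousOn_const.mul (cI.pow 2)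
  · exact continuousOn_const.mul (cK.pow 2)

/-- the sum of two orthogonal directions of the circle -/
theorem keyc_pair {h : C2 → ℝ} (hs : SmoothSupp h) (K : Body) (hK : pts K = wulff h) (α : ℝ) :
    2 * Real.pi * (Mu (Uq α) K + Mu (Uq (α + Real.pi / 2)) K) = 2 * Sph (fun n => h n ^ 2) -
      (Sph (fun n => inner ℝ (gradient h n) (Iq n) ^ 2) +
      Sph (fun n => inner ℝ (gradient h n) (Kq n) ^ 2)) := by
  have h1 := keyc_Mu hs K hK (UL α) (Uq_Uq α)
  have h2 := keyc_Mu hs K hK (UL (α + Real.pi / 2)) (Uq_Uq (α + Real.pi / 2))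
  simp only [UL_coe] at h1 h2
  rw [keyc_Qa hs] at h1 h2
  rw [Real.cos_add_pi_div_two, Real.sin_add_pi_div_two] at h2
  have h3 := Real.sin_sq_add_cos_sq α
  have h4 : 2 * Real.pi * (Mu (Uq α) K + Mu (Uq (α + Real.pi / 2)) K) =
      2 * Real.pi * Mu (Uq α) K + 2 * Real.pi * Mu (Uq (α + Real.pi / 2)) K := by ring
  rw [h4, h1, h2]
  linear_combination (-(Sph (fun n => inner ℝ (gradient h n) (Iq n) ^ 2)) -
    Sph (fun n => inner ℝ (gradient h n) (Kq n) ^ 2)) * h3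

theorem keyc_MLag {h : C2 → ℝ} (hs : SmoothSupp h) (K : Body) (hK : pts K = wulff h) :
    2 * Real.pi * (2 * MLag K) = 2 * Sph (fun n => h n ^ 2) -
      (Sph (fun n => inner ℝ (gradient h n) (Iq n) ^ 2) +
      Sph (fun n => inner ℝ (gradient h n) (Kq n) ^ 2)) := by
  have hc : Continuous (fun α => Mu (Uq α) K) := Mu_continuous_alpha K
  have hp := I1_Uq_periodic K
  have h1 : ∫ α in (0 : ℝ)..(2 * Real.pi), Mu (Uq (α + Real.pi / 2)) K =
      ∫ α in (0 : ℝ)..(2 * Real.pi), Mu (Uq α) K := by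
    rw [intervalIntegral.integral_comp_add_right (fun α => Mu (Uq α) K) (Real.pi / 2)]
    have h2 := hp.intervalIntegral_add_eq (Real.pi / 2) 0
    rw [zero_add] at h2
    rw [← h2]
    congr 1 <;> ring
  have h2 : ∫ α in (0 : ℝ)..(2 * Real.pi), (Mu (Uq α) K + Mu (Uq (α + Real.pi / 2)) K) =
      2 * ∫ α in (0 : ℝ)..(2 * Real.pi), Mu (Uq α) K := by
    have hc2 : Continuous (fun α => Mu (Uq (α + Real.pi / 2)) K) :=
      hc.comp (continuous_id.add continuous_const)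
    rw [intervalIntegral.integral_add (hc.intervalIntegrable _ _) (hc2.intervalIntegrable _ _), h1]
    ring
  have h3 : ∀ α, Mu (Uq α) K + Mu (Uq (α + Real.pi / 2)) K = (2 * Real.pi)⁻¹ *
      (2 * Sph (fun n => h n ^ 2) - (Sph (fun n => inner ℝ (gradient h n) (Iq n) ^ 2) +
      Sph (fun n => inner ℝ (gradient h n) (Kq n) ^ 2))) := by
    intro α
    rw [← keyc_pair hs K hK α]
    field_simp
  simp only [h3, intervalIntegral.integral_const, sub_zero, smul_eq_mul] at h2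
  unfold MLag
  have h4 : 2 * Real.pi * (2 * ((2 * Real.pi)⁻¹ * ∫ α in (0 : ℝ)..(2 * Real.pi), Mu (Uq α) K)) =
      2 * ∫ α in (0 : ℝ)..(2 * Real.pi), Mu (Uq α) K := by
    field_simp
  rw [h4, ← h2]
  field_simp

theorem keyc_sum (x n : C2) : (inner ℝ x (Iq n) : ℝ) ^ 2 + (inner ℝ x (J n) : ℝ) ^ 2 +
    (inner ℝ x (Kq n) : ℝ) ^ 2 = ‖x‖ ^ 2 * ‖n‖ ^ 2 - (inner ℝ x n : ℝ) ^ 2 := by
  rw [C2_inner, C2_inner, C2_inner, C2_inner, C2_norm_sq, C2_norm_sq]
  simp only [J_apply0, J_apply1, J_apply2, J_apply3, Iq_apply0, Iq_apply1, Iq_apply2, Iq_apply3,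
    Kq_apply0, Kq_apply1, Kq_apply2, Kq_apply3]
  ring

theorem keyc_Qsum {h : C2 → ℝ} (hs : SmoothSupp h) :
    Sph (fun n => inner ℝ (gradient h n) (Iq n) ^ 2) +
      Sph (fun n => inner ℝ (gradient h n) (J n) ^ 2) +
      Sph (fun n => inner ℝ (gradient h n) (Kq n) ^ 2) =
      Sph (fun n => ‖gradient h n‖ ^ 2) - Sph (fun n => h n ^ 2) := by
  have cI : ContinuousOn (fun n => (inner ℝ (gradient h n) (Iq n) : ℝ)) {0}ᶜ :=
    (gradient_continuousOn hs).inner I1_contIq.continuousOn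
  have cK : ContinuousOn (fun n => (inner ℝ (gradient h n) (Kq n) : ℝ)) {0}ᶜ :=
    (gradient_continuousOn hs).inner I1_contKq.continuousOn
  have cJ : ContinuousOn (fun n => (inner ℝ (gradient h n) (J n) : ℝ)) {0}ᶜ :=
    keyc_cont_q hs JL
  have cI2 : ContinuousOn (fun n => (inner ℝ (gradient h n) (Iq n) : ℝ) ^ 2) {0}ᶜ := cI.pow 2
  have cJ2 : ContinuousOn (fun n => (inner ℝ (gradient h n) (J n) : ℝ) ^ 2) {0}ᶜ := cJ.pow 2
  have cK2 : ContinuousOn (fun n => (inner ℝ (gradient h n) (Kq n) : ℝ) ^ 2) {0}ᶜ := cK.pow 2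
  have cIJ2 : ContinuousOn (fun n => (inner ℝ (gradient h n) (Iq n) : ℝ) ^ 2 +
    (inner ℝ (gradient h n) (J n) : ℝ) ^ 2) {0}ᶜ := cI2.add cJ2
  have cX2 : ContinuousOn (fun n => ‖gradient h n‖ ^ 2) {0}ᶜ := (gradient_continuousOn hs).norm.pow 2
  have ch2 : ContinuousOn (fun n => h n ^ 2) {0}ᶜ := (hs.continuous.pow 2).continuousOn
  rw [← sph_add _ _ cI2 cJ2, ← sph_add _ _ cIJ2 cK2, ← sph_sub _ _ cX2 ch2]
  apply sph_congr
  intro n hn
  have hn0 : n ≠ 0 := by
    intro h0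
    rw [h0, norm_zero] at hn
    exact zero_ne_one hn
  show (inner ℝ (gradient h n) (Iq n) : ℝ) ^ 2 + (inner ℝ (gradient h n) (J n) : ℝ) ^ 2 +
    (inner ℝ (gradient h n) (Kq n) : ℝ) ^ 2 = _
  rw [keyc_sum, hn, hs.gradient_inner hn0]
  ring

theorem keyc_s2 {h : C2 → ℝ} (hs : SmoothSupp h) :
    Sph (fun n => s2 (hess h n)) = 4 * Sph (fun n => h n ^ 2) - Sph (fun n => ‖gradient h n‖ ^ 2) := by
  have cX : ContinuousOn (fun n => ‖gradient h n‖ ^ 2) {0}ᶜ := (gradient_continuousOn hs).norm.pow 2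
  have key : ∀ u : C2 ≃ₗᵢ[ℝ] C2, (∀ x, u (u x) = -x) →
      Sph (fun n => inner ℝ (TH h n (u n)) (u n)) = Sph (fun n => ‖gradient h n‖ ^ 2) -
        4 * Sph (fun n => inner ℝ (gradient h n) (u n) ^ 2) := by
    intro u hu
    have cq : ContinuousOn (fun n => 4 * (inner ℝ (gradient h n) (u n) : ℝ) ^ 2) {0}ᶜ :=
      continuousOn_const.mul ((keyc_cont_q hs u).pow 2)
    rw [sph_GU hs u hu, sph_sub _ _ cX cq, sph_smul]
  have cT : ∀ u : C2 ≃ₗᵢ[ℝ] C2, ContinuousOn (fun n => (inner ℝ (TH h n (u n)) (u n) : ℝ)) {0}ᶜ := by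
    intro u
    exact ((TH_continuousOn hs).clm_apply u.continuous.continuousOn).inner u.continuous.continuousOn
  have k1 := key (UL 0) (Uq_Uq 0)
  have k2 := key JL J_J
  have k3 := key (UL (Real.pi / 2)) (Uq_Uq _)
  have e1 : ∀ n, (UL 0) n = Iq n := by
    intro n
    show Uq 0 n = Iq n
    rw [Uq, Real.cos_zero, Real.sin_zero]
    simp
  have e3 : ∀ n, (UL (Real.pi / 2)) n = Kq n := by
    intro n
    show Uq (Real.pi / 2) n = Kq n
    rw [Uq, Real.cos_pi_div_two, Real.sin_pi_div_two]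
    simp
  have c1 := cT (UL 0)
  have c2 := cT JL
  have c3 := cT (UL (Real.pi / 2))
  simp only [e1, e3, JL_coe] at k1 k2 k3 c1 c2 c3
  have hsum : Sph (fun n => s2 (hess h n)) = Sph (fun n => inner ℝ (TH h n (Iq n)) (Iq n)) +
      Sph (fun n => inner ℝ (TH h n (J n)) (J n)) + Sph (fun n => inner ℝ (TH h n (Kq n)) (Kq n)) := by
    have c12 : ContinuousOn (fun n => (inner ℝ (TH h n (Iq n)) (Iq n) : ℝ) +
      (inner ℝ (TH h n (J n)) (J n) : ℝ)) {0}ᶜ := c1.add c2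
    rw [← sph_add _ _ c1 c2, ← sph_add _ _ c12 c3]
    apply sph_congr
    intro n hn
    have hn0 : n ≠ 0 := by
      intro h0
      rw [h0, norm_zero] at hn
      exact zero_ne_one hn
    have h1 := NT_quat (hs.pk hn0)
    rw [hn, one_pow, one_mul] at h1
    exact h1.symm
  have hQ := keyc_Qsum hs
  rw [hsum, k1, k2, k3]
  linear_combination (-4) * hQ

theorem V2_smooth {h : C2 → ℝ} (hs : SmoothSupp h) (K : Body) (hK : pts K = wulff h) :
    2 * Real.pi * V2 K = Sph (fun n => s2 (hess h n)) := by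
  have h1 := keyc_Mu hs K hK JL J_J
  have h2 := keyc_MLag hs K hK
  have h3 := keyc_Qsum hs
  simp only [JL_coe] at h1
  rw [keyc_s2 hs]
  unfold V2 muab
  linear_combination h1 + h2 - h3

theorem tri_smooth {h : C2 → ℝ} (hs : SmoothSupp h) (K : Body) (hK : pts K = wulff h) (α : ℝ) :
    Mu (Uq α) K + Mu (Uq (α + Real.pi / 2)) K = 2 * MLag K := by
  have h1 := keyc_pair hs K hK α
  rw [← keyc_MLag hs K hK] at h1
  exact mul_left_cancel₀ (by positivity) h1

theorem G_smooth {h : C2 → ℝ} (hs : SmoothSupp h) (K : Body) (hK : pts K = wulff h)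
    (u : C2 ≃ₗᵢ[ℝ] C2) (hu : ∀ x, u (u x) = -x) :
    2 * Real.pi * (4 * Mu u K - V2 K) = Sph (fun n => inner ℝ (TH h n (u n)) (u n)) := by
  have h1 := keyc_Mu hs K hK u hu
  have h2 := V2_smooth hs K hK
  rw [keyc_s2 hs] at h2
  have cX : ContinuousOn (fun n => ‖gradient h n‖ ^ 2) {0}ᶜ := (gradient_continuousOn hs).norm.pow 2
  have cq : ContinuousOn (fun n => 4 * (inner ℝ (gradient h n) (u n) : ℝ) ^ 2) {0}ᶜ :=
    continuousOn_const.mul ((keyc_cont_q hs u).pow 2)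
  rw [sph_GU hs u hu, sph_sub _ _ cX cq, sph_smul]
  linear_combination 4 * h1 - h2

end Pool.Agent.HVM
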