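import Pool.Agent.HVM.UpA
import Pool.Agent.HVM.KeyC
import Pool.Agent.HVM.AppB
import Pool.Agent.Helper85.Cap.I1a

/-! # The cross body: formula for `G` (modules UPB) -/

set_option autoImplicit false

namespace Pool.Agent.HVM

open MeasureTheory Metric Set Filter
open Pool.Agent.Helper85.Herm Pool.Agent.Helper85.Cap

/-- density of `G` for the cross body -/
noncomputable def crossD (p q s : ℝ) (w : C2) : ℝ :=
  if s * |w 1| ≤ p * |w 0| ∧ q * nrm2 w ≤ p * |w 0| then p ^ 2 * (‖w‖ ^ 2 - 4 * w 1 ^ 2)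
  else if q * nrm2 w ≤ s * |w 1| then s ^ 2 * (‖w‖ ^ 2 - 4 * w 0 ^ 2)
  else q ^ 2 * ‖w‖ ^ 2

/-- smooth approximation of `crossH` -/
noncomputable def crossP (p q s : ℝ) (m : ℕ) (w : C2) : ℝ :=
  ((p ^ 2 * w 0 ^ 2) ^ m + (s ^ 2 * w 1 ^ 2) ^ m + (q ^ 2 * (w 2 ^ 2 + w 3 ^ 2)) ^ m) ^
    ((1 : ℝ) / (2 * m))

namespace UPB

theorem grad_props {N : C2 → ℝ} (hN : ContDiffOn ℝ 3 N {0}ᶜ) {w : C2} (hw : w ≠ 0) :
    HasGradientAt N (gradient N w) w ∧ HasFDerivAt (gradient N) (hess N w) w := by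
  have h1 : ContDiffAt ℝ 3 N w := hN.contDiffAt (isOpen_compl_singleton.mem_nhds hw)
  constructor
  · exact (h1.differentiableAt (by norm_num)).hasGradientAt
  · have h2 : ContDiffAt ℝ 2 (fderiv ℝ N) w := h1.fderiv_right (by norm_num)
    have h3 : DifferentiableAt ℝ (fderiv ℝ N) w := h2.differentiableAt (by norm_num)
    have h4 : DifferentiableAt ℝ (gradient N) w :=
      ((InnerProductSpace.toDual ℝ C2).symm.toContinuousLinearEquiv.differentiableAt).comp w h3
    exact h4.hasFDerivAt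

/-- derivatives along a line -/
theorem line {N : C2 → ℝ} (hN : ContDiffOn ℝ 3 N {0}ᶜ) (w v : C2)
    (h0 : ∀ t : ℝ, w + t • v ≠ 0) :
    (∀ t : ℝ, HasDerivAt (fun t : ℝ => N (w + t • v)) (inner ℝ (gradient N (w + t • v)) v) t) ∧
    HasDerivAt (fun t : ℝ => inner ℝ (gradient N (w + t • v)) v) (inner ℝ (hess N w v) v) 0 := by
  have hl : ∀ t : ℝ, HasDerivAt (fun t : ℝ => w + t • v) v t := by
    intro t
    have := ((hasDerivAt_id t).smul_const v).const_add w
    simpa using this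
  constructor
  · intro t
    have h1 := (grad_props hN (h0 t)).1.hasFDerivAt
    have h2 := h1.comp_hasDerivAt t (hl t)
    exact h2
  · have h1 := (grad_props hN (h0 0)).2
    have h2 := h1.comp_hasDerivAt (0 : ℝ) (hl 0)
    have h3 := h2.inner ℝ (hasDerivAt_const (0 : ℝ) v)
    simp only [inner_zero_right, zero_add, zero_smul, add_zero] at h3
    exact h3

theorem norm_line (w v : C2) (hvw : inner ℝ v w = 0) (hw : w ≠ 0) (t : ℝ) :
    HasDerivAt (fun t : ℝ => ‖w + t • v‖)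
      (t * ‖v‖ ^ 2 / Real.sqrt (‖w‖ ^ 2 + t ^ 2 * ‖v‖ ^ 2)) t := by
  have h1 : ∀ t : ℝ, ‖w + t • v‖ = Real.sqrt (‖w‖ ^ 2 + t ^ 2 * ‖v‖ ^ 2) := by
    intro t
    rw [eq_comm, Real.sqrt_eq_iff_mul_self_eq (by positivity) (norm_nonneg _),
      ← pow_two, norm_add_sq_real, inner_smul_right, real_inner_comm, hvw, norm_smul,
      Real.norm_eq_abs, mul_pow, sq_abs]
    ring
  have h2 : (fun t : ℝ => ‖w + t • v‖) = fun t => Real.sqrt (‖w‖ ^ 2 + t ^ 2 * ‖v‖ ^ 2) :=
    funext h1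
  rw [h2]
  have hpos : 0 < ‖w‖ ^ 2 + t ^ 2 * ‖v‖ ^ 2 := by
    have := norm_pos_iff.mpr hw
    positivity
  have h3 : HasDerivAt (fun t : ℝ => ‖w‖ ^ 2 + t ^ 2 * ‖v‖ ^ 2) (2 * t * ‖v‖ ^ 2) t := by
    have := ((hasDerivAt_pow 2 t).mul_const (‖v‖ ^ 2)).const_add (‖w‖ ^ 2)
    simpa using this
  have h4 := h3.sqrt hpos.ne'
  refine h4.congr_deriv ?_
  field_simp

/-- sublinear smooth function plus a multiple of the norm -/
theorem smoothSupp_of {N : C2 → ℝ} (hN : ContDiffOn ℝ 3 N {0}ᶜ) (hN0 : N 0 = 0)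
    (hh : ∀ (c : ℝ) (w : C2), 0 < c → N (c • w) = c * N w) (hp : ∀ w, 0 ≤ N w)
    (hs : ∀ v w, N (v + w) ≤ N v + N w) (δ : ℝ) (hδ : 0 < δ) :
    SmoothSupp (fun w => N w + δ * ‖w‖) := by
  have hsm : ContDiffOn ℝ 3 (fun w => N w + δ * ‖w‖) {0}ᶜ := by
    refine hN.add (contDiffOn_const.mul ?_)
    intro w hw
    exact (contDiffAt_norm ℝ hw).contDiffWithinAt
  refine ⟨hsm, by simp [hN0], ?_, ?_, ?_, ?_⟩
  · intro c w hc
    rw [hh c w hc, norm_smul, Real.norm_eq_abs, abs_of_pos hc]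
    ring
  · intro w hw
    have := norm_pos_iff.mpr hw
    have := hp w
    positivity
  · intro v w
    have h1 := hs v w
    have h2 := norm_add_le v w
    nlinarith
  · intro w v hw hvw hv
    have h0 : ∀ t : ℝ, w + t • v ≠ 0 := by
      intro t h
      have h1 : inner ℝ w (w + t • v) = 0 := by rw [h, inner_zero_right]
      rw [inner_add_right, inner_smul_right, real_inner_comm v w, hvw, mul_zero, add_zero,
        real_inner_self_eq_norm_sq] at h1
      exact hw (norm_eq_zero.mp (pow_eq_zero_iff two_ne_zero |>.mp h1))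
    obtain ⟨a1, a2⟩ := line hsm w v h0
    obtain ⟨b1, b2⟩ := line hN w v h0
    have e1 : (fun t : ℝ => inner ℝ (gradient (fun w => N w + δ * ‖w‖) (w + t • v)) v) =
        fun t => inner ℝ (gradient N (w + t • v)) v +
          δ * (t * ‖v‖ ^ 2 / Real.sqrt (‖w‖ ^ 2 + t ^ 2 * ‖v‖ ^ 2)) := by
      funext t
      exact (a1 t).unique ((b1 t).add ((norm_line w v hvw hw t).const_mul δ))
    rw [e1] at a2
    have hwp := norm_pos_iff.mpr hw
    have hvp := norm_pos_iff.mpr hv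
    have c2 : HasDerivAt (fun t : ℝ => t * ‖v‖ ^ 2 / Real.sqrt (‖w‖ ^ 2 + t ^ 2 * ‖v‖ ^ 2))
        (‖v‖ ^ 2 / ‖w‖) 0 := by
      have d1 : HasDerivAt (fun t : ℝ => t * ‖v‖ ^ 2) (‖v‖ ^ 2) 0 := by
        simpa using (hasDerivAt_id (0 : ℝ)).mul_const (‖v‖ ^ 2)
      have d2 : HasDerivAt (fun t : ℝ => Real.sqrt (‖w‖ ^ 2 + t ^ 2 * ‖v‖ ^ 2)) 0 0 := by
        have h3 : HasDerivAt (fun t : ℝ => ‖w‖ ^ 2 + t ^ 2 * ‖v‖ ^ 2) (2 * 0 * ‖v‖ ^ 2) 0 := by
          have := ((hasDerivAt_pow 2 (0 : ℝ)).mul_const (‖v‖ ^ 2)).const_add (‖w‖ ^ 2)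
          simpa using this
        have hpos : ‖w‖ ^ 2 + (0 : ℝ) ^ 2 * ‖v‖ ^ 2 ≠ 0 := by positivity
        have := h3.sqrt hpos
        simpa using this
      have d3 : Real.sqrt (‖w‖ ^ 2 + (0 : ℝ) ^ 2 * ‖v‖ ^ 2) = ‖w‖ := by
        simp
      have d4 := d1.div d2 (by rw [d3]; exact hwp.ne')
      refine d4.congr_deriv ?_
      rw [d3]
      field_simp
      ring
    have a3 := a2.unique (b2.add (c2.const_mul δ))
    have mono : Monotone (fun t : ℝ => inner ℝ (gradient N (w + t • v)) v) := by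
      have hconv : ConvexOn ℝ univ (fun t : ℝ => N (w + t • v)) := by
        refine ⟨convex_univ, fun x _ y _ a b ha hb hab => ?_⟩
        have e2 : w + (a • x + b • y) • v = a • (w + x • v) + b • (w + y • v) := by
          have : w = (a + b) • w := by rw [hab, one_smul]
          conv_lhs => rw [this]
          simp only [smul_eq_mul, smul_add, smul_smul, add_smul]
          abel
        have hsm0 : ∀ (c : ℝ) (z : C2), 0 ≤ c → N (c • z) = c * N z := by
          intro c z hc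
          rcases hc.eq_or_lt with rfl | hc
          · simp [hN0]
          · exact hh c z hc
        show N (w + (a • x + b • y) • v) ≤ a • N (w + x • v) + b • N (w + y • v)
        rw [e2]
        refine (hs _ _).trans ?_
        rw [hsm0 a _ ha, hsm0 b _ hb]
        simp
      have h1 := hconv.monotoneOn_deriv (fun x _ => (b1 x).differentiableAt)
      rw [monotoneOn_univ] at h1
      have h2 : deriv (fun t : ℝ => N (w + t • v)) =
          fun t : ℝ => inner ℝ (gradient N (w + t • v)) v := funext fun t => (b1 t).deriv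
      rwa [h2] at h1
    have h5 : 0 ≤ inner ℝ (hess N w v) v := by
      have := mono.deriv_nonneg (x := 0)
      rwa [b2.deriv] at this
    rw [a3]
    positivity

theorem nrm2_sq (w : C2) : nrm2 w ^ 2 = w 2 ^ 2 + w 3 ^ 2 := Real.sq_sqrt (by positivity)

theorem nrm2_nonneg (w : C2) : 0 ≤ nrm2 w := Real.sqrt_nonneg _

theorem cs2 (v w : C2) : v 2 * w 2 + v 3 * w 3 ≤ nrm2 v * nrm2 w := by
  have h1 : (v 2 * w 2 + v 3 * w 3) ^ 2 ≤ (nrm2 v * nrm2 w) ^ 2 := by
    rw [mul_pow, nrm2_sq, nrm2_sq]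
    nlinarith [sq_nonneg (v 2 * w 3 - v 3 * w 2)]
  exact (abs_le_of_sq_le_sq' h1 (mul_nonneg (nrm2_nonneg v) (nrm2_nonneg w))).2

theorem nrm2_add (v w : C2) : nrm2 (v + w) ≤ nrm2 v + nrm2 w := by
  have h1 : nrm2 (v + w) ^ 2 ≤ (nrm2 v + nrm2 w) ^ 2 := by
    rw [add_sq, nrm2_sq, nrm2_sq, nrm2_sq]
    have := cs2 v w
    simp only [PiLp.add_apply]
    nlinarith
  exact (abs_le_of_sq_le_sq' h1 (add_nonneg (nrm2_nonneg v) (nrm2_nonneg w))).2

theorem nrm2_smul (c : ℝ) (w : C2) : nrm2 (c • w) = |c| * nrm2 w := by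
  unfold nrm2
  rw [← Real.sqrt_sq_eq_abs, ← Real.sqrt_mul (sq_nonneg c)]
  congr 1
  simp only [PiLp.smul_apply, smul_eq_mul]
  ring

/-- the three seminorms -/
noncomputable def av (p q s : ℝ) (w : C2) : Fin 3 → ℝ := ![p * |w 0|, s * |w 1|, q * nrm2 w]

theorem av_nonneg {p q s : ℝ} (hp : 0 < p) (hq : 0 < q) (hs : 0 < s) (w : C2) (i : Fin 3) :
    0 ≤ av p q s w i := by
  have := nrm2_nonneg w
  fin_cases i
  · show 0 ≤ p * |w 0|
    positivity
  · show 0 ≤ s * |w 1|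
    positivity
  · show 0 ≤ q * nrm2 w
    positivity

theorem av_add {p q s : ℝ} (hp : 0 < p) (hq : 0 < q) (hs : 0 < s) (v w : C2) (i : Fin 3) :
    av p q s (v + w) i ≤ av p q s v i + av p q s w i := by
  fin_cases i
  · show p * |v 0 + w 0| ≤ p * |v 0| + p * |w 0|
    rw [← mul_add]
    exact mul_le_mul_of_nonneg_left (abs_add_le _ _) hp.le
  · show s * |v 1 + w 1| ≤ s * |v 1| + s * |w 1|
    rw [← mul_add]
    exact mul_le_mul_of_nonneg_left (abs_add_le _ _) hs.le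
  · show q * nrm2 (v + w) ≤ q * nrm2 v + q * nrm2 w
    rw [← mul_add]
    exact mul_le_mul_of_nonneg_left (nrm2_add _ _) hq.le

theorem crossP_eq {p q s : ℝ} (m : ℕ) (w : C2) :
    crossP p q s m w = (∑ i, |av p q s w i| ^ (2 * m : ℝ)) ^ (1 / (2 * m : ℝ)) := by
  unfold crossP
  congr 1
  have h : ∀ x : ℝ, |x| ^ (2 * m : ℝ) = (x ^ 2) ^ m := by
    intro x
    have : (2 * m : ℝ) = ((2 * m : ℕ) : ℝ) := by push_cast; ring
    rw [this, Real.rpow_natCast, pow_mul, sq_abs]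
  simp only [h, Fin.sum_univ_three]
  have e0 : av p q s w 0 = p * |w 0| := rfl
  have e1 : av p q s w 1 = s * |w 1| := rfl
  have e2 : av p q s w 2 = q * nrm2 w := rfl
  rw [e0, e1, e2]
  simp only [mul_pow, sq_abs, nrm2_sq]

theorem crossP_smul {p q s : ℝ} (m : ℕ) (hm : 1 ≤ m) (c : ℝ) (hc : 0 < c) (w : C2) :
    crossP p q s m (c • w) = c * crossP p q s m w := by
  have hm0 : (2 * m : ℝ) ≠ 0 := by positivity
  unfold crossP
  have h1 : (p ^ 2 * (c • w) 0 ^ 2) ^ m + (s ^ 2 * (c • w) 1 ^ 2) ^ m +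
      (q ^ 2 * ((c • w) 2 ^ 2 + (c • w) 3 ^ 2)) ^ m =
      c ^ (2 * m) * ((p ^ 2 * w 0 ^ 2) ^ m + (s ^ 2 * w 1 ^ 2) ^ m +
        (q ^ 2 * (w 2 ^ 2 + w 3 ^ 2)) ^ m) := by
    have e : ∀ x y : ℝ, x = c ^ 2 * y → x ^ m = (c ^ 2) ^ m * y ^ m := by
      intro x y h
      rw [h, mul_pow]
    simp only [PiLp.smul_apply, smul_eq_mul]
    rw [pow_mul,
      e (p ^ 2 * (c * w 0) ^ 2) (p ^ 2 * w 0 ^ 2) (by ring),
      e (s ^ 2 * (c * w 1) ^ 2) (s ^ 2 * w 1 ^ 2) (by ring),
      e (q ^ 2 * ((c * w 2) ^ 2 + (c * w 3) ^ 2)) (q ^ 2 * (w 2 ^ 2 + w 3 ^ 2)) (by ring)]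
    ring
  rw [h1, Real.mul_rpow (by positivity) (by positivity)]
  congr 1
  have h2 : c ^ (2 * m) = c ^ (2 * m : ℝ) := by
    rw [← Real.rpow_natCast]
    push_cast
    rfl
  rw [h2, ← Real.rpow_mul hc.le, mul_one_div_cancel hm0, Real.rpow_one]

theorem poly_pos {p q s : ℝ} (hp : 0 < p) (hq : 0 < q) (hs : 0 < s) (m : ℕ) (w : C2)
    (hw : w ≠ 0) :
    0 < (p ^ 2 * w 0 ^ 2) ^ m + (s ^ 2 * w 1 ^ 2) ^ m + (q ^ 2 * (w 2 ^ 2 + w 3 ^ 2)) ^ m := by
  have a0 : 0 ≤ (p ^ 2 * w 0 ^ 2) ^ m := by positivity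
  have a1 : 0 ≤ (s ^ 2 * w 1 ^ 2) ^ m := by positivity
  have a2 : 0 ≤ (q ^ 2 * (w 2 ^ 2 + w 3 ^ 2)) ^ m := by positivity
  by_cases h0 : w 0 = 0
  · by_cases h1 : w 1 = 0
    · by_cases h2 : w 2 = 0
      · by_cases h3 : w 3 = 0
        · exact absurd (C2_ext h0 h1 h2 h3) hw
        · have : 0 < (q ^ 2 * (w 2 ^ 2 + w 3 ^ 2)) ^ m := by positivity
          linarith
      · have : 0 < (q ^ 2 * (w 2 ^ 2 + w 3 ^ 2)) ^ m := by positivity
        linarith
    · have : 0 < (s ^ 2 * w 1 ^ 2) ^ m := by positivity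
      linarith
  · have : 0 < (p ^ 2 * w 0 ^ 2) ^ m := by positivity
    linarith

theorem crossP_nonneg (p q s : ℝ) (m : ℕ) (w : C2) : 0 ≤ crossP p q s m w := by
  unfold crossP
  positivity

theorem crossP_zero {p q s : ℝ} (m : ℕ) (hm : 1 ≤ m) : crossP p q s m 0 = 0 := by
  unfold crossP
  have hm' : m ≠ 0 := by omega
  have hm0 : (1 : ℝ) / (2 * m : ℝ) ≠ 0 := by positivity
  simp only [PiLp.zero_apply]
  norm_num [hm', Real.zero_rpow hm0]

theorem crossP_contDiffOn {p q s : ℝ} (hp : 0 < p) (hq : 0 < q) (hs : 0 < s) (m : ℕ) :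
    ContDiffOn ℝ 3 (crossP p q s m) {0}ᶜ := by
  intro w hw
  have hc : ∀ i : Fin 4, ContDiff ℝ 3 (fun w : C2 => w i) := fun i =>
    (EuclideanSpace.proj (𝕜 := ℝ) (ι := Fin 4) i).contDiff
  have h1 : ContDiff ℝ 3 (fun w : C2 => (p ^ 2 * w 0 ^ 2) ^ m + (s ^ 2 * w 1 ^ 2) ^ m +
      (q ^ 2 * (w 2 ^ 2 + w 3 ^ 2)) ^ m) :=
    (((contDiff_const.mul ((hc 0).pow 2)).pow m).add ((contDiff_const.mul ((hc 1).pow 2)).pow m)).add
      ((contDiff_const.mul (((hc 2).pow 2).add ((hc 3).pow 2))).pow m)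
  exact ((h1.contDiffAt).rpow_const_of_ne (poly_pos hp hq hs m w hw).ne').contDiffWithinAt

theorem crossP_add {p q s : ℝ} (hp : 0 < p) (hq : 0 < q) (hs : 0 < s) (m : ℕ) (hm : 1 ≤ m)
    (v w : C2) : crossP p q s m (v + w) ≤ crossP p q s m v + crossP p q s m w := by
  have hm1 : (1 : ℝ) ≤ 2 * m := by
    have : (1 : ℝ) ≤ m := by exact_mod_cast hm
    linarith
  rw [crossP_eq, crossP_eq, crossP_eq]
  refine le_trans ?_ (Real.Lp_add_le Finset.univ (av p q s v) (av p q s w) hm1)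
  refine Real.rpow_le_rpow (Finset.sum_nonneg fun i _ => by positivity) ?_ (by positivity)
  refine Finset.sum_le_sum fun i _ => ?_
  refine Real.rpow_le_rpow (abs_nonneg _) ?_ (by positivity)
  rw [abs_of_nonneg (av_nonneg hp hq hs _ i),
    abs_of_nonneg (add_nonneg (av_nonneg hp hq hs _ i) (av_nonneg hp hq hs _ i))]
  exact av_add hp hq hs v w i

theorem crossH_eq (p q s : ℝ) (w : C2) (i : Fin 3) : av p q s w i ≤ crossH p q s w := by
  unfold crossH
  fin_cases i
  · exact (le_max_left _ _).trans (le_max_left _ _)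
  · exact (le_max_right _ _).trans (le_max_left _ _)
  · exact le_max_right _ _

theorem crossH_nonneg {p q s : ℝ} (hp : 0 < p) (w : C2) : 0 ≤ crossH p q s w := by
  have h : p * |w 0| ≤ crossH p q s w := (le_max_left _ _).trans (le_max_left _ _)
  exact le_trans (by positivity) h

theorem crossH_le {p q s : ℝ} (m : ℕ) (hm : 1 ≤ m)
    (w : C2) : crossH p q s w ≤ crossP p q s m w := by
  have hm0 : (0 : ℝ) < 2 * m := by positivity
  have h : ∀ i, av p q s w i ≤ crossP p q s m w := by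
    intro i
    rw [crossP_eq]
    have h1 : |av p q s w i| ^ (2 * m : ℝ) ≤ ∑ i, |av p q s w i| ^ (2 * m : ℝ) :=
      Finset.single_le_sum (f := fun i => |av p q s w i| ^ (2 * m : ℝ))
        (fun i _ => by positivity) (Finset.mem_univ i)
    have h2 := Real.rpow_le_rpow (by positivity) h1 (z := 1 / (2 * m : ℝ)) (by positivity)
    rw [← Real.rpow_mul (abs_nonneg _), mul_one_div_cancel hm0.ne', Real.rpow_one] at h2
    exact (le_abs_self _).trans h2
  exact max_le (max_le (h 0) (h 1)) (h 2)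

theorem crossP_le {p q s : ℝ} (hp : 0 < p) (hq : 0 < q) (hs : 0 < s) (m : ℕ) (hm : 1 ≤ m)
    (w : C2) : crossP p q s m w ≤ (3 : ℝ) ^ (1 / (2 * m : ℝ)) * crossH p q s w := by
  have hm0 : (0 : ℝ) < 2 * m := by positivity
  have hH := crossH_nonneg (q := q) (s := s) hp w
  rw [crossP_eq]
  have h1 : ∑ i, |av p q s w i| ^ (2 * m : ℝ) ≤ 3 * crossH p q s w ^ (2 * m : ℝ) := by
    have : ∀ i ∈ (Finset.univ : Finset (Fin 3)), |av p q s w i| ^ (2 * m : ℝ) ≤
        crossH p q s w ^ (2 * m : ℝ) := by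
      intro i _
      refine Real.rpow_le_rpow (abs_nonneg _) ?_ hm0.le
      rw [abs_of_nonneg (av_nonneg hp hq hs w i)]
      exact crossH_eq p q s w i
    have h2 := Finset.sum_le_card_nsmul _ _ _ this
    simpa using h2
  refine (Real.rpow_le_rpow (Finset.sum_nonneg fun i _ => by positivity) h1
    (by positivity)).trans ?_
  rw [Real.mul_rpow (by norm_num) (by positivity), ← Real.rpow_mul hH,
    mul_one_div_cancel hm0.ne', Real.rpow_one]

theorem norm_le_crossH {p q s : ℝ} (hp : 0 < p) (hq : 0 < q) (hs : 0 < s) (w : C2) :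
    ‖w‖ ≤ (1 / p + 1 / s + 1 / q) * crossH p q s w := by
  have h0 : p * |w 0| ≤ crossH p q s w := crossH_eq p q s w 0
  have h1 : s * |w 1| ≤ crossH p q s w := crossH_eq p q s w 1
  have h2 : q * nrm2 w ≤ crossH p q s w := crossH_eq p q s w 2
  have hn := nrm2_nonneg w
  have h3 : ‖w‖ ≤ |w 0| + |w 1| + nrm2 w := by
    have e : ‖w‖ ^ 2 ≤ (|w 0| + |w 1| + nrm2 w) ^ 2 := by
      rw [C2_norm_sq]
      have := nrm2_sq w
      have a0 := abs_nonneg (w 0)
      have a1 := abs_nonneg (w 1)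
      have b0 := sq_abs (w 0)
      have b1 := sq_abs (w 1)
      nlinarith [mul_nonneg a0 a1, mul_nonneg a0 hn, mul_nonneg a1 hn]
    exact (abs_le_of_sq_le_sq' e (by positivity)).2
  have e0 : |w 0| ≤ 1 / p * crossH p q s w := by
    rw [one_div, inv_mul_eq_div, le_div_iff₀ hp, mul_comm]
    exact h0
  have e1 : |w 1| ≤ 1 / s * crossH p q s w := by
    rw [one_div, inv_mul_eq_div, le_div_iff₀ hs, mul_comm]
    exact h1
  have e2 : nrm2 w ≤ 1 / q * crossH p q s w := by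
    rw [one_div, inv_mul_eq_div, le_div_iff₀ hq, mul_comm]
    exact h2
  calc ‖w‖ ≤ |w 0| + |w 1| + nrm2 w := h3
    _ ≤ _ := by
      rw [add_mul, add_mul]
      linarith

theorem crossH_le_norm {p q s : ℝ} (hp : 0 < p) (hq : 0 < q) (hs : 0 < s) (w : C2) :
    crossH p q s w ≤ (p + q + s) * ‖w‖ := by
  have hw := norm_nonneg w
  have e0 : |w 0| ≤ ‖w‖ := by
    apply abs_le_of_sq_le_sq _ hw
    rw [C2_norm_sq]
    nlinarith [sq_nonneg (w 1), sq_nonneg (w 2), sq_nonneg (w 3)]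
  have e1 : |w 1| ≤ ‖w‖ := by
    apply abs_le_of_sq_le_sq _ hw
    rw [C2_norm_sq]
    nlinarith [sq_nonneg (w 0), sq_nonneg (w 2), sq_nonneg (w 3)]
  have e2 : nrm2 w ≤ ‖w‖ := by
    refine (le_abs_self _).trans (abs_le_of_sq_le_sq ?_ hw)
    rw [C2_norm_sq, nrm2_sq]
    nlinarith [sq_nonneg (w 0), sq_nonneg (w 1)]
  unfold crossH
  refine max_le (max_le ?_ ?_) ?_
  · nlinarith [mul_le_mul_of_nonneg_left e0 hp.le, mul_nonneg hq.le hw, mul_nonneg hs.le hw]
  · nlinarith [mul_le_mul_of_nonneg_left e1 hs.le, mul_nonneg hq.le hw, mul_nonneg hp.le hw]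
  · nlinarith [mul_le_mul_of_nonneg_left e2 hq.le, mul_nonneg hp.le hw, mul_nonneg hs.le hw]

/-- the approximating support functions -/
noncomputable def hA (p q s : ℝ) (m : ℕ) (w : C2) : ℝ :=
  crossP p q s (m + 1) w + (1 / ((m : ℝ) + 1)) * ‖w‖

/-- the ratio -/
noncomputable def kA (p q s : ℝ) (m : ℕ) : ℝ :=
  (3 : ℝ) ^ (1 / (2 * ((m + 1 : ℕ) : ℝ))) + 1 / ((m : ℝ) + 1) * (1 / p + 1 / s + 1 / q)

theorem hA_le {p q s : ℝ} (hp : 0 < p) (hq : 0 < q) (hs : 0 < s) (m : ℕ) (w : C2) :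
    hA p q s m w ≤ kA p q s m * crossH p q s w := by
  unfold hA kA
  rw [add_mul]
  refine add_le_add (crossP_le hp hq hs (m + 1) (by omega) w) ?_
  rw [mul_assoc]
  exact mul_le_mul_of_nonneg_left (norm_le_crossH hp hq hs w) (by positivity)

theorem le_hA {p q s : ℝ} (m : ℕ) (w : C2) : crossH p q s w ≤ hA p q s m w := by
  unfold hA
  have h1 := crossH_le (p := p) (q := q) (s := s) (m + 1) (by omega) w
  have h2 : 0 ≤ (1 / ((m : ℝ) + 1)) * ‖w‖ := by positivity
  linarith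

theorem one_le_kA {p q s : ℝ} (hp : 0 < p) (hq : 0 < q) (hs : 0 < s) (m : ℕ) :
    1 ≤ kA p q s m := by
  unfold kA
  have h1 : (1 : ℝ) ≤ (3 : ℝ) ^ (1 / (2 * ((m + 1 : ℕ) : ℝ))) :=
    Real.one_le_rpow (by norm_num) (by positivity)
  have h2 : 0 ≤ 1 / ((m : ℝ) + 1) * (1 / p + 1 / s + 1 / q) := by positivity
  linarith

theorem kA_tendsto (p q s : ℝ) : Tendsto (kA p q s) atTop (nhds 1) := by
  have h1 : Tendsto (fun m : ℕ => 1 / ((m : ℝ) + 1)) atTop (nhds 0) :=
    tendsto_one_div_add_atTop_nhds_zero_nat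
  have h2 : Tendsto (fun m : ℕ => 1 / (2 * ((m + 1 : ℕ) : ℝ))) atTop (nhds 0) := by
    have := h1.const_mul (1 / 2 : ℝ)
    rw [mul_zero] at this
    refine this.congr fun m => ?_
    push_cast
    rw [one_div_mul_one_div]
  have h3 : Tendsto (fun m : ℕ => (3 : ℝ) ^ (1 / (2 * ((m + 1 : ℕ) : ℝ)))) atTop (nhds 1) := by
    have h4 := (Real.continuousAt_const_rpow (a := 3) (b := 0) (by norm_num)).tendsto.comp h2
    rw [Real.rpow_zero] at h4
    exact h4
  have h5 := h3.add (h1.mul_const (1 / p + 1 / s + 1 / q))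
  rw [zero_mul, add_zero] at h5
  exact h5

theorem hA_tendsto {p q s : ℝ} (hp : 0 < p) (hq : 0 < q) (hs : 0 < s) (w : C2) :
    Tendsto (fun m => hA p q s m w) atTop (nhds (crossH p q s w)) := by
  have h1 := (kA_tendsto p q s).mul_const (crossH p q s w)
  rw [one_mul] at h1
  exact tendsto_of_tendsto_of_tendsto_of_le_of_le tendsto_const_nhds h1
    (fun m => le_hA m w) (fun m => hA_le hp hq hs m w)

theorem hA_supp {p q s : ℝ} (hp : 0 < p) (hq : 0 < q) (hs : 0 < s) (m : ℕ) :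
    SmoothSupp (hA p q s m) :=
  smoothSupp_of (crossP_contDiffOn hp hq hs (m + 1)) (crossP_zero (m + 1) (by omega))
    (fun c w hc => crossP_smul (m + 1) (by omega) c hc w) (crossP_nonneg p q s (m + 1))
    (crossP_add hp hq hs (m + 1) (by omega)) _ (by positivity)

theorem wulff_norm {h : C2 → ℝ} {R : ℝ} (hR : ∀ w, h w ≤ R * ‖w‖) {x : C2}
    (hx : x ∈ wulff h) : ‖x‖ ≤ R := by
  have h1 := (hx x).trans (hR x)
  rw [real_inner_self_eq_norm_sq, pow_two] at h1
  rcases (norm_nonneg x).eq_or_lt with h0 | h0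
  · by_contra h2
    push Not at h2
    rw [← h0] at h2
    -- `R < 0`
    have e1 := hR (EuclideanSpace.single 0 1)
    have e2 := hx (EuclideanSpace.single 0 1)
    have e3 : x = 0 := norm_eq_zero.mp h0.symm
    rw [e3, inner_zero_left] at e2
    have e4 : ‖(EuclideanSpace.single 0 1 : C2)‖ = 1 := by simp
    rw [e4] at e1
    linarith
  · exact le_of_mul_le_mul_right h1 h0

/-- the approximating bodies -/
noncomputable def bA {p q s : ℝ} (hp : 0 < p) (hq : 0 < q) (hs : 0 < s) (m : ℕ) : Body :=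
  wbody (hA p q s m) (hA_supp hp hq hs m)

theorem bA_tendsto {p q s : ℝ} (hp : 0 < p) (hq : 0 < q) (hs : 0 < s) (K : Body)
    (hK : pts K = crossSet p q s) : Tendsto (bA hp hq hs) atTop (nhds K) := by
  rw [cross_eq_wulff p q s hp hq hs] at hK
  rw [tendsto_iff_dist_tendsto_zero]
  have hb : ∀ m, dist (bA hp hq hs m) K ≤ (kA p q s m - 1) * (p + q + s) := by
    intro m
    have hk := one_le_kA hp hq hs m
    refine hausdorffDist_le_of_mem_dist (mul_nonneg (by linarith) (by positivity)) ?_ ?_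
    · intro x hx
      have hx' : x ∈ wulff (hA p q s m) := hx
      have hk0 : kA p q s m ≠ 0 := by linarith
      have hy : (kA p q s m)⁻¹ • x ∈ wulff (crossH p q s) := by
        intro w
        rw [real_inner_smul_left]
        have h1 := (hx' w).trans (hA_le hp hq hs m w)
        calc (kA p q s m)⁻¹ * inner ℝ x w ≤ (kA p q s m)⁻¹ * (kA p q s m * crossH p q s w) :=
              mul_le_mul_of_nonneg_left h1 (by positivity)
          _ = crossH p q s w := by field_simp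
      refine ⟨(kA p q s m)⁻¹ • x, ?_, ?_⟩
      · have : (kA p q s m)⁻¹ • x ∈ pts K := by rw [hK]; exact hy
        exact this
      · have e : x - (kA p q s m)⁻¹ • x = (kA p q s m - 1) • ((kA p q s m)⁻¹ • x) := by
          rw [smul_smul, ← sub_eq_zero]
          have : x = (1 : ℝ) • x := (one_smul _ _).symm
          conv_lhs => rw [this]
          rw [smul_smul, smul_smul, ← sub_smul, ← sub_smul]
          have : 1 - (kA p q s m)⁻¹ * 1 - (kA p q s m - 1) * (kA p q s m)⁻¹ * 1 = 0 := by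
            field_simp
            ring
          rw [this, zero_smul]
        rw [dist_eq_norm, e, norm_smul, Real.norm_eq_abs, abs_of_nonneg (by linarith)]
        exact mul_le_mul_of_nonneg_left (wulff_norm (crossH_le_norm hp hq hs) hy) (by linarith)
    · intro x hx
      refine ⟨x, ?_, ?_⟩
      · have h1 : x ∈ pts K := hx
        rw [hK] at h1
        have h2 : x ∈ wulff (hA p q s m) := fun w => (h1 w).trans (le_hA m w)
        exact h2
      · rw [dist_self]
        exact mul_nonneg (by linarith) (by positivity)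
  have h1 := ((kA_tendsto p q s).sub_const 1).mul_const (p + q + s)
  rw [sub_self, zero_mul] at h1
  exact squeeze_zero (fun m => dist_nonneg) hb h1


theorem gauss_moment : ∫ r in Ioi (0 : ℝ), Real.exp (-r ^ 2) * r ^ ((2 : ℤ) + 3) = 1 := by
  have h1 := integral_rpow_mul_exp_neg_rpow (p := 2) (q := 5) (by norm_num) (by norm_num)
  have h2 : Real.Gamma (((5 : ℝ) + 1) / 2) = 2 := by
    have : ((5 : ℝ) + 1) / 2 = ((2 : ℕ) : ℝ) + 1 := by norm_num
    rw [this, Real.Gamma_nat_eq_factorial]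
    norm_num [Nat.factorial]
  rw [h2] at h1
  have h3 : ∫ r in Ioi (0 : ℝ), Real.exp (-r ^ 2) * r ^ ((2 : ℤ) + 3) =
      ∫ r in Ioi (0 : ℝ), r ^ (5 : ℝ) * Real.exp (-r ^ (2 : ℝ)) := by
    refine setIntegral_congr_fun measurableSet_Ioi fun r _ => ?_
    have e1 : r ^ (5 : ℝ) = r ^ ((2 : ℤ) + 3) := by
      have : (5 : ℝ) = ((5 : ℕ) : ℝ) := by norm_num
      rw [this, Real.rpow_natCast]
      norm_cast
    have e2 : r ^ (2 : ℝ) = r ^ 2 := Real.rpow_two r
    show Real.exp (-r ^ 2) * r ^ ((2 : ℤ) + 3) = r ^ (5 : ℝ) * Real.exp (-r ^ (2 : ℝ))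
    rw [e1, e2, mul_comm]
  rw [h3, h1]
  norm_num

/-- the first order form of the integrand -/
noncomputable def Fd (w X : C2) : ℝ := ‖w‖ ^ 2 * ‖X‖ ^ 2 - 4 * inner ℝ X (J w) ^ 2

theorem G_int {h : C2 → ℝ} (hs : SmoothSupp h) (K : Body) (hK : pts K = wulff h) :
    2 * Real.pi * (4 * Mu J K - V2 K) = ∫ w : C2, Real.exp (-‖w‖ ^ 2) * Fd w (gradient h w) := by
  have hJ : ∀ x, JL (JL x) = -x := fun x => J_J x
  have h1 := G_smooth hs K hK JL hJ
  have h2 : Mu (JL : C2 → C2) K = Mu J K := rfl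
  rw [h2, sph_GU hs JL hJ] at h1
  rw [h1]
  have h3 := polar (fun w => Fd w (gradient h w)) 2 (fun c w hc hw => by
    show Fd (c • w) (gradient h (c • w)) = c ^ (2 : ℤ) * Fd w (gradient h w)
    unfold Fd
    rw [hs.gradient_smul c hc w hw, J_smul, norm_smul, inner_smul_right, Real.norm_eq_abs,
      mul_pow, sq_abs, zpow_ofNat]
    ring) (fun r => Real.exp (-r ^ 2))
  rw [h3, gauss_moment, one_mul]
  refine sph_congr _ _ fun n hn => ?_
  show ‖gradient h n‖ ^ 2 - 4 * inner ℝ (gradient h n) (JL n) ^ 2 = Fd n (gradient h n)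
  unfold Fd
  rw [hn]
  have : JL n = J n := rfl
  rw [this]
  ring

/-- a null set -/
theorem null_of {g : C2 → ℝ} (hg : ConvexOn ℝ univ g) {a : ℝ} (ha : 0 < a) (i : Fin 4)
    (hi : ∀ (w : C2) (t : ℝ), g (w - t • EuclideanSpace.single i (1 : ℝ)) = g w) :
    volume {w : C2 | a * |w i| = g w} = 0 := by
  have key : ∀ σ : ℝ, (σ = 1 ∨ σ = -1) →
      volume (frontier {w : C2 | g w - a * (σ * w i) ≤ 0}) = 0 := by
    intro σ _
    refine Convex.addHaar_frontier volume ?_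
    have hlin : ConvexOn ℝ univ (fun w : C2 => g w - a * (σ * w i)) := by
      have h1 : ConcaveOn ℝ univ (fun w : C2 => a * (σ * w i)) := by
        refine ⟨convex_univ, fun x _ y _ b c _ _ _ => ?_⟩
        simp only [PiLp.add_apply, PiLp.smul_apply, smul_eq_mul]
        apply le_of_eq
        ring
      exact hg.sub h1
    have := hlin.convex_le 0
    simpa using this
  have hsub : {w : C2 | a * |w i| = g w} ⊆
      frontier {w : C2 | g w - a * ((1 : ℝ) * w i) ≤ 0} ∪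
      frontier {w : C2 | g w - a * ((-1 : ℝ) * w i) ≤ 0} := by
    intro w hw
    have hw' : a * |w i| = g w := hw
    have main : ∀ σ : ℝ, (σ = 1 ∨ σ = -1) → |w i| = σ * w i →
        w ∈ frontier {w : C2 | g w - a * (σ * w i) ≤ 0} := by
      intro σ hσ habs
      have hσ2 : σ * σ = 1 := by rcases hσ with rfl | rfl <;> norm_num
      refine ⟨subset_closure ?_, ?_⟩
      · show g w - a * (σ * w i) ≤ 0
        rw [← habs, hw', sub_self]
      · intro hint
        rw [mem_interior_iff_mem_nhds, Metric.mem_nhds_iff] at hint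
        obtain ⟨ε, hε, hball⟩ := hint
        have h1 : w - (ε / 2 * σ) • EuclideanSpace.single i (1 : ℝ) ∈ ball w ε := by
          rw [mem_ball, dist_eq_norm, sub_sub_cancel_left, norm_neg, norm_smul,
            PiLp.norm_single, norm_one, mul_one, Real.norm_eq_abs, abs_mul]
          have : |σ| = 1 := by rcases hσ with rfl | rfl <;> norm_num
          rw [this, mul_one, abs_of_pos (by positivity)]
          linarith
        have h2 := hball h1
        have h3 : g (w - (ε / 2 * σ) • EuclideanSpace.single i (1 : ℝ)) -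
          a * (σ * (w - (ε / 2 * σ) • EuclideanSpace.single i (1 : ℝ)) i) ≤ 0 := h2
        rw [hi] at h3
        have h4 : (w - (ε / 2 * σ) • EuclideanSpace.single i (1 : ℝ)) i = w i - ε / 2 * σ := by
          simp
        rw [h4, ← hw', habs] at h3
        have h5 : a * (σ * w i) - a * (σ * (w i - ε / 2 * σ)) = a * (ε / 2) := by
          calc a * (σ * w i) - a * (σ * (w i - ε / 2 * σ)) = a * (ε / 2) * (σ * σ) := by ring
            _ = a * (ε / 2) := by rw [hσ2, mul_one]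
        rw [h5] at h3
        have : 0 < a * (ε / 2) := by positivity
        linarith
    rcases abs_choice (w i) with h | h
    · exact Or.inl (main 1 (Or.inl rfl) (by rw [h, one_mul]))
    · exact Or.inr (main (-1) (Or.inr rfl) (by rw [h]; ring))
  refine measure_mono_null hsub (measure_union_null ?_ ?_)
  · exact key 1 (Or.inl rfl)
  · exact key (-1) (Or.inr rfl)


theorem inner_Jw (X w : C2) :
    inner ℝ X (J w) = -(X 0 * w 1) + X 1 * w 0 - (X 2 * w 3 - X 3 * w 2) := by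
  rw [C2_inner]
  simp only [J_apply0, J_apply1, J_apply2, J_apply3]
  ring

theorem two_zero {a b x y : ℝ} (hx : 0 ≤ x) (hy : 0 ≤ y) (ha : 0 < a) (hb : 0 < b)
    (h : x * a + y * b ≤ 0) : x = 0 ∧ y = 0 := by
  have h1 := mul_nonneg hx ha.le
  have h2 := mul_nonneg hy hb.le
  have e1 : x * a = 0 := by linarith
  have e2 : y * b = 0 := by linarith
  exact ⟨(mul_eq_zero.mp e1).resolve_right ha.ne', (mul_eq_zero.mp e2).resolve_right hb.ne'⟩

/-- the extreme points of the faces -/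
theorem Fd_eq {p q s : ℝ} (hp : 0 < p) (hq : 0 < q) (hs : 0 < s) (w X : C2)
    (hX : |X 0| / p + |X 1| / s + nrm2 X / q ≤ 1) (he : inner ℝ X w = crossH p q s w)
    (h1 : s * |w 1| ≠ p * |w 0|) (h2 : q * nrm2 w ≠ p * |w 0|) (h3 : q * nrm2 w ≠ s * |w 1|) :
    Fd w X = crossD p q s w := by
  set α := |X 0| / p with hα
  set β := |X 1| / s with hβ
  set γ := nrm2 X / q with hγ
  have hnX := nrm2_nonneg X
  have hnw := nrm2_nonneg w
  have hα0 : 0 ≤ α := by positivity
  have hβ0 : 0 ≤ β := by positivity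
  have hγ0 : 0 ≤ γ := by positivity
  have eα : |X 0| = α * p := by rw [hα]; field_simp
  have eβ : |X 1| = β * s := by rw [hβ]; field_simp
  have eγ : nrm2 X = γ * q := by rw [hγ]; field_simp
  have hin : inner ℝ X w = X 0 * w 0 + X 1 * w 1 + (X 2 * w 2 + X 3 * w 3) := by
    rw [C2_inner]
    ring
  have hle : inner ℝ X w ≤ α * (p * |w 0|) + β * (s * |w 1|) + γ * (q * nrm2 w) := by
    rw [hin]
    have t0 : X 0 * w 0 ≤ α * (p * |w 0|) := by
      calc X 0 * w 0 ≤ |X 0 * w 0| := le_abs_self _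
        _ = |X 0| * |w 0| := abs_mul _ _
        _ = α * (p * |w 0|) := by rw [eα]; ring
    have t1 : X 1 * w 1 ≤ β * (s * |w 1|) := by
      calc X 1 * w 1 ≤ |X 1 * w 1| := le_abs_self _
        _ = |X 1| * |w 1| := abs_mul _ _
        _ = β * (s * |w 1|) := by rw [eβ]; ring
    have t2 : X 2 * w 2 + X 3 * w 3 ≤ γ * (q * nrm2 w) := by
      calc X 2 * w 2 + X 3 * w 3 ≤ nrm2 X * nrm2 w := cs2 X w
        _ = γ * (q * nrm2 w) := by rw [eγ]; ring
    linarith
  have z0 : α = 0 → X 0 = 0 := fun h => abs_eq_zero.mp (by rw [eα, h, zero_mul])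
  have z1 : β = 0 → X 1 = 0 := fun h => abs_eq_zero.mp (by rw [eβ, h, zero_mul])
  have z2 : γ = 0 → X 2 = 0 ∧ X 3 = 0 := fun h => by
    have h4 : nrm2 X ^ 2 = 0 := by rw [eγ, h, zero_mul, zero_pow two_ne_zero]
    rw [nrm2_sq] at h4
    constructor <;> nlinarith [sq_nonneg (X 2), sq_nonneg (X 3)]
  have a0 : 0 ≤ p * |w 0| := by positivity
  have a1 : 0 ≤ s * |w 1| := by positivity
  have a2 : 0 ≤ q * nrm2 w := by positivity
  unfold crossD
  split_ifs with c1 c2
  · have k1 : s * |w 1| < p * |w 0| := lt_of_le_of_ne c1.1 h1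
    have k2 : q * nrm2 w < p * |w 0| := lt_of_le_of_ne c1.2 h2
    have hH : crossH p q s w = p * |w 0| := by
      unfold crossH
      rw [max_eq_left k1.le, max_eq_left k2.le]
    rw [he, hH] at hle
    obtain ⟨b0, g0⟩ := two_zero (a := p * |w 0| - s * |w 1|) (b := p * |w 0| - q * nrm2 w)
      hβ0 hγ0 (by linarith) (by linarith) (by nlinarith)
    have x1 := z1 b0
    obtain ⟨x2, x3⟩ := z2 g0
    have e0 : X 0 * w 0 = p * |w 0| := by
      rw [← hH, ← he, hin, x1, x2, x3]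
      ring
    have w0 : w 0 ≠ 0 := by
      intro h
      rw [h, abs_zero, mul_zero] at k1
      linarith
    have e1 : X 0 ^ 2 = p ^ 2 := by
      have : X 0 ^ 2 * w 0 ^ 2 = p ^ 2 * w 0 ^ 2 := by
        rw [← mul_pow, e0, mul_pow, sq_abs]
      exact mul_right_cancel₀ (pow_ne_zero 2 w0) this
    have e2 : ‖X‖ ^ 2 = p ^ 2 := by
      rw [C2_norm_sq, x1, x2, x3, e1]
      ring
    unfold Fd
    rw [e2, inner_Jw, x1, x2, x3]
    linear_combination (-4 * w 1 ^ 2) * e1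
  · have k1 : q * nrm2 w < s * |w 1| := lt_of_le_of_ne c2 h3
    have k2 : p * |w 0| < s * |w 1| := by
      rcases lt_or_gt_of_ne h1 with h | h
      · exact absurd ⟨h.le, by linarith⟩ c1
      · exact h
    have hH : crossH p q s w = s * |w 1| := by
      unfold crossH
      rw [max_eq_right k2.le, max_eq_left k1.le]
    rw [he, hH] at hle
    obtain ⟨b0, g0⟩ := two_zero (a := s * |w 1| - p * |w 0|) (b := s * |w 1| - q * nrm2 w)
      hα0 hγ0 (by linarith) (by linarith) (by nlinarith)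
    have x0 := z0 b0
    obtain ⟨x2, x3⟩ := z2 g0
    have e0 : X 1 * w 1 = s * |w 1| := by
      rw [← hH, ← he, hin, x0, x2, x3]
      ring
    have w1 : w 1 ≠ 0 := by
      intro h
      rw [h, abs_zero, mul_zero] at k1
      linarith
    have e1 : X 1 ^ 2 = s ^ 2 := by
      have : X 1 ^ 2 * w 1 ^ 2 = s ^ 2 * w 1 ^ 2 := by
        rw [← mul_pow, e0, mul_pow, sq_abs]
      exact mul_right_cancel₀ (pow_ne_zero 2 w1) this
    have e2 : ‖X‖ ^ 2 = s ^ 2 := by
      rw [C2_norm_sq, x0, x2, x3, e1]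
      ring
    unfold Fd
    rw [e2, inner_Jw, x0, x2, x3]
    linear_combination (-4 * w 0 ^ 2) * e1
  · have k1 : s * |w 1| < q * nrm2 w := lt_of_not_ge c2
    have k2 : p * |w 0| < q * nrm2 w := by
      rcases lt_or_gt_of_ne h2 with h | h
      · exact absurd ⟨by linarith, h.le⟩ c1
      · exact h
    have hH : crossH p q s w = q * nrm2 w := by
      unfold crossH
      exact max_eq_right (max_le k2.le k1.le)
    rw [he, hH] at hle
    obtain ⟨b0, g0⟩ := two_zero (a := q * nrm2 w - p * |w 0|) (b := q * nrm2 w - s * |w 1|)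
      hα0 hβ0 (by linarith) (by linarith) (by nlinarith)
    have x0 := z0 b0
    have x1 := z1 g0
    have wpos : 0 < nrm2 w := by
      by_contra h
      have : nrm2 w = 0 := le_antisymm (not_lt.mp h) hnw
      rw [this, mul_zero] at k1
      linarith
    have e0 : X 2 * w 2 + X 3 * w 3 = q * nrm2 w := by
      rw [← hH, ← he, hin, x0, x1]
      ring
    have e3 : nrm2 X = q := by
      have t1 : nrm2 X ≤ q := by
        rw [eγ]
        have : γ ≤ 1 := by linarith
        nlinarith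
      have t2 : q * nrm2 w ≤ nrm2 X * nrm2 w := by
        rw [← e0]
        exact cs2 X w
      exact le_antisymm t1 (le_of_mul_le_mul_right t2 wpos)
    have e4 : X 2 ^ 2 + X 3 ^ 2 = q ^ 2 := by rw [← nrm2_sq, e3]
    have e5 := nrm2_sq w
    have e6 : (X 2 * w 3 - X 3 * w 2) ^ 2 = 0 := by
      have t1 : (X 2 * w 2 + X 3 * w 3) ^ 2 = q ^ 2 * (w 2 ^ 2 + w 3 ^ 2) := by
        rw [e0, mul_pow, e5]
      linear_combination (w 2 ^ 2 + w 3 ^ 2) * e4 - t1
    have e7 : X 2 * w 3 - X 3 * w 2 = 0 := pow_eq_zero_iff two_ne_zero |>.mp e6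
    have e2 : ‖X‖ ^ 2 = q ^ 2 := by
      rw [C2_norm_sq, x0, x1, ← e4]
      ring
    unfold Fd
    rw [e2, inner_Jw, x0, x1, e7]
    ring

theorem kA_le {p q s : ℝ} (hp : 0 < p) (hq : 0 < q) (hs : 0 < s) (m : ℕ) :
    kA p q s m ≤ 3 + (1 / p + 1 / s + 1 / q) := by
  unfold kA
  have hm : (1 : ℝ) ≤ (m : ℝ) + 1 := by
    have : (0 : ℝ) ≤ m := m.cast_nonneg
    linarith
  have h1 : (3 : ℝ) ^ (1 / (2 * ((m + 1 : ℕ) : ℝ))) ≤ 3 := by
    have h2 : (3 : ℝ) ^ (1 / (2 * ((m + 1 : ℕ) : ℝ))) ≤ (3 : ℝ) ^ (1 : ℝ) := by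
      refine Real.rpow_le_rpow_of_exponent_le (by norm_num) ?_
      rw [div_le_one (by positivity)]
      push_cast
      linarith
    rwa [Real.rpow_one] at h2
  have h2 : 1 / ((m : ℝ) + 1) * (1 / p + 1 / s + 1 / q) ≤ 1 / p + 1 / s + 1 / q := by
    have h3 : 1 / ((m : ℝ) + 1) ≤ 1 := by
      rw [div_le_one (by positivity)]
      exact hm
    have h4 : 0 ≤ 1 / p + 1 / s + 1 / q := by positivity
    nlinarith
  linarith

theorem grad_le {p q s : ℝ} (hp : 0 < p) (hq : 0 < q) (hs : 0 < s) (m : ℕ) (w : C2)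
    (hw : w ≠ 0) : ‖gradient (hA p q s m) w‖ ≤
      (3 + (1 / p + 1 / s + 1 / q)) * (p + q + s) := by
  refine wulff_norm (h := hA p q s m) ?_ ((hA_supp hp hq hs m).gradient_mem hw)
  intro z
  have h1 := hA_le hp hq hs m z
  have h2 := kA_le hp hq hs m
  have h3 := crossH_le_norm hp hq hs z
  have h4 := crossH_nonneg (q := q) (s := s) hp z
  have h5 : 0 ≤ 3 + (1 / p + 1 / s + 1 / q) := by positivity
  calc hA p q s m z ≤ kA p q s m * crossH p q s z := h1
    _ ≤ (3 + (1 / p + 1 / s + 1 / q)) * crossH p q s z := mul_le_mul_of_nonneg_right h2 h4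
    _ ≤ (3 + (1 / p + 1 / s + 1 / q)) * ((p + q + s) * ‖z‖) := mul_le_mul_of_nonneg_left h3 h5
    _ = _ := by ring

theorem Fd_cont (w : C2) : Continuous (Fd w) := by
  unfold Fd
  fun_prop

theorem lim_Fd {p q s : ℝ} (hp : 0 < p) (hq : 0 < q) (hs : 0 < s) (w : C2)
    (h1 : s * |w 1| ≠ p * |w 0|) (h2 : q * nrm2 w ≠ p * |w 0|) (h3 : q * nrm2 w ≠ s * |w 1|) :
    Tendsto (fun m => Fd w (gradient (hA p q s m) w)) atTop (nhds (crossD p q s w)) := by
  have hw : w ≠ 0 := by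
    rintro rfl
    simp at h1
  refine tendsto_of_subseq_tendsto fun ns hns => ?_
  obtain ⟨X, _, φ, hφ, hlim⟩ := (isCompact_closedBall (0 : C2)
    ((3 + (1 / p + 1 / s + 1 / q)) * (p + q + s))).tendsto_subseq
      (x := fun k => gradient (hA p q s (ns k)) w) (fun k => by
        rw [mem_closedBall_zero_iff]
        exact grad_le hp hq hs (ns k) w hw)
  have hns' : Tendsto (fun k => ns (φ k)) atTop atTop := hns.comp hφ.tendsto_atTop
  have hXw : X ∈ wulff (crossH p q s) := by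
    intro z
    refine le_of_tendsto_of_tendsto' (hlim.inner tendsto_const_nhds)
      ((hA_tendsto hp hq hs z).comp hns') fun k => ?_
    exact (hA_supp hp hq hs (ns (φ k))).gradient_mem hw z
  have hXe : inner ℝ X w = crossH p q s w := by
    have e1 : Tendsto (fun k => inner ℝ (gradient (hA p q s (ns (φ k))) w) w) atTop
        (nhds (inner ℝ X w)) := hlim.inner tendsto_const_nhds
    have e2 : (fun k => inner ℝ (gradient (hA p q s (ns (φ k))) w) w) =
        fun k => hA p q s (ns (φ k)) w :=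
      funext fun k => (hA_supp hp hq hs (ns (φ k))).gradient_inner hw
    rw [e2] at e1
    exact tendsto_nhds_unique e1 ((hA_tendsto hp hq hs w).comp hns')
  refine ⟨φ, ?_⟩
  rw [← cross_eq_wulff p q s hp hq hs] at hXw
  have h4 : Fd w X = crossD p q s w := Fd_eq hp hq hs w X hXw hXe h1 h2 h3
  rw [← h4]
  exact ((Fd_cont w).tendsto X).comp hlim

theorem convexOn_abs (a : ℝ) (ha : 0 ≤ a) (i : Fin 4) :
    ConvexOn ℝ univ (fun w : C2 => a * |w i|) := by
  refine ⟨convex_univ, fun x _ y _ b c hb hc _ => ?_⟩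
  simp only [PiLp.add_apply, PiLp.smul_apply, smul_eq_mul]
  have h1 : |b * x i + c * y i| ≤ b * |x i| + c * |y i| := by
    refine (abs_add_le _ _).trans ?_
    rw [abs_mul, abs_mul, abs_of_nonneg hb, abs_of_nonneg hc]
  nlinarith [mul_le_mul_of_nonneg_left h1 ha]

theorem convexOn_nrm2 (a : ℝ) (ha : 0 ≤ a) : ConvexOn ℝ univ (fun w : C2 => a * nrm2 w) := by
  refine ⟨convex_univ, fun x _ y _ b c hb hc _ => ?_⟩
  simp only [smul_eq_mul]
  have h1 : nrm2 (b • x + c • y) ≤ b * nrm2 x + c * nrm2 y := by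
    refine (nrm2_add _ _).trans ?_
    rw [nrm2_smul, nrm2_smul, abs_of_nonneg hb, abs_of_nonneg hc]
  nlinarith [mul_le_mul_of_nonneg_left h1 ha]

theorem ae_ne {p q s : ℝ} (hp : 0 < p) (hq : 0 < q) (hs : 0 < s) :
    ∀ᵐ w : C2, s * |w 1| ≠ p * |w 0| ∧ q * nrm2 w ≠ p * |w 0| ∧ q * nrm2 w ≠ s * |w 1| := by
  have n1 : volume {w : C2 | p * |w 0| = s * |w 1|} = 0 := by
    refine null_of (convexOn_abs s hs.le 1) hp 0 fun w t => ?_
    simp
  have n2 : volume {w : C2 | p * |w 0| = q * nrm2 w} = 0 := by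
    refine null_of (convexOn_nrm2 q hq.le) hp 0 fun w t => ?_
    unfold nrm2
    simp
  have n3 : volume {w : C2 | s * |w 1| = q * nrm2 w} = 0 := by
    refine null_of (convexOn_nrm2 q hq.le) hs 1 fun w t => ?_
    unfold nrm2
    simp
  have m1 : ∀ᵐ w : C2, s * |w 1| ≠ p * |w 0| := by
    rw [ae_iff]
    refine measure_mono_null ?_ n1
    intro w hw
    have : ¬ s * |w 1| ≠ p * |w 0| := hw
    exact (not_not.mp this).symm
  have m2 : ∀ᵐ w : C2, q * nrm2 w ≠ p * |w 0| := by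
    rw [ae_iff]
    refine measure_mono_null ?_ n2
    intro w hw
    have : ¬ q * nrm2 w ≠ p * |w 0| := hw
    exact (not_not.mp this).symm
  have m3 : ∀ᵐ w : C2, q * nrm2 w ≠ s * |w 1| := by
    rw [ae_iff]
    refine measure_mono_null ?_ n3
    intro w hw
    have : ¬ q * nrm2 w ≠ s * |w 1| := hw
    exact (not_not.mp this).symm
  filter_upwards [m1, m2, m3] with w a b c
  exact ⟨a, b, c⟩

theorem ae_ne_zero : ∀ᵐ w : C2, w ≠ 0 := by
  rw [ae_iff]
  have : {w : C2 | ¬ w ≠ 0} = {0} := by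
    ext w
    simp
  rw [this]
  exact measure_singleton 0

theorem int_tendsto {p q s : ℝ} (hp : 0 < p) (hq : 0 < q) (hs : 0 < s) :
    Tendsto (fun m => ∫ w : C2, Real.exp (-‖w‖ ^ 2) * Fd w (gradient (hA p q s m) w)) atTop
      (nhds (∫ w : C2, Real.exp (-‖w‖ ^ 2) * crossD p q s w)) := by
  set R := (3 + (1 / p + 1 / s + 1 / q)) * (p + q + s) with hR
  have hR0 : 0 ≤ R := by positivity
  refine tendsto_integral_of_dominated_convergence
    (fun w : C2 => 5 * R ^ 2 * (‖w‖ ^ 2 * Real.exp (-‖w‖ ^ 2))) ?_ (I1_gauss.const_mul _) ?_ ?_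
  · intro m
    have h1 : ContinuousOn (fun w : C2 => Real.exp (-‖w‖ ^ 2) * Fd w (gradient (hA p q s m) w))
        {0}ᶜ := by
      have hg := gradient_continuousOn (hA_supp hp hq hs m)
      have hJc : Continuous J := JL.continuous
      unfold Fd
      refine ContinuousOn.mul (by fun_prop) (ContinuousOn.sub ?_ ?_)
      · exact ContinuousOn.mul (by fun_prop) (hg.norm.pow 2)
      · exact ContinuousOn.mul continuousOn_const ((hg.inner hJc.continuousOn).pow 2)
    have h2 := h1.aestronglyMeasurable (μ := (volume : Measure C2))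
      (measurableSet_singleton (0 : C2)).compl
    rwa [restrict_compl_singleton] at h2
  · intro m
    filter_upwards [ae_ne_zero] with w hw
    have h1 := grad_le hp hq hs m w hw
    rw [← hR] at h1
    set X := gradient (hA p q s m) w with hX
    have h2 : |inner ℝ X (J w)| ≤ ‖X‖ * ‖w‖ := by
      have := abs_real_inner_le_norm X (J w)
      rwa [J_norm] at this
    have h3 : |Fd w X| ≤ 5 * R ^ 2 * ‖w‖ ^ 2 := by
      unfold Fd
      have h4 : inner ℝ X (J w) ^ 2 ≤ (‖X‖ * ‖w‖) ^ 2 := by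
        rw [← sq_abs]
        exact pow_le_pow_left₀ (abs_nonneg _) h2 2
      have h5 : ‖X‖ ^ 2 ≤ R ^ 2 := pow_le_pow_left₀ (norm_nonneg _) h1 2
      have h6 : ‖X‖ ^ 2 * ‖w‖ ^ 2 ≤ R ^ 2 * ‖w‖ ^ 2 :=
        mul_le_mul_of_nonneg_right h5 (by positivity)
      have h7 : 0 ≤ ‖X‖ ^ 2 * ‖w‖ ^ 2 := by positivity
      have h8 : 0 ≤ inner ℝ X (J w) ^ 2 := sq_nonneg _
      rw [mul_pow] at h4
      rw [abs_le]
      constructor <;> nlinarith
    rw [norm_mul, Real.norm_eq_abs, Real.norm_eq_abs, abs_of_pos (Real.exp_pos _)]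
    calc Real.exp (-‖w‖ ^ 2) * |Fd w X| ≤ Real.exp (-‖w‖ ^ 2) * (5 * R ^ 2 * ‖w‖ ^ 2) :=
          mul_le_mul_of_nonneg_left h3 (Real.exp_pos _).le
      _ = 5 * R ^ 2 * (‖w‖ ^ 2 * Real.exp (-‖w‖ ^ 2)) := by ring
  · filter_upwards [ae_ne hp hq hs] with w hw
    exact (lim_Fd hp hq hs w hw.1 hw.2.1 hw.2.2).const_mul _

end UPB

open UPB

theorem crossP_smoothSupp (p q s : ℝ) (hp : 0 < p) (hq : 0 < q) (hs : 0 < s) (m : ℕ) (hm : 1 ≤ m)
    (δ : ℝ) (hδ : 0 < δ) : SmoothSupp (fun w => crossP p q s m w + δ * ‖w‖) :=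
  smoothSupp_of (crossP_contDiffOn hp hq hs m) (crossP_zero m hm)
    (fun c w hc => crossP_smul m hm c hc w) (crossP_nonneg p q s m)
    (crossP_add hp hq hs m hm) δ hδ

theorem cross_G (p q s : ℝ) (hp : 0 < p) (hq : 0 < q) (hs : 0 < s) (K : Body)
    (hK : pts K = crossSet p q s) :
    2 * Real.pi * (4 * Mu J K - V2 K) = ∫ w : C2, Real.exp (-‖w‖ ^ 2) * crossD p q s w := by
  have h1 : ∀ m, 2 * Real.pi * (4 * Mu J (bA hp hq hs m) - V2 (bA hp hq hs m)) =
      ∫ w : C2, Real.exp (-‖w‖ ^ 2) * Fd w (gradient (hA p q s m) w) := fun m =>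
    G_int (hA_supp hp hq hs m) (bA hp hq hs m) rfl
  have h2 : Continuous (fun K : Body => 2 * Real.pi * (4 * Mu J K - V2 K)) := by
    have e1 := I1_MuJ_cont
    have e2 : Continuous V2 := muab_continuous 1 1
    exact continuous_const.mul ((continuous_const.mul e1).sub e2)
  have h3 := (h2.tendsto K).comp (bA_tendsto hp hq hs K hK)
  have h4 : ((fun K : Body => 2 * Real.pi * (4 * Mu J K - V2 K)) ∘ bA hp hq hs) =
      fun m => ∫ w : C2, Real.exp (-‖w‖ ^ 2) * Fd w (gradient (hA p q s m) w) := funext h1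
  rw [h4] at h3
  exact tendsto_nhds_unique h3 (int_tendsto hp hq hs)

end Pool.Agent.HVM
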