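import Pool.Agent.HVM.Pert2
import Pool.Agent.HVM.AppB
import Pool.Agent.HVM.UpB
import Pool.Agent.Helper85.Cap.I1
import Pool.Agent.Helper85.Cap.G4

/-! # First order formula for all bodies (module CAPF) -/

set_option autoImplicit false

namespace Pool.Agent.HVM

open MeasureTheory Metric Set Filter
open Pool.Agent.Helper85.Herm Pool.Agent.Helper85.Cap

/-- for almost every direction the maximiser is unique -/
theorem ae_unique_max (K : Body) : ∀ᵐ w : C2, ∀ x ∈ pts K, ∀ y ∈ pts K,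
    (∀ z ∈ pts K, inner ℝ z w ≤ inner ℝ x w) → (∀ z ∈ pts K, inner ℝ z w ≤ inner ℝ y w) →
    x = y := by
  have hcpt : IsCompact (pts K) := K.isCompact
  have hne : (pts K).Nonempty := K.nonempty
  obtain ⟨R0, hR0⟩ := hcpt.isBounded.exists_norm_le
  set R : NNReal := ⟨max R0 0, le_max_right _ _⟩ with hRdef
  have hR : ∀ x ∈ pts K, ‖x‖ ≤ (R : ℝ) := fun x hx => (hR0 x hx).trans (le_max_left _ _)
  set s : C2 → ℝ := fun w => sSup ((fun x : C2 => (inner ℝ x w : ℝ)) '' pts K) with hs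
  have hbd : ∀ w : C2, BddAbove ((fun x : C2 => (inner ℝ x w : ℝ)) '' pts K) := fun w =>
    (hcpt.image (by fun_prop)).bddAbove
  have hle : ∀ w : C2, ∀ x ∈ pts K, inner ℝ x w ≤ s w := fun w x hx =>
    le_csSup (hbd w) ⟨x, hx, rfl⟩
  have hLip : LipschitzWith R s := by
    refine LipschitzWith.of_le_add_mul R fun v w => ?_
    refine csSup_le (hne.image _) ?_
    rintro _ ⟨x, hx, rfl⟩
    show inner ℝ x v ≤ s w + R * dist v w
    have h1 := hle w x hx
    have h2 : inner ℝ x v = inner ℝ x w + inner ℝ x (v - w) := by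
      rw [inner_sub_right]
      ring
    have h3 : inner ℝ x (v - w) ≤ ‖x‖ * ‖v - w‖ := real_inner_le_norm _ _
    have h4 : ‖x‖ * ‖v - w‖ ≤ R * ‖v - w‖ := mul_le_mul_of_nonneg_right (hR x hx) (norm_nonneg _)
    rw [h2, dist_eq_norm]
    linarith
  filter_upwards [hLip.ae_differentiableAt] with w hw x hx y hy hxm hym
  have key : ∀ x ∈ pts K, (∀ z ∈ pts K, inner ℝ z w ≤ inner ℝ x w) →
      ∀ z : C2, (inner ℝ x z : ℝ) = fderiv ℝ s w z := by
    intro x hx hxm z
    have hsw : s w = inner ℝ x w := by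
      refine le_antisymm (csSup_le (hne.image _) ?_) (hle w x hx)
      rintro _ ⟨u, hu, rfl⟩
      exact hxm u hu
    have hmin : IsLocalMin (fun z : C2 => s z - (inner ℝ x z : ℝ)) w :=
      Filter.Eventually.of_forall fun z => by
        show s w - inner ℝ x w ≤ s z - inner ℝ x z
        have := hle z x hx
        rw [hsw]
        linarith
    have hd : HasFDerivAt (fun z : C2 => s z - (inner ℝ x z : ℝ)) (fderiv ℝ s w - innerSL ℝ x) w :=
      hw.hasFDerivAt.sub (innerSL ℝ x).hasFDerivAt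
    have h1 := hmin.hasFDerivAt_eq_zero hd
    have h2 := DFunLike.congr_fun h1 z
    have h3 : (fderiv ℝ s w) z - (inner ℝ x z : ℝ) = 0 := h2
    linarith
  have h1 : (inner ℝ (x - y) (x - y) : ℝ) = 0 := by
    rw [inner_sub_left, key x hx hxm, key y hy hym, sub_self]
  exact sub_eq_zero.mp (inner_self_eq_zero.mp h1)

/-- the integrand -/
private noncomputable def capFd (a b : ℝ) (w X : C2) : ℝ :=
  4 * a * inner ℝ X w ^ 2 + (b - 2 * a) * (‖w‖ ^ 2 * ‖X‖ ^ 2) - 4 * (b - a) * inner ℝ X (J w) ^ 2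

private theorem capFd_cont (a b : ℝ) (w : C2) : Continuous (capFd a b w) := by
  unfold capFd
  fun_prop

private theorem capFd_int {h : C2 → ℝ} (hs : SmoothSupp h) (K : Body) (hK : pts K = wulff h)
    (a b : ℝ) : 2 * Real.pi * muab a b K =
      ∫ w : C2, Real.exp (-‖w‖ ^ 2) * capFd a b w (gradient h w) := by
  rw [muab_smooth hs K hK a b]
  have h3 := polar (fun w => capFd a b w (gradient h w)) 2 (fun c w hc hw => by
    show capFd a b (c • w) (gradient h (c • w)) = c ^ (2 : ℤ) * capFd a b w (gradient h w)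
    unfold capFd
    rw [hs.gradient_smul c hc w hw, J_smul, norm_smul, inner_smul_right, inner_smul_right,
      Real.norm_eq_abs, abs_of_pos hc, zpow_ofNat]
    ring) (fun r => Real.exp (-r ^ 2))
  rw [h3, UPB.gauss_moment, one_mul]
  refine sph_congr _ _ fun n hn => ?_
  have hn0 : n ≠ 0 := by
    intro h0
    rw [h0, norm_zero] at hn
    exact zero_ne_one hn
  show 4 * a * h n ^ 2 + (b - 2 * a) * ‖gradient h n‖ ^ 2
      - 4 * (b - a) * inner ℝ (gradient h n) (J n) ^ 2 = capFd a b n (gradient h n)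
  unfold capFd
  rw [hn, hs.gradient_inner hn0]
  ring

private theorem capFd_le (a b R : ℝ) (w X : C2) (hX : ‖X‖ ≤ R) :
    |capFd a b w X| ≤ (4 * |a| + |b - 2 * a| + 4 * |b - a|) * R ^ 2 * ‖w‖ ^ 2 := by
  have hR : ‖X‖ ^ 2 ≤ R ^ 2 := pow_le_pow_left₀ (norm_nonneg _) hX 2
  have h0 : ‖X‖ ^ 2 * ‖w‖ ^ 2 ≤ R ^ 2 * ‖w‖ ^ 2 := mul_le_mul_of_nonneg_right hR (by positivity)
  have h1 : inner ℝ X w ^ 2 ≤ R ^ 2 * ‖w‖ ^ 2 := by
    refine le_trans ?_ h0
    rw [← mul_pow, ← sq_abs]
    exact pow_le_pow_left₀ (abs_nonneg _) (abs_real_inner_le_norm X w) 2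
  have h2 : inner ℝ X (J w) ^ 2 ≤ R ^ 2 * ‖w‖ ^ 2 := by
    refine le_trans ?_ h0
    have := abs_real_inner_le_norm X (J w)
    rw [J_norm] at this
    rw [← mul_pow, ← sq_abs]
    exact pow_le_pow_left₀ (abs_nonneg _) this 2
  have e1 : |4 * a * inner ℝ X w ^ 2| ≤ 4 * |a| * (R ^ 2 * ‖w‖ ^ 2) := by
    rw [abs_mul, abs_mul, abs_of_nonneg (sq_nonneg (inner ℝ X w : ℝ)), abs_of_pos (by norm_num : (0:ℝ) < 4)]
    exact mul_le_mul_of_nonneg_left h1 (by positivity)
  have e2 : |(b - 2 * a) * (‖w‖ ^ 2 * ‖X‖ ^ 2)| ≤ |b - 2 * a| * (R ^ 2 * ‖w‖ ^ 2) := by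
    rw [abs_mul, abs_of_nonneg (by positivity : 0 ≤ ‖w‖ ^ 2 * ‖X‖ ^ 2), mul_comm (‖w‖ ^ 2)]
    exact mul_le_mul_of_nonneg_left h0 (abs_nonneg _)
  have e3 : |4 * (b - a) * inner ℝ X (J w) ^ 2| ≤ 4 * |b - a| * (R ^ 2 * ‖w‖ ^ 2) := by
    rw [abs_mul, abs_mul, abs_of_nonneg (sq_nonneg (inner ℝ X (J w) : ℝ)),
      abs_of_pos (by norm_num : (0:ℝ) < 4)]
    exact mul_le_mul_of_nonneg_left h2 (by positivity)
  unfold capFd
  have e4 := abs_sub (4 * a * inner ℝ X w ^ 2 + (b - 2 * a) * (‖w‖ ^ 2 * ‖X‖ ^ 2))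
    (4 * (b - a) * inner ℝ X (J w) ^ 2)
  have e5 := abs_add_le (4 * a * inner ℝ X w ^ 2) ((b - 2 * a) * (‖w‖ ^ 2 * ‖X‖ ^ 2))
  calc _ ≤ 4 * |a| * (R ^ 2 * ‖w‖ ^ 2) + |b - 2 * a| * (R ^ 2 * ‖w‖ ^ 2) +
        4 * |b - a| * (R ^ 2 * ‖w‖ ^ 2) := by linarith
    _ = _ := by ring

theorem first_order (K : Body) (r : ℝ) (hr : 0 < r) (hK : closedBall 0 r ⊆ pts K) (X : C2 → C2)
    (hX : ∀ᵐ w : C2, X w ∈ pts K ∧ ∀ y ∈ pts K, inner ℝ y w ≤ inner ℝ (X w) w) (a b : ℝ) :
    2 * Real.pi * muab a b K = ∫ w : C2, Real.exp (-‖w‖ ^ 2) *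
      (4 * a * inner ℝ (X w) w ^ 2 + (b - 2 * a) * (‖w‖ ^ 2 * ‖X w‖ ^ 2)
        - 4 * (b - a) * inner ℝ (X w) (J w) ^ 2) := by
  obtain ⟨L, h, hs, hL, hsub, hlim⟩ := exists_smooth K r hr hK
  have hcpt : IsCompact (pts K) := K.isCompact
  have hne : (pts K).Nonempty := K.nonempty
  obtain ⟨R0, hR0⟩ := hcpt.isBounded.exists_norm_le
  set R : ℝ := R0 + 1 with hRdef
  have hdist : Tendsto (fun n => dist (L n) K) atTop (nhds 0) :=
    tendsto_iff_dist_tendsto_zero.mp hlim
  have hedist : ∀ n, ∀ x ∈ pts (L n), infDist x (pts K) ≤ dist (L n) K := by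
    intro n x hx
    rw [← ConvexBody.hausdorffDist_coe]
    refine infDist_le_hausdorffDist_of_mem hx ?_
    exact hausdorffEDist_ne_top_of_nonempty_of_bounded (L n).nonempty K.nonempty
      (L n).isCompact.isBounded K.isCompact.isBounded
  have hgm : ∀ n (w : C2), w ≠ 0 → gradient (h n) w ∈ pts (L n) := by
    intro n w hw
    rw [hL n]
    exact (hs n).gradient_mem hw
  have hbnd : ∀ᶠ n in atTop, ∀ w : C2, w ≠ 0 → ‖gradient (h n) w‖ ≤ R := by
    filter_upwards [hdist.eventually (gt_mem_nhds one_pos)] with n hn w hw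
    have h1 := (hedist n _ (hgm n w hw)).trans_lt hn
    obtain ⟨z, hz, hzd⟩ := (infDist_lt_iff hne).mp h1
    have h2 := hR0 z hz
    have h3 : ‖gradient (h n) w‖ ≤ ‖z‖ + dist (gradient (h n) w) z := by
      rw [dist_eq_norm]
      have := norm_add_le z (gradient (h n) w - z)
      rwa [add_sub_cancel] at this
    linarith
  have hR0' : 0 ≤ R := by
    obtain ⟨n, hn⟩ := hbnd.exists
    have hne0 : (EuclideanSpace.single 0 1 : C2) ≠ 0 := by
      intro h0
      have := congrArg norm h0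
      simp at this
    exact (norm_nonneg _).trans (hn _ hne0)
  have hpt : ∀ᵐ w : C2, Tendsto (fun n => capFd a b w (gradient (h n) w)) atTop
      (nhds (capFd a b w (X w))) := by
    filter_upwards [ae_unique_max K, hX, UPB.ae_ne_zero] with w huni hXw hw
    refine tendsto_of_subseq_tendsto fun ns hns => ?_
    obtain ⟨N, hN⟩ := (hns.eventually hbnd).exists_forall_of_atTop
    obtain ⟨Y, _, φ, hφ, hlimY⟩ := (isCompact_closedBall (0 : C2) R).tendsto_subseq
      (x := fun k => gradient (h (ns (N + k))) w) (fun k => by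
        rw [mem_closedBall_zero_iff]
        exact hN (N + k) (Nat.le_add_right _ _) w hw)
    have hidx : Tendsto (fun k => ns (N + φ k)) atTop atTop :=
      hns.comp (tendsto_atTop_mono (fun k => Nat.le_add_left _ _) hφ.tendsto_atTop)
    have hYK : Y ∈ pts K := by
      have h1 : Tendsto (fun k => infDist (gradient (h (ns (N + φ k))) w) (pts K)) atTop
          (nhds (infDist Y (pts K))) :=
        ((continuous_infDist_pt (pts K)).tendsto Y).comp hlimY
      have h2 : Tendsto (fun k => dist (L (ns (N + φ k))) K) atTop (nhds 0) := hdist.comp hidx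
      have h3 : infDist Y (pts K) ≤ 0 :=
        le_of_tendsto_of_tendsto' h1 h2 fun k => hedist _ _ (hgm _ w hw)
      have h4 : infDist Y (pts K) = 0 := le_antisymm h3 infDist_nonneg
      exact (hcpt.isClosed.mem_iff_infDist_zero hne).mpr h4
    have hYm : ∀ z ∈ pts K, inner ℝ z w ≤ inner ℝ Y w := by
      intro z hz
      have h1 : Tendsto (fun k => (inner ℝ (gradient (h (ns (N + φ k))) w) w : ℝ)) atTop
          (nhds (inner ℝ Y w)) := hlimY.inner tendsto_const_nhds
      refine ge_of_tendsto' h1 fun k => ?_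
      rw [(hs _).gradient_inner hw]
      have h2 : z ∈ wulff (h (ns (N + φ k))) := by
        rw [← hL]
        exact hsub _ hz
      exact h2 w
    have hYX : Y = X w := huni Y hYK (X w) hXw.1 hYm hXw.2
    refine ⟨fun k => N + φ k, ?_⟩
    rw [← hYX]
    exact ((capFd_cont a b w).tendsto Y).comp hlimY
  have hint : Tendsto (fun n => ∫ w : C2, Real.exp (-‖w‖ ^ 2) * capFd a b w (gradient (h n) w))
      atTop (nhds (∫ w : C2, Real.exp (-‖w‖ ^ 2) * capFd a b w (X w))) := by
    refine tendsto_integral_filter_of_dominated_convergence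
      (fun w : C2 => (4 * |a| + |b - 2 * a| + 4 * |b - a|) * R ^ 2 *
        (‖w‖ ^ 2 * Real.exp (-‖w‖ ^ 2))) ?_ ?_ (I1_gauss.const_mul _) ?_
    · refine Eventually.of_forall fun n => ?_
      have h1 : ContinuousOn (fun w : C2 => Real.exp (-‖w‖ ^ 2) *
          capFd a b w (gradient (h n) w)) {0}ᶜ := by
        have hg := gradient_continuousOn (hs n)
        have hJc : Continuous J := JL.continuous
        unfold capFd
        refine ContinuousOn.mul (by fun_prop) (ContinuousOn.sub (ContinuousOn.add ?_ ?_) ?_)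
        · exact ContinuousOn.mul continuousOn_const ((hg.inner continuousOn_id).pow 2)
        · exact ContinuousOn.mul continuousOn_const (ContinuousOn.mul (by fun_prop) (hg.norm.pow 2))
        · exact ContinuousOn.mul continuousOn_const ((hg.inner hJc.continuousOn).pow 2)
      have h2 := h1.aestronglyMeasurable (μ := (volume : Measure C2))
        (measurableSet_singleton (0 : C2)).compl
      rwa [restrict_compl_singleton] at h2
    · filter_upwards [hbnd] with n hn
      filter_upwards [UPB.ae_ne_zero] with w hw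
      have h1 := capFd_le a b R w _ (hn w hw)
      rw [norm_mul, Real.norm_eq_abs, Real.norm_eq_abs, abs_of_pos (Real.exp_pos _)]
      calc Real.exp (-‖w‖ ^ 2) * |capFd a b w (gradient (h n) w)|
          ≤ Real.exp (-‖w‖ ^ 2) *
            ((4 * |a| + |b - 2 * a| + 4 * |b - a|) * R ^ 2 * ‖w‖ ^ 2) :=
            mul_le_mul_of_nonneg_left h1 (Real.exp_pos _).le
        _ = _ := by ring
    · filter_upwards [hpt] with w hw
      exact hw.const_mul _
  have hmu : Tendsto (fun n => 2 * Real.pi * muab a b (L n)) atTop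
      (nhds (2 * Real.pi * muab a b K)) :=
    (((muab_continuous a b).tendsto K).comp hlim).const_mul _
  have heq : (fun n => 2 * Real.pi * muab a b (L n)) =
      fun n => ∫ w : C2, Real.exp (-‖w‖ ^ 2) * capFd a b w (gradient (h n) w) :=
    funext fun n => capFd_int (hs n) (L n) (hL n) a b
  rw [heq] at hmu
  exact tendsto_nhds_unique hmu hint

end Pool.Agent.HVM
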