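import Pool.Agent.HVM.Defs

/-! # Pointwise linear algebra of the Newton tensor (module ALG) -/

set_option autoImplicit false

namespace Pool.Agent.HVM

open MeasureTheory Metric Set
open Pool.Agent.Helper85.Herm Pool.Agent.Helper85.Cap

/-- `M` symmetric, positive semidefinite, `M w = 0`, `w ≠ 0` -/
structure PK (M : C2 →L[ℝ] C2) (w : C2) : Prop where
  symm : ∀ a b, inner ℝ (M a) b = inner ℝ a (M b)
  psd : ∀ a, 0 ≤ inner ℝ (M a) a
  ker : M w = 0
  ne : w ≠ 0

/-- an orthonormal basis of eigenvectors with first vector proportional to `w` -/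
theorem alg_exists_basis {M : C2 →L[ℝ] C2} {w : C2} (h : PK M w) :
    ∃ (b : OrthonormalBasis (Fin 4) ℝ C2) (l : Fin 4 → ℝ), w = ‖w‖ • b 0 ∧ l 0 = 0 ∧
      (∀ i, 0 ≤ l i) ∧ (∀ i, M (b i) = l i • b i) := by
  have hw : 0 < ‖w‖ := norm_pos_iff.2 h.ne
  have hw2 : (0 : ℝ) < ‖w‖ ^ 2 := by positivity
  let T : C2 →ₗ[ℝ] C2 := ((M - rk w w : C2 →L[ℝ] C2) : C2 →ₗ[ℝ] C2)
  have hTa : ∀ x, T x = M x - inner ℝ w x • w := fun x => rfl
  have hT : T.IsSymmetric := by
    intro x y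
    rw [hTa, hTa, inner_sub_left, inner_sub_right, h.symm, inner_smul_left, inner_smul_right,
      RCLike.conj_to_real, real_inner_comm x w]
    ring
  have hfr : Module.finrank ℝ C2 = 4 := by simp
  let c := hT.eigenvectorBasis hfr
  let μ := hT.eigenvalues hfr
  have hc : ∀ i, T (c i) = μ i • c i := fun i => hT.apply_eigenvectorBasis hfr i
  have hTw : T w = (-‖w‖ ^ 2) • w := by
    rw [hTa, h.ker, real_inner_self_eq_norm_sq]
    module
  -- eigenvectors not orthogonal to `w`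
  have h1 : ∀ i, inner ℝ (c i) w ≠ 0 → μ i = -‖w‖ ^ 2 := by
    intro i hi
    have e : inner ℝ (T (c i)) w = inner ℝ (c i) (T w) := hT (c i) w
    rw [hc, hTw, inner_smul_left, inner_smul_right, RCLike.conj_to_real] at e
    exact mul_right_cancel₀ hi e
  have h2 : ∀ i, μ i = -‖w‖ ^ 2 → c i = (inner ℝ w (c i) / ‖w‖ ^ 2) • w := by
    intro i hi
    set a : ℝ := inner ℝ w (c i) / ‖w‖ ^ 2 with ha
    set v : C2 := c i - a • w with hv
    have hvw : inner ℝ w v = 0 := by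
      rw [hv, inner_sub_right, inner_smul_right, real_inner_self_eq_norm_sq, ha]
      field_simp
      ring
    have hMv : M v = (-‖w‖ ^ 2) • v := by
      have e1 : M (c i) - inner ℝ w (c i) • w = (-‖w‖ ^ 2) • c i := by
        rw [← hTa, hc, hi]
      have e2 : M v = M (c i) := by rw [hv, map_sub, map_smul, h.ker, smul_zero, sub_zero]
      have e3 : inner ℝ w (c i) = a * ‖w‖ ^ 2 := by rw [ha]; field_simp
      rw [e2, eq_add_of_sub_eq e1, hv, e3]
      module
    have h3 := h.psd v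
    rw [hMv, inner_smul_left, RCLike.conj_to_real, real_inner_self_eq_norm_sq] at h3
    have h4 : ‖v‖ ^ 2 = 0 := by nlinarith [sq_nonneg ‖v‖]
    have h5 : v = 0 := by
      rw [← norm_eq_zero]
      exact pow_eq_zero_iff (two_ne_zero) |>.1 h4
    rw [hv, sub_eq_zero] at h5
    exact h5
  obtain ⟨i0, hi0⟩ : ∃ i, inner ℝ (c i) w ≠ 0 := by
    by_contra hcon
    push Not at hcon
    apply h.ne
    rw [← c.sum_repr' w]
    exact Finset.sum_eq_zero fun i _ => by rw [hcon i, zero_smul]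
  have hci0 := h2 i0 (h1 i0 hi0)
  have hperp : ∀ i, i ≠ i0 → inner ℝ (c i) w = 0 := by
    intro i hi
    have e1 : inner ℝ (c i) (c i0) = 0 := c.orthonormal.2 hi
    rw [hci0, inner_smul_right, mul_eq_zero] at e1
    rcases e1 with e1 | e1
    · exfalso
      rw [e1, zero_smul] at hci0
      exact c.orthonormal.ne_zero i0 hci0
    · exact e1
  have hM : ∀ i, i ≠ i0 → M (c i) = μ i • c i := by
    intro i hi
    have e1 := hc i
    rw [hTa, real_inner_comm, hperp i hi, zero_smul, sub_zero] at e1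
    exact e1
  have hμ : ∀ i, i ≠ i0 → 0 ≤ μ i := by
    intro i hi
    have e1 := h.psd (c i)
    rw [hM i hi, inner_smul_left, RCLike.conj_to_real, real_inner_self_eq_norm_sq,
      c.orthonormal.1 i] at e1
    linarith
  let v : Fin 4 → C2 := fun i => if i = 0 then ‖w‖⁻¹ • w else c (Equiv.swap 0 i0 i)
  let l : Fin 4 → ℝ := fun i => if i = 0 then 0 else μ (Equiv.swap 0 i0 i)
  have hv0 : v 0 = ‖w‖⁻¹ • w := if_pos rfl
  have hvi : ∀ i, i ≠ 0 → v i = c (Equiv.swap 0 i0 i) := fun i hi => if_neg hi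
  have hne : ∀ i, i ≠ 0 → Equiv.swap 0 i0 i ≠ i0 := by
    intro i hi hh
    apply hi
    have := congrArg (Equiv.swap 0 i0) hh
    rw [Equiv.swap_apply_self, Equiv.swap_apply_right] at this
    exact this
  have hon : Orthonormal ℝ v := by
    constructor
    · intro i
      by_cases hi : i = 0
      · rw [hi, hv0, norm_smul, norm_inv, norm_norm, inv_mul_cancel₀ hw.ne']
      · rw [hvi i hi]
        exact c.orthonormal.1 _
    · intro i j hij
      by_cases hi : i = 0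
      · by_cases hj : j = 0
        · exact absurd (hi.trans hj.symm) hij
        · rw [hi, hv0, hvi j hj, inner_smul_left, real_inner_comm, hperp _ (hne j hj), mul_zero]
      · by_cases hj : j = 0
        · rw [hj, hv0, hvi i hi, inner_smul_right, hperp _ (hne i hi), mul_zero]
        · rw [hvi i hi, hvi j hj]
          exact c.orthonormal.2 fun hh => hij ((Equiv.swap 0 i0).injective hh)
  have hcard : Fintype.card (Fin 4) = Module.finrank ℝ C2 := by simp
  let b0 := basisOfOrthonormalOfCardEqFinrank hon hcard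
  have hb0 : (b0 : Fin 4 → C2) = v := coe_basisOfOrthonormalOfCardEqFinrank hon hcard
  let b : OrthonormalBasis (Fin 4) ℝ C2 := b0.toOrthonormalBasis (by rw [hb0]; exact hon)
  have hb : ∀ i, b i = v i := by
    intro i
    have : (b : Fin 4 → C2) = b0 := Module.Basis.coe_toOrthonormalBasis _ _
    rw [this, hb0]
  refine ⟨b, l, ?_, if_pos rfl, ?_, ?_⟩
  · rw [hb, hv0, smul_smul, mul_inv_cancel₀ hw.ne', one_smul]
  · intro i
    by_cases hi : i = 0
    · exact (if_pos hi).ge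
    · exact (if_neg hi).ge.trans' (hμ _ (hne i hi))
  · intro i
    rw [hb]
    by_cases hi : i = 0
    · have e1 : l i = 0 := if_pos hi
      rw [e1, hi, hv0, map_smul, h.ker, smul_zero, zero_smul]
    · have e1 : l i = μ (Equiv.swap 0 i0 i) := if_neg hi
      rw [e1, hvi i hi]
      exact hM _ (hne i hi)

/-- trace of a map with an orthonormal basis of eigenvectors -/
theorem alg_s1 (b : OrthonormalBasis (Fin 4) ℝ C2) (l : Fin 4 → ℝ) (A : C2 →L[ℝ] C2)
    (hA : ∀ i, A (b i) = l i • b i) : s1 A = l 0 + l 1 + l 2 + l 3 := by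
  have e := LinearMap.trace_eq_sum_inner (A : C2 →ₗ[ℝ] C2) b
  rw [s1, e, Fin.sum_univ_four]
  have e2 : ∀ i, inner ℝ (b i) ((A : C2 →ₗ[ℝ] C2) (b i)) = l i := by
    intro i
    show inner ℝ (b i) (A (b i)) = l i
    rw [hA, inner_smul_right, real_inner_self_eq_norm_sq, b.orthonormal.1 i]
    ring
  rw [e2, e2, e2, e2]

/-- determinant of a map with an orthonormal basis of eigenvectors -/
theorem alg_det (b : OrthonormalBasis (Fin 4) ℝ C2) (l : Fin 4 → ℝ) (A : C2 →L[ℝ] C2)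
    (hA : ∀ i, A (b i) = l i • b i) : A.det = l 0 * l 1 * l 2 * l 3 := by
  have e := LinearMap.det_toMatrix b.toBasis (A : C2 →ₗ[ℝ] C2)
  have e2 : LinearMap.toMatrix b.toBasis b.toBasis (A : C2 →ₗ[ℝ] C2) = Matrix.diagonal l := by
    ext i j
    rw [LinearMap.toMatrix_apply, OrthonormalBasis.coe_toBasis]
    have e3 : (A : C2 →ₗ[ℝ] C2) (b j) = l j • b j := hA j
    rw [e3, map_smul, Finsupp.smul_apply, OrthonormalBasis.coe_toBasis_repr_apply,
      OrthonormalBasis.repr_self]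
    by_cases hij : i = j
    · subst hij
      simp
    · rw [Matrix.diagonal_apply_ne _ hij]
      simp [hij]
  rw [e2, Matrix.det_diagonal, Fin.prod_univ_four] at e
  exact e.symm

/-- diagonalisation adapted to `w` -/
theorem exists_eig {M : C2 →L[ℝ] C2} {w : C2} (h : PK M w) :
    ∃ (b : OrthonormalBasis (Fin 4) ℝ C2) (l : Fin 4 → ℝ), w = ‖w‖ • b 0 ∧ l 0 = 0 ∧
      (∀ i, 0 ≤ l i) ∧ (∀ i, M (b i) = l i • b i) ∧ s1 M = l 1 + l 2 + l 3 ∧
      s2 M = l 1 * l 2 + l 1 * l 3 + l 2 * l 3 ∧ s3 M w = l 1 * l 2 * l 3 ∧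
      NT M (b 0) = s2 M • b 0 ∧ NT M (b 1) = (l 2 * l 3) • b 1 ∧
      NT M (b 2) = (l 1 * l 3) • b 2 ∧ NT M (b 3) = (l 1 * l 2) • b 3 := by
  obtain ⟨b, l, hw, h0, hl, hM⟩ := alg_exists_basis h
  have hwp : 0 < ‖w‖ := norm_pos_iff.2 h.ne
  have hs1 : s1 M = l 1 + l 2 + l 3 := by
    rw [alg_s1 b l M hM, h0]
    ring
  have hMM : ∀ i, (M ∘L M) (b i) = (l i ^ 2) • b i := by
    intro i
    rw [ContinuousLinearMap.comp_apply, hM, map_smul, hM, smul_smul]
    congr 1
    ring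
  have hs2 : s2 M = l 1 * l 2 + l 1 * l 3 + l 2 * l 3 := by
    rw [s2, hs1, alg_s1 b (fun i => l i ^ 2) (M ∘L M) hMM]
    simp only [h0]
    ring
  have hwb : ∀ i, i ≠ 0 → inner ℝ w (b i) = 0 := by
    intro i hi
    rw [hw, inner_smul_left, b.orthonormal.2 (Ne.symm hi), mul_zero]
  have hwb0 : inner ℝ w (b 0) = ‖w‖ := by
    nth_rewrite 1 [hw]
    rw [inner_smul_left, real_inner_self_eq_norm_sq, b.orthonormal.1 0, RCLike.conj_to_real]
    ring
  have hs3 : s3 M w = l 1 * l 2 * l 3 := by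
    let m : Fin 4 → ℝ := fun i => if i = 0 then 1 else l i
    have hm : ∀ i, (M + (‖w‖ ^ 2)⁻¹ • rk w w) (b i) = m i • b i := by
      intro i
      have e1 : (M + (‖w‖ ^ 2)⁻¹ • rk w w) (b i)
          = M (b i) + (‖w‖ ^ 2)⁻¹ • (inner ℝ w (b i) • w) := rfl
      rw [e1, hM]
      by_cases hi : i = 0
      · have e2 : m i = 1 := if_pos hi
        rw [e2, hi, h0, hwb0, zero_smul, zero_add, one_smul, smul_smul]
        nth_rewrite 3 [hw]
        rw [smul_smul]
        have e3 : (‖w‖ ^ 2)⁻¹ * ‖w‖ * ‖w‖ = 1 := by field_simp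
        rw [e3, one_smul]
      · have e2 : m i = l i := if_neg hi
        rw [e2, hwb i hi, zero_smul, smul_zero, add_zero]
    rw [s3, alg_det b m _ hm]
    have e0 : m 0 = 1 := if_pos rfl
    have e1 : m 1 = l 1 := if_neg (by decide)
    have e2 : m 2 = l 2 := if_neg (by decide)
    have e3 : m 3 = l 3 := if_neg (by decide)
    rw [e0, e1, e2, e3]
    ring
  have hNT : ∀ i, NT M (b i) = (s2 M - s1 M * l i + l i ^ 2) • b i := by
    intro i
    have e1 : NT M (b i) = s2 M • b i - s1 M • M (b i) + (M ∘L M) (b i) := rfl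
    rw [e1, hM, hMM]
    module
  refine ⟨b, l, hw, h0, hl, hM, hs1, hs2, hs3, ?_, ?_, ?_, ?_⟩
  · rw [hNT, h0]
    congr 1
    ring
  · rw [hNT, hs1, hs2]
    congr 1
    ring
  · rw [hNT, hs1, hs2]
    congr 1
    ring
  · rw [hNT, hs1, hs2]
    congr 1
    ring

/-- `NT M` in the basis of `exists_eig` -/
theorem alg_NT_apply {M : C2 →L[ℝ] C2} (b : OrthonormalBasis (Fin 4) ℝ C2) (t : Fin 4 → ℝ)
    (ht : ∀ i, NT M (b i) = t i • b i) (v x : C2) :
    inner ℝ (NT M v) x = ∑ i, t i * (inner ℝ (b i) v * inner ℝ (b i) x) := by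
  have e : NT M v = ∑ i, (inner ℝ (b i) v * t i) • b i := by
    conv_lhs => rw [← b.sum_repr' v]
    rw [map_sum]
    exact Finset.sum_congr rfl fun i _ => by rw [map_smul, ht, smul_smul]
  rw [e, sum_inner]
  exact Finset.sum_congr rfl fun i _ => by
    rw [inner_smul_left, RCLike.conj_to_real]
    ring

/-- eigenvalues of `NT M` -/
theorem alg_exists_NT {M : C2 →L[ℝ] C2} {w : C2} (h : PK M w) :
    ∃ (b : OrthonormalBasis (Fin 4) ℝ C2) (t : Fin 4 → ℝ),
      (∀ i, 0 ≤ t i) ∧ (∀ i, t i ≤ s2 M) ∧ ∀ i, NT M (b i) = t i • b i := by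
  obtain ⟨b, l, hw, h0, hl, hM, hs1, hs2, hs3, n0, n1, n2, n3⟩ := exists_eig h
  have p12 := mul_nonneg (hl 1) (hl 2)
  have p13 := mul_nonneg (hl 1) (hl 3)
  have p23 := mul_nonneg (hl 2) (hl 3)
  refine ⟨b, ![s2 M, l 2 * l 3, l 1 * l 3, l 1 * l 2], ?_, ?_, ?_⟩
  · intro i
    fin_cases i
    · show 0 ≤ s2 M
      rw [hs2]; linarith
    · exact p23
    · exact p13
    · exact p12
  · intro i
    fin_cases i
    · exact le_refl (s2 M)
    · show l 2 * l 3 ≤ s2 M
      rw [hs2]; linarith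
    · show l 1 * l 3 ≤ s2 M
      rw [hs2]; linarith
    · show l 1 * l 2 ≤ s2 M
      rw [hs2]; linarith
  · intro i
    fin_cases i
    · exact n0
    · exact n1
    · exact n2
    · exact n3

theorem NT_ker {M : C2 →L[ℝ] C2} {w : C2} (h : PK M w) : NT M w = s2 M • w := by
  obtain ⟨b, l, hw, h0, hl, hM, hs1, hs2, hs3, n0, n1, n2, n3⟩ := exists_eig h
  have e : NT M w = NT M (‖w‖ • b 0) := by rw [← hw]
  rw [e, map_smul, n0, smul_comm, ← hw]

theorem NT_symm {M : C2 →L[ℝ] C2} {w : C2} (h : PK M w) (a b : C2) :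
    inner ℝ (NT M a) b = inner ℝ a (NT M b) := by
  obtain ⟨c, t, _, _, hc⟩ := alg_exists_NT h
  rw [alg_NT_apply c t hc, real_inner_comm, alg_NT_apply c t hc]
  exact Finset.sum_congr rfl fun i _ => by ring

theorem M_NT {M : C2 →L[ℝ] C2} {w : C2} (h : PK M w) (v : C2) (hv : inner ℝ v w = 0) :
    M (NT M v) = s3 M w • v := by
  obtain ⟨b, l, hw, h0, hl, hM, hs1, hs2, hs3, n0, n1, n2, n3⟩ := exists_eig h
  have hwp : 0 < ‖w‖ := norm_pos_iff.2 h.ne
  have hv0 : inner ℝ (b 0) v = 0 := by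
    rw [hw, inner_smul_right, mul_eq_zero] at hv
    rcases hv with hv | hv
    · exact absurd hv hwp.ne'
    · rw [real_inner_comm]
      exact hv
  have e : v = inner ℝ (b 1) v • b 1 + inner ℝ (b 2) v • b 2 + inner ℝ (b 3) v • b 3 := by
    conv_lhs => rw [← b.sum_repr' v]
    rw [Fin.sum_univ_four, hv0, zero_smul, zero_add]
  have k1 : M (NT M (b 1)) = s3 M w • b 1 := by
    rw [n1, map_smul, hM, smul_smul, hs3]
    congr 1
    ring
  have k2 : M (NT M (b 2)) = s3 M w • b 2 := by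
    rw [n2, map_smul, hM, smul_smul, hs3]
    congr 1
    ring
  have k3 : M (NT M (b 3)) = s3 M w • b 3 := by
    rw [n3, map_smul, hM, smul_smul, hs3]
  rw [e]
  simp only [map_add, map_smul, k1, k2, k3]
  module

theorem s2_nonneg {M : C2 →L[ℝ] C2} {w : C2} (h : PK M w) : 0 ≤ s2 M := by
  obtain ⟨b, l, hw, h0, hl, hM, hs1, hs2, hs3, n0, n1, n2, n3⟩ := exists_eig h
  have p12 := mul_nonneg (hl 1) (hl 2)
  have p13 := mul_nonneg (hl 1) (hl 3)
  have p23 := mul_nonneg (hl 2) (hl 3)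
  rw [hs2]
  linarith

theorem s3_nonneg {M : C2 →L[ℝ] C2} {w : C2} (h : PK M w) : 0 ≤ s3 M w := by
  obtain ⟨b, l, hw, h0, hl, hM, hs1, hs2, hs3, n0, n1, n2, n3⟩ := exists_eig h
  rw [hs3]
  exact mul_nonneg (mul_nonneg (hl 1) (hl 2)) (hl 3)

theorem NT_psd {M : C2 →L[ℝ] C2} {w : C2} (h : PK M w) (v : C2) :
    0 ≤ inner ℝ (NT M v) v := by
  obtain ⟨c, t, ht, _, hc⟩ := alg_exists_NT h
  rw [alg_NT_apply c t hc]
  exact Finset.sum_nonneg fun i _ => mul_nonneg (ht i) (mul_self_nonneg _)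

theorem NT_cs {M : C2 →L[ℝ] C2} {w : C2} (h : PK M w) (a b : C2) :
    inner ℝ (NT M a) b ^ 2 ≤ inner ℝ (NT M a) a * inner ℝ (NT M b) b := by
  obtain ⟨c, t, ht, _, hc⟩ := alg_exists_NT h
  rw [alg_NT_apply c t hc, alg_NT_apply c t hc, alg_NT_apply c t hc]
  have key := Finset.sum_mul_sq_le_sq_mul_sq Finset.univ
    (fun i => Real.sqrt (t i) * inner ℝ (c i) a) (fun i => Real.sqrt (t i) * inner ℝ (c i) b)
  have hs : ∀ i, Real.sqrt (t i) * Real.sqrt (t i) = t i := fun i => Real.mul_self_sqrt (ht i)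
  have e0 : ∀ (i : Fin 4) (x y : ℝ),
      t i * (x * y) = (Real.sqrt (t i) * x) * (Real.sqrt (t i) * y) := by
    intro i x y
    calc t i * (x * y) = (Real.sqrt (t i) * Real.sqrt (t i)) * (x * y) := by rw [hs i]
      _ = (Real.sqrt (t i) * x) * (Real.sqrt (t i) * y) := by ring
  have e1 : ∑ i, t i * (inner ℝ (c i) a * inner ℝ (c i) b)
      = ∑ i, (Real.sqrt (t i) * inner ℝ (c i) a) * (Real.sqrt (t i) * inner ℝ (c i) b) :=
    Finset.sum_congr rfl fun i _ => e0 i _ _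
  have e2 : ∑ i, t i * (inner ℝ (c i) a * inner ℝ (c i) a)
      = ∑ i, (Real.sqrt (t i) * inner ℝ (c i) a) ^ 2 :=
    Finset.sum_congr rfl fun i _ => by rw [e0 i, pow_two]
  have e3 : ∑ i, t i * (inner ℝ (c i) b * inner ℝ (c i) b)
      = ∑ i, (Real.sqrt (t i) * inner ℝ (c i) b) ^ 2 :=
    Finset.sum_congr rfl fun i _ => by rw [e0 i, pow_two]
  rw [e1, e2, e3]
  exact key

theorem NT_le {M : C2 →L[ℝ] C2} {w : C2} (h : PK M w) (v : C2) :
    inner ℝ (NT M v) v ≤ s2 M * ‖v‖ ^ 2 := by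
  obtain ⟨c, t, ht, ht2, hc⟩ := alg_exists_NT h
  rw [alg_NT_apply c t hc, ← c.sum_sq_inner_right v, Finset.mul_sum]
  exact Finset.sum_le_sum fun i _ => by
    rw [← pow_two]
    exact mul_le_mul_of_nonneg_right (ht2 i) (sq_nonneg _)

end Pool.Agent.HVM
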