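import Pool.Agent.HVM.Calc

/-! # Smooth support functions of point sets (module APPA) -/

set_option autoImplicit false

namespace Pool.Agent.HVM

open MeasureTheory Metric Set
open Pool.Agent.Helper85.Herm Pool.Agent.Helper85.Cap

/-- smooth support function attached to finitely many points -/
noncomputable def pnorm {N : ℕ} (x : Fin N → C2) (p : ℕ) (w : C2) : ℝ :=
  (∑ j, (max (inner ℝ w (x j)) 0) ^ p) ^ ((1 : ℝ) / p)

section AppAaux

open Filter Topology Asymptotics

/-- derivative of the truncated power -/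
theorem appA_hasDerivAt_max (k : ℕ) (t : ℝ) :
    HasDerivAt (fun t : ℝ => (max t 0) ^ (k + 2)) ((k + 2 : ℕ) * (max t 0) ^ (k + 1)) t := by
  rcases lt_trichotomy t 0 with ht | ht | ht
  · have h1 : (fun t : ℝ => (max t 0) ^ (k + 2)) =ᶠ[𝓝 t] fun _ => 0 := by
      filter_upwards [Iio_mem_nhds ht] with s hs
      have hs' : s < 0 := hs
      rw [max_eq_right hs'.le]
      simp
    have h2 : ((k + 2 : ℕ) : ℝ) * (max t 0) ^ (k + 1) = 0 := by
      rw [max_eq_right ht.le]
      simp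
    rw [h2]
    exact (hasDerivAt_const t (0 : ℝ)).congr_of_eventuallyEq h1
  · subst ht
    have h2 : ((k + 2 : ℕ) : ℝ) * (max (0 : ℝ) 0) ^ (k + 1) = 0 := by simp
    rw [h2, hasDerivAt_iff_isLittleO_nhds_zero]
    simp only [zero_add, max_self, smul_zero, sub_zero]
    have h3 : (fun h : ℝ => (max h 0) ^ (k + 2) - 0 ^ (k + 2)) =O[𝓝 0] fun h : ℝ => h ^ (k + 2) := by
      apply IsBigO.of_bound 1
      apply Filter.Eventually.of_forall
      intro h
      simp only [ne_eq, Nat.add_eq_zero_iff, OfNat.ofNat_ne_zero, and_false, not_false_eq_true,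
        zero_pow, sub_zero, norm_pow, one_mul]
      apply pow_le_pow_left₀ (norm_nonneg _)
      rw [Real.norm_eq_abs, Real.norm_eq_abs, abs_of_nonneg (le_max_right h 0)]
      exact max_le (le_abs_self h) (abs_nonneg h)
    apply h3.trans_isLittleO
    have h4 : (fun h : ℝ => h ^ (k + 2)) =o[𝓝 0] fun h : ℝ => h ^ 1 :=
      isLittleO_pow_pow (by omega)
    simpa using h4
  · have h1 : (fun t : ℝ => (max t 0) ^ (k + 2)) =ᶠ[𝓝 t] fun t => t ^ (k + 2) := by
      filter_upwards [Ioi_mem_nhds ht] with s hs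
      have hs' : 0 < s := hs
      rw [max_eq_left hs'.le]
    rw [max_eq_left ht.le]
    have h2 := (hasDerivAt_pow (k + 2) t).congr_of_eventuallyEq h1
    exact h2

/-- the truncated power is smooth -/
theorem appA_contDiff_max (k : ℕ) : ContDiff ℝ k (fun t : ℝ => (max t 0) ^ (k + 1)) := by
  induction k with
  | zero =>
    rw [Nat.cast_zero, contDiff_zero]
    fun_prop
  | succ k ih =>
    push_cast
    rw [contDiff_succ_iff_deriv]
    refine ⟨fun t => (appA_hasDerivAt_max k t).differentiableAt, ?_, ?_⟩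
    · intro h
      exact absurd h (by simp)
    · have h1 : deriv (fun t : ℝ => (max t 0) ^ (k + 1 + 1)) =
          fun t => ((k + 2 : ℕ) : ℝ) * (max t 0) ^ (k + 1) :=
        funext fun t => (appA_hasDerivAt_max k t).deriv
      rw [h1]
      exact contDiff_const.mul ih

theorem appA_contDiff_max3 (p : ℕ) (hp : 4 ≤ p) : ContDiff ℝ 3 (fun t : ℝ => (max t 0) ^ p) := by
  obtain ⟨k, rfl⟩ : ∃ k, p = k + 1 := ⟨p - 1, by omega⟩
  have h1 : ((3 : ℕ) : WithTop ℕ∞) ≤ ((k : ℕ) : WithTop ℕ∞) := by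
    exact_mod_cast (by omega : 3 ≤ k)
  exact (appA_contDiff_max k).of_le h1

variable {E : Type*} [NormedAddCommGroup E] [InnerProductSpace ℝ E] [CompleteSpace E]

omit [CompleteSpace E] in
/-- the norm along a line orthogonal to `w` -/
theorem appA_norm_line {w v : E} (hvw : inner ℝ v w = 0) (t : ℝ) :
    ‖w + t • v‖ = Real.sqrt (‖w‖ ^ 2 + t ^ 2 * ‖v‖ ^ 2) := by
  rw [eq_comm, Real.sqrt_eq_iff_mul_self_eq (by positivity) (norm_nonneg _), ← sq,
    norm_add_sq_real, inner_smul_right, real_inner_comm, hvw, norm_smul, Real.norm_eq_abs, mul_pow,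
    sq_abs]
  ring

/-- positivity of the Hessian of a convex function plus a multiple of the norm -/
theorem appA_strict {h1 : E → ℝ} {δ : ℝ} (hδ : 0 < δ)
    (hsm : ContDiffOn ℝ 3 (fun w => h1 w + δ * ‖w‖) {0}ᶜ) (hconv : ConvexOn ℝ univ h1)
    (w v : E) (hw : w ≠ 0) (hvw : inner ℝ v w = 0) (hv : v ≠ 0) :
    0 < inner ℝ (hess (fun w => h1 w + δ * ‖w‖) w v) v := by
  set h : E → ℝ := fun w => h1 w + δ * ‖w‖ with hh
  have hw' : 0 < ‖w‖ := norm_pos_iff.2 hw
  have hv' : 0 < ‖v‖ := norm_pos_iff.2 hv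
  have hopen : IsOpen ({0}ᶜ : Set E) := isOpen_compl_singleton
  -- points of the line are nonzero
  have hpos : ∀ t : ℝ, 0 < ‖w‖ ^ 2 + t ^ 2 * ‖v‖ ^ 2 := fun t => by positivity
  have hne : ∀ t : ℝ, w + t • v ≠ 0 := by
    intro t h0
    have := appA_norm_line hvw t
    rw [h0, norm_zero] at this
    exact (Real.sqrt_pos.2 (hpos t)).ne this
  have hC : ∀ z : E, z ≠ 0 → ContDiffAt ℝ 3 h z := fun z hz =>
    (hsm z hz).contDiffAt (hopen.mem_nhds hz)
  -- the derivative of `h` along the line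
  have hline : ∀ t : ℝ, HasDerivAt (fun t : ℝ => w + t • v) v t := by
    intro t
    have := ((hasDerivAt_id t).smul_const v).const_add w
    simpa using this
  have hφ : ∀ t : ℝ, HasDerivAt (fun t : ℝ => h (w + t • v)) (fderiv ℝ h (w + t • v) v) t := by
    intro t
    have e1 : HasFDerivAt h (fderiv ℝ h (w + t • v)) (w + t • v) :=
      ((hC _ (hne t)).differentiableAt (by norm_num)).hasFDerivAt
    exact e1.comp_hasDerivAt t (hline t)
  -- the second derivative
  have hgd : DifferentiableAt ℝ (gradient h) w := by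
    have e1 : ContDiffAt ℝ 2 (fderiv ℝ h) w := (hC w hw).fderiv_right (by norm_num)
    have e2 : DifferentiableAt ℝ (fderiv ℝ h) w := e1.differentiableAt (by norm_num)
    have e3 : gradient h = fun z => (InnerProductSpace.toDual ℝ E).symm (fderiv ℝ h z) := rfl
    rw [e3]
    exact (InnerProductSpace.toDual ℝ E).symm.differentiable.differentiableAt.comp w e2
  have hψ : HasDerivAt (fun t : ℝ => fderiv ℝ h (w + t • v) v) (inner ℝ (hess h w v) v) 0 := by
    have e1 : HasFDerivAt (gradient h) (hess h w) (w + (0 : ℝ) • v) := by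
      rw [zero_smul, add_zero]
      exact hgd.hasFDerivAt
    have e2 : HasDerivAt (fun t : ℝ => gradient h (w + t • v)) (hess h w v) 0 :=
      HasFDerivAt.comp_hasDerivAt (f := fun t : ℝ => w + t • v) (l := gradient h) (0 : ℝ) e1
        (hline 0)
    have e3 := e2.inner ℝ (hasDerivAt_const (0 : ℝ) v)
    have e4 : (fun t : ℝ => fderiv ℝ h (w + t • v) v) =
        fun t => inner ℝ (gradient h (w + t • v)) v := by
      funext t
      rw [gradient, InnerProductSpace.toDual_symm_apply]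
    rw [e4]
    refine e3.congr_deriv ?_
    simp
  -- the norm part
  have hφ2 : ∀ t : ℝ, HasDerivAt (fun t : ℝ => δ * ‖w + t • v‖)
      (δ * (t * ‖v‖ ^ 2 / Real.sqrt (‖w‖ ^ 2 + t ^ 2 * ‖v‖ ^ 2))) t := by
    intro t
    have e1 : (fun t : ℝ => δ * ‖w + t • v‖) =
        fun t => δ * Real.sqrt (‖w‖ ^ 2 + t ^ 2 * ‖v‖ ^ 2) := by
      funext t
      rw [appA_norm_line hvw]
    rw [e1]
    have e2 : HasDerivAt (fun t : ℝ => ‖w‖ ^ 2 + t ^ 2 * ‖v‖ ^ 2) (2 * t * ‖v‖ ^ 2) t := by
      have := (((hasDerivAt_id t).fun_pow 2).mul_const (‖v‖ ^ 2)).const_add (‖w‖ ^ 2)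
      refine this.congr_deriv ?_
      simp
    refine ((e2.sqrt (hpos t).ne').const_mul δ).congr_deriv ?_
    have h3 := (Real.sqrt_pos.2 (hpos t)).ne'
    field_simp
  have hψ2 : HasDerivAt (fun t : ℝ => δ * (t * ‖v‖ ^ 2 / Real.sqrt (‖w‖ ^ 2 + t ^ 2 * ‖v‖ ^ 2)))
      (δ * (‖v‖ ^ 2 / ‖w‖)) 0 := by
    have e2 : HasDerivAt (fun t : ℝ => ‖w‖ ^ 2 + t ^ 2 * ‖v‖ ^ 2) (2 * 0 * ‖v‖ ^ 2) 0 := by
      have := (((hasDerivAt_id (0 : ℝ)).fun_pow 2).mul_const (‖v‖ ^ 2)).const_add (‖w‖ ^ 2)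
      refine this.congr_deriv ?_
      simp
    have e3 := e2.sqrt (hpos 0).ne'
    have e4 : HasDerivAt (fun t : ℝ => t * ‖v‖ ^ 2) (1 * ‖v‖ ^ 2) 0 :=
      (hasDerivAt_id (0 : ℝ)).mul_const (‖v‖ ^ 2)
    have e5 := (e4.div e3 (Real.sqrt_pos.2 (hpos 0)).ne').const_mul δ
    refine e5.congr_deriv ?_
    have e6 : Real.sqrt (‖w‖ ^ 2 + 0 ^ 2 * ‖v‖ ^ 2) = ‖w‖ := by
      rw [zero_pow (by norm_num), zero_mul, add_zero, Real.sqrt_sq hw'.le]
    rw [e6]
    simp only [one_mul, zero_mul, mul_zero, zero_div, sub_zero]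
    field_simp
  -- the convex part
  have hφ1 : ∀ t : ℝ, HasDerivAt (fun t : ℝ => h1 (w + t • v)) (fderiv ℝ h (w + t • v) v -
      δ * (t * ‖v‖ ^ 2 / Real.sqrt (‖w‖ ^ 2 + t ^ 2 * ‖v‖ ^ 2))) t := by
    intro t
    have e1 := (hφ t).sub (hφ2 t)
    have e2 : (fun t : ℝ => h1 (w + t • v)) =
        (fun t : ℝ => h (w + t • v)) - fun t => δ * ‖w + t • v‖ := by
      funext t
      simp [hh]
    rw [e2]
    exact e1
  have hconv1 : ConvexOn ℝ univ (fun t : ℝ => h1 (w + t • v)) := by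
    refine ⟨convex_univ, ?_⟩
    intro s _ t _ a b ha hb hab
    have e1 := hconv.2 (mem_univ (w + s • v)) (mem_univ (w + t • v)) ha hb hab
    have e2 : w + (a • s + b • t) • v = a • (w + s • v) + b • (w + t • v) := by
      have : w = (a + b) • w := by rw [hab, one_smul]
      nth_rewrite 1 [this]
      simp only [smul_eq_mul]
      module
    simp only
    rw [e2]
    exact e1
  have hmono : Monotone (fun t : ℝ => fderiv ℝ h (w + t • v) v -
      δ * (t * ‖v‖ ^ 2 / Real.sqrt (‖w‖ ^ 2 + t ^ 2 * ‖v‖ ^ 2))) := by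
    have e1 := hconv1.monotoneOn_deriv (fun t _ => (hφ1 t).differentiableAt)
    have e2 : deriv (fun t : ℝ => h1 (w + t • v)) = (fun t : ℝ => fderiv ℝ h (w + t • v) v -
      δ * (t * ‖v‖ ^ 2 / Real.sqrt (‖w‖ ^ 2 + t ^ 2 * ‖v‖ ^ 2))) := funext fun t => (hφ1 t).deriv
    rw [e2] at e1
    exact monotoneOn_univ.1 e1
  have hfin := (hψ.sub hψ2).nonneg_of_monotone hmono
  have hlast : 0 < δ * (‖v‖ ^ 2 / ‖w‖) := by positivity
  linarith

end AppAaux

theorem pnorm_smoothSupp {N : ℕ} (x : Fin N → C2) (p : ℕ) (hp : 4 ≤ p) (δ : ℝ) (hδ : 0 < δ)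
    (hx : ∀ w : C2, w ≠ 0 → ∃ j, 0 < inner ℝ w (x j)) :
    SmoothSupp (fun w => pnorm x p w + δ * ‖w‖) := by
  have hp0 : (p : ℝ) ≠ 0 := by
    have : 0 < p := by omega
    exact_mod_cast this.ne'
  have hp1 : (1 : ℝ) ≤ (p : ℝ) := by
    have : 1 ≤ p := by omega
    exact_mod_cast this
  have hnn : ∀ w : C2, 0 ≤ ∑ j, (max (inner ℝ w (x j)) 0) ^ p := by
    intro w
    exact Finset.sum_nonneg fun j _ => pow_nonneg (le_max_right _ _) _
  have hpos : ∀ w : C2, w ≠ 0 → 0 < ∑ j, (max (inner ℝ w (x j)) 0) ^ p := by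
    intro w hw
    obtain ⟨j, hj⟩ := hx w hw
    apply Finset.sum_pos' (fun j _ => pow_nonneg (le_max_right _ _) _)
    exact ⟨j, Finset.mem_univ _, pow_pos (lt_max_of_lt_left hj) _⟩
  have hPnn : ∀ w, 0 ≤ pnorm x p w := fun w => Real.rpow_nonneg (hnn w) _
  -- smoothness
  have hsm : ContDiffOn ℝ 3 (fun w => pnorm x p w + δ * ‖w‖) {0}ᶜ := by
    intro w hw
    have hw' : w ≠ 0 := hw
    apply ContDiffAt.contDiffWithinAt
    apply ContDiffAt.add
    · unfold pnorm
      have : ContDiff ℝ 3 fun w : C2 => ∑ j, (max (inner ℝ w (x j)) 0) ^ p := by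
        apply ContDiff.sum
        intro j _
        exact (appA_contDiff_max3 p hp).comp (contDiff_id.inner ℝ contDiff_const)
      exact this.contDiffAt.rpow_const_of_ne (hpos w hw').ne'
    · exact contDiffAt_const.mul (contDiffAt_norm ℝ hw')
  -- homogeneity
  have hzero : pnorm x p 0 = 0 := by
    unfold pnorm
    have h1 : ∑ j, (max (inner ℝ (0 : C2) (x j)) 0) ^ p = 0 := by
      apply Finset.sum_eq_zero
      intro j _
      rw [inner_zero_left, max_self]
      exact zero_pow (by omega)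
    rw [h1]
    exact Real.zero_rpow (one_div_ne_zero hp0)
  have hhom : ∀ (c : ℝ) (w : C2), 0 < c → pnorm x p (c • w) = c * pnorm x p w := by
    intro c w hc
    unfold pnorm
    have h1 : ∑ j, (max (inner ℝ (c • w) (x j)) 0) ^ p =
        c ^ p * ∑ j, (max (inner ℝ w (x j)) 0) ^ p := by
      rw [Finset.mul_sum]
      apply Finset.sum_congr rfl
      intro j _
      rw [real_inner_smul_left, ← mul_pow]
      congr 1
      rw [mul_max_of_nonneg _ _ hc.le, mul_zero]
    rw [h1, Real.mul_rpow (by positivity) (hnn w)]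
    congr 1
    rw [← Real.rpow_natCast, ← Real.rpow_mul hc.le, mul_one_div_cancel hp0, Real.rpow_one]
  -- subadditivity
  have hsub : ∀ v w : C2, pnorm x p (v + w) ≤ pnorm x p v + pnorm x p w := by
    intro v w
    have h1 := Real.Lp_add_le_of_nonneg (s := Finset.univ)
      (f := fun j => max (inner ℝ v (x j)) 0) (g := fun j => max (inner ℝ w (x j)) 0) hp1
      (fun j _ => le_max_right _ _) (fun j _ => le_max_right _ _)
    simp only [Real.rpow_natCast] at h1
    have h2 : pnorm x p (v + w) ≤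
        (∑ j, (max (inner ℝ v (x j)) 0 + max (inner ℝ w (x j)) 0) ^ p) ^ ((1 : ℝ) / p) := by
      unfold pnorm
      apply Real.rpow_le_rpow (hnn _) _ (by positivity)
      apply Finset.sum_le_sum
      intro j _
      apply pow_le_pow_left₀ (le_max_right _ _)
      rw [inner_add_left]
      exact max_le (add_le_add (le_max_left _ _) (le_max_left _ _))
        (add_nonneg (le_max_right _ _) (le_max_right _ _))
    exact h2.trans h1
  -- convexity
  have hconv : ConvexOn ℝ univ (pnorm x p) := by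
    refine ⟨convex_univ, ?_⟩
    intro v _ w _ a b ha hb _
    have hs : ∀ (c : ℝ) (z : C2), 0 ≤ c → pnorm x p (c • z) = c * pnorm x p z := by
      intro c z hc
      rcases hc.eq_or_lt with h | h
      · rw [← h, zero_smul, zero_mul, hzero]
      · exact hhom c z h
    have h1 := hsub (a • v) (b • w)
    rw [hs a v ha, hs b w hb] at h1
    simpa [smul_eq_mul] using h1
  refine ⟨hsm, ?_, ?_, ?_, ?_, ?_⟩
  · simp only [hzero, norm_zero, mul_zero, add_zero]
  · intro c w hc
    rw [hhom c w hc, norm_smul, Real.norm_eq_abs, abs_of_pos hc]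
    ring
  · intro w hw
    have : 0 < δ * ‖w‖ := mul_pos hδ (norm_pos_iff.2 hw)
    have := hPnn w
    linarith
  · intro v w
    have h1 := hsub v w
    have h2 : δ * ‖v + w‖ ≤ δ * (‖v‖ + ‖w‖) := mul_le_mul_of_nonneg_left (norm_add_le _ _) hδ.le
    linarith
  · intro w v hw hvw hv
    exact appA_strict hδ hsm hconv w v hw hvw hv

end Pool.Agent.HVM
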