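import Pool.Agent.HVM.Cont

/-! # Restriction of a support function to a plane (module AREA1) -/

set_option autoImplicit false

namespace Pool.Agent.HVM

open MeasureTheory Metric Set
open Pool.Agent.Helper85.Herm Pool.Agent.Helper85.Cap

/-- restriction of `h` to the plane spanned by `w` and `u w` -/
noncomputable def restr (h : C2 → ℝ) (w v : C2) (z : EuclideanSpace ℝ (Fin 2)) : ℝ :=
  h (z 0 • w + z 1 • v)

/-- the linear map `z ↦ z 0 • w + z 1 • v` -/
noncomputable def area1P (w v : C2) : EuclideanSpace ℝ (Fin 2) →L[ℝ] C2 :=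
  (EuclideanSpace.proj (0 : Fin 2) : EuclideanSpace ℝ (Fin 2) →L[ℝ] ℝ).smulRight w +
    (EuclideanSpace.proj (1 : Fin 2) : EuclideanSpace ℝ (Fin 2) →L[ℝ] ℝ).smulRight v

theorem area1P_apply (w v : C2) (z : EuclideanSpace ℝ (Fin 2)) :
    area1P w v z = z 0 • w + z 1 • v := by
  simp [area1P]

theorem restr_eq (h : C2 → ℝ) (w v : C2) : restr h w v = fun z => h (area1P w v z) := by
  funext z
  rw [restr, area1P_apply]

theorem area1_inner (u : C2 ≃ₗᵢ[ℝ] C2) (hu : ∀ x, u (u x) = -x) (w : C2) :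
    inner ℝ w (u w) = 0 := by
  have h1 : inner ℝ (u w) (u (u w)) = inner ℝ w (u w) := u.inner_map_map w (u w)
  rw [hu w, inner_neg_right, real_inner_comm] at h1
  linarith

theorem area1P_inner (u : C2 ≃ₗᵢ[ℝ] C2) (hu : ∀ x, u (u x) = -x) (w : C2)
    (a z : EuclideanSpace ℝ (Fin 2)) :
    inner ℝ (area1P w (u w) a) (area1P w (u w) z) = ‖w‖ ^ 2 * inner ℝ a z := by
  have h1 := area1_inner u hu w
  have h2 : inner ℝ (u w) w = 0 := by rw [real_inner_comm]; exact h1
  have h3 : inner ℝ (u w) (u w) = ‖w‖ ^ 2 := by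
    rw [u.inner_map_map, real_inner_self_eq_norm_sq]
  have h4 : inner ℝ w w = ‖w‖ ^ 2 := real_inner_self_eq_norm_sq w
  rw [area1P_apply, area1P_apply]
  simp only [inner_add_left, inner_add_right, inner_smul_left, inner_smul_right, h1, h2, h3, h4,
    EuclideanSpace.inner_eq_star_dotProduct, dotProduct, Fin.sum_univ_two]
  simp
  ring

theorem area1P_ne (u : C2 ≃ₗᵢ[ℝ] C2) (hu : ∀ x, u (u x) = -x) (w : C2) (hw : w ≠ 0)
    (z : EuclideanSpace ℝ (Fin 2)) (hz : z ≠ 0) : area1P w (u w) z ≠ 0 := by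
  intro h0
  have h1 := area1P_inner u hu w z z
  rw [h0, inner_zero_left, real_inner_self_eq_norm_sq] at h1
  have h2 : 0 < ‖w‖ ^ 2 := pow_pos (norm_pos_iff.mpr hw) 2
  have h3 : 0 < ‖z‖ ^ 2 := pow_pos (norm_pos_iff.mpr hz) 2
  have := mul_pos h2 h3
  linarith

theorem area1_hasGradientAt {h : C2 → ℝ} (hs : SmoothSupp h) (u : C2 ≃ₗᵢ[ℝ] C2)
    (hu : ∀ x, u (u x) = -x) (w : C2) (hw : w ≠ 0) (z : EuclideanSpace ℝ (Fin 2)) (hz : z ≠ 0) :
    HasGradientAt (restr h w (u w))
      (ContinuousLinearMap.adjoint (area1P w (u w)) (gradient h (area1P w (u w) z))) z := by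
  have h1 := hs.hasGradientAt (area1P_ne u hu w hw z hz)
  have h2 := (hasGradientAt_iff_hasFDerivAt.mp h1).comp z (area1P w (u w)).hasFDerivAt
  rw [hasGradientAt_iff_hasFDerivAt, restr_eq]
  refine h2.congr_fderiv ?_
  ext y
  simp [ContinuousLinearMap.adjoint_inner_left]

theorem area1_gradient {h : C2 → ℝ} (hs : SmoothSupp h) (u : C2 ≃ₗᵢ[ℝ] C2)
    (hu : ∀ x, u (u x) = -x) (w : C2) (hw : w ≠ 0) (z : EuclideanSpace ℝ (Fin 2)) (hz : z ≠ 0) :
    gradient (restr h w (u w)) z =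
      ContinuousLinearMap.adjoint (area1P w (u w)) (gradient h (area1P w (u w) z)) :=
  (area1_hasGradientAt hs u hu w hw z hz).gradient

theorem area1_hess {h : C2 → ℝ} (hs : SmoothSupp h) (u : C2 ≃ₗᵢ[ℝ] C2)
    (hu : ∀ x, u (u x) = -x) (w : C2) (hw : w ≠ 0) (z : EuclideanSpace ℝ (Fin 2)) (hz : z ≠ 0) :
    hess (restr h w (u w)) z =
      (ContinuousLinearMap.adjoint (area1P w (u w))) ∘L
        (hess h (area1P w (u w) z)) ∘L (area1P w (u w)) := by
  have h1 := hs.hasFDerivAt_gradient (area1P_ne u hu w hw z hz)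
  have h2 := h1.comp z (area1P w (u w)).hasFDerivAt
  have h3 := (ContinuousLinearMap.adjoint (area1P w (u w))).hasFDerivAt.comp z h2
  have h4 : gradient (restr h w (u w)) =ᶠ[nhds z]
      (⇑(ContinuousLinearMap.adjoint (area1P w (u w))) ∘
        (gradient h ∘ ⇑(area1P w (u w)))) := by
    filter_upwards [isOpen_compl_singleton.mem_nhds hz] with y hy
    exact area1_gradient hs u hu w hw y hy
  exact (h3.congr_of_eventuallyEq h4).fderiv

theorem area1_hess_inner {h : C2 → ℝ} (hs : SmoothSupp h) (u : C2 ≃ₗᵢ[ℝ] C2)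
    (hu : ∀ x, u (u x) = -x) (w : C2) (hw : w ≠ 0) (z : EuclideanSpace ℝ (Fin 2)) (hz : z ≠ 0)
    (a b : EuclideanSpace ℝ (Fin 2)) :
    inner ℝ (hess (restr h w (u w)) z a) b =
      inner ℝ (hess h (area1P w (u w) z) (area1P w (u w) a)) (area1P w (u w) b) := by
  rw [area1_hess hs u hu w hw z hz]
  simp only [ContinuousLinearMap.comp_apply, ContinuousLinearMap.adjoint_inner_left]

theorem restr_smoothSupp {h : C2 → ℝ} (hs : SmoothSupp h) (u : C2 ≃ₗᵢ[ℝ] C2)
    (hu : ∀ x, u (u x) = -x) (w : C2) (hw : w ≠ 0) : SmoothSupp (restr h w (u w)) where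
  smooth := by
    rw [restr_eq]
    exact hs.smooth.comp (area1P w (u w)).contDiff.contDiffOn
      (fun z hz => area1P_ne u hu w hw z hz)
  zero := by
    rw [restr_eq]
    simp [hs.zero]
  homog := by
    intro c z hc
    rw [restr_eq]
    simp only [map_smul]
    exact hs.homog c _ hc
  pos := by
    intro z hz
    rw [restr_eq]
    exact hs.pos _ (area1P_ne u hu w hw z hz)
  sub := by
    intro a b
    rw [restr_eq]
    simp only [map_add]
    exact hs.sub _ _
  strict := by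
    intro z a hz haz ha
    rw [area1_hess_inner hs u hu w hw z hz]
    refine hs.strict _ _ (area1P_ne u hu w hw z hz) ?_ (area1P_ne u hu w hw a ha)
    rw [area1P_inner u hu w, haz, mul_zero]

theorem restr_trace {h : C2 → ℝ} (hs : SmoothSupp h) (u : C2 ≃ₗᵢ[ℝ] C2)
    (hu : ∀ x, u (u x) = -x) (w : C2) (hw : w ≠ 0) (z : EuclideanSpace ℝ (Fin 2)) (hz : z ≠ 0) :
    LinearMap.trace ℝ (EuclideanSpace ℝ (Fin 2)) (hess (restr h w (u w)) z :
        EuclideanSpace ℝ (Fin 2) →ₗ[ℝ] EuclideanSpace ℝ (Fin 2)) =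
      inner ℝ (hess h (z 0 • w + z 1 • u w) (u (z 0 • w + z 1 • u w)))
        (u (z 0 • w + z 1 • u w)) * (‖z‖ ^ 2)⁻¹ := by
  have hz2 : ‖z‖ ^ 2 = z 0 ^ 2 + z 1 ^ 2 := by
    rw [EuclideanSpace.norm_sq_eq]
    simp [Fin.sum_univ_two]
  have hzpos : 0 < z 0 ^ 2 + z 1 ^ 2 := by
    rw [← hz2]
    exact pow_pos (norm_pos_iff.mpr hz) 2
  have hT : LinearMap.trace ℝ (EuclideanSpace ℝ (Fin 2)) (hess (restr h w (u w)) z :
        EuclideanSpace ℝ (Fin 2) →ₗ[ℝ] EuclideanSpace ℝ (Fin 2)) =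
      inner ℝ (hess h (area1P w (u w) z) w) w +
        inner ℝ (hess h (area1P w (u w) z) (u w)) (u w) := by
    rw [LinearMap.trace_eq_sum_inner _ (EuclideanSpace.basisFun (Fin 2) ℝ), Fin.sum_univ_two]
    have e0 : area1P w (u w) (EuclideanSpace.basisFun (Fin 2) ℝ 0) = w := by
      rw [area1P_apply]
      simp
    have e1 : area1P w (u w) (EuclideanSpace.basisFun (Fin 2) ℝ 1) = u w := by
      rw [area1P_apply]
      simp
    have k0 := area1_hess_inner hs u hu w hw z hz (EuclideanSpace.basisFun (Fin 2) ℝ 0)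
      (EuclideanSpace.basisFun (Fin 2) ℝ 0)
    have k1 := area1_hess_inner hs u hu w hw z hz (EuclideanSpace.basisFun (Fin 2) ℝ 1)
      (EuclideanSpace.basisFun (Fin 2) ℝ 1)
    rw [e0] at k0
    rw [e1] at k1
    rw [← k0, ← k1]
    rw [ContinuousLinearMap.coe_coe]
    rw [real_inner_comm, add_comm, real_inner_comm, add_comm]
  have hM : hess h (area1P w (u w) z) (area1P w (u w) z) = 0 :=
    hs.hess_self (area1P_ne u hu w hw z hz)
  have hP := area1P_apply w (u w) z
  rw [← hP, hT, hz2]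
  set M := hess h (area1P w (u w) z) with hMdef
  have hup : u (area1P w (u w) z) = z 0 • u w - z 1 • w := by
    rw [hP, map_add, map_smul, map_smul, hu]
    module
  have m0 : z 0 • M w + z 1 • M (u w) = 0 := by
    have : M (z 0 • w + z 1 • u w) = 0 := by rw [← hP]; exact hM
    rw [map_add, map_smul, map_smul] at this
    exact this
  have i0 : z 0 * inner ℝ (M w) w + z 1 * inner ℝ (M (u w)) w = 0 := by
    have := congrArg (fun x => inner ℝ x w) m0
    simpa [inner_add_left, inner_smul_left] using this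
  have i1 : z 0 * inner ℝ (M w) (u w) + z 1 * inner ℝ (M (u w)) (u w) = 0 := by
    have := congrArg (fun x => inner ℝ x (u w)) m0
    simpa [inner_add_left, inner_smul_left] using this
  have hin : inner ℝ (M (u (area1P w (u w) z))) (u (area1P w (u w) z)) =
      (z 0 ^ 2 + z 1 ^ 2) * (inner ℝ (M w) w + inner ℝ (M (u w)) (u w)) := by
    rw [hup, map_sub, map_smul, map_smul]
    simp only [inner_sub_left, inner_sub_right, inner_smul_left, inner_smul_right, conj_trivial]
    linear_combination (-(z 0)) * i0 + (-(z 1)) * i1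
  rw [hin]
  field_simp

end Pool.Agent.HVM
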