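import Pool.Agent.HVM.Area1

/-! # The shadow of a smooth body (module AREA2) -/

set_option autoImplicit false

namespace Pool.Agent.HVM

open MeasureTheory Metric Set
open Pool.Agent.Helper85.Herm Pool.Agent.Helper85.Cap

/-- the linear map `x ↦ (⟨x, w⟩, ⟨x, v⟩)` -/
noncomputable def ar2Map (w v : C2) : C2 →L[ℝ] EuclideanSpace ℝ (Fin 2) :=
  ((innerSL ℝ w).smulRight (EuclideanSpace.single (0 : Fin 2) (1 : ℝ))) +
    ((innerSL ℝ v).smulRight (EuclideanSpace.single (1 : Fin 2) (1 : ℝ)))

theorem ar2Map_zero (w v x : C2) : ar2Map w v x 0 = inner ℝ x w := by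
  have e : ar2Map w v x = (inner ℝ w x : ℝ) • EuclideanSpace.single (0 : Fin 2) (1 : ℝ) +
    (inner ℝ v x : ℝ) • EuclideanSpace.single (1 : Fin 2) (1 : ℝ) := rfl
  rw [e, real_inner_comm]
  simp

theorem ar2Map_one (w v x : C2) : ar2Map w v x 1 = inner ℝ x v := by
  have e : ar2Map w v x = (inner ℝ w x : ℝ) • EuclideanSpace.single (0 : Fin 2) (1 : ℝ) +
    (inner ℝ v x : ℝ) • EuclideanSpace.single (1 : Fin 2) (1 : ℝ) := rfl
  rw [e, real_inner_comm x v]
  simp

theorem ar2Map_inner (w v x : C2) (z : EuclideanSpace ℝ (Fin 2)) :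
    inner ℝ (ar2Map w v x) z = inner ℝ x (z 0 • w + z 1 • v) := by
  rw [PiLp.inner_apply, Fin.sum_univ_two, ar2Map_zero, ar2Map_one, inner_add_right,
    inner_smul_right, inner_smul_right]
  simp

theorem ar2_image {h : C2 → ℝ} (hs : SmoothSupp h) (w v : C2) :
    ar2Map w v '' wulff h = wulff (restr h w v) := by
  apply Subset.antisymm
  · rintro _ ⟨x, hx, rfl⟩ z
    rw [ar2Map_inner]
    exact hx _
  · intro y hy
    by_contra hcon
    have hconv : Convex ℝ (ar2Map w v '' wulff h) :=
      (wulff_convex h).linear_image (ar2Map w v : C2 →ₗ[ℝ] EuclideanSpace ℝ (Fin 2))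
    have hcl : IsClosed (ar2Map w v '' wulff h) :=
      (hs.wulff_compact.image (ar2Map w v).continuous).isClosed
    obtain ⟨f, c, hf, hc⟩ := geometric_hahn_banach_closed_point hconv hcl hcon
    obtain ⟨z, hz⟩ : ∃ z : EuclideanSpace ℝ (Fin 2), ∀ x, f x = inner ℝ x z := by
      refine ⟨(InnerProductSpace.toDual ℝ _).symm f, fun x => ?_⟩
      rw [real_inner_comm, InnerProductSpace.toDual_symm_apply]
    have h1 : inner ℝ y z ≤ h (z 0 • w + z 1 • v) := hy z
    by_cases hv : z 0 • w + z 1 • v = 0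
    · have h0 : (0 : C2) ∈ wulff h := by
        intro a
        rw [inner_zero_left]
        by_cases ha : a = 0
        · rw [ha, hs.zero]
        · exact (hs.pos a ha).le
      have h2 := hf _ ⟨0, h0, rfl⟩
      rw [hz, ar2Map_inner, inner_zero_left] at h2
      rw [hv, hs.zero, ← hz] at h1
      linarith
    · have h2 := hf _ ⟨_, hs.gradient_mem hv, rfl⟩
      rw [hz, ar2Map_inner, hs.gradient_inner hv] at h2
      rw [← hz] at h1
      linarith

/-- the volume preserving identification of `EuclideanSpace ℝ (Fin 2)` with `ℝ × ℝ` -/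
theorem ar2_volume (S : Set (EuclideanSpace ℝ (Fin 2))) :
    volume ((fun y : EuclideanSpace ℝ (Fin 2) => (y 0, y 1)) '' S) = volume S := by
  let e : EuclideanSpace ℝ (Fin 2) ≃ᵐ ℝ × ℝ :=
    (MeasurableEquiv.toLp 2 (Fin 2 → ℝ)).symm.trans MeasurableEquiv.finTwoArrow
  have he : MeasurePreserving e volume volume :=
    (EuclideanSpace.volume_preserving_symm_measurableEquiv_toLp (Fin 2)).trans
      (volume_preserving_finTwoArrow ℝ)
  have h1 : (fun y : EuclideanSpace ℝ (Fin 2) => (y 0, y 1)) = e := rfl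
  rw [h1, MeasurableEquiv.image_eq_preimage_symm]
  exact (he.symm e).measure_preimage_equiv S

/-- the shadow is the body with support function `restr` -/
theorem area_restr {h : C2 → ℝ} (hs : SmoothSupp h) (K : Body) (hK : pts K = wulff h)
    (u : C2 ≃ₗᵢ[ℝ] C2) (hu : ∀ x, u (u x) = -x) (w : C2) (hw : w ≠ 0) :
    area u K w = (volume (wulff (restr h w (u w)))).toReal := by
  rw [area, ← ar2_image hs, ← ar2_volume, image_image, hK]
  congr 3
  funext x
  rw [ar2Map_zero, ar2Map_one]

end Pool.Agent.HVM
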