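import Pool.Agent.HVM.Fin

/-! # The minimum is attained (module ATT) -/

set_option autoImplicit false

namespace Pool.Agent.HVM

open MeasureTheory Metric Set Filter
open Pool.Agent.Helper85.Herm Pool.Agent.Helper85.Cap

/-- the nonempty compact set of a body -/
noncomputable def bodyNC (K : Body) : TopologicalSpace.NonemptyCompacts C2 where
  carrier := pts K
  isCompact' := K.isCompact
  nonempty' := K.nonempty

theorem bodyNC_dist (K L : Body) : dist (bodyNC K) (bodyNC L) = dist K L := rfl

theorem infDist_le_of_convex {A : Set C2} (hA : Convex ℝ A) (hc : IsCompact A)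
    (hn : A.Nonempty) (x y : C2) (s t : ℝ) (hs : 0 ≤ s) (ht : 0 ≤ t) (hst : s + t = 1) :
    infDist (s • x + t • y) A ≤ s * infDist x A + t * infDist y A := by
  obtain ⟨u, hu, hux⟩ := hc.exists_infDist_eq_dist hn x
  obtain ⟨v, hv, hvy⟩ := hc.exists_infDist_eq_dist hn y
  have h1 := infDist_le_dist_of_mem (x := s • x + t • y) (hA hu hv hs ht hst)
  refine h1.trans ?_
  rw [hux, hvy, dist_eq_norm, dist_eq_norm, dist_eq_norm]
  have h2 : s • x + t • y - (s • u + t • v) = s • (x - u) + t • (y - v) := by
    rw [smul_sub, smul_sub]; abel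
  rw [h2]
  refine (norm_add_le _ _).trans ?_
  rw [norm_smul, norm_smul, Real.norm_of_nonneg hs, Real.norm_of_nonneg ht]

/-- Blaschke selection for bodies in a fixed ball -/
theorem blaschke (R : ℝ) (L : ℕ → Body) (hL : ∀ n, pts (L n) ⊆ closedBall 0 R) :
    ∃ (K : Body) (φ : ℕ → ℕ), StrictMono φ ∧ Tendsto (L ∘ φ) atTop (nhds K) := by
  have hC : IsCompact {A : TopologicalSpace.NonemptyCompacts C2 | (A : Set C2) ⊆ closedBall 0 R} :=
    TopologicalSpace.NonemptyCompacts.isCompact_subsets_of_isCompact (isCompact_closedBall 0 R)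
  obtain ⟨X, -, φ, hφ, hX⟩ := hC.tendsto_subseq (x := fun n => bodyNC (L n)) hL
  have hd : Tendsto (fun n => dist (bodyNC (L (φ n))) X) atTop (nhds 0) :=
    tendsto_iff_dist_tendsto_zero.1 hX
  clear hX
  have hinf : ∀ p : C2, Tendsto (fun n => infDist p (pts (L (φ n)))) atTop
      (nhds (infDist p (X : Set C2))) := by
    intro p
    rw [tendsto_iff_dist_tendsto_zero]
    refine squeeze_zero (fun _ => dist_nonneg) (fun n => ?_) hd
    have h := (lipschitz_infDist_set p).dist_le_mul (bodyNC (L (φ n))) X
    rw [NNReal.coe_one, one_mul] at h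
    exact h
  have hmem : ∀ p : C2, infDist p (X : Set C2) = 0 → p ∈ (X : Set C2) := by
    intro p hp
    exact (X.isCompact.isClosed.mem_iff_infDist_zero X.nonempty).2 hp
  have hconv : Convex ℝ (X : Set C2) := by
    intro x hx y hy s t hs ht hst
    apply hmem
    refine le_antisymm ?_ infDist_nonneg
    have h1 : Tendsto (fun n => s * infDist x (pts (L (φ n))) + t * infDist y (pts (L (φ n))))
        atTop (nhds (s * infDist x (X : Set C2) + t * infDist y (X : Set C2))) :=
      ((hinf x).const_mul s).add ((hinf y).const_mul t)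
    rw [infDist_zero_of_mem hx, infDist_zero_of_mem hy, mul_zero, mul_zero, add_zero] at h1
    refine le_of_tendsto_of_tendsto (hinf _) h1 (Eventually.of_forall fun n => ?_)
    exact infDist_le_of_convex (L (φ n)).convex (L (φ n)).isCompact (L (φ n)).nonempty x y s t hs
      ht hst
  refine ⟨⟨(X : Set C2), hconv, X.isCompact, X.nonempty⟩, φ, hφ, ?_⟩
  rw [tendsto_iff_dist_tendsto_zero]
  exact hd

theorem exists_translate (K : Body) (v : C2) : ∃ L : Body, pts L = (fun x => x + v) '' pts K := by
  refine ⟨⟨(fun x => x + v) '' pts K, ?_, ?_, ?_⟩, rfl⟩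
  · have h := K.convex.translate v
    have e : (fun x => x + v) '' pts K = (fun z => v + z) '' (K : Set C2) := by
      apply Set.image_congr'
      intro x
      exact add_comm x v
    rw [e]
    exact h
  · exact K.isCompact.image (continuous_id.add continuous_const)
  · exact K.nonempty.image _

theorem attained (a b : ℝ) (ha : 0 < a) (hb : 0 < b) :
    ∃ m : ℝ, IsLeast {r | ∃ K : Body, UnitVolume K ∧ muab a b K = r} m := by
  set S : Set ℝ := {r | ∃ K : Body, UnitVolume K ∧ muab a b K = r} with hS
  have hlin : ∀ K : Body, muab a b K = a * muab 1 0 K + b * muab 0 1 K := by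
    intro K
    unfold muab
    ring
  have hV2 : ∀ K : Body, V2 K = muab 1 0 K + muab 0 1 K := by
    intro K
    unfold V2 muab
    ring
  have hne : S.Nonempty := ⟨_, unitBall, unitBall_volume, rfl⟩
  have hbdd : BddBelow S := by
    refine ⟨0, ?_⟩
    rintro _ ⟨K, -, rfl⟩
    rw [hlin]
    obtain ⟨h1, h2⟩ := muab_nonneg K
    positivity
  obtain ⟨u, -, hu, huS⟩ := exists_seq_tendsto_sInf hne hbdd
  choose K hK hKu using huS
  -- bounded V2
  obtain ⟨C, hC⟩ := hu.bddAbove_range
  have hT : ∀ n, V2 (K n) ≤ C / min a b := by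
    intro n
    have hm : 0 < min a b := lt_min ha hb
    rw [le_div_iff₀ hm, hV2]
    have h3 : u n ≤ C := hC ⟨n, rfl⟩
    rw [← hKu n, hlin] at h3
    obtain ⟨h1, h2⟩ := muab_nonneg (K n)
    have h4 := mul_le_mul_of_nonneg_right (min_le_left a b) h1
    have h5 := mul_le_mul_of_nonneg_right (min_le_right a b) h2
    nlinarith
  obtain ⟨R, hR⟩ := diam_bound (C / min a b)
  choose v hv using fun n => hR (K n) (hK n) (hT n)
  choose L hL using fun n => exists_translate (K n) (-v n)
  have hLball : ∀ n, pts (L n) ⊆ closedBall 0 R := by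
    intro n
    rw [hL n]
    rintro _ ⟨x, hx, rfl⟩
    rw [mem_closedBall, dist_zero_right]
    have := hv n x hx
    rwa [sub_eq_add_neg] at this
  have hLvol : ∀ n, UnitVolume (L n) := by
    intro n
    unfold UnitVolume
    rw [hL n]
    have := hK n
    unfold UnitVolume at this
    rw [← this]
    have e : (fun x => x + -v n) '' pts (K n) = (fun x => x + v n) ⁻¹' pts (K n) := by
      ext x
      constructor
      · rintro ⟨y, hy, rfl⟩
        simpa using hy
      · intro hx
        exact ⟨x + v n, hx, by simp⟩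
    rw [e, measure_preimage_add_right]
  have hLmu : ∀ n, muab a b (L n) = u n := by
    intro n
    rw [← hKu n]
    exact (isHermVal_muab a b).translation (K n) (L n) (-v n) (hL n)
  obtain ⟨K₀, φ, hφ, hlim⟩ := blaschke R L hLball
  refine ⟨sInf S, ⟨K₀, ?_, ?_⟩, fun r hr => csInf_le hbdd hr⟩
  · have h1 : Tendsto (fun n => (volume (pts (L (φ n)))).toReal) atTop
        (nhds (volume (pts K₀)).toReal) :=
      ((continuous_volume_convexBody (V := C2) volume).tendsto K₀).comp hlim
    have h2 : (fun n => (volume (pts (L (φ n)))).toReal) = fun _ => (1 : ℝ) := by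
      funext n
      have := hLvol (φ n)
      unfold UnitVolume at this
      rw [this, ENNReal.toReal_one]
    rw [h2] at h1
    have h3 : (volume (pts K₀)).toReal = 1 := tendsto_nhds_unique h1 tendsto_const_nhds
    unfold UnitVolume
    rwa [ENNReal.toReal_eq_one_iff] at h3
  · have h1 : Tendsto (fun n => muab a b (L (φ n))) atTop (nhds (muab a b K₀)) :=
      ((isHermVal_muab a b).continuous.tendsto K₀).comp hlim
    have h2 : (fun n => muab a b (L (φ n))) = u ∘ φ := by
      funext n
      exact hLmu (φ n)
    rw [h2] at h1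
    exact tendsto_nhds_unique h1 (hu.comp hφ.tendsto_atTop)

end Pool.Agent.HVM
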