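import Pool.Agent.HVM.Defs

/-! # Calculus of smooth support functions (module CALC) -/

set_option autoImplicit false
set_option linter.unusedSectionVars false

namespace Pool.Agent.HVM

open MeasureTheory Metric Set Filter Topology

variable {E : Type*} [NormedAddCommGroup E] [InnerProductSpace ℝ E] [FiniteDimensional ℝ E]
  [CompleteSpace E]

section calc_aux

omit [FiniteDimensional ℝ E] [CompleteSpace E] in
theorem calc_nhds {w : E} (hw : w ≠ 0) : ({0}ᶜ : Set E) ∈ 𝓝 w :=
  isOpen_compl_singleton.mem_nhds hw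

/-- the inverse of the Riesz map as a continuous linear map -/
noncomputable def calcT (E : Type*) [NormedAddCommGroup E] [InnerProductSpace ℝ E]
    [CompleteSpace E] : StrongDual ℝ E →L[ℝ] E where
  toFun l := (InnerProductSpace.toDual ℝ E).symm l
  map_add' a b := map_add _ a b
  map_smul' c a := by
    rw [LinearIsometryEquiv.map_smulₛₗ]
    rfl
  cont := (InnerProductSpace.toDual ℝ E).symm.continuous

omit [FiniteDimensional ℝ E] in
theorem calcT_inner (l : StrongDual ℝ E) (b : E) : inner ℝ (calcT E l) b = l b :=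
  InnerProductSpace.toDual_symm_apply

omit [FiniteDimensional ℝ E] in
theorem calc_grad (h : E → ℝ) : gradient h = fun w => calcT E (fderiv ℝ h w) := rfl

omit [FiniteDimensional ℝ E] in
theorem calc_cda {h : E → ℝ} (hs : SmoothSupp h) {w : E} (hw : w ≠ 0) : ContDiffAt ℝ 3 h w :=
  hs.smooth.contDiffAt (calc_nhds hw)

omit [FiniteDimensional ℝ E] in
theorem calc_da {h : E → ℝ} (hs : SmoothSupp h) {w : E} (hw : w ≠ 0) :
    DifferentiableAt ℝ h w := (calc_cda hs hw).differentiableAt (by norm_num)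

omit [FiniteDimensional ℝ E] in
theorem calc_fderiv {h : E → ℝ} (w v : E) : fderiv ℝ h w v = inner ℝ (gradient h w) v := by
  rw [calc_grad]
  exact (calcT_inner _ _).symm

end calc_aux

theorem SmoothSupp.hasGradientAt {h : E → ℝ} (hs : SmoothSupp h) {w : E} (hw : w ≠ 0) :
    HasGradientAt h (gradient h w) w := (calc_da hs hw).hasGradientAt

theorem SmoothSupp.gradient_contDiffOn {h : E → ℝ} (hs : SmoothSupp h) :
    ContDiffOn ℝ 2 (gradient h) {0}ᶜ := by
  rw [calc_grad]
  exact (calcT E).contDiff.comp_contDiffOn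
    (hs.smooth.fderiv_of_isOpen isOpen_compl_singleton (by norm_num))

theorem SmoothSupp.hasFDerivAt_gradient {h : E → ℝ} (hs : SmoothSupp h) {w : E} (hw : w ≠ 0) :
    HasFDerivAt (gradient h) (hess h w) w :=
  ((hs.gradient_contDiffOn.contDiffAt (calc_nhds hw)).differentiableAt (by norm_num)).hasFDerivAt

theorem SmoothSupp.hess_contDiffOn {h : E → ℝ} (hs : SmoothSupp h) :
    ContDiffOn ℝ 1 (hess h) {0}ᶜ :=
  hs.gradient_contDiffOn.fderiv_of_isOpen isOpen_compl_singleton (by norm_num)

theorem SmoothSupp.gradient_smul {h : E → ℝ} (hs : SmoothSupp h) (c : ℝ) (hc : 0 < c) (w : E)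
    (hw : w ≠ 0) : gradient h (c • w) = gradient h w := by
  have hcw : c • w ≠ 0 := smul_ne_zero hc.ne' hw
  have h1 : HasFDerivAt (fun z => h (c • z))
      ((fderiv ℝ h (c • w)).comp (c • ContinuousLinearMap.id ℝ E)) w := by
    refine HasFDerivAt.comp w (calc_da hs hcw).hasFDerivAt ?_
    exact (hasFDerivAt_id w).const_smul c
  have h2 : HasFDerivAt (fun z => h (c • z)) (c • fderiv ℝ h w) w := by
    have h3 := (calc_da hs hw).hasFDerivAt.const_mul c
    refine h3.congr_of_eventuallyEq (Eventually.of_forall fun z => ?_)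
    exact hs.homog c z hc
  have h4 := h1.unique h2
  have h5 : fderiv ℝ h (c • w) = fderiv ℝ h w := by
    ext v
    have h6 := DFunLike.congr_fun h4 v
    simp only [ContinuousLinearMap.comp_apply, smul_apply, ContinuousLinearMap.id_apply,
      map_smul, smul_eq_mul] at h6
    exact mul_left_cancel₀ hc.ne' h6
  rw [calc_grad]
  simp only [h5]

theorem SmoothSupp.hess_smul {h : E → ℝ} (hs : SmoothSupp h) (c : ℝ) (hc : 0 < c) (w : E)
    (hw : w ≠ 0) : hess h (c • w) = c⁻¹ • hess h w := by
  have hcw : c • w ≠ 0 := smul_ne_zero hc.ne' hw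
  have h1 : HasFDerivAt (fun z => gradient h (c • z))
      ((hess h (c • w)).comp (c • ContinuousLinearMap.id ℝ E)) w := by
    refine HasFDerivAt.comp w (hs.hasFDerivAt_gradient hcw) ?_
    exact (hasFDerivAt_id w).const_smul c
  have h2 : HasFDerivAt (fun z => gradient h (c • z)) (hess h w) w := by
    refine (hs.hasFDerivAt_gradient hw).congr_of_eventuallyEq ?_
    filter_upwards [calc_nhds hw] with z hz
    exact hs.gradient_smul c hc z hz
  have h4 := h1.unique h2
  ext v
  have h6 := DFunLike.congr_fun h4 v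
  simp only [ContinuousLinearMap.comp_apply, smul_apply, ContinuousLinearMap.id_apply,
    map_smul] at h6
  rw [smul_apply, ← h6, smul_smul, inv_mul_cancel₀ hc.ne', one_smul]

/-- Euler -/
theorem SmoothSupp.gradient_inner {h : E → ℝ} (hs : SmoothSupp h) {w : E} (hw : w ≠ 0) :
    inner ℝ (gradient h w) w = h w := by
  have h1 : HasDerivAt (fun c : ℝ => h (c • w)) (fderiv ℝ h w w) 1 := by
    have h0 : HasDerivAt (fun c : ℝ => c • w) w 1 := by
      have := (hasDerivAt_id (1 : ℝ)).smul_const w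
      rwa [one_smul] at this
    have h2 : HasFDerivAt h (fderiv ℝ h w) ((1 : ℝ) • w) := by
      rw [one_smul]
      exact (calc_da hs hw).hasFDerivAt
    exact h2.comp_hasDerivAt 1 h0
  have h2 : HasDerivAt (fun c : ℝ => h (c • w)) (h w) 1 := by
    have h3 : HasDerivAt (fun c : ℝ => c * h w) (1 * h w) 1 := (hasDerivAt_id (1 : ℝ)).mul_const _
    rw [one_mul] at h3
    refine h3.congr_of_eventuallyEq ?_
    filter_upwards [isOpen_Ioi.mem_nhds (zero_lt_one : (0 : ℝ) < 1)] with c hc
    exact hs.homog c w hc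
  rw [← calc_fderiv]
  exact h1.unique h2

theorem SmoothSupp.hess_self {h : E → ℝ} (hs : SmoothSupp h) {w : E} (hw : w ≠ 0) :
    hess h w w = 0 := by
  have h1 : HasDerivAt (fun c : ℝ => gradient h (c • w)) (hess h w w) 1 := by
    have h0 : HasDerivAt (fun c : ℝ => c • w) w 1 := by
      have := (hasDerivAt_id (1 : ℝ)).smul_const w
      rwa [one_smul] at this
    have h2 : HasFDerivAt (gradient h) (hess h w) ((1 : ℝ) • w) := by
      rw [one_smul]
      exact hs.hasFDerivAt_gradient hw
    exact h2.comp_hasDerivAt 1 h0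
  have h2 : HasDerivAt (fun c : ℝ => gradient h (c • w)) 0 1 := by
    refine (hasDerivAt_const (1 : ℝ) (gradient h w)).congr_of_eventuallyEq ?_
    filter_upwards [isOpen_Ioi.mem_nhds (zero_lt_one : (0 : ℝ) < 1)] with c hc
    exact hs.gradient_smul c hc w hw
  exact h1.unique h2

theorem SmoothSupp.hess_symm {h : E → ℝ} (hs : SmoothSupp h) {w : E} (hw : w ≠ 0) (a b : E) :
    inner ℝ (hess h w a) b = inner ℝ a (hess h w b) := by
  have h0 : DifferentiableAt ℝ (fderiv ℝ h) w :=
    ((hs.smooth.fderiv_of_isOpen isOpen_compl_singleton (m := 2) (by norm_num)).contDiffAt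
      (calc_nhds hw)).differentiableAt (by norm_num)
  have h1 : hess h w = (calcT E).comp (fderiv ℝ (fderiv ℝ h) w) := by
    have h2 : HasFDerivAt (gradient h) ((calcT E).comp (fderiv ℝ (fderiv ℝ h) w)) w := by
      rw [calc_grad]
      exact (calcT E).hasFDerivAt.comp w h0.hasFDerivAt
    exact h2.fderiv
  have h3 : ∀ a b, inner ℝ (hess h w a) b = fderiv ℝ (fderiv ℝ h) w a b := by
    intro a b
    rw [h1, ContinuousLinearMap.comp_apply, calcT_inner]
  have h4 : IsSymmSndFDerivAt ℝ h w :=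
    (calc_cda hs hw).isSymmSndFDerivAt (by
      rw [minSmoothness_of_isRCLikeNormedField]
      exact_mod_cast (by norm_num : (2 : ℕ) ≤ 3))
  rw [h3, real_inner_comm, h3]
  exact h4 a b

omit [FiniteDimensional ℝ E] [CompleteSpace E] in
theorem calc_decomp {w : E} (hw : w ≠ 0) (v : E) : ∃ (c : ℝ) (v' : E), v = c • w + v' ∧
    inner ℝ v' w = 0 := by
  refine ⟨inner ℝ v w / ‖w‖ ^ 2, v - (inner ℝ v w / ‖w‖ ^ 2) • w, by abel, ?_⟩
  have h1 : (‖w‖ ^ 2 : ℝ) ≠ 0 := pow_ne_zero 2 (norm_ne_zero_iff.2 hw)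
  rw [inner_sub_left, real_inner_smul_left, real_inner_self_eq_norm_sq, div_mul_cancel₀ _ h1,
    sub_self]

theorem calc_hess_decomp {h : E → ℝ} (hs : SmoothSupp h) {w : E} (hw : w ≠ 0) (c : ℝ) (v : E) :
    inner ℝ (hess h w (c • w + v)) (c • w + v) = inner ℝ (hess h w v) v := by
  have h1 : hess h w (c • w + v) = hess h w v := by
    rw [map_add, map_smul, hs.hess_self hw, smul_zero, zero_add]
  rw [h1, inner_add_right, real_inner_smul_right, hs.hess_symm hw, hs.hess_self hw,
    inner_zero_right, mul_zero, zero_add]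

theorem SmoothSupp.hess_nonneg {h : E → ℝ} (hs : SmoothSupp h) {w : E} (hw : w ≠ 0) (v : E) :
    0 ≤ inner ℝ (hess h w v) v := by
  obtain ⟨c, v', rfl, hv'⟩ := calc_decomp hw v
  rw [calc_hess_decomp hs hw]
  by_cases h0 : v' = 0
  · rw [h0, inner_zero_right]
  · exact (hs.strict w v' hw hv' h0).le

/-- the gradient is a point of the body -/
theorem SmoothSupp.gradient_mem {h : E → ℝ} (hs : SmoothSupp h) {w : E} (hw : w ≠ 0) :
    gradient h w ∈ wulff h := by
  intro z
  have h0 : HasDerivAt (fun t : ℝ => w + t • z) z 0 := by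
    have := ((hasDerivAt_id (0 : ℝ)).smul_const z).const_add w
    rwa [one_smul] at this
  have h1 : HasDerivAt (fun t : ℝ => h (w + t • z)) (fderiv ℝ h w z) 0 := by
    have h2 : HasFDerivAt h (fderiv ℝ h w) (w + (0 : ℝ) • z) := by
      rw [zero_smul, add_zero]
      exact (calc_da hs hw).hasFDerivAt
    exact h2.comp_hasDerivAt 0 h0
  rw [← calc_fderiv]
  refine le_of_tendsto h1.tendsto_slope_zero_right ?_
  filter_upwards [self_mem_nhdsWithin] with t ht
  have ht' : 0 < t := ht
  rw [zero_add, zero_smul, add_zero, smul_eq_mul, inv_mul_le_iff₀ ht']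
  have h3 := hs.sub w (t • z)
  rw [hs.homog t z ht'] at h3
  linarith

/-- a point of the body with `⟨x, w⟩ = h w` is the gradient at `w` -/
theorem SmoothSupp.eq_gradient {h : E → ℝ} (hs : SmoothSupp h) {w x : E} (hw : w ≠ 0)
    (hx : x ∈ wulff h) (he : inner ℝ x w = h w) : x = gradient h w := by
  have h1 : HasFDerivAt (fun z => h z - inner ℝ x z) (fderiv ℝ h w - innerSL ℝ x) w :=
    (calc_da hs hw).hasFDerivAt.sub (innerSL ℝ x).hasFDerivAt
  have h2 : IsLocalMin (fun z => h z - inner ℝ x z) w := by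
    refine Eventually.of_forall fun z => ?_
    have h3 : inner ℝ x z ≤ h z := hx z
    show h w - inner ℝ x w ≤ h z - inner ℝ x z
    rw [he]
    linarith
  have h3 := h2.hasFDerivAt_eq_zero h1
  refine ext_inner_right ℝ fun v => ?_
  have h4 := DFunLike.congr_fun h3 v
  rw [sub_apply, calc_fderiv, innerSL_apply_apply, zero_apply] at h4
  linarith

/-- the gradient is injective on directions -/
theorem SmoothSupp.gradient_inj {h : E → ℝ} (hs : SmoothSupp h) {v w : E} (hv : v ≠ 0)
    (hw : w ≠ 0) (he : gradient h v = gradient h w) : ∃ c : ℝ, 0 < c ∧ v = c • w := by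
  obtain ⟨x, hx⟩ : ∃ x, x = gradient h v := ⟨_, rfl⟩
  have hxv : inner ℝ x v = h v := by rw [hx]; exact hs.gradient_inner hv
  have hxw : inner ℝ x w = h w := by rw [hx, he]; exact hs.gradient_inner hw
  have hxm : x ∈ wulff h := by rw [hx]; exact hs.gradient_mem hv
  have hpar : ∀ c : ℝ, v = c • w → 0 < c := by
    intro c hc
    by_contra hcon
    have h1 := hs.pos v hv
    have h2 := hs.pos w hw
    rw [← hxv, hc, real_inner_smul_right, hxw] at h1
    nlinarith
  by_cases hz : v + w = 0
  · have h1 := hpar (-1) (by rw [neg_smul, one_smul]; exact eq_neg_of_add_eq_zero_left hz)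
    linarith
  · obtain ⟨z, hzd⟩ : ∃ z : E, z = (1 / 2 : ℝ) • (v + w) := ⟨_, rfl⟩
    have hz0 : z ≠ 0 := by
      rw [hzd]
      exact smul_ne_zero (by norm_num) hz
    -- the gradient is constant on the segment
    have hcurve : HasDerivAt (fun t : ℝ => z + t • (w - v)) (w - v) 0 := by
      have := ((hasDerivAt_id (0 : ℝ)).smul_const (w - v)).const_add z
      rwa [one_smul] at this
    have h1 : HasDerivAt (fun t : ℝ => gradient h (z + t • (w - v))) (hess h z (w - v)) 0 := by
      have h2 : HasFDerivAt (gradient h) (hess h z) (z + (0 : ℝ) • (w - v)) := by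
        rw [zero_smul, add_zero]
        exact hs.hasFDerivAt_gradient hz0
      exact h2.comp_hasDerivAt 0 hcurve
    have h2 : HasDerivAt (fun t : ℝ => gradient h (z + t • (w - v))) 0 0 := by
      refine (hasDerivAt_const (0 : ℝ) x).congr_of_eventuallyEq ?_
      have h3 : ∀ᶠ t : ℝ in 𝓝 0, z + t • (w - v) ≠ 0 := by
        have h4 : ContinuousAt (fun t : ℝ => z + t • (w - v)) 0 := hcurve.continuousAt
        refine h4.eventually_ne ?_
        rw [zero_smul, add_zero]
        exact hz0
      have h5 : ∀ᶠ t : ℝ in 𝓝 0, t ∈ Ioo (-(1 / 2) : ℝ) (1 / 2) :=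
        isOpen_Ioo.mem_nhds ⟨by norm_num, by norm_num⟩
      filter_upwards [h3, h5] with t ht ht'
      have ha : 0 < 1 / 2 - t := by linarith [ht'.2]
      have hb : 0 < 1 / 2 + t := by linarith [ht'.1]
      have h6 : z + t • (w - v) = (1 / 2 - t) • v + (1 / 2 + t) • w := by
        rw [hzd]
        module
      symm
      refine hs.eq_gradient ht hxm (le_antisymm (hxm _) ?_)
      rw [h6, inner_add_right, real_inner_smul_right, real_inner_smul_right, hxv, hxw,
        ← hs.homog _ v ha, ← hs.homog _ w hb]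
      exact hs.sub _ _
    have h3 : hess h z (w - v) = 0 := h1.unique h2
    obtain ⟨c, d, hcd, hd⟩ := calc_decomp hz0 (w - v)
    have hd0 : d = 0 := by
      by_contra hd0
      have h4 := hs.strict z d hz0 hd hd0
      rw [← calc_hess_decomp hs hz0 c, ← hcd, h3, inner_zero_left] at h4
      exact lt_irrefl _ h4
    rw [hd0, add_zero, hzd] at hcd
    have h5 : (1 - c / 2) • w = (1 + c / 2) • v := by
      have h6 : (1 - c / 2) • w - (1 + c / 2) • v = (w - v) - c • (1 / 2 : ℝ) • (v + w) := by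
        module
      rw [hcd, sub_self] at h6
      exact sub_eq_zero.1 h6
    have h6 : 1 + c / 2 ≠ 0 := by
      intro h7
      rw [h7, zero_smul] at h5
      rcases smul_eq_zero.1 h5 with h8 | h8
      · linarith
      · exact hw h8
    have h7 : v = ((1 + c / 2)⁻¹ * (1 - c / 2)) • w := by
      rw [mul_smul, h5, smul_smul, inv_mul_cancel₀ h6, one_smul]
    exact ⟨_, hpar _ h7, h7⟩

theorem calc_bound {h : E → ℝ} (hs : SmoothSupp h) :
    ∃ C : ℝ, 0 ≤ C ∧ ∀ w : E, h w ≤ C * ‖w‖ ∧ 0 ≤ h w := by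
  have hc : ContinuousOn h (sphere (0 : E) 1) := by
    intro w hw
    have hw0 : w ≠ 0 := ne_zero_of_mem_unit_sphere ⟨w, hw⟩
    exact (calc_da hs hw0).continuousAt.continuousWithinAt
  obtain ⟨C, hC⟩ := (isCompact_sphere (0 : E) 1).exists_bound_of_continuousOn hc
  refine ⟨max C 0, le_max_right _ _, fun w => ?_⟩
  by_cases hw : w = 0
  · rw [hw, hs.zero, norm_zero, mul_zero]
    exact ⟨le_refl _, le_refl _⟩
  · refine ⟨?_, (hs.pos w hw).le⟩
    have hn : 0 < ‖w‖ := norm_pos_iff.2 hw
    have h1 : w = ‖w‖ • (‖w‖⁻¹ • w) := by rw [smul_smul, mul_inv_cancel₀ hn.ne', one_smul]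
    have h2 : ‖w‖⁻¹ • w ∈ sphere (0 : E) 1 := by
      rw [mem_sphere_zero_iff_norm, norm_smul, norm_inv, norm_norm, inv_mul_cancel₀ hn.ne']
    have h3 := hC _ h2
    rw [Real.norm_eq_abs] at h3
    have h4 := le_trans (le_abs_self _) h3
    have h5 : h w = ‖w‖ * h (‖w‖⁻¹ • w) := by
      conv_lhs => rw [h1]
      exact hs.homog _ _ hn
    rw [h5, mul_comm]
    exact mul_le_mul_of_nonneg_right (le_trans h4 (le_max_left _ _)) hn.le

theorem SmoothSupp.continuous {h : E → ℝ} (hs : SmoothSupp h) : Continuous h := by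
  rw [continuous_iff_continuousAt]
  intro w
  by_cases hw : w = 0
  · obtain ⟨C, hC, hb⟩ := calc_bound hs
    rw [hw]
    have h1 : Tendsto (fun z : E => C * ‖z‖) (𝓝 0) (𝓝 0) := by
      have h2 : Continuous fun z : E => C * ‖z‖ := by fun_prop
      have h3 := h2.tendsto 0
      simpa using h3
    show Tendsto h (𝓝 0) (𝓝 (h 0))
    rw [hs.zero]
    exact squeeze_zero (fun z => (hb z).2) (fun z => (hb z).1) h1
  · exact (calc_da hs hw).continuousAt

/-- the gradient is bounded: it lies in a ball -/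
theorem SmoothSupp.gradient_bdd {h : E → ℝ} (hs : SmoothSupp h) :
    ∃ R : ℝ, 0 ≤ R ∧ (∀ x ∈ wulff h, ‖x‖ ≤ R) ∧ ∀ w : E, w ≠ 0 → ‖gradient h w‖ ≤ R := by
  obtain ⟨C, hC, hb⟩ := calc_bound hs
  have h1 : ∀ x ∈ wulff h, ‖x‖ ≤ C := by
    intro x hx
    have h2 := (hx x).trans (hb x).1
    rw [real_inner_self_eq_norm_sq] at h2
    by_contra hcon
    rw [not_le] at hcon
    have h3 : 0 < ‖x‖ := lt_of_le_of_lt hC hcon
    nlinarith
  exact ⟨C, hC, h1, fun w hw => h1 _ (hs.gradient_mem hw)⟩

theorem SmoothSupp.wulff_compact {h : E → ℝ} (hs : SmoothSupp h) : IsCompact (wulff h) := by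
  obtain ⟨R, -, hR, -⟩ := hs.gradient_bdd
  have hcl : IsClosed (wulff h) := by
    have h1 : wulff h = ⋂ w : E, {x | inner ℝ x w ≤ h w} := by
      ext x
      simp [wulff]
    rw [h1]
    exact isClosed_iInter fun w => isClosed_le (by fun_prop) continuous_const
  refine (isCompact_closedBall (0 : E) R).of_isClosed_subset hcl fun x hx => ?_
  rw [mem_closedBall_zero_iff]
  exact hR x hx

theorem wulff_convex (h : E → ℝ) : Convex ℝ (wulff h) := by
  intro x hx y hy a b ha hb hab w
  rw [inner_add_left, real_inner_smul_left, real_inner_smul_left]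
  have h1 := mul_le_mul_of_nonneg_left (hx w) ha
  have h2 := mul_le_mul_of_nonneg_left (hy w) hb
  calc a * inner ℝ x w + b * inner ℝ y w ≤ a * h w + b * h w := add_le_add h1 h2
    _ = h w := by rw [← add_mul, hab, one_mul]

end Pool.Agent.HVM
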