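import Pool.Agent.HVM.Defs
import Pool.Agent.Helper85.Cap.I1a

/-! # The cap body (module CAPB) -/

set_option autoImplicit false

namespace Pool.Agent.HVM

open MeasureTheory Metric Set
open Pool.Agent.Helper85.Herm Pool.Agent.Helper85.Cap

/-- norm of the first complex coordinate -/
noncomputable def cn1 (w : C2) : ℝ := Real.sqrt (w 0 ^ 2 + w 1 ^ 2)

/-- support function of the convex hull of the unit ball and of the disc of radius `q` in the
first complex line -/
noncomputable def capH (q : ℝ) (w : C2) : ℝ := max ‖w‖ (q * cn1 w)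

/-- the maximiser -/
noncomputable def capX (q : ℝ) (w : C2) : C2 :=
  if ‖w‖ < q * cn1 w then (q / cn1 w) • WithLp.toLp 2 ![w 0, w 1, 0, 0] else ‖w‖⁻¹ • w

namespace CAPB

theorem cn1_nonneg (w : C2) : 0 ≤ cn1 w := Real.sqrt_nonneg _

theorem cn1_sq (w : C2) : cn1 w ^ 2 = w 0 ^ 2 + w 1 ^ 2 := Real.sq_sqrt (by positivity)

theorem cn1_le (w : C2) : cn1 w ≤ ‖w‖ := by
  refine abs_le_of_sq_le_sq' ?_ (norm_nonneg w) |>.2
  rw [cn1_sq, C2_norm_sq]
  nlinarith [sq_nonneg (w 2), sq_nonneg (w 3)]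

theorem cs (w v : C2) : w 0 * v 0 + w 1 * v 1 ≤ cn1 w * cn1 v := by
  refine abs_le_of_sq_le_sq' ?_ (mul_nonneg (cn1_nonneg w) (cn1_nonneg v)) |>.2
  rw [mul_pow, cn1_sq, cn1_sq]
  nlinarith [sq_nonneg (w 0 * v 1 - w 1 * v 0)]

theorem norm_le_capH (q : ℝ) (w : C2) : ‖w‖ ≤ capH q w := le_max_left _ _

/-- the first complex coordinate of `w`, as a vector -/
noncomputable def pr (w : C2) : C2 := WithLp.toLp 2 ![w 0, w 1, 0, 0]

theorem pr0 (w : C2) : pr w 0 = w 0 := rfl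
theorem pr1 (w : C2) : pr w 1 = w 1 := rfl
theorem pr2 (w : C2) : pr w 2 = 0 := rfl
theorem pr3 (w : C2) : pr w 3 = 0 := rfl

theorem inner_pr (w v : C2) : (inner ℝ (pr w) v : ℝ) = w 0 * v 0 + w 1 * v 1 := by
  rw [C2_inner, pr0, pr1, pr2, pr3]
  ring

theorem norm_pr (w : C2) : ‖pr w‖ ^ 2 = cn1 w ^ 2 := by
  rw [C2_norm_sq, pr0, pr1, pr2, pr3, cn1_sq]
  ring

theorem capX_pos {q : ℝ} {w : C2} (h : ‖w‖ < q * cn1 w) : capX q w = (q / cn1 w) • pr w := by
  unfold capX
  rw [if_pos h]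
  rfl

theorem capX_neg {q : ℝ} {w : C2} (h : ¬‖w‖ < q * cn1 w) : capX q w = ‖w‖⁻¹ • w := by
  unfold capX
  rw [if_neg h]

theorem cn1_pos {q : ℝ} {w : C2} (h : ‖w‖ < q * cn1 w) : 0 < cn1 w := by
  rcases (cn1_nonneg w).eq_or_lt with h0 | h0
  · rw [← h0, mul_zero] at h
    exact absurd h (not_lt.2 (norm_nonneg w))
  · exact h0

theorem inner_pos {q : ℝ} {w : C2} (h : ‖w‖ < q * cn1 w) (v : C2) :
    (inner ℝ (capX q w) v : ℝ) = q / cn1 w * (w 0 * v 0 + w 1 * v 1) := by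
  rw [capX_pos h, real_inner_smul_left, inner_pr]

theorem inner_pos_self {q : ℝ} {w : C2} (h : ‖w‖ < q * cn1 w) :
    (inner ℝ (capX q w) w : ℝ) = q * cn1 w := by
  have h0 := (cn1_pos h).ne'
  rw [inner_pos h, show w 0 * w 0 + w 1 * w 1 = cn1 w ^ 2 by rw [cn1_sq]; ring]
  field_simp

theorem inner_neg_self {q : ℝ} {w : C2} (hw : w ≠ 0) (h : ¬‖w‖ < q * cn1 w) :
    (inner ℝ (capX q w) w : ℝ) = ‖w‖ := by
  have h0 : ‖w‖ ≠ 0 := norm_ne_zero_iff.2 hw
  rw [capX_neg h, real_inner_smul_left, real_inner_self_eq_norm_sq]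
  field_simp

end CAPB

open CAPB

theorem cap_exists (q : ℝ) (hq : 1 ≤ q) : ∃ K : Body, pts K = wulff (capH q) := by
  have hconv : Convex ℝ (wulff (capH q)) := by
    intro x hx y hy a b ha hb hab w
    rw [inner_add_left, real_inner_smul_left, real_inner_smul_left]
    have h1 := mul_le_mul_of_nonneg_left (hx w) ha
    have h2 := mul_le_mul_of_nonneg_left (hy w) hb
    have h3 : capH q w = a * capH q w + b * capH q w := by rw [← add_mul, hab, one_mul]
    linarith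
  have hclosed : IsClosed (wulff (capH q)) := by
    have : wulff (capH q) = ⋂ w, {x : C2 | (inner ℝ x w : ℝ) ≤ capH q w} := by
      ext x
      simp [wulff]
    rw [this]
    exact isClosed_iInter fun w => isClosed_le (by fun_prop) continuous_const
  have hbdd : wulff (capH q) ⊆ closedBall 0 q := by
    intro x hx
    rw [mem_closedBall_zero_iff]
    have h1 := hx x
    rw [real_inner_self_eq_norm_sq] at h1
    have h2 : capH q x ≤ q * ‖x‖ := by
      refine max_le ?_ (mul_le_mul_of_nonneg_left (cn1_le x) (by linarith))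
      nlinarith [norm_nonneg x]
    rcases (norm_nonneg x).eq_or_lt with h0 | h0
    · rw [← h0]
      linarith
    · nlinarith
  have hcomp : IsCompact (wulff (capH q)) :=
    (isCompact_closedBall (0 : C2) q).of_isClosed_subset hclosed hbdd
  have hne : (wulff (capH q)).Nonempty := by
    refine ⟨0, fun w => ?_⟩
    rw [inner_zero_left]
    exact (norm_nonneg w).trans (norm_le_capH q w)
  exact ⟨⟨wulff (capH q), hconv, hcomp, hne⟩, rfl⟩

theorem cap_ball (q : ℝ) : closedBall 0 1 ⊆ wulff (capH q) := by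
  intro x hx w
  rw [mem_closedBall_zero_iff] at hx
  have h1 := real_inner_le_norm x w
  have h2 := norm_le_capH q w
  nlinarith [norm_nonneg w]

theorem cap_max (q : ℝ) (hq : 1 ≤ q) (w : C2) (hw : w ≠ 0) : capX q w ∈ wulff (capH q) ∧
    ∀ y ∈ wulff (capH q), inner ℝ y w ≤ inner ℝ (capX q w) w := by
  by_cases h : ‖w‖ < q * cn1 w
  · refine ⟨fun v => ?_, fun y hy => ?_⟩
    · rw [inner_pos h]
      have h0 := cn1_pos h
      have h1 := mul_le_mul_of_nonneg_left (cs w v) (div_nonneg (by linarith) h0.le : 0 ≤ q / cn1 w)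
      have h2 : q / cn1 w * (cn1 w * cn1 v) = q * cn1 v := by
        field_simp
      rw [h2] at h1
      exact h1.trans (le_max_right _ _)
    · rw [inner_pos_self h]
      exact (hy w).trans (max_le h.le le_rfl)
  · refine ⟨fun v => ?_, fun y hy => ?_⟩
    · have h0 : ‖w‖ ≠ 0 := norm_ne_zero_iff.2 hw
      have h1 := real_inner_le_norm (capX q w) v
      have h2 : ‖capX q w‖ = 1 := by
        rw [capX_neg h, norm_smul, norm_inv, norm_norm, inv_mul_cancel₀ h0]
      rw [h2, one_mul] at h1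
      exact h1.trans (norm_le_capH q v)
    · rw [inner_neg_self hw h]
      exact (hy w).trans (max_le le_rfl (not_lt.1 h))

/-- the integrand of the first order formula -/
theorem cap_integrand (q : ℝ) (hq : 1 ≤ q) (w : C2) (hw : w ≠ 0) (a b : ℝ) :
    4 * a * inner ℝ (capX q w) w ^ 2 + (b - 2 * a) * (‖w‖ ^ 2 * ‖capX q w‖ ^ 2)
        - 4 * (b - a) * inner ℝ (capX q w) (J w) ^ 2 =
      if ‖w‖ ^ 2 < q ^ 2 * (w 0 ^ 2 + w 1 ^ 2) then
        q ^ 2 * (4 * a * (w 0 ^ 2 + w 1 ^ 2) + (b - 2 * a) * ‖w‖ ^ 2)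
      else (2 * a + b) * ‖w‖ ^ 2 := by
  have hiff : ‖w‖ ^ 2 < q ^ 2 * (w 0 ^ 2 + w 1 ^ 2) ↔ ‖w‖ < q * cn1 w := by
    rw [← cn1_sq, ← mul_pow]
    exact pow_lt_pow_iff_left₀ (norm_nonneg w)
      (mul_nonneg (by linarith) (cn1_nonneg w)) two_ne_zero
  by_cases h : ‖w‖ < q * cn1 w
  · rw [if_pos (hiff.2 h), inner_pos_self h, inner_pos h, J_apply0, J_apply1,
      show w 0 * -w 1 + w 1 * w 0 = 0 by ring, mul_zero, mul_pow, cn1_sq]
    have h2 : ‖capX q w‖ ^ 2 = q ^ 2 := by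
      rw [capX_pos h, norm_smul, mul_pow, norm_pr, Real.norm_eq_abs, sq_abs, ← mul_pow,
        div_mul_cancel₀ _ (cn1_pos h).ne']
    rw [h2]
    ring
  · have h0 : ‖w‖ ≠ 0 := norm_ne_zero_iff.2 hw
    have h2 : ‖capX q w‖ = 1 := by
      rw [capX_neg h, norm_smul, norm_inv, norm_norm, inv_mul_cancel₀ h0]
    have h3 : (inner ℝ (capX q w) (J w) : ℝ) = 0 := by
      rw [capX_neg h, real_inner_smul_left, C2_inner, J_apply0, J_apply1, J_apply2, J_apply3]
      ring
    rw [if_neg (fun h1 => h (hiff.1 h1)), inner_neg_self hw h, h2, h3]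
    ring

end Pool.Agent.HVM
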