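import Pool.Agent.HVM.Defs
import Pool.Agent.Helper85.Cap.I2

/-! # The cap body: the integral (module CAPI) -/

set_option autoImplicit false

namespace Pool.Agent.HVM

open MeasureTheory Metric Set
open Pool.Agent.Helper85.Herm Pool.Agent.Helper85.Cap

/-- the integrand in the variables `X = w0^2 + w1^2`, `Y = w2^2 + w3^2` -/
noncomputable def capiF (q a b X Y : ℝ) : ℝ :=
  Real.exp (-(X + Y)) * (if X + Y < q ^ 2 * X then
        q ^ 2 * (4 * a * X + (b - 2 * a) * (X + Y))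
      else (2 * a + b) * (X + Y))

theorem capi_meas (q a b : ℝ) : Measurable (fun p : ℝ × ℝ => capiF q a b p.1 p.2) := by
  unfold capiF
  refine Measurable.mul (by fun_prop) ?_
  refine Measurable.ite (measurableSet_lt (by fun_prop) (by fun_prop)) (by fun_prop) (by fun_prop)

theorem capi_bound (q a b X Y : ℝ) (hq : 1 ≤ q) (hX : 0 ≤ X) (hY : 0 ≤ Y) :
    |capiF q a b X Y| ≤ (q ^ 2 * (6 * |a| + |b|)) * ((X + Y) * Real.exp (-(X + Y))) := by
  unfold capiF
  rw [abs_mul, abs_of_pos (Real.exp_pos _), mul_comm, ← mul_assoc]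
  refine mul_le_mul_of_nonneg_right ?_ (Real.exp_pos _).le
  have hq2 : 1 ≤ q ^ 2 := by nlinarith
  have ha := abs_nonneg a
  have hb := abs_nonneg b
  have hXY : 0 ≤ X + Y := by linarith
  split_ifs with h
  · rw [abs_mul, abs_of_nonneg (by positivity : (0:ℝ) ≤ q ^ 2), mul_assoc (q ^ 2)]
    refine mul_le_mul_of_nonneg_left ?_ (by positivity)
    calc |4 * a * X + (b - 2 * a) * (X + Y)| ≤ |4 * a * X| + |(b - 2 * a) * (X + Y)| :=
          abs_add_le _ _
      _ = 4 * |a| * X + |b - 2 * a| * (X + Y) := by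
          rw [abs_mul, abs_mul, abs_mul, abs_of_nonneg hX, abs_of_nonneg hXY]
          norm_num
      _ ≤ 4 * |a| * (X + Y) + (|b| + 2 * |a|) * (X + Y) := by
          refine add_le_add (mul_le_mul_of_nonneg_left (by linarith) (by positivity)) ?_
          refine mul_le_mul_of_nonneg_right ?_ hXY
          calc |b - 2 * a| ≤ |b| + |2 * a| := abs_sub _ _
            _ = |b| + 2 * |a| := by rw [abs_mul]; norm_num
      _ = (6 * |a| + |b|) * (X + Y) := by ring
  · rw [abs_mul, abs_of_nonneg hXY]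
    refine mul_le_mul_of_nonneg_right ?_ hXY
    calc |2 * a + b| ≤ |2 * a| + |b| := abs_add_le _ _
      _ = 2 * |a| + |b| := by rw [abs_mul]; norm_num
      _ ≤ 6 * |a| + |b| := by linarith
      _ ≤ q ^ 2 * (6 * |a| + |b|) := by nlinarith

theorem capi_integrable (q a b : ℝ) (hq : 1 ≤ q) :
    Integrable (fun z : (ℝ × ℝ) × (ℝ × ℝ) => capiF q a b (z.1.1 ^ 2 + z.1.2 ^ 2)
      (z.2.1 ^ 2 + z.2.2 ^ 2)) := by
  have g : Integrable (fun x : ℝ => Real.exp (-(1/2) * x ^ 2)) :=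
    integrable_exp_neg_mul_sq (by norm_num)
  have g2 : Integrable (fun z : ℝ × ℝ => Real.exp (-(1/2) * z.1 ^ 2) *
    Real.exp (-(1/2) * z.2 ^ 2)) := g.mul_prod g
  have g4 : Integrable (fun z : (ℝ × ℝ) × (ℝ × ℝ) => (Real.exp (-(1/2) * z.1.1 ^ 2) *
    Real.exp (-(1/2) * z.1.2 ^ 2)) * (Real.exp (-(1/2) * z.2.1 ^ 2) *
    Real.exp (-(1/2) * z.2.2 ^ 2))) := g2.mul_prod g2
  refine (g4.const_mul ((q ^ 2 * (6 * |a| + |b|)) * 2)).mono' ?_ ?_
  · apply Measurable.aestronglyMeasurable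
    exact (capi_meas q a b).comp (f := fun z : (ℝ × ℝ) × (ℝ × ℝ) =>
      ((z.1.1 ^ 2 + z.1.2 ^ 2, z.2.1 ^ 2 + z.2.2 ^ 2) : ℝ × ℝ)) (by fun_prop)
  · refine Filter.Eventually.of_forall fun z => ?_
    set X := z.1.1 ^ 2 + z.1.2 ^ 2 with hX
    set Y := z.2.1 ^ 2 + z.2.2 ^ 2 with hY
    have hX0 : 0 ≤ X := by positivity
    have hY0 : 0 ≤ Y := by positivity
    have e1 : Real.exp (-(1/2) * z.1.1 ^ 2) * Real.exp (-(1/2) * z.1.2 ^ 2) *
        (Real.exp (-(1/2) * z.2.1 ^ 2) * Real.exp (-(1/2) * z.2.2 ^ 2)) =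
        Real.exp ((X + Y) / 2) * Real.exp (-(X + Y)) := by
      rw [← Real.exp_add, ← Real.exp_add, ← Real.exp_add, ← Real.exp_add]
      congr 1
      rw [hX, hY]; ring
    rw [e1, Real.norm_eq_abs]
    refine (capi_bound q a b X Y hq hX0 hY0).trans ?_
    have h2 : X + Y ≤ 2 * Real.exp ((X + Y) / 2) := by
      have := Real.add_one_le_exp ((X + Y) / 2)
      linarith
    have hC : 0 ≤ q ^ 2 * (6 * |a| + |b|) := by positivity
    have h3 := mul_le_mul_of_nonneg_left (mul_le_mul_of_nonneg_right h2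
      (Real.exp_pos (-(X + Y))).le) hC
    refine h3.trans (le_of_eq ?_)
    ring

theorem capi_fin (A B c : ℝ) (hc : 0 ≤ c) :
    ∫ Y in Ioo (0:ℝ) c, (A * Real.exp (-Y) + B * (Y * Real.exp (-Y))) =
      A * (1 - Real.exp (-c)) + B * (1 - (1 + c) * Real.exp (-c)) := by
  rw [← integral_Ioc_eq_integral_Ioo, ← intervalIntegral.integral_of_le hc]
  have hd : ∀ x ∈ uIcc 0 c, HasDerivAt
      (fun Y : ℝ => -(A * Real.exp (-Y)) - B * ((1 + Y) * Real.exp (-Y)))
      (A * Real.exp (-x) + B * (x * Real.exp (-x))) x := by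
    intro x _
    have e1 : HasDerivAt (fun Y : ℝ => Real.exp (-Y)) (-Real.exp (-x)) x := by
      have := (hasDerivAt_neg x).exp
      rwa [mul_neg, mul_one] at this
    have e2 : HasDerivAt (fun Y : ℝ => 1 + Y) 1 x := (hasDerivAt_id x).const_add 1
    have h := ((e1.const_mul A).neg).sub ((e2.mul e1).const_mul B)
    refine h.congr_deriv ?_
    ring
  rw [intervalIntegral.integral_eq_sub_of_hasDerivAt hd]
  · simp
    ring
  · apply Continuous.intervalIntegrable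
    fun_prop

theorem capi_inner (q a b X : ℝ) (hq : 1 ≤ q) (hX : 0 < X) :
    ∫ Y in Ioi (0:ℝ), capiF q a b X Y = Real.exp (-X) * ((2 * a + b) * (X + 1) +
      (q ^ 2 - 1) * (2 * a + b) * X * (1 - Real.exp (-((q ^ 2 - 1) * X))) +
      (q ^ 2 * (b - 2 * a) - (2 * a + b)) *
        (1 - (1 + (q ^ 2 - 1) * X) * Real.exp (-((q ^ 2 - 1) * X)))) := by
  have hq2 : 1 ≤ q ^ 2 := by nlinarith
  set c := (q ^ 2 - 1) * X with hc
  have hc0 : 0 ≤ c := mul_nonneg (by linarith) hX.le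
  set A := (q ^ 2 - 1) * (2 * a + b) * X with hA
  set B := q ^ 2 * (b - 2 * a) - (2 * a + b) with hB
  have h1 : ∀ Y : ℝ, capiF q a b X Y = Real.exp (-X) * (((2 * a + b) * X * Real.exp (-Y) +
      (2 * a + b) * (Y * Real.exp (-Y))) +
      (Iio c).indicator (fun Y => A * Real.exp (-Y) + B * (Y * Real.exp (-Y))) Y) := by
    intro Y
    unfold capiF
    have he : Real.exp (-(X + Y)) = Real.exp (-X) * Real.exp (-Y) := by
      rw [← Real.exp_add]; congr 1; ring
    rw [he]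
    by_cases h : Y < c
    · have h' : X + Y < q ^ 2 * X := by rw [hc] at h; linarith
      rw [if_pos h', indicator_of_mem (show Y ∈ Iio c from h), hA, hB]
      ring
    · have h' : ¬ (X + Y < q ^ 2 * X) := by
        intro h'
        apply h
        rw [hc]; linarith
      rw [if_neg h', indicator_of_notMem (show Y ∉ Iio c from h)]
      ring
  simp_rw [h1]
  have i1 : IntegrableOn (fun Y : ℝ => A * Real.exp (-Y) + B * (Y * Real.exp (-Y))) (Ioi 0) :=
    (I2_intOn_exp.const_mul A).add (I2_intOn_xexp.const_mul B)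
  rw [integral_const_mul, integral_add, integral_add, integral_const_mul, integral_const_mul,
    I2_int_exp, I2_int_xexp, setIntegral_indicator measurableSet_Iio,
    show Ioi (0:ℝ) ∩ Iio c = Ioo 0 c from rfl, capi_fin A B c hc0]
  · ring
  · exact I2_intOn_exp.const_mul _
  · exact I2_intOn_xexp.const_mul _
  · exact (I2_intOn_exp.const_mul _).add (I2_intOn_xexp.const_mul _)
  · exact (i1.integrable.indicator measurableSet_Iio)

theorem capi_exp (t : ℝ) (ht : 0 < t) :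
    IntegrableOn (fun X : ℝ => Real.exp (-(t * X))) (Ioi 0) ∧
    ∫ X in Ioi (0:ℝ), Real.exp (-(t * X)) = t⁻¹ := by
  constructor
  · have := exp_neg_integrableOn_Ioi 0 ht
    refine this.congr_fun ?_ measurableSet_Ioi
    intro x _
    simp
  · have := integral_comp_mul_left_Ioi (fun y => Real.exp (-y)) 0 ht
    rw [mul_zero, I2_int_exp] at this
    rw [this]
    simp

theorem capi_xexp (t : ℝ) (ht : 0 < t) :
    IntegrableOn (fun X : ℝ => X * Real.exp (-(t * X))) (Ioi 0) ∧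
    ∫ X in Ioi (0:ℝ), X * Real.exp (-(t * X)) = (t ^ 2)⁻¹ := by
  have h0 : ∀ X : ℝ, X * Real.exp (-(t * X)) = t⁻¹ * ((t * X) * Real.exp (-(t * X))) := by
    intro X
    field_simp
  constructor
  · have h := (integrableOn_Ioi_comp_mul_left_iff (fun y : ℝ => y * Real.exp (-y)) 0 ht).2
      (by rw [mul_zero]; exact I2_intOn_xexp)
    have h' : IntegrableOn (fun X : ℝ => t⁻¹ * ((t * X) * Real.exp (-(t * X)))) (Ioi 0) :=
      h.const_mul t⁻¹
    refine h'.congr_fun ?_ measurableSet_Ioi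
    intro x _
    exact (h0 x).symm
  · simp_rw [h0]
    rw [integral_const_mul]
    have := integral_comp_mul_left_Ioi (fun y => y * Real.exp (-y)) 0 ht
    rw [mul_zero, I2_int_xexp] at this
    rw [this]
    simp
    ring

theorem capi_outer (q a b : ℝ) (hq : 1 ≤ q) :
    ∫ X in Ioi (0:ℝ), ∫ Y in Ioi (0:ℝ), capiF q a b X Y =
      2 * (2 * a - b + b * (q ^ 2 + (q ^ 2)⁻¹)) := by
  have hq2 : 1 ≤ q ^ 2 := by nlinarith
  have hq0 : 0 < q ^ 2 := by linarith
  rw [setIntegral_congr_fun measurableSet_Ioi (fun X hX => capi_inner q a b X hq hX)]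
  set A := (q ^ 2 - 1) * (2 * a + b) with hA
  set B := q ^ 2 * (b - 2 * a) - (2 * a + b) with hB
  have h1 : ∀ X : ℝ, Real.exp (-X) * ((2 * a + b) * (X + 1) +
      A * X * (1 - Real.exp (-((q ^ 2 - 1) * X))) +
      B * (1 - (1 + (q ^ 2 - 1) * X) * Real.exp (-((q ^ 2 - 1) * X)))) =
      ((2 * a + b + A) * (X * Real.exp (-X)) + (2 * a + b + B) * Real.exp (-X)) -
      ((A + B * (q ^ 2 - 1)) * (X * Real.exp (-(q ^ 2 * X))) +
        B * Real.exp (-(q ^ 2 * X))) := by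
    intro X
    have he : Real.exp (-(q ^ 2 * X)) = Real.exp (-X) * Real.exp (-((q ^ 2 - 1) * X)) := by
      rw [← Real.exp_add]; congr 1; ring
    rw [he]
    ring
  simp_rw [h1]
  obtain ⟨i1, e1⟩ := capi_exp (q ^ 2) hq0
  obtain ⟨i2, e2⟩ := capi_xexp (q ^ 2) hq0
  rw [integral_sub, integral_add, integral_add, integral_const_mul, integral_const_mul,
    integral_const_mul, integral_const_mul, I2_int_exp, I2_int_xexp, e1, e2, hA, hB]
  · field_simp
    ring
  · exact i2.const_mul _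
  · exact i1.const_mul _
  · exact I2_intOn_xexp.const_mul _
  · exact I2_intOn_exp.const_mul _
  · exact (I2_intOn_xexp.const_mul _).add (I2_intOn_exp.const_mul _)
  · exact (i2.const_mul _).add (i1.const_mul _)

theorem cap_integral (q : ℝ) (hq : 1 ≤ q) (a b : ℝ) :
    ∫ w : C2, Real.exp (-‖w‖ ^ 2) * (if ‖w‖ ^ 2 < q ^ 2 * (w 0 ^ 2 + w 1 ^ 2) then
        q ^ 2 * (4 * a * (w 0 ^ 2 + w 1 ^ 2) + (b - 2 * a) * ‖w‖ ^ 2)
      else (2 * a + b) * ‖w‖ ^ 2) =
      2 * Real.pi ^ 2 * (2 * a - b + b * (q ^ 2 + (q ^ 2)⁻¹)) := by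
  have h1 := I2_c2 (capiF q a b) (capi_integrable q a b hq)
  rw [capi_outer q a b hq] at h1
  have h2 : ∀ w : C2, ‖w‖ ^ 2 = (w 0 ^ 2 + w 1 ^ 2) + (w 2 ^ 2 + w 3 ^ 2) := by
    intro w
    rw [EuclideanSpace.norm_sq_eq, Fin.sum_univ_four]
    simp only [Real.norm_eq_abs, sq_abs]
    ring
  have h3 : ∀ w : C2, Real.exp (-‖w‖ ^ 2) * (if ‖w‖ ^ 2 < q ^ 2 * (w 0 ^ 2 + w 1 ^ 2) then
        q ^ 2 * (4 * a * (w 0 ^ 2 + w 1 ^ 2) + (b - 2 * a) * ‖w‖ ^ 2)
      else (2 * a + b) * ‖w‖ ^ 2) = capiF q a b (w 0 ^ 2 + w 1 ^ 2) (w 2 ^ 2 + w 3 ^ 2) := by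
    intro w
    rw [h2]
    rfl
  simp_rw [h3]
  rw [h1]
  ring

end Pool.Agent.HVM
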