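import Pool.Agent.HVM.CapB
import Pool.Agent.Helper85.Cap.I2

/-! # The volume of the cap body (module CAPV) -/

set_option autoImplicit false

namespace Pool.Agent.HVM

open MeasureTheory Metric Set
open Pool.Agent.Helper85.Herm Pool.Agent.Helper85.Cap

namespace CAPV

/-- the profile of the cap body -/
noncomputable def g (q X : ℝ) : ℝ :=
  if X ≤ (q ^ 2)⁻¹ then 1 - X else
    if X ≤ q ^ 2 then (q - Real.sqrt X) ^ 2 / (q ^ 2 - 1) else -1

theorem g_measurable (q : ℝ) : Measurable (g q) := by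
  unfold g
  refine Measurable.ite measurableSet_Iic (by fun_prop) ?_
  refine Measurable.ite measurableSet_Iic ?_ measurable_const
  exact ((measurable_const.sub Real.continuous_sqrt.measurable).pow_const 2).div_const _

theorem cs2 (a b c d : ℝ) :
    a * c + b * d ≤ Real.sqrt (a ^ 2 + b ^ 2) * Real.sqrt (c ^ 2 + d ^ 2) := by
  refine abs_le_of_sq_le_sq' ?_ (by positivity) |>.2
  rw [mul_pow, Real.sq_sqrt (by positivity), Real.sq_sqrt (by positivity)]
  nlinarith [sq_nonneg (a * d - b * c)]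

theorem alg (q r s A B M N y : ℝ) (hq : 1 < q) (hr : 1 ≤ q * r) (hrq : r ≤ q) (hs : 0 < s)
    (hs2 : s ^ 2 = q ^ 2 - 1) (hB : 0 ≤ B) (hN : 0 ≤ N) (hN2 : N ^ 2 = A ^ 2 + B ^ 2)
    (hNM : N ≤ M) (hAM : q * A ≤ M) (hy : s * y ≤ q - r) : r * A + y * B ≤ M := by
  have h1 : A + s * B ≤ q * N := by
    refine abs_le_of_sq_le_sq' ?_ (by positivity) |>.2
    rw [mul_pow, hN2]
    nlinarith [sq_nonneg (s * A - B)]
  have h2 : s * (y * B) ≤ (q - r) * B := by
    nlinarith [mul_le_mul_of_nonneg_right hy hB]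
  have h3 : s ^ 2 * (r * A + y * B) ≤ s ^ 2 * r * A + (q - r) * (s * B) := by
    nlinarith [mul_le_mul_of_nonneg_left h2 hs.le]
  have h4 : (q - r) * (s * B) ≤ (q - r) * (q * N - A) :=
    mul_le_mul_of_nonneg_left (by linarith) (by linarith)
  have h5 : s ^ 2 * r * A + (q - r) * (q * N - A) = (q * r - 1) * (q * A) + (q * (q - r)) * N := by
    rw [hs2]
    ring
  have h6 : (q * r - 1) * (q * A) ≤ (q * r - 1) * M :=
    mul_le_mul_of_nonneg_left hAM (by linarith)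
  have h7 : (q * (q - r)) * N ≤ (q * (q - r)) * M :=
    mul_le_mul_of_nonneg_left hNM (mul_nonneg (by linarith) (by linarith))
  have h8 : (q * r - 1) * M + (q * (q - r)) * M = s ^ 2 * M := by
    rw [hs2]
    ring
  have h9 : s ^ 2 * (r * A + y * B) ≤ s ^ 2 * M := by linarith
  exact le_of_mul_le_mul_left h9 (by positivity)

theorem mem_of_le (q : ℝ) (hq : 1 < q) (x : C2)
    (h : x 2 ^ 2 + x 3 ^ 2 ≤ g q (x 0 ^ 2 + x 1 ^ 2)) : x ∈ wulff (capH q) := by
  unfold g at h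
  split_ifs at h with h1 h2
  · apply cap_ball q
    rw [mem_closedBall_zero_iff]
    have h3 := C2_norm_sq x
    nlinarith [norm_nonneg x]
  · intro w
    have hq2 : 0 < q ^ 2 - 1 := by nlinarith
    have hX0 : 0 ≤ x 0 ^ 2 + x 1 ^ 2 := by positivity
    have hr0 : 0 ≤ Real.sqrt (x 0 ^ 2 + x 1 ^ 2) := Real.sqrt_nonneg _
    have hr2 : Real.sqrt (x 0 ^ 2 + x 1 ^ 2) ^ 2 = x 0 ^ 2 + x 1 ^ 2 := Real.sq_sqrt hX0
    set r := Real.sqrt (x 0 ^ 2 + x 1 ^ 2) with hr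
    have hrq : r ≤ q := by
      refine abs_le_of_sq_le_sq' ?_ (by linarith) |>.2
      rw [hr2]
      exact h2
    have hqr : 1 ≤ q * r := by
      have h3 : (q ^ 2)⁻¹ ≤ r ^ 2 := by
        rw [hr2]
        exact (not_le.1 h1).le
      have h4 : 1 ≤ (q * r) ^ 2 := by
        have := mul_le_mul_of_nonneg_left h3 (by positivity : 0 ≤ q ^ 2)
        rw [mul_inv_cancel₀ (by positivity)] at this
        rw [mul_pow]
        exact this
      have h5 : 0 ≤ q * r := by positivity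
      nlinarith
    have hs2 : Real.sqrt (q ^ 2 - 1) ^ 2 = q ^ 2 - 1 := Real.sq_sqrt hq2.le
    have hs : 0 < Real.sqrt (q ^ 2 - 1) := Real.sqrt_pos.2 hq2
    have hN2 : ‖w‖ ^ 2 = cn1 w ^ 2 + Real.sqrt (w 2 ^ 2 + w 3 ^ 2) ^ 2 := by
      rw [C2_norm_sq, CAPB.cn1_sq, Real.sq_sqrt (by positivity)]
      ring
    have hy : Real.sqrt (q ^ 2 - 1) * Real.sqrt (x 2 ^ 2 + x 3 ^ 2) ≤ q - r := by
      refine abs_le_of_sq_le_sq' ?_ (by linarith) |>.2
      rw [mul_pow, hs2, Real.sq_sqrt (by positivity)]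
      have := mul_le_mul_of_nonneg_left h hq2.le
      rwa [mul_div_cancel₀ _ hq2.ne'] at this
    have h6 := alg q r (Real.sqrt (q ^ 2 - 1)) (cn1 w) (Real.sqrt (w 2 ^ 2 + w 3 ^ 2))
      (capH q w) ‖w‖ (Real.sqrt (x 2 ^ 2 + x 3 ^ 2)) hq hqr hrq hs hs2
      (Real.sqrt_nonneg _) (norm_nonneg w) hN2 (CAPB.norm_le_capH q w) (le_max_right _ _) hy
    have h7 : (inner ℝ x w : ℝ) ≤ r * cn1 w +
        Real.sqrt (x 2 ^ 2 + x 3 ^ 2) * Real.sqrt (w 2 ^ 2 + w 3 ^ 2) := by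
      rw [C2_inner]
      have h8 := cs2 (x 0) (x 1) (w 0) (w 1)
      have h9 := cs2 (x 2) (x 3) (w 2) (w 3)
      have h10 : cn1 w = Real.sqrt (w 0 ^ 2 + w 1 ^ 2) := rfl
      rw [h10, hr]
      linarith
    exact h7.trans h6
  · exfalso
    have : 0 ≤ x 2 ^ 2 + x 3 ^ 2 := by positivity
    linarith

/-- the indicator of the region under the graph -/
noncomputable def F (q X Y : ℝ) : ℝ := if Y ≤ g q X then 1 else 0

theorem g_le (q : ℝ) (hq : 1 < q) (X : ℝ) (hX : 0 ≤ X) : g q X ≤ q ^ 2 := by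
  unfold g
  split_ifs with h1 h2
  · nlinarith
  · have hq2 : 0 < q ^ 2 - 1 := by nlinarith
    have hr2 : Real.sqrt X ^ 2 = X := Real.sq_sqrt hX
    have hr0 : 0 ≤ Real.sqrt X := Real.sqrt_nonneg _
    have hrq : Real.sqrt X ≤ q := by
      refine abs_le_of_sq_le_sq' ?_ (by linarith) |>.2
      rw [hr2]
      exact h2
    have hqr : 1 ≤ q * Real.sqrt X := by
      have h3 : (q ^ 2)⁻¹ ≤ Real.sqrt X ^ 2 := by
        rw [hr2]
        exact (not_le.1 h1).le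
      have h4 : 1 ≤ (q * Real.sqrt X) ^ 2 := by
        have := mul_le_mul_of_nonneg_left h3 (by positivity : 0 ≤ q ^ 2)
        rw [mul_inv_cancel₀ (by positivity)] at this
        rw [mul_pow]
        exact this
      have h5 : 0 ≤ q * Real.sqrt X := by positivity
      nlinarith
    rw [div_le_iff₀ hq2]
    -- (q - r)^2 ≤ q^2 (q^2 - 1), from q - r ≤ q - 1/q
    have h6 : q * (q - Real.sqrt X) ≤ q ^ 2 - 1 := by nlinarith
    have h7 : 0 ≤ q * (q - Real.sqrt X) := mul_nonneg (by linarith) (by linarith)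
    have h8 : (q * (q - Real.sqrt X)) ^ 2 ≤ (q ^ 2 - 1) ^ 2 := by
      exact pow_le_pow_left₀ h7 h6 2
    have h9 : (q - Real.sqrt X) ^ 2 ≤ (q * (q - Real.sqrt X)) ^ 2 := by
      rw [mul_pow]
      nlinarith [sq_nonneg (q - Real.sqrt X)]
    nlinarith
  · nlinarith

theorem g_supp (q : ℝ) (X : ℝ) (h : 0 ≤ g q X) (hq : 1 < q) : X ≤ q ^ 2 := by
  by_contra hc
  unfold g at h
  have h1 : ¬ X ≤ (q ^ 2)⁻¹ := by
    intro h1
    have : (q ^ 2)⁻¹ ≤ 1 := inv_le_one_of_one_le₀ (by nlinarith)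
    have : (1:ℝ) ≤ q ^ 2 := by nlinarith
    exact hc (by linarith)
  rw [if_neg h1, if_neg hc] at h
  linarith

theorem F_meas (q : ℝ) : Measurable (fun z : (ℝ × ℝ) × (ℝ × ℝ) =>
    F q (z.1.1 ^ 2 + z.1.2 ^ 2) (z.2.1 ^ 2 + z.2.2 ^ 2)) := by
  unfold F
  refine Measurable.ite ?_ measurable_const measurable_const
  exact measurableSet_le (by fun_prop) ((g_measurable q).comp (by fun_prop))

theorem F_integrable (q : ℝ) (hq : 1 < q) : Integrable (fun z : (ℝ × ℝ) × (ℝ × ℝ) =>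
    F q (z.1.1 ^ 2 + z.1.2 ^ 2) (z.2.1 ^ 2 + z.2.2 ^ 2)) := by
  have h1 : Integrable ((closedBall (0 : (ℝ × ℝ) × (ℝ × ℝ)) q).indicator (fun _ => (1:ℝ))) := by
    rw [integrable_indicator_iff measurableSet_closedBall]
    exact integrableOn_const (isCompact_closedBall _ _).measure_lt_top.ne
  refine h1.mono' (F_meas q).aestronglyMeasurable (Filter.Eventually.of_forall fun z => ?_)
  unfold F
  split_ifs with h
  · have h2 : 0 ≤ z.2.1 ^ 2 + z.2.2 ^ 2 := by positivity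
    have h3 : z.1.1 ^ 2 + z.1.2 ^ 2 ≤ q ^ 2 := g_supp q _ (h2.trans h) hq
    have h4 : z.2.1 ^ 2 + z.2.2 ^ 2 ≤ q ^ 2 := h.trans (g_le q hq _ (by positivity))
    have hz : z ∈ closedBall (0 : (ℝ × ℝ) × (ℝ × ℝ)) q := by
      rw [mem_closedBall_zero_iff]
      refine norm_prod_le_iff.2 ⟨norm_prod_le_iff.2 ⟨?_, ?_⟩, norm_prod_le_iff.2 ⟨?_, ?_⟩⟩
      all_goals
        rw [Real.norm_eq_abs]
        refine abs_le_of_sq_le_sq ?_ (by linarith)
        nlinarith [sq_nonneg z.1.1, sq_nonneg z.1.2, sq_nonneg z.2.1, sq_nonneg z.2.2]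
    rw [indicator_of_mem hz]
    simp
  · rw [norm_zero]
    exact indicator_nonneg (fun _ _ => zero_le_one) _

theorem inner_int (c : ℝ) : ∫ Y in Ioi (0:ℝ), (if Y ≤ c then (1:ℝ) else 0) = max c 0 := by
  have h1 : (fun Y : ℝ => if Y ≤ c then (1:ℝ) else 0) = (Iic c).indicator (fun _ => (1:ℝ)) := by
    funext Y
    simp [indicator]
  rw [h1, setIntegral_indicator measurableSet_Iic, Ioi_inter_Iic, setIntegral_const, smul_eq_mul,
    mul_one, Measure.real, Real.volume_Ioc, sub_zero]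
  rcases le_total 0 c with h | h
  · rw [ENNReal.toReal_ofReal h, max_eq_left h]
  · rw [ENNReal.ofReal_of_nonpos h, max_eq_right h]
    rfl

theorem outer1 (q : ℝ) (hq : 1 < q) :
    ∫ X in (0:ℝ)..(q ^ 2)⁻¹, max (g q X) 0 = (q ^ 2)⁻¹ - (q ^ 2)⁻¹ ^ 2 / 2 := by
  have hp : 0 < (q ^ 2)⁻¹ := by positivity
  have h1 : (q ^ 2)⁻¹ ≤ 1 := inv_le_one_of_one_le₀ (by nlinarith)
  have h2 : ∫ X in (0:ℝ)..(q ^ 2)⁻¹, max (g q X) 0 = ∫ X in (0:ℝ)..(q ^ 2)⁻¹, (1 - X) := by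
    apply intervalIntegral.integral_congr
    intro X hX
    rw [uIcc_of_le hp.le] at hX
    have : g q X = 1 - X := by
      unfold g
      rw [if_pos hX.2]
    simp only [this]
    exact max_eq_left (by linarith [hX.2])
  rw [h2]
  have h3 : ∀ X ∈ uIcc (0:ℝ) (q ^ 2)⁻¹, HasDerivAt (fun X : ℝ => X - X ^ 2 / 2) (1 - X) X := by
    intro X _
    have h4 := (hasDerivAt_id X).sub (((hasDerivAt_id X).pow 2).div_const 2)
    refine h4.congr_deriv ?_
    simp only [id]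
    norm_num
  rw [intervalIntegral.integral_eq_sub_of_hasDerivAt h3
    ((by fun_prop : Continuous fun X : ℝ => 1 - X).intervalIntegrable _ _)]
  ring

theorem outer2 (q : ℝ) (hq : 1 < q) :
    ∫ X in (q ^ 2)⁻¹..(q ^ 2), max (g q X) 0 =
      (q ^ 4 / 6 - (1 - 4 / 3 * (q ^ 2)⁻¹ + (q ^ 2)⁻¹ ^ 2 / 2)) / (q ^ 2 - 1) := by
  have hp : 0 < (q ^ 2)⁻¹ := by positivity
  have h1 : (q ^ 2)⁻¹ ≤ 1 := inv_le_one_of_one_le₀ (by nlinarith)
  have h1' : (1:ℝ) ≤ q ^ 2 := by nlinarith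
  have hq2 : 0 < q ^ 2 - 1 := by nlinarith
  have h2 : ∫ X in (q ^ 2)⁻¹..(q ^ 2), max (g q X) 0 =
      ∫ X in (q ^ 2)⁻¹..(q ^ 2), (q - Real.sqrt X) ^ 2 / (q ^ 2 - 1) := by
    apply intervalIntegral.integral_congr_ae
    refine Filter.Eventually.of_forall fun X hX => ?_
    rw [uIoc_of_le (by linarith)] at hX
    have : g q X = (q - Real.sqrt X) ^ 2 / (q ^ 2 - 1) := by
      unfold g
      rw [if_neg (not_le.2 hX.1), if_pos hX.2]
    simp only [this]
    exact max_eq_left (by positivity)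
  rw [h2]
  have h3 : ∀ X ∈ uIcc (q ^ 2)⁻¹ (q ^ 2), HasDerivAt (fun X : ℝ =>
      (q ^ 2 * X - 4 / 3 * q * (X * Real.sqrt X) + X ^ 2 / 2) / (q ^ 2 - 1))
      ((q - Real.sqrt X) ^ 2 / (q ^ 2 - 1)) X := by
    intro X hX
    rw [uIcc_of_le (by linarith)] at hX
    have hX0 : 0 < X := hp.trans_le hX.1
    have hs : Real.sqrt X ^ 2 = X := Real.sq_sqrt hX0.le
    have hs0 : 0 < Real.sqrt X := Real.sqrt_pos.2 hX0
    have h4 := (((hasDerivAt_id X).const_mul (q ^ 2)).sub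
      (((hasDerivAt_id X).mul (Real.hasDerivAt_sqrt hX0.ne')).const_mul (4 / 3 * q))).add
      (((hasDerivAt_id X).pow 2).div_const 2)
    have h5 := h4.div_const (q ^ 2 - 1)
    refine h5.congr_deriv ?_
    congr 1
    simp only [id]
    have h6 : X * (1 / (2 * Real.sqrt X)) = Real.sqrt X / 2 := by
      field_simp
      exact hs.symm
    rw [h6]
    norm_num
    nlinarith
  rw [intervalIntegral.integral_eq_sub_of_hasDerivAt h3
    ((by fun_prop : Continuous fun X : ℝ => (q - Real.sqrt X) ^ 2 / (q ^ 2 - 1)).intervalIntegrable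
      _ _)]
  have h7 : Real.sqrt (q ^ 2) = q := Real.sqrt_sq (by linarith)
  have h8 : Real.sqrt ((q ^ 2)⁻¹) = q⁻¹ := by
    rw [Real.sqrt_inv, h7]
  simp only [h7, h8]
  have hq0 : q ≠ 0 := by positivity
  rw [← sub_div]
  congr 1
  field_simp
  ring

theorem outer (q : ℝ) (hq : 1 < q) :
    ∫ X in Ioi (0:ℝ), max (g q X) 0 = (1 + q ^ 2 + (q ^ 2)⁻¹) / 6 := by
  have hp : 0 < (q ^ 2)⁻¹ := by positivity
  have h1 : (q ^ 2)⁻¹ ≤ 1 := inv_le_one_of_one_le₀ (by nlinarith)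
  have h1' : (1:ℝ) ≤ q ^ 2 := by nlinarith
  have hq2 : 0 < q ^ 2 - 1 := by nlinarith
  have h2 : ∫ X in Ioi (0:ℝ), max (g q X) 0 = ∫ X in Ioc (0:ℝ) (q ^ 2), max (g q X) 0 := by
    apply setIntegral_eq_of_subset_of_forall_sdiff_eq_zero measurableSet_Ioi Ioc_subset_Ioi_self
    intro X hX
    apply max_eq_right
    by_contra hc
    exact hX.2 ⟨hX.1, g_supp q X (not_le.1 hc).le hq⟩
  have hint : ∀ a b : ℝ, 0 ≤ a → 0 ≤ b →
      IntervalIntegrable (fun X => max (g q X) 0) volume a b := by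
    intro a b ha hb
    rw [intervalIntegrable_iff]
    have h3 : IntegrableOn (fun _ : ℝ => q ^ 2) (uIoc a b) :=
      integrableOn_const (by simp [uIoc])
    refine h3.mono' ((g_measurable q).max measurable_const).aestronglyMeasurable ?_
    refine (ae_restrict_iff' measurableSet_uIoc).2 (Filter.Eventually.of_forall fun X hX => ?_)
    rw [Real.norm_eq_abs, abs_of_nonneg (le_max_right _ _)]
    have hX0 : 0 ≤ X := by
      rw [uIoc, mem_Ioc] at hX
      exact (le_min ha hb).trans hX.1.le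
    exact max_le (g_le q hq X hX0) (by positivity)
  rw [h2, ← intervalIntegral.integral_of_le (by positivity),
    ← intervalIntegral.integral_add_adjacent_intervals (hint 0 (q ^ 2)⁻¹ le_rfl hp.le)
      (hint (q ^ 2)⁻¹ (q ^ 2) hp.le (by positivity)), outer1 q hq, outer2 q hq]
  have hq0 : q ≠ 0 := by positivity
  field_simp
  ring

end CAPV

open CAPV

theorem cap_volume (q : ℝ) (hq : 1 < q) (K : Body) (hK : pts K = wulff (capH q)) :
    Real.pi ^ 2 / 6 * (1 + q ^ 2 + (q ^ 2)⁻¹) ≤ (volume (pts K)).toReal := by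
  have hS : MeasurableSet {x : C2 | x 2 ^ 2 + x 3 ^ 2 ≤ g q (x 0 ^ 2 + x 1 ^ 2)} :=
    measurableSet_le (by fun_prop) ((g_measurable q).comp (by fun_prop))
  have h1 : volume {x : C2 | x 2 ^ 2 + x 3 ^ 2 ≤ g q (x 0 ^ 2 + x 1 ^ 2)} ≤ volume (pts K) := by
    apply measure_mono
    intro x hx
    rw [hK]
    exact mem_of_le q hq x hx
  have hfin : volume (pts K) ≠ ⊤ := K.isCompact.measure_lt_top.ne
  have h2 := ENNReal.toReal_mono hfin h1
  have h3 : ∫ x : C2, F q (x 0 ^ 2 + x 1 ^ 2) (x 2 ^ 2 + x 3 ^ 2) =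
      (volume {x : C2 | x 2 ^ 2 + x 3 ^ 2 ≤ g q (x 0 ^ 2 + x 1 ^ 2)}).toReal := by
    have h4 : (fun x : C2 => F q (x 0 ^ 2 + x 1 ^ 2) (x 2 ^ 2 + x 3 ^ 2)) =
        {x : C2 | x 2 ^ 2 + x 3 ^ 2 ≤ g q (x 0 ^ 2 + x 1 ^ 2)}.indicator (fun _ => (1:ℝ)) := by
      funext x
      simp [F, indicator]
    rw [h4, integral_indicator hS, setIntegral_const, smul_eq_mul, mul_one, Measure.real]
  rw [← h3, I2_c2 (F q) (F_integrable q hq)] at h2
  have h5 : ∀ X : ℝ, ∫ Y in Ioi (0:ℝ), F q X Y = max (g q X) 0 := fun X => inner_int _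
  simp only [h5] at h2
  rw [outer q hq] at h2
  refine le_trans (le_of_eq ?_) h2
  ring

end Pool.Agent.HVM
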