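import Pool.Agent.HVM.Pert4
import Pool.Agent.HVM.CapF
import Pool.Agent.HVM.CapI
import Pool.Agent.HVM.CapV

/-! # The cap body beats the ball for `a / b > 5 / 2` (module CAPT) -/

set_option autoImplicit false

namespace Pool.Agent.HVM

open MeasureTheory Metric Set
open Pool.Agent.Helper85.Herm Pool.Agent.Helper85.Cap

theorem cap_mu (q : ℝ) (hq : 1 < q) (K : Body) (hK : pts K = wulff (capH q)) (a b : ℝ) :
    muab a b K = Real.pi * (2 * a - b + b * (q ^ 2 + (q ^ 2)⁻¹)) := by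
  have hne : ∀ᵐ w : C2, w ≠ 0 := by
    have h1 : ({(0 : C2)} : Set C2)ᶜ ∈ ae (volume : Measure C2) :=
      compl_mem_ae_iff.2 (measure_singleton (0 : C2))
    filter_upwards [h1] with w hw
    exact hw
  have hX : ∀ᵐ w : C2, capX q w ∈ pts K ∧ ∀ y ∈ pts K, inner ℝ y w ≤ inner ℝ (capX q w) w := by
    filter_upwards [hne] with w hw
    rw [hK]
    exact cap_max q hq.le w hw
  have h1 := first_order K 1 one_pos (by rw [hK]; exact cap_ball q) (capX q) hX a b
  have h2 : ∫ w : C2, Real.exp (-‖w‖ ^ 2) *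
      (4 * a * inner ℝ (capX q w) w ^ 2 + (b - 2 * a) * (‖w‖ ^ 2 * ‖capX q w‖ ^ 2)
        - 4 * (b - a) * inner ℝ (capX q w) (J w) ^ 2) =
      ∫ w : C2, Real.exp (-‖w‖ ^ 2) * (if ‖w‖ ^ 2 < q ^ 2 * (w 0 ^ 2 + w 1 ^ 2) then
        q ^ 2 * (4 * a * (w 0 ^ 2 + w 1 ^ 2) + (b - 2 * a) * ‖w‖ ^ 2)
      else (2 * a + b) * ‖w‖ ^ 2) := by
    refine integral_congr_ae ?_
    filter_upwards [hne] with w hw
    rw [cap_integrand q hq.le w hw a b]
  rw [h2, cap_integral q hq.le a b] at h1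
  have hpi : (2 * Real.pi) ≠ 0 := by positivity
  apply mul_left_cancel₀ hpi
  rw [h1]
  ring

theorem high_end (a b : ℝ) (hb : 0 < b) (hab : 5 * b < 2 * a) :
    ∃ K : Body, UnitVolume K ∧ muab a b K < Real.sqrt 2 * (2 * a + b) := by
  obtain ⟨q, hq, hqY⟩ : ∃ q : ℝ, 1 < q ∧ q ^ 2 + (q ^ 2)⁻¹ = (2 * a - 3 * b) / b := by
    set Y : ℝ := (2 * a - 3 * b) / b with hY
    have hY2 : 2 < Y := by rw [hY, lt_div_iff₀ hb]; linarith
    set s : ℝ := Real.sqrt (Y ^ 2 - 4) with hs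
    have hs0 : 0 ≤ s := Real.sqrt_nonneg _
    have hs2 : s ^ 2 = Y ^ 2 - 4 := Real.sq_sqrt (by nlinarith)
    have hz1 : 1 < (Y + s) / 2 := by linarith
    refine ⟨Real.sqrt ((Y + s) / 2), ?_, ?_⟩
    · rw [Real.lt_sqrt (by norm_num)]
      linarith
    · rw [Real.sq_sqrt (by linarith)]
      have hz0 : (Y + s) / 2 ≠ 0 := by linarith
      field_simp
      nlinarith
  obtain ⟨K, hK⟩ := cap_exists q hq.le
  have hab' : 0 < a - b := by linarith
  have hmu : muab a b K = 4 * Real.pi * (a - b) := by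
    rw [cap_mu q hq K hK a b, hqY]
    field_simp
    ring
  set V0 : ℝ := Real.pi ^ 2 / 3 * ((a - b) / b) with hV0
  have hV0pos : 0 < V0 := by positivity
  have hV : V0 ≤ (volume (pts K)).toReal := by
    have h1 := cap_volume q hq K hK
    rw [add_assoc, hqY] at h1
    have h2 : Real.pi ^ 2 / 6 * (1 + (2 * a - 3 * b) / b) = V0 := by
      rw [hV0]
      field_simp
      ring
    linarith
  refine unit_of a b K (hV0pos.trans_le hV) (Real.sqrt 2 * (2 * a + b)) (by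
    have := Real.sqrt_nonneg 2
    have h2 : 0 ≤ 2 * a + b := by linarith
    positivity) ?_
  have h1 : muab a b K < Real.sqrt 2 * (2 * a + b) * Real.sqrt V0 := by
    have h2 : 0 ≤ Real.sqrt 2 * (2 * a + b) * Real.sqrt V0 := by
      have h3 : 0 ≤ 2 * a + b := by linarith
      positivity
    refine lt_of_pow_lt_pow_left₀ 2 h2 ?_
    have h6 : (Real.sqrt 2 * (2 * a + b) * Real.sqrt V0) ^ 2 = 2 * (2 * a + b) ^ 2 * V0 := by
      rw [mul_pow, mul_pow, Real.sq_sqrt (by norm_num : (0:ℝ) ≤ 2), Real.sq_sqrt hV0pos.le]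
    rw [hmu, h6]
    have h3 : 2 * (2 * a + b) ^ 2 * V0 - (4 * Real.pi * (a - b)) ^ 2 =
        2 * Real.pi ^ 2 * (a - b) * (2 * a - 5 * b) ^ 2 / (3 * b) := by
      rw [hV0]
      field_simp
      ring
    have h4 : 0 < 2 * Real.pi ^ 2 * (a - b) * (2 * a - 5 * b) ^ 2 / (3 * b) := by
      have h5 : 0 < 2 * a - 5 * b := by linarith
      positivity
    linarith
  refine h1.trans_le ?_
  refine mul_le_mul_of_nonneg_left (Real.sqrt_le_sqrt hV) ?_
  have h3 : 0 ≤ 2 * a + b := by linarith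
  positivity

end Pool.Agent.HVM
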