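import Pool.Agent.HVM.Alg
import Pool.Agent.HVM.Calc

/-! # Continuity of the curvature functions (module CONT) -/

set_option autoImplicit false

namespace Pool.Agent.HVM

open MeasureTheory Metric Set
open Pool.Agent.Helper85.Herm Pool.Agent.Helper85.Cap

theorem SmoothSupp.pk {h : C2 → ℝ} (hs : SmoothSupp h) {w : C2} (hw : w ≠ 0) :
    PK (hess h w) w :=
  ⟨hs.hess_symm hw, hs.hess_nonneg hw, hs.hess_self hw, hw⟩

theorem s1_continuous : Continuous s1 :=
  LinearMap.continuous_of_finiteDimensional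
    ((LinearMap.trace ℝ C2).comp (ContinuousLinearMap.coeLM ℝ))

theorem s2_continuous : Continuous s2 := by
  unfold s2
  exact ((s1_continuous.pow 2).sub (s1_continuous.comp (continuous_id.clm_comp continuous_id))).div_const 2

theorem NT_continuous : Continuous NT := by
  unfold NT
  exact ((s2_continuous.smul continuous_const).sub (s1_continuous.smul continuous_id)).add
    (continuous_id.clm_comp continuous_id)

theorem gradient_continuousOn {h : C2 → ℝ} (hs : SmoothSupp h) :
    ContinuousOn (gradient h) {0}ᶜ := hs.gradient_contDiffOn.continuousOn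

theorem hess_continuousOn {h : C2 → ℝ} (hs : SmoothSupp h) : ContinuousOn (hess h) {0}ᶜ :=
  hs.hess_contDiffOn.continuousOn

theorem s3_continuousOn {h : C2 → ℝ} (hs : SmoothSupp h) :
    ContinuousOn (fun n => s3 (hess h n) n) {0}ᶜ := by
  unfold s3
  have h1 : Continuous fun n : C2 => rk n n :=
    ((ContinuousLinearMap.smulRightL ℝ C2 C2).continuous.comp
      ((innerSL ℝ).continuous)).clm_apply continuous_id
  have h2 : ContinuousOn (fun n : C2 => (‖n‖ ^ 2)⁻¹) {0}ᶜ := by
    apply ContinuousOn.inv₀ (by fun_prop)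
    intro x hx
    have : x ≠ 0 := hx
    positivity
  exact ContinuousLinearMap.continuous_det.comp_continuousOn
    ((hess_continuousOn hs).add (h2.smul h1.continuousOn))

theorem s2_continuousOn {h : C2 → ℝ} (hs : SmoothSupp h) :
    ContinuousOn (fun n => s2 (hess h n)) {0}ᶜ :=
  s2_continuous.comp_continuousOn (hess_continuousOn hs)

theorem TH_continuousOn {h : C2 → ℝ} (hs : SmoothSupp h) : ContinuousOn (TH h) {0}ᶜ :=
  NT_continuous.comp_continuousOn (hess_continuousOn hs)

theorem s1_smul (c : ℝ) (M : C2 →L[ℝ] C2) : s1 (c • M) = c * s1 M := by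
  unfold s1
  rw [ContinuousLinearMap.toLinearMap_smul, map_smul, smul_eq_mul]

/-- scaling -/
theorem s2_smul (c : ℝ) (M : C2 →L[ℝ] C2) : s2 (c • M) = c ^ 2 * s2 M := by
  unfold s2
  have h : (c • M) ∘L (c • M) = (c ^ 2) • (M ∘L M) := by
    ext x : 1
    simp [smul_smul, pow_two]
  rw [h, s1_smul, s1_smul]
  ring

theorem NT_smul (c : ℝ) (M : C2 →L[ℝ] C2) : NT (c • M) = c ^ 2 • NT M := by
  unfold NT
  have h : (c • M) ∘L (c • M) = (c ^ 2) • (M ∘L M) := by
    ext x : 1
    simp [smul_smul, pow_two]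
  rw [h, s1_smul, s2_smul]
  module

theorem s3_smul {M : C2 →L[ℝ] C2} {w : C2} (h : PK M w) (c : ℝ) (hc : 0 < c) :
    s3 (c⁻¹ • M) (c • w) = (c ^ 3)⁻¹ * s3 M w := by
  obtain ⟨b, l, hw, hl0, -, hb, -, -, h3, -⟩ := exists_eig h
  rw [h3]
  have hwn : ‖w‖ ≠ 0 := norm_ne_zero_iff.2 h.ne
  unfold s3
  set T : C2 →L[ℝ] C2 := c⁻¹ • M + (‖c • w‖ ^ 2)⁻¹ • rk (c • w) (c • w) with hT
  have hTb : ∀ i, T (b i) = (![1, c⁻¹ * l 1, c⁻¹ * l 2, c⁻¹ * l 3] i) • b i := by
    intro i
    have e1 : T (b i) = c⁻¹ • (l i • b i) + (‖c • w‖ ^ 2)⁻¹ • (inner ℝ (c • w) (b i) • (c • w)) := by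
      rw [← hb i]
      rfl
    have e2 : inner ℝ (c • w) (b i) = c * ‖w‖ * (if i = 0 then 1 else 0) := by
      rw [inner_smul_left, RCLike.conj_to_real]
      conv_lhs => rw [hw]
      rw [inner_smul_left, RCLike.conj_to_real, b.inner_eq_ite]
      by_cases hi : i = 0
      · rw [if_pos hi, if_pos hi.symm]
        ring
      · rw [if_neg hi, if_neg (fun hh => hi hh.symm)]
        ring
    have e3 : ‖c • w‖ = c * ‖w‖ := by rw [norm_smul, Real.norm_of_nonneg hc.le]
    rw [e1, e2, e3]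
    by_cases hi : i = 0
    · subst hi
      rw [if_pos rfl, hl0]
      conv_lhs => rw [hw]
      rw [smul_smul, smul_smul, smul_smul, smul_smul, ← add_smul]
      congr 1
      rw [norm_smul, norm_norm, b.orthonormal.1 0]
      simp
      field_simp
    · rw [if_neg hi, mul_zero, zero_smul, smul_zero, add_zero, smul_smul]
      congr 1
      fin_cases i
      · exact absurd rfl hi
      · simp
      · simp
      · simp
  have hdet : T.det = (LinearMap.toMatrix b.toBasis b.toBasis (T : C2 →ₗ[ℝ] C2)).det :=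
    (LinearMap.det_toMatrix b.toBasis (T : C2 →ₗ[ℝ] C2)).symm
  have hmat : LinearMap.toMatrix b.toBasis b.toBasis (T : C2 →ₗ[ℝ] C2) =
      Matrix.diagonal (![1, c⁻¹ * l 1, c⁻¹ * l 2, c⁻¹ * l 3]) := by
    ext i j
    rw [LinearMap.toMatrix_apply]
    simp only [OrthonormalBasis.coe_toBasis, OrthonormalBasis.coe_toBasis_repr_apply]
    have e4 : (T : C2 →ₗ[ℝ] C2) (b j) = (![1, c⁻¹ * l 1, c⁻¹ * l 2, c⁻¹ * l 3] j) • b j := hTb j
    rw [e4, map_smul, PiLp.smul_apply, b.repr_self, smul_eq_mul, Matrix.diagonal_apply]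
    by_cases hij : i = j
    · subst hij
      simp
    · rw [if_neg hij]
      simp [hij]
  rw [hdet, hmat, Matrix.det_diagonal, Fin.prod_univ_four]
  simp only [Matrix.cons_val_zero, Matrix.cons_val_one, Matrix.cons_val]
  field_simp

end Pool.Agent.HVM
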