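import Mathlib
import Pool.Agent.Helper85.HermDefs
import Pool.Agent.Helper85.Cap.Defs

/-!
# Order of magnitude of the minimum of hermitian intrinsic volumes: definitions
-/

set_option autoImplicit false

namespace Pool.Agent.HVM

open MeasureTheory Metric Set
open Pool.Agent.Helper85.Herm Pool.Agent.Helper85.Cap

/-- the second intrinsic volume, `mu_{2,0} + mu_{2,1}` -/
noncomputable def V2 (K : Body) : ℝ := muab 1 1 K

section General
variable {E : Type*} [NormedAddCommGroup E] [InnerProductSpace ℝ E] [CompleteSpace E]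

/-- the Hessian as a linear map: derivative of the gradient -/
noncomputable def hess (h : E → ℝ) (w : E) : E →L[ℝ] E := fderiv ℝ (gradient h) w

/-- the convex set with support function `h` -/
def wulff (h : E → ℝ) : Set E := {x | ∀ w, inner ℝ x w ≤ h w}

/-- smooth (C^3 off the origin) support functions of bodies with positive curvature that
contain the origin in the interior -/
structure SmoothSupp (h : E → ℝ) : Prop where
  smooth : ContDiffOn ℝ 3 h {0}ᶜ
  zero : h 0 = 0
  homog : ∀ (c : ℝ) (w : E), 0 < c → h (c • w) = c * h w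
  pos : ∀ w, w ≠ 0 → 0 < h w
  sub : ∀ v w, h (v + w) ≤ h v + h w
  strict : ∀ w v, w ≠ 0 → inner ℝ v w = 0 → v ≠ 0 → 0 < inner ℝ (hess h w v) v

/-- the rank one map `v ↦ ⟨b, v⟩ a` -/
noncomputable def rk (a b : E) : E →L[ℝ] E := (innerSL ℝ b).smulRight a

/-- derivative of `w ↦ ‖w‖ • gradient h w` at `w ≠ 0` -/
noncomputable def dPsi (h : E → ℝ) (w : E) : E →L[ℝ] E :=
  ‖w‖⁻¹ • rk (gradient h w) w + ‖w‖ • hess h w

end General

/-- trace -/
noncomputable def s1 (M : C2 →L[ℝ] C2) : ℝ := LinearMap.trace ℝ C2 (M : C2 →ₗ[ℝ] C2)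

/-- second elementary symmetric function of the eigenvalues -/
noncomputable def s2 (M : C2 →L[ℝ] C2) : ℝ := (s1 M ^ 2 - s1 (M ∘L M)) / 2

/-- the Newton tensor `T_2(M) = s2 - s1 M + M^2` -/
noncomputable def NT (M : C2 →L[ℝ] C2) : C2 →L[ℝ] C2 :=
  s2 M • ContinuousLinearMap.id ℝ C2 - s1 M • M + M ∘L M

/-- product of the three eigenvalues of a symmetric `M` with `M w = 0` on the orthogonal
complement of `w` -/
noncomputable def s3 (M : C2 →L[ℝ] C2) (w : C2) : ℝ :=
  ContinuousLinearMap.det (M + (‖w‖ ^ 2)⁻¹ • rk w w)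

/-- the integral over the unit sphere of `C2` -/
noncomputable def Sph (f : C2 → ℝ) : ℝ :=
  ∫ n : sphere (0 : C2) 1, f n ∂((volume : Measure C2).toSphere)

/-- the Newton tensor of the Hessian of `h` -/
noncomputable def TH (h : C2 → ℝ) (w : C2) : C2 →L[ℝ] C2 := NT (hess h w)

end Pool.Agent.HVM
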