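import Pool.Agent.HVM.Polar

/-! # The divergence theorem for homogeneous vector fields (module DIV) -/

set_option autoImplicit false

namespace Pool.Agent.HVM

open MeasureTheory Metric Set
open Pool.Agent.Helper85.Herm Pool.Agent.Helper85.Cap

private theorem div_cont (F : C2 → ℝ) (hF : ContinuousOn F {0}ᶜ) (ψ : C2 → ℝ)
    (hψ : Continuous ψ) (h0 : (0 : C2) ∉ tsupport ψ) : Continuous (fun w => F w * ψ w) := by
  rw [continuous_iff_continuousAt]
  intro x
  by_cases hx : x ∈ tsupport ψ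
  · have hx0 : x ≠ 0 := fun h => h0 (h ▸ hx)
    exact ((hF x hx0).continuousAt (isOpen_compl_singleton.mem_nhds hx0)).mul hψ.continuousAt
  · have h1 := notMem_tsupport_iff_eventuallyEq.1 hx
    have h2 : (fun w => F w * ψ w) =ᶠ[nhds x] fun _ => (0 : ℝ) := by
      filter_upwards [h1] with w hw
      rw [hw]
      simp
    exact continuousAt_const.congr h2.symm

private theorem div_integrable (F : C2 → ℝ) (hF : ContinuousOn F {0}ᶜ) (ψ : C2 → ℝ)
    (hψ : Continuous ψ) (hc : HasCompactSupport ψ) (h0 : (0 : C2) ∉ tsupport ψ) :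
    Integrable (fun w => F w * ψ w) :=
  (div_cont F hF ψ hψ h0).integrable_of_hasCompactSupport hc.mul_left

private theorem inner_grad (ψ : C2 → ℝ) (w v : C2) :
    inner ℝ v (gradient ψ w) = fderiv ℝ ψ w v := by
  rw [real_inner_comm]
  unfold gradient
  exact InnerProductSpace.toDual_symm_apply

/-- integration by parts against a test function with support away from the origin -/
theorem div_ibp (V : C2 → C2) (hV : ContDiffOn ℝ 1 V {0}ᶜ) (ψ : C2 → ℝ) (hψ : ContDiff ℝ 1 ψ)
    (hc : HasCompactSupport ψ) (h0 : (0 : C2) ∉ tsupport ψ) :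
    ∫ w, inner ℝ (V w) (gradient ψ w) = -∫ w, ψ w * s1 (fderiv ℝ V w) := by
  obtain ⟨e, -⟩ : ∃ e : OrthonormalBasis (Fin 4) ℝ C2, True :=
    ⟨EuclideanSpace.basisFun (Fin 4) ℝ, trivial⟩
  have hdV : ∀ w : C2, w ≠ 0 → DifferentiableAt ℝ V w := fun w hw =>
    (hV.differentiableOn (by norm_num) w hw).differentiableAt
      (isOpen_compl_singleton.mem_nhds hw)
  have hcV : ContinuousOn (fderiv ℝ V) {0}ᶜ :=
    hV.continuousOn_fderiv_of_isOpen isOpen_compl_singleton le_rfl
  have hcψ : Continuous (fderiv ℝ ψ) := hψ.continuous_fderiv (by norm_num)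
  have int1 : ∀ i, Integrable (fun w => inner ℝ (e i) (fderiv ℝ V w (e i)) * ψ w) := by
    intro i
    refine div_integrable _ ?_ ψ hψ.continuous hc h0
    exact continuousOn_const.inner (hcV.clm_apply continuousOn_const)
  have int2 : ∀ i, Integrable (fun w => inner ℝ (e i) (V w) * fderiv ℝ ψ w (e i)) := by
    intro i
    refine div_integrable _ ?_ _ (hcψ.clm_apply continuous_const) (hc.fderiv_apply ℝ _) ?_
    · exact continuousOn_const.inner hV.continuousOn
    · exact fun h => h0 (tsupport_fderiv_apply_subset ℝ (e i) h)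
  have int3 : ∀ i, Integrable (fun w => inner ℝ (e i) (V w) * ψ w) := by
    intro i
    exact div_integrable _ (continuousOn_const.inner hV.continuousOn) ψ hψ.continuous hc h0
  have key : ∀ i, ∫ w, inner ℝ (e i) (V w) * fderiv ℝ ψ w (e i) =
      -∫ w, inner ℝ (e i) (fderiv ℝ V w (e i)) * ψ w := by
    intro i
    exact integral_bilinear_hasFDerivAt_right_eq_neg_left_of_integrable
      (f := fun w => innerSL ℝ (e i) (V w)) (f' := fun w => (innerSL ℝ (e i)).comp (fderiv ℝ V w))
      (g := ψ) (g' := fderiv ℝ ψ) (v := e i) (B := ContinuousLinearMap.mul ℝ ℝ)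
      (int1 i) (int2 i) (int3 i)
      (fun x hx => ((innerSL ℝ (e i)).hasFDerivAt).comp x
        (hdV x (fun h => h0 (h ▸ hx))).hasFDerivAt)
      (fun x _ => (hψ.differentiable (by norm_num) x).hasFDerivAt)
  have e1 : ∀ w, inner ℝ (V w) (gradient ψ w) =
      ∑ i, inner ℝ (e i) (V w) * fderiv ℝ ψ w (e i) := by
    intro w
    rw [inner_grad]
    nth_rewrite 1 [← e.sum_repr' (V w)]
    rw [map_sum]
    exact Finset.sum_congr rfl fun i _ => by rw [map_smul, smul_eq_mul]
  have e2 : ∀ w, ψ w * s1 (fderiv ℝ V w) =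
      ∑ i, inner ℝ (e i) (fderiv ℝ V w (e i)) * ψ w := by
    intro w
    unfold s1
    rw [LinearMap.trace_eq_sum_inner _ e, mul_comm, Finset.sum_mul]
    rfl
  simp_rw [e1, e2]
  rw [integral_finsetSum _ (fun i _ => int2 i), integral_finsetSum _ (fun i _ => int1 i),
    ← Finset.sum_neg_distrib]
  exact Finset.sum_congr rfl fun i _ => key i

private theorem hasFDerivAt_norm' (x : C2) (hx : x ≠ 0) :
    HasFDerivAt (fun w : C2 => ‖w‖) (‖x‖⁻¹ • innerSL ℝ x) x := by
  have h1 := (hasStrictFDerivAt_norm_sq x).hasFDerivAt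
  have h2 := h1.sqrt (pow_ne_zero 2 (norm_ne_zero_iff.2 hx))
  have h3 : (fun y : C2 => √(‖y‖ ^ 2)) = fun y => ‖y‖ := by
    funext y
    exact Real.sqrt_sq (norm_nonneg y)
  rw [h3, Real.sqrt_sq (norm_nonneg x)] at h2
  have h4 : (1 / (2 * ‖x‖)) • (2 • innerSL ℝ x) = ‖x‖⁻¹ • innerSL ℝ x := by
    ext v
    have hx' : ‖x‖ ≠ 0 := norm_ne_zero_iff.2 hx
    simp only [smul_apply, smul_eq_mul, nsmul_eq_mul]
    push_cast
    field_simp
  rw [h4] at h2
  exact h2

/-- divergence theorem on the sphere for a field that is homogeneous of degree `k` -/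
theorem sph_div (V : C2 → C2) (hV : ContDiffOn ℝ 1 V {0}ᶜ) (k : ℤ)
    (hk : ∀ (c : ℝ) (w : C2), 0 < c → w ≠ 0 → V (c • w) = c ^ k • V w) :
    Sph (fun n => s1 (fderiv ℝ V n)) = (k + 3) * Sph (fun n => inner ℝ (V n) n) := by
  obtain ⟨ρ, hρ2, hρ0, hρs, hρi⟩ := exists_bump
  have hdV : ∀ w : C2, w ≠ 0 → DifferentiableAt ℝ V w := fun w hw =>
    (hV.differentiableOn (by norm_num) w hw).differentiableAt
      (isOpen_compl_singleton.mem_nhds hw)
  have hρd : ∀ r, HasDerivAt ρ (deriv ρ r) r := fun r =>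
    (hρ2.differentiable (by norm_num) r).hasDerivAt
  have hρc : Continuous ρ := hρ2.continuous
  have hρ'c : Continuous (deriv ρ) := hρ2.continuous_deriv (by norm_num)
  have hρ's : ∀ r, r ∉ Icc (1 : ℝ) 2 → deriv ρ r = 0 := by
    intro r hr
    have h1 : ρ =ᶠ[nhds r] fun _ => (0 : ℝ) := by
      filter_upwards [isClosed_Icc.isOpen_compl.mem_nhds hr] with x hx
      exact hρs x hx
    rw [h1.deriv_eq]
    simp
  obtain ⟨ψ, hψd⟩ : ∃ ψ : C2 → ℝ, ψ = fun w => ρ ‖w‖ := ⟨_, rfl⟩
  have hnear : ψ =ᶠ[nhds 0] fun _ => (0 : ℝ) := by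
    filter_upwards [Metric.ball_mem_nhds (0 : C2) one_pos] with w hw
    rw [hψd]
    refine hρs _ fun h => ?_
    rw [mem_ball_zero_iff] at hw
    exact absurd h.1 (not_le.2 hw)
  have h0 : (0 : C2) ∉ tsupport ψ := notMem_tsupport_iff_eventuallyEq.2 hnear
  have hψ : ContDiff ℝ 1 ψ := by
    rw [contDiff_iff_contDiffAt]
    intro x
    by_cases hx : x = 0
    · subst hx
      exact contDiffAt_const.congr_of_eventuallyEq hnear
    · rw [hψd]
      exact ((hρ2.of_le (by norm_num)).contDiffAt).comp x (contDiffAt_norm ℝ hx)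
  have hc : HasCompactSupport ψ := by
    apply HasCompactSupport.of_support_subset_isCompact (isCompact_closedBall (0 : C2) 2)
    intro w hw
    rw [mem_closedBall_zero_iff]
    by_contra h
    apply hw
    rw [hψd]
    exact hρs _ fun h' => h h'.2
  have hmain := div_ibp V hV ψ hψ hc h0
  have e1 : ∀ w, inner ℝ (V w) (gradient ψ w) =
      deriv ρ ‖w‖ * (‖w‖⁻¹ * inner ℝ (V w) w) := by
    intro w
    rw [inner_grad]
    by_cases hw : w = 0
    · subst hw
      rw [hnear.fderiv_eq]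
      simp
    · have h1 : HasFDerivAt ψ (deriv ρ ‖w‖ • (‖w‖⁻¹ • innerSL ℝ w)) w := by
        rw [hψd]
        exact (hρd ‖w‖).comp_hasFDerivAt w (hasFDerivAt_norm' w hw)
      rw [h1.fderiv]
      simp only [smul_apply, smul_eq_mul, innerSL_apply_apply]
      rw [real_inner_comm]
  have hfd : ∀ (c : ℝ) (w : C2), 0 < c → w ≠ 0 →
      fderiv ℝ V (c • w) = c ^ (k - 1) • fderiv ℝ V w := by
    intro c w hc0 hw
    have hcw : c • w ≠ 0 := smul_ne_zero hc0.ne' hw
    have h1 : HasFDerivAt (fun x : C2 => V (c • x)) ((fderiv ℝ V (c • w)).comp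
        (c • ContinuousLinearMap.id ℝ C2)) w :=
      (hdV _ hcw).hasFDerivAt.comp w ((hasFDerivAt_id w).const_smul c)
    have h2 : HasFDerivAt (fun x : C2 => V (c • x)) (c ^ k • fderiv ℝ V w) w := by
      refine ((hdV w hw).hasFDerivAt.const_smul (c ^ k)).congr_of_eventuallyEq ?_
      filter_upwards [isOpen_compl_singleton.mem_nhds hw] with x hx
      exact hk c x hc0 hx
    have h3 := h1.unique h2
    ext1 v
    have h4 := congrArg (fun T : C2 →L[ℝ] C2 => T (c⁻¹ • v)) h3
    simp only [ContinuousLinearMap.comp_apply, smul_apply, ContinuousLinearMap.id_apply,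
      smul_smul, mul_inv_cancel₀ hc0.ne', one_smul] at h4
    rw [h4, smul_apply, map_smul, smul_smul, zpow_sub₀ hc0.ne', zpow_one, div_eq_mul_inv]
  have hs1 : ∀ (c : ℝ) (w : C2), 0 < c → w ≠ 0 →
      s1 (fderiv ℝ V (c • w)) = c ^ (k - 1) * s1 (fderiv ℝ V w) := by
    intro c w hc0 hw
    rw [hfd c w hc0 hw]
    unfold s1
    rw [ContinuousLinearMap.toLinearMap_smul, map_smul, smul_eq_mul]
  have hp1 := polar (fun w => ‖w‖⁻¹ * inner ℝ (V w) w) k (by
    intro c w hc0 hw
    rw [hk c w hc0 hw, inner_smul_left, inner_smul_right, norm_smul, Real.norm_eq_abs,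
      abs_of_pos hc0, mul_inv]
    simp only [conj_trivial]
    field_simp) (deriv ρ)
  have hp2 := polar (fun w => s1 (fderiv ℝ V w)) (k - 1) hs1 ρ
  simp_rw [e1] at hmain
  rw [hp1] at hmain
  have e2 : ∀ w, ψ w * s1 (fderiv ℝ V w) = ρ ‖w‖ * s1 (fderiv ℝ V w) := fun w => by rw [hψd]
  simp_rw [e2] at hmain
  rw [hp2] at hmain
  have e3 : Sph (fun w => ‖w‖⁻¹ * inner ℝ (V w) w) = Sph (fun n => inner ℝ (V n) n) := by
    refine sph_congr _ _ fun n hn => ?_
    rw [hn]
    simp
  rw [e3] at hmain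
  -- the one dimensional integrals
  have hzc : ∀ d : ℤ, ContinuousOn (fun r : ℝ => r ^ d) (Icc 1 2) := by
    intro d
    refine continuousOn_id.zpow₀ d fun r hr => Or.inl ?_
    have : (1 : ℝ) ≤ r := hr.1
    simp only [id]
    linarith
  have hint : ∀ (f : ℝ → ℝ) (d : ℤ), Continuous f → (∀ r, r ∉ Icc (1 : ℝ) 2 → f r = 0) →
      IntegrableOn (fun r => f r * r ^ d) (Ioi 0) := by
    intro f d hf hfs
    have h1 : IntegrableOn (fun r => f r * r ^ d) (Icc 1 2) :=
      (hf.continuousOn.mul (hzc d)).integrableOn_Icc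
    have h2 : Integrable (fun r => f r * r ^ d) := by
      rw [← integrableOn_iff_integrable_of_support_subset (s := Icc (1 : ℝ) 2)]
      · exact h1
      · intro r hr
        by_contra h
        apply hr
        show f r * r ^ d = 0
        rw [hfs r h, zero_mul]
    exact h2.integrableOn
  have hone : ∫ r in Ioi (0 : ℝ), (deriv ρ r * r ^ (k + 3) + (k + 3) * (ρ r * r ^ (k - 1 + 3))) =
      0 := by
    have h1 := integral_Ioi_of_hasDerivAt_of_tendsto (a := 0) (m := 0)
      (f := fun r : ℝ => ρ r * r ^ (k + 3))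
      (f' := fun r => deriv ρ r * r ^ (k + 3) + (k + 3) * (ρ r * r ^ (k - 1 + 3))) ?_ ?_ ?_ ?_
    · rw [h1, hρs 0 (by norm_num)]
      simp
    · have h2 : (fun r : ℝ => ρ r * r ^ (k + 3)) =ᶠ[nhds 0] fun _ => (0 : ℝ) := by
        filter_upwards [Iio_mem_nhds (show (0 : ℝ) < 1 by norm_num)] with r hr
        rw [hρs r (fun h => absurd h.1 (not_le.2 hr)), zero_mul]
      exact (continuousAt_const.congr h2.symm).continuousWithinAt
    · intro r hr
      have hr0 : r ≠ 0 := ne_of_gt hr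
      have h2 := (hρd r).mul (hasDerivAt_zpow (k + 3) r (Or.inl hr0))
      refine h2.congr_deriv ?_
      have h3 : k + 3 - 1 = k - 1 + 3 := by ring
      rw [h3]
      push_cast
      ring
    · exact (hint (deriv ρ) (k + 3) hρ'c hρ's).add
        ((hint ρ (k - 1 + 3) hρc hρs).const_mul _)
    · have h2 : (fun _ : ℝ => (0 : ℝ)) =ᶠ[Filter.atTop] (fun r : ℝ => ρ r * r ^ (k + 3)) := by
        filter_upwards [Filter.eventually_gt_atTop (2 : ℝ)] with r hr
        rw [hρs r (fun h => absurd h.2 (not_le.2 hr)), zero_mul]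
      exact tendsto_const_nhds.congr' h2
  rw [integral_add (hint (deriv ρ) (k + 3) hρ'c hρ's)
    ((hint ρ (k - 1 + 3) hρc hρs).const_mul _), integral_const_mul] at hone
  have hpos := hρi (k - 1 + 3)
  have h5 : (∫ r in Ioi (0 : ℝ), deriv ρ r * r ^ (k + 3)) =
      -((k + 3) * ∫ r in Ioi (0 : ℝ), ρ r * r ^ (k - 1 + 3)) := by linarith
  rw [h5] at hmain
  apply mul_left_cancel₀ hpos.ne'
  linear_combination hmain

end Pool.Agent.HVM
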