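import Pool.Agent.HVM.KeyB
import Pool.Agent.HVM.KeyC
import Pool.Agent.HVM.AppB
import Pool.Agent.Helper85.Cap.I1

/-! # Extension to all convex bodies (module EXT) -/

set_option autoImplicit false

namespace Pool.Agent.HVM

open MeasureTheory Metric Set Filter
open Pool.Agent.Helper85.Herm Pool.Agent.Helper85.Cap

theorem ext_Mu_translation (u : C2 → C2) (K L : Body) (v : C2) (hL : pts L = (fun x => x + v) '' pts K) :
    Mu u L = Mu u K := by
  have h0 : ∀ q : C2 × C2, I1_ar L q = I1_ar K q := by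
    intro q
    unfold I1_ar
    congr 1
    have h1 : I1_P q '' pts L = (fun z => z + I1_P q v) '' (I1_P q '' pts K) := by
      rw [hL, image_image, image_image]
      refine image_congr fun x _ => ?_
      rw [map_add]
    rw [h1, image_add_right, measure_preimage_add_right]
  unfold Mu
  simp only [I1_area, h0]

theorem ext_MLag_translation (K L : Body) (v : C2) (hL : pts L = (fun x => x + v) '' pts K) :
    MLag L = MLag K := by
  unfold MLag
  simp only [ext_Mu_translation _ K L v hL]

theorem ext_V2_translation (K L : Body) (v : C2) (hL : pts L = (fun x => x + v) '' pts K) :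
    V2 L = V2 K := muab_translation 1 1 K L v hL

theorem ext_Mu_cont (u : C2 ≃ₗᵢ[ℝ] C2) : Continuous (fun K : Body => Mu u K) :=
  I1_Mu_cont (T := Body) (fun K => K) continuous_id (fun _ => u)
    (Continuous.comp (g := u) (f := fun t : Body × C2 => t.2) u.continuous continuous_snd)
    (fun _ w => u.norm_map w)

theorem ext_V2_cont : Continuous V2 := muab_continuous 1 1

/-- from smooth bodies to bodies with the origin in the interior -/
theorem ext_of_smooth (Φ : Body → ℝ) (hΦ : Continuous Φ)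
    (h : ∀ (g : C2 → ℝ) (L : Body), SmoothSupp g → pts L = wulff g → 0 ≤ Φ L)
    (K : Body) (r : ℝ) (hr : 0 < r) (hK : closedBall 0 r ⊆ pts K) : 0 ≤ Φ K := by
  obtain ⟨L, g, hg, hL, -, hlim⟩ := exists_smooth K r hr hK
  exact ge_of_tendsto' ((hΦ.tendsto K).comp hlim) (fun n => h (g n) (L n) (hg n) (hL n))

/-- the closed thickening of a convex body -/
noncomputable def ext_thick (K : Body) (δ : ℝ) : Body where
  carrier := cthickening δ (pts K)
  convex' := K.convex.cthickening δ
  isCompact' := K.isCompact.cthickening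
  nonempty' := K.nonempty.mono (self_subset_cthickening _)

theorem ext_thick_tendsto (K : Body) : Tendsto (fun n : ℕ => ext_thick K (1 / ((n : ℝ) + 1))) atTop (nhds K) := by
  rw [tendsto_iff_dist_tendsto_zero]
  refine squeeze_zero (fun _ => dist_nonneg) (fun n => ?_) tendsto_one_div_add_atTop_nhds_zero_nat
  have hpos : (0 : ℝ) ≤ 1 / ((n : ℝ) + 1) := by positivity
  rw [← ConvexBody.hausdorffDist_coe]
  refine hausdorffDist_le_of_mem_dist hpos ?_ ?_
  · intro x hx
    have hx' : x ∈ cthickening (1 / ((n : ℝ) + 1)) (pts K) := hx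
    rw [show pts K = (K : Set C2) from rfl, K.isCompact.cthickening_eq_biUnion_closedBall hpos] at hx'
    obtain ⟨y, hy, hxy⟩ := mem_iUnion₂.1 hx'
    exact ⟨y, hy, hxy⟩
  · intro x hx
    exact ⟨x, self_subset_cthickening _ hx, by rw [dist_self]; exact hpos⟩

/-- from bodies with the origin in the interior to all bodies -/
theorem ext_of_ball (Φ : Body → ℝ) (hΦ : Continuous Φ)
    (htr : ∀ (K L : Body) (v : C2), pts L = (fun x => x + v) '' pts K → Φ L = Φ K)
    (h : ∀ (K : Body) (r : ℝ), 0 < r → closedBall 0 r ⊆ pts K → 0 ≤ Φ K) (K : Body) : 0 ≤ Φ K := by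
  obtain ⟨x0, hx0⟩ := K.nonempty
  let K0 : Body :=
    { carrier := (fun x => x + (-x0)) '' pts K
      convex' := by
        have h1 : Convex ℝ (pts K) := K.convex
        have h2 := h1.translate (-x0)
        have h3 : (fun x => x + (-x0)) '' pts K = (fun x => -x0 + x) '' pts K := by
          refine image_congr fun x _ => ?_
          exact add_comm _ _
        rw [h3]
        exact h2
      isCompact' := K.isCompact.image (by fun_prop)
      nonempty' := K.nonempty.image _ }
  have hK0 : pts K0 = (fun x => x + (-x0)) '' pts K := rfl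
  have h0 : (0 : C2) ∈ pts K0 := ⟨x0, hx0, by simp⟩
  rw [← htr K K0 (-x0) hK0]
  refine ge_of_tendsto' ((hΦ.tendsto K0).comp (ext_thick_tendsto K0)) (fun n => ?_)
  refine h _ (1 / ((n : ℝ) + 1)) (by positivity) ?_
  exact closedBall_subset_cthickening h0 _

theorem ext_TH_cont {h : C2 → ℝ} (hs : SmoothSupp h) (u : C2 ≃ₗᵢ[ℝ] C2) :
    ContinuousOn (fun n => inner ℝ (TH h n (u n)) (u n)) {0}ᶜ := by
  refine ContinuousOn.inner ?_ u.continuous.continuousOn
  exact (TH_continuousOn hs).clm_apply u.continuous.continuousOn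

theorem ext_ne {n : C2} (hn : ‖n‖ = 1) : n ≠ 0 := by
  rintro rfl
  rw [norm_zero] at hn
  exact zero_ne_one hn

theorem G_nonneg (K : Body) (u : C2 ≃ₗᵢ[ℝ] C2) (hu : ∀ x, u (u x) = -x) :
    0 ≤ 4 * Mu u K - V2 K := by
  refine ext_of_ball (fun K => 4 * Mu u K - V2 K) ?_ ?_ ?_ K
  · exact ((ext_Mu_cont u).const_mul 4).sub ext_V2_cont
  · intro K L v hL
    simp only [ext_Mu_translation u K L v hL, ext_V2_translation K L v hL]
  · intro K r hr hK
    refine ext_of_smooth (fun K => 4 * Mu u K - V2 K) ?_ ?_ K r hr hK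
    · exact ((ext_Mu_cont u).const_mul 4).sub ext_V2_cont
    · intro g L hg hL
      have h1 := G_smooth hg L hL u hu
      have h2 : 0 ≤ Sph (fun n => inner ℝ (TH g n (u n)) (u n)) := by
        refine sph_nonneg _ fun n hn => ?_
        exact NT_psd (hg.pk (ext_ne hn)) (u n)
      rw [← h1] at h2
      have h3 : (0 : ℝ) < 2 * Real.pi := by positivity
      exact nonneg_of_mul_nonneg_right h2 h3

theorem G_le (K : Body) (u : C2 ≃ₗᵢ[ℝ] C2) (hu : ∀ x, u (u x) = -x) :
    4 * Mu u K - V2 K ≤ V2 K := by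
  suffices h : 0 ≤ V2 K - (4 * Mu u K - V2 K) by linarith
  have hc : Continuous (fun K : Body => V2 K - (4 * Mu u K - V2 K)) :=
    ext_V2_cont.sub (((ext_Mu_cont u).const_mul 4).sub ext_V2_cont)
  refine ext_of_ball (fun K => V2 K - (4 * Mu u K - V2 K)) hc ?_ ?_ K
  · intro K L v hL
    simp only [ext_Mu_translation u K L v hL, ext_V2_translation K L v hL]
  · intro K r hr hK
    refine ext_of_smooth (fun K => V2 K - (4 * Mu u K - V2 K)) hc ?_ K r hr hK
    intro g L hg hL
    have h1 := G_smooth hg L hL u hu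
    have h2 := V2_smooth hg L hL
    have h3 : Sph (fun n => inner ℝ (TH g n (u n)) (u n)) ≤ Sph (fun n => s2 (hess g n)) := by
      refine sph_mono _ _ (ext_TH_cont hg u) (s2_continuousOn hg) fun n hn => ?_
      have h4 := NT_le (hg.pk (ext_ne hn)) (u n)
      rw [u.norm_map, hn, one_pow, mul_one] at h4
      exact h4
    rw [← h1, ← h2] at h3
    have h4 : (0 : ℝ) < 2 * Real.pi := by positivity
    have h5 := le_of_mul_le_mul_left h3 h4
    linarith

/-- the defect in `tri` -/
noncomputable def ext_Tri (α c : ℝ) (K : Body) : ℝ :=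
  c * (Mu (Uq α) K + Mu (Uq (α + Real.pi / 2)) K - 2 * MLag K)

theorem ext_Tri_cont (α c : ℝ) : Continuous (ext_Tri α c) := by
  have hM : ∀ β : ℝ, Continuous (fun K : Body => Mu (Uq β) K) := fun β =>
    Continuous.comp (g := fun p : Body × ℝ => Mu (Uq p.2) p.1) (f := fun K : Body => (K, β))
      I1_Mu_joint (Continuous.prodMk continuous_id continuous_const)
  exact (((hM α).add (hM _)).sub (I1_MLag_cont.const_mul 2)).const_mul c

theorem ext_Tri_translation (α c : ℝ) (K L : Body) (v : C2) (hL : pts L = (fun x => x + v) '' pts K) :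
    ext_Tri α c L = ext_Tri α c K := by
  unfold ext_Tri
  rw [ext_Mu_translation _ K L v hL, ext_Mu_translation _ K L v hL, ext_MLag_translation K L v hL]

theorem ext_Tri_smooth (α c : ℝ) {g : C2 → ℝ} {L : Body} (hg : SmoothSupp g) (hL : pts L = wulff g) :
    ext_Tri α c L = 0 := by
  unfold ext_Tri
  rw [tri_smooth hg L hL α, sub_self, mul_zero]

theorem ext_Tri_nonneg (α c : ℝ) (K : Body) : 0 ≤ ext_Tri α c K :=
  ext_of_ball (ext_Tri α c) (ext_Tri_cont α c) (ext_Tri_translation α c)
    (ext_of_smooth (ext_Tri α c) (ext_Tri_cont α c) fun _ _ hg hL => (ext_Tri_smooth α c hg hL).ge) K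

theorem tri (K : Body) (α : ℝ) : Mu (Uq α) K + Mu (Uq (α + Real.pi / 2)) K = 2 * MLag K := by
  have h1 := ext_Tri_nonneg α 1 K
  have h2 := ext_Tri_nonneg α (-1) K
  unfold ext_Tri at h1 h2
  linarith

theorem key_ineq (K : Body) (r : ℝ) (hr : 0 < r) (hK : closedBall 0 r ⊆ pts K)
    (u : C2 ≃ₗᵢ[ℝ] C2) (hu : ∀ x, u (u x) = -x) (e : C2) (he : ‖e‖ = 1) (A B : ℝ)
    (hA : ∀ y ∈ pts K, |inner ℝ y (u e)| ≤ A) (hB : ∀ y ∈ pts K, |inner ℝ y e| ≤ B) :
    r * (volume (pts K)).toReal ^ 2 ≤
      128 * Real.pi ^ 2 * (4 * Mu u K - V2 K) * V2 K * A ^ 2 * B ^ 3 := by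
  obtain ⟨L, g, hg, hL, hKL, hlim⟩ := exists_smooth K r hr hK
  -- the errors
  let δ : ℕ → ℝ := fun n => dist (L n) K + 1 / ((n : ℝ) + 1)
  have hδ : Tendsto δ atTop (nhds 0) := by
    have h1 := tendsto_iff_dist_tendsto_zero.1 hlim
    have h2 := h1.add (tendsto_one_div_add_atTop_nhds_zero_nat (𝕜 := ℝ))
    rw [add_zero] at h2
    exact h2
  have hnear : ∀ n, ∀ y ∈ pts (L n), ∀ v : C2, ‖v‖ = 1 → ∀ R : ℝ, (∀ x ∈ pts K, |inner ℝ x v| ≤ R) →
      |inner ℝ y v| ≤ R + δ n := by
    intro n y hy v hv R hR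
    have hlt : dist (L n) K < δ n := by
      have : (0 : ℝ) < 1 / ((n : ℝ) + 1) := by positivity
      show dist (L n) K < dist (L n) K + 1 / ((n : ℝ) + 1)
      linarith
    obtain ⟨x, hx, hxy⟩ := I1_near (L n) K (δ n) hlt y hy
    have h1 : (inner ℝ y v : ℝ) = inner ℝ x v + inner ℝ (y - x) v := by
      rw [inner_sub_left]
      ring
    have h2 : |(inner ℝ (y - x) v : ℝ)| ≤ δ n := by
      refine (abs_real_inner_le_norm _ _).trans ?_
      rw [hv, mul_one, ← dist_eq_norm]
      exact hxy.le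
    rw [h1]
    exact (abs_add_le _ _).trans (add_le_add (hR x hx) h2)
  have hineq : ∀ n, r * (volume (pts (L n))).toReal ^ 2 ≤
      128 * Real.pi ^ 2 * (4 * Mu u (L n) - V2 (L n)) * V2 (L n) * (A + δ n) ^ 2 * (B + δ n) ^ 3 := by
    intro n
    have h1 := key_spherical (hg n) u hu e he (A + δ n) (B + δ n) r hr ?_ ?_ ?_
    · rw [← G_smooth (hg n) (L n) (hL n) u hu, ← V2_smooth (hg n) (L n) (hL n), ← hL n] at h1
      refine h1.trans (le_of_eq ?_)
      ring
    · intro w
      rcases eq_or_ne w 0 with rfl | hw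
      · rw [norm_zero, mul_zero, (hg n).zero]
      · have hw0 : ‖w‖ ≠ 0 := norm_ne_zero_iff.2 hw
        have h2 : (r * ‖w‖⁻¹) • w ∈ pts (L n) := by
          refine hKL n (hK ?_)
          rw [mem_closedBall_zero_iff, norm_smul, norm_mul, norm_inv, norm_norm, Real.norm_of_nonneg hr.le,
            mul_assoc, inv_mul_cancel₀ hw0, mul_one]
        rw [hL n] at h2
        have h3 := h2 w
        rw [real_inner_smul_left, real_inner_self_eq_norm_sq] at h3
        have h4 : r * ‖w‖⁻¹ * ‖w‖ ^ 2 = r * ‖w‖ := by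
          field_simp
        rw [h4] at h3
        exact h3
    · intro y hy
      rw [← hL n] at hy
      refine hnear n y hy (u e) ?_ A hA
      rw [u.norm_map, he]
    · intro y hy
      rw [← hL n] at hy
      exact hnear n y hy e he B hB
  have hvol : Tendsto (fun n => (volume (pts (L n))).toReal) atTop (nhds (volume (pts K)).toReal) :=
    ((continuous_volume_convexBody (V := C2) volume).tendsto K).comp hlim
  have hMu : Tendsto (fun n => Mu u (L n)) atTop (nhds (Mu u K)) := ((ext_Mu_cont u).tendsto K).comp hlim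
  have hV2 : Tendsto (fun n => V2 (L n)) atTop (nhds (V2 K)) := (ext_V2_cont.tendsto K).comp hlim
  have hAn : Tendsto (fun n => A + δ n) atTop (nhds A) := by
    have := hδ.const_add A
    rwa [add_zero] at this
  have hBn : Tendsto (fun n => B + δ n) atTop (nhds B) := by
    have := hδ.const_add B
    rwa [add_zero] at this
  refine le_of_tendsto_of_tendsto' ((hvol.pow 2).const_mul r) ?_ hineq
  exact (((((hMu.const_mul 4).sub hV2).const_mul (128 * Real.pi ^ 2)).mul hV2).mul (hAn.pow 2)).mul (hBn.pow 3)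

end Pool.Agent.HVM
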