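import Pool.Agent.HVM.Cont
import Pool.Agent.HVM.AlgB
import Pool.Agent.HVM.Div

/-! # First order forms of `M_u` and `G_u` (module IBP) -/

set_option autoImplicit false

namespace Pool.Agent.HVM

open MeasureTheory Metric Set
open Pool.Agent.Helper85.Herm Pool.Agent.Helper85.Cap

namespace IbpAux

theorem skew (u : C2 ≃ₗᵢ[ℝ] C2) (hu : ∀ x, u (u x) = -x) (x y : C2) :
    (inner ℝ (u x) y : ℝ) = -inner ℝ x (u y) := by
  rw [← u.inner_map_map (u x) y, hu, inner_neg_left]

theorem self (u : C2 ≃ₗᵢ[ℝ] C2) (hu : ∀ x, u (u x) = -x) (x : C2) :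
    (inner ℝ (u x) x : ℝ) = 0 := by
  have h1 := skew u hu x x
  have h2 : (inner ℝ x (u x) : ℝ) = inner ℝ (u x) x := real_inner_comm _ _
  linarith

theorem s1_add (A B : C2 →L[ℝ] C2) : s1 (A + B) = s1 A + s1 B := by
  unfold s1
  rw [ContinuousLinearMap.toLinearMap_add, map_add]

theorem s1_smul (c : ℝ) (A : C2 →L[ℝ] C2) : s1 (c • A) = c * s1 A := by
  unfold s1
  rw [ContinuousLinearMap.toLinearMap_smul, map_smul, smul_eq_mul]

theorem s1_comm (A B : C2 →L[ℝ] C2) : s1 (A ∘L B) = s1 (B ∘L A) := by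
  unfold s1
  rw [ContinuousLinearMap.toLinearMap_comp, ContinuousLinearMap.toLinearMap_comp,
    LinearMap.trace_comp_comm']

theorem s1_sum (A : C2 →L[ℝ] C2) (b : OrthonormalBasis (Fin 4) ℝ C2) :
    s1 A = ∑ i, inner ℝ (b i) (A (b i)) := by
  unfold s1
  rw [LinearMap.trace_eq_sum_inner _ b]
  rfl

theorem s1_smulRight (φ : C2 →L[ℝ] ℝ) (x : C2) : s1 (φ.smulRight x) = φ x := by
  unfold s1
  have : ((φ.smulRight x : C2 →L[ℝ] C2) : C2 →ₗ[ℝ] C2) = (φ : C2 →ₗ[ℝ] ℝ).smulRight x := rfl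
  rw [this, LinearMap.trace_smulRight]
  rfl

/-- the trace of a skew map composed with a symmetric one vanishes -/
theorem s1_skew_symm (u : C2 ≃ₗᵢ[ℝ] C2) (hu : ∀ x, u (u x) = -x) (S : C2 →L[ℝ] C2)
    (hS : ∀ a b, (inner ℝ (S a) b : ℝ) = inner ℝ a (S b)) :
    s1 ((u : C2 →L[ℝ] C2) ∘L S) = 0 := by
  let b : OrthonormalBasis (Fin 4) ℝ C2 := EuclideanSpace.basisFun (Fin 4) ℝ
  have h1 : s1 ((u : C2 →L[ℝ] C2) ∘L S) = -s1 (S ∘L (u : C2 →L[ℝ] C2)) := by
    rw [s1_sum _ b, s1_sum _ b, ← Finset.sum_neg_distrib]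
    refine Finset.sum_congr rfl fun i _ => ?_
    show (inner ℝ (b i) (u (S (b i))) : ℝ) = -inner ℝ (b i) (S (u (b i)))
    rw [← hS, ← neg_eq_iff_eq_neg, ← skew u hu, real_inner_comm]
  have h2 := s1_comm S (u : C2 →L[ℝ] C2)
  linarith

theorem s1_u (u : C2 ≃ₗᵢ[ℝ] C2) (hu : ∀ x, u (u x) = -x) : s1 (u : C2 →L[ℝ] C2) = 0 := by
  have := s1_skew_symm u hu (ContinuousLinearMap.id ℝ C2) (fun a b => rfl)
  rwa [ContinuousLinearMap.comp_id] at this

theorem isOpen_pt : IsOpen ({0}ᶜ : Set C2) := isOpen_compl_singleton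

variable {h : C2 → ℝ}

theorem hasFDerivAt_h (hs : SmoothSupp h) {w : C2} (hw : w ≠ 0) :
    HasFDerivAt h (innerSL ℝ (gradient h w)) w := (hs.hasGradientAt hw).hasFDerivAt

/-- the function `q(w) = ⟨X(w), u w⟩` -/
noncomputable def q (h : C2 → ℝ) (u : C2 ≃ₗᵢ[ℝ] C2) (w : C2) : ℝ :=
  inner ℝ (gradient h w) (u w)

theorem exists_hasFDerivAt_q (hs : SmoothSupp h) (u : C2 ≃ₗᵢ[ℝ] C2) {w : C2} (hw : w ≠ 0) :
    ∃ D : C2 →L[ℝ] ℝ, HasFDerivAt (q h u) D w ∧ ∀ v, D v =
      inner ℝ (gradient h w) (u v) + inner ℝ (hess h w v) (u w) := by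
  have h1 := (hs.hasFDerivAt_gradient hw).inner ℝ (u : C2 →L[ℝ] C2).hasFDerivAt
  refine ⟨_, h1, fun v => ?_⟩
  simp only [ContinuousLinearMap.comp_apply, ContinuousLinearMap.prod_apply,
    fderivInnerCLM_apply]
  rfl

theorem q_smul (hs : SmoothSupp h) (u : C2 ≃ₗᵢ[ℝ] C2) (c : ℝ) (w : C2) (hc : 0 < c)
    (hw : w ≠ 0) : q h u (c • w) = c * q h u w := by
  unfold q
  rw [hs.gradient_smul c hc w hw, map_smul, inner_smul_right]

theorem q_contDiffOn (hs : SmoothSupp h) (u : C2 ≃ₗᵢ[ℝ] C2) : ContDiffOn ℝ 1 (q h u) {0}ᶜ := by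
  have h1 : ContDiffOn ℝ 1 (gradient h) {0}ᶜ := hs.gradient_contDiffOn.of_le (by norm_num)
  exact h1.inner ℝ (u : C2 →L[ℝ] C2).contDiff.contDiffOn

theorem q_continuousOn (hs : SmoothSupp h) (u : C2 ≃ₗᵢ[ℝ] C2) :
    ContinuousOn (q h u) {0}ᶜ := (q_contDiffOn hs u).continuousOn

theorem h_continuousOn (hs : SmoothSupp h) : ContinuousOn h {0}ᶜ := hs.smooth.continuousOn

end IbpAux

open IbpAux

theorem sph_MU {h : C2 → ℝ} (hs : SmoothSupp h) (u : C2 ≃ₗᵢ[ℝ] C2) (hu : ∀ x, u (u x) = -x) :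
    Sph (fun n => h n * inner ℝ (hess h n (u n)) (u n)) =
      Sph (fun n => h n ^ 2 - inner ℝ (gradient h n) (u n) ^ 2) := by
  have hV : ContDiffOn ℝ 1 (fun w => (h w * q h u w) • u w) {0}ᶜ := by
    have h1 : ContDiffOn ℝ 1 h {0}ᶜ := hs.smooth.of_le (by norm_num)
    exact (h1.mul (q_contDiffOn hs u)).smul (u : C2 →L[ℝ] C2).contDiff.contDiffOn
  have hk : ∀ (c : ℝ) (w : C2), 0 < c → w ≠ 0 →
      (fun w => (h w * q h u w) • u w) (c • w) = c ^ (3 : ℤ) • (fun w => (h w * q h u w) • u w) w := by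
    intro c w hc hw
    show (h (c • w) * q h u (c • w)) • u (c • w) = c ^ (3 : ℤ) • ((h w * q h u w) • u w)
    rw [hs.homog c w hc, q_smul hs u c w hc hw, map_smul, smul_smul, smul_smul]
    congr 1
    have : c ^ (3 : ℤ) = c * c * c := by
      rw [show (3 : ℤ) = ((3 : ℕ) : ℤ) by rfl, zpow_natCast]
      ring
    rw [this]
    ring
  have e := sph_div _ hV 3 hk
  have e0 : Sph (fun n => inner ℝ ((fun w => (h w * q h u w) • u w) n) n) = 0 := by
    have : Sph (fun n => inner ℝ ((fun w => (h w * q h u w) • u w) n) n) =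
        Sph (fun _ => (0 : ℝ)) := by
      refine sph_congr _ _ fun n _ => ?_
      show (inner ℝ ((h n * q h u n) • u n) n : ℝ) = 0
      rw [inner_smul_left, self u hu, mul_zero]
    rw [this]
    simp [Sph]
  rw [e0, mul_zero] at e
  have key : ∀ w : C2, w ≠ 0 → s1 (fderiv ℝ (fun w => (h w * q h u w) • u w) w) =
      h w * inner ℝ (hess h w (u w)) (u w) - (h w ^ 2 - inner ℝ (gradient h w) (u w) ^ 2) := by
    intro w hw
    obtain ⟨D, hD, hD'⟩ := exists_hasFDerivAt_q hs u hw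
    have h1 := ((hasFDerivAt_h hs hw).mul hD).smul (u : C2 →L[ℝ] C2).hasFDerivAt (x := w)
    have h2 : fderiv ℝ (fun w => (h w * q h u w) • u w) w = _ := h1.fderiv
    rw [h2, s1_add, s1_smul, s1_u u hu, s1_smulRight, mul_zero, zero_add]
    show h w * D (u w) + q h u w * inner ℝ (gradient h w) (u w) = _
    rw [hD', hu, inner_neg_right, hs.gradient_inner hw]
    unfold q
    ring
  have f1 : ContinuousOn (fun n => h n * inner ℝ (hess h n (u n)) (u n)) {0}ᶜ :=
    (h_continuousOn hs).mul (((hess_continuousOn hs).clm_apply u.continuous.continuousOn).inner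
      u.continuous.continuousOn)
  have f2 : ContinuousOn (fun n => h n ^ 2 - inner ℝ (gradient h n) (u n) ^ 2) {0}ᶜ :=
    ((h_continuousOn hs).pow 2).sub ((q_continuousOn hs u).pow 2)
  have e3 := sph_sub _ _ f1 f2
  have e4 : Sph (fun n => h n * inner ℝ (hess h n (u n)) (u n) -
      (h n ^ 2 - inner ℝ (gradient h n) (u n) ^ 2)) = 0 := by
    rw [← e]
    refine sph_congr _ _ fun n hn => ?_
    have hn0 : n ≠ 0 := by
      rintro rfl
      simp at hn
    exact (key n hn0).symm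
  linarith

theorem sph_GU {h : C2 → ℝ} (hs : SmoothSupp h) (u : C2 ≃ₗᵢ[ℝ] C2) (hu : ∀ x, u (u x) = -x) :
    Sph (fun n => inner ℝ (TH h n (u n)) (u n)) =
      Sph (fun n => ‖gradient h n‖ ^ 2 - 4 * inner ℝ (gradient h n) (u n) ^ 2) := by
  have hXc : ContDiffOn ℝ 1 (gradient h) {0}ᶜ := hs.gradient_contDiffOn.of_le (by norm_num)
  have hUXc : ContDiffOn ℝ 1 (fun w => u (gradient h w)) {0}ᶜ :=
    (u : C2 →L[ℝ] C2).contDiff.comp_contDiffOn hXc
  -- the first field
  have hV : ContDiffOn ℝ 1 (fun w => u (hess h w (u (gradient h w)))) {0}ᶜ :=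
    (u : C2 →L[ℝ] C2).contDiff.comp_contDiffOn (hs.hess_contDiffOn.clm_apply hUXc)
  have hk : ∀ (c : ℝ) (w : C2), 0 < c → w ≠ 0 →
      (fun w => u (hess h w (u (gradient h w)))) (c • w) =
        c ^ (-1 : ℤ) • (fun w => u (hess h w (u (gradient h w)))) w := by
    intro c w hc hw
    show u (hess h (c • w) (u (gradient h (c • w)))) = c ^ (-1 : ℤ) • u (hess h w (u (gradient h w)))
    rw [hs.gradient_smul c hc w hw, hs.hess_smul c hc w hw, smul_apply,
      map_smul, zpow_neg_one]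
  have e := sph_div _ hV (-1) hk
  have key : ∀ w : C2, w ≠ 0 → s1 (fderiv ℝ (fun w => u (hess h w (u (gradient h w)))) w) =
      s1 (hess h w ∘L (u : C2 →L[ℝ] C2) ∘L hess h w ∘L (u : C2 →L[ℝ] C2)) := by
    intro w hw
    have hd : DifferentiableAt ℝ (hess h) w :=
      (hs.hess_contDiffOn.contDiffAt (isOpen_pt.mem_nhds hw)).differentiableAt (by norm_num)
    have hM := hd.hasFDerivAt
    have hX := hs.hasFDerivAt_gradient hw
    have hUX : HasFDerivAt (fun w => u (gradient h w)) ((u : C2 →L[ℝ] C2) ∘L hess h w) w :=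
      (u : C2 →L[ℝ] C2).hasFDerivAt.comp w hX
    have h1 := (u : C2 →L[ℝ] C2).hasFDerivAt.comp w (hM.clm_apply hUX)
    have h2 : fderiv ℝ (fun w => u (hess h w (u (gradient h w)))) w = _ := h1.fderiv
    have hsym : ∀ a b, fderiv ℝ (hess h) w a b = fderiv ℝ (hess h) w b a := by
      have h3 : ContDiffAt ℝ 2 (gradient h) w :=
        hs.gradient_contDiffOn.contDiffAt (isOpen_pt.mem_nhds hw)
      exact h3.isSymmSndFDerivAt (by simp)
    have hflip : (fderiv ℝ (hess h) w).flip (u (gradient h w)) =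
        fderiv ℝ (hess h) w (u (gradient h w)) := by
      ext1 v
      rw [ContinuousLinearMap.flip_apply, hsym]
    have hself : ∀ y a b : C2, (inner ℝ (fderiv ℝ (hess h) w y a) b : ℝ) =
        inner ℝ a (fderiv ℝ (hess h) w y b) := by
      intro y a b
      have g1 : HasFDerivAt (fun x => (inner ℝ (hess h x a) b : ℝ)) _ w :=
        ((hM.clm_apply (hasFDerivAt_const a w)).inner ℝ (hasFDerivAt_const b w))
      have g2 : HasFDerivAt (fun x => (inner ℝ a (hess h x b) : ℝ)) _ w :=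
        ((hasFDerivAt_const a w).inner ℝ (hM.clm_apply (hasFDerivAt_const b w)))
      have g3 : (fun x => (inner ℝ (hess h x a) b : ℝ)) =ᶠ[nhds w]
          fun x => (inner ℝ a (hess h x b) : ℝ) := by
        filter_upwards [isOpen_pt.mem_nhds hw] with x hx
        exact hs.hess_symm hx a b
      have g4 := (g2.congr_of_eventuallyEq g3).unique g1
      have g5 := congrArg (fun L : C2 →L[ℝ] ℝ => L y) g4
      simp only [ContinuousLinearMap.comp_apply, ContinuousLinearMap.prod_apply,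
        fderivInnerCLM_apply, add_apply, ContinuousLinearMap.flip_apply,
        zero_apply, map_zero, inner_zero_left, inner_zero_right, zero_add,
        add_zero] at g5
      exact g5.symm
    rw [h2, hflip, ContinuousLinearMap.comp_add, s1_add, s1_skew_symm u hu _ (hself _), add_zero,
      ← s1_comm]
    rfl
  -- the second field
  have hV2 : ContDiffOn ℝ 1 (fun w => q h u w • u (gradient h w)) {0}ᶜ :=
    (q_contDiffOn hs u).smul hUXc
  have hk2 : ∀ (c : ℝ) (w : C2), 0 < c → w ≠ 0 →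
      (fun w => q h u w • u (gradient h w)) (c • w) =
        c ^ (1 : ℤ) • (fun w => q h u w • u (gradient h w)) w := by
    intro c w hc hw
    show q h u (c • w) • u (gradient h (c • w)) = c ^ (1 : ℤ) • (q h u w • u (gradient h w))
    rw [q_smul hs u c w hc hw, hs.gradient_smul c hc w hw, zpow_one, smul_smul]
  have e2 := sph_div _ hV2 1 hk2
  have key2 : ∀ w : C2, w ≠ 0 → s1 (fderiv ℝ (fun w => q h u w • u (gradient h w)) w) =
      inner ℝ (hess h w (u (gradient h w))) (u w) - ‖gradient h w‖ ^ 2 := by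
    intro w hw
    obtain ⟨D, hD, hD'⟩ := exists_hasFDerivAt_q hs u hw
    have hX := hs.hasFDerivAt_gradient hw
    have hUX : HasFDerivAt (fun w => u (gradient h w)) ((u : C2 →L[ℝ] C2) ∘L hess h w) w :=
      (u : C2 →L[ℝ] C2).hasFDerivAt.comp w hX
    have h1 := hD.smul hUX
    have h2 : fderiv ℝ (fun w => q h u w • u (gradient h w)) w = _ := h1.fderiv
    rw [h2, s1_add, s1_smul, s1_skew_symm u hu _ (hs.hess_symm hw), s1_smulRight, mul_zero,
      zero_add, hD', hu, inner_neg_right, real_inner_self_eq_norm_sq]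
    ring
  -- continuity
  have cX : ContinuousOn (gradient h) {0}ᶜ := gradient_continuousOn hs
  have cUX : ContinuousOn (fun w => u (gradient h w)) {0}ᶜ := u.continuous.comp_continuousOn cX
  have f1 : ContinuousOn (fun n => (inner ℝ (hess h n (u (gradient h n))) (u n) : ℝ)) {0}ᶜ :=
    ((hess_continuousOn hs).clm_apply cUX).inner u.continuous.continuousOn
  have f2 : ContinuousOn (fun n => ‖gradient h n‖ ^ 2) {0}ᶜ := cX.norm.pow 2
  have f3 : ContinuousOn (fun n => 4 * q h u n ^ 2) {0}ᶜ :=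
    continuousOn_const.mul ((q_continuousOn hs u).pow 2)
  have hne : ∀ n : C2, ‖n‖ = 1 → n ≠ 0 := by
    intro n hn
    rintro rfl
    simp at hn
  -- the integral of the first field
  have a1 : Sph (fun n => inner ℝ (TH h n (u n)) (u n)) =
      -(1 / 2) * Sph (fun n => s1 (fderiv ℝ (fun w => u (hess h w (u (gradient h w)))) n)) := by
    rw [← sph_smul]
    refine sph_congr _ _ fun n hn => ?_
    show (inner ℝ (NT (hess h n) (u n)) (u n) : ℝ) = _
    rw [NT_ocs (hs.pk (hne n hn)) u hu, key n (hne n hn), hn]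
    ring
  have a2 : Sph (fun n => inner ℝ ((fun w => u (hess h w (u (gradient h w)))) n) n) =
      -1 * Sph (fun n => (inner ℝ (hess h n (u (gradient h n))) (u n) : ℝ)) := by
    rw [← sph_smul]
    refine sph_congr _ _ fun n _ => ?_
    show (inner ℝ (u (hess h n (u (gradient h n)))) n : ℝ) = _
    rw [skew u hu]
    ring
  have a3 : Sph (fun n => inner ℝ ((fun w => q h u w • u (gradient h w)) n) n) =
      -(1 / 4) * Sph (fun n => 4 * q h u n ^ 2) := by
    rw [← sph_smul]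
    refine sph_congr _ _ fun n _ => ?_
    show (inner ℝ (q h u n • u (gradient h n)) n : ℝ) = _
    rw [inner_smul_left, skew u hu]
    unfold q
    simp only [conj_trivial]
    ring
  have a4 : Sph (fun n => s1 (fderiv ℝ (fun w => q h u w • u (gradient h w)) n)) =
      Sph (fun n => (inner ℝ (hess h n (u (gradient h n))) (u n) : ℝ)) -
        Sph (fun n => ‖gradient h n‖ ^ 2) := by
    rw [← sph_sub _ _ f1 f2]
    exact sph_congr _ _ fun n hn => key2 n (hne n hn)
  have a5 : Sph (fun n => ‖gradient h n‖ ^ 2 - 4 * inner ℝ (gradient h n) (u n) ^ 2) =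
      Sph (fun n => ‖gradient h n‖ ^ 2) - Sph (fun n => 4 * q h u n ^ 2) :=
    sph_sub _ _ f2 f3
  rw [a2] at e
  rw [a3] at e2
  rw [a4] at e2
  rw [a1, a5, e]
  push_cast at *
  linarith

end Pool.Agent.HVM
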