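import Pool.Agent.HVM.Pert3
import Pool.Agent.HVM.Ibp
import Pool.Agent.Helper85.Cap.I1a

/-! # The perturbation by `|w|^(1-k) Re (w0 + i w1)^k` (module HARM) -/

set_option autoImplicit false

namespace Pool.Agent.HVM

open MeasureTheory Metric Set
open Pool.Agent.Helper85.Herm Pool.Agent.Helper85.Cap

/-- first complex coordinate -/
noncomputable def zc (w : C2) : ℂ := ⟨w 0, w 1⟩

noncomputable def psi (k : ℕ) (w : C2) : ℝ := ‖w‖ ^ (1 - (k : ℤ)) * (zc w ^ k).re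

noncomputable def psj (k : ℕ) (w : C2) : ℝ := ‖w‖ ^ (1 - (k : ℤ)) * (zc w ^ k).im

namespace HarmAux

/-- `zc` as a continuous linear map -/
noncomputable def zL : C2 →L[ℝ] ℂ := LinearMap.toContinuousLinearMap
  { toFun := zc
    map_add' := fun x y => by
      apply Complex.ext <;> simp [zc]
    map_smul' := fun c x => by
      apply Complex.ext <;> simp [zc] }

theorem zL_apply (w : C2) : zL w = zc w := rfl

/-- the adjoint of `zc` -/
noncomputable def gL : ℂ →L[ℝ] C2 := LinearMap.toContinuousLinearMap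
  { toFun := fun c => WithLp.toLp 2 ![c.re, -c.im, 0, 0]
    map_add' := fun x y => by
      ext i
      fin_cases i <;> simp <;> ring
    map_smul' := fun c x => by
      ext i
      fin_cases i <;> simp }

theorem gL_inner (c : ℂ) (v : C2) : inner ℝ (gL c) v = (c * zc v).re := by
  have : gL c = WithLp.toLp 2 ![c.re, -c.im, 0, 0] := rfl
  rw [this]
  simp [PiLp.inner_apply, Fin.sum_univ_four, zc, Complex.mul_re]
  ring

theorem zc_smul (c : ℝ) (w : C2) : zc (c • w) = (c : ℂ) * zc w := by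
  apply Complex.ext <;> simp [zc]

theorem zc_J (w : C2) : zc (J w) = Complex.I * zc w := by
  apply Complex.ext <;> simp [zc, J]

theorem s1_gz (a : ℂ) : s1 (gL ∘L (a • zL)) = 0 := by
  rw [IbpAux.s1_sum _ (EuclideanSpace.basisFun (Fin 4) ℝ)]
  have h : ∀ v : C2, (inner ℝ v ((gL ∘L (a • zL)) v) : ℝ) = (a * zc v * zc v).re := by
    intro v
    rw [real_inner_comm]
    show inner ℝ (gL (a * zc v)) v = _
    rw [gL_inner]
  simp only [h]
  simp [Fin.sum_univ_four, zc, Complex.mul_re, Complex.mul_im]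

/-- the general function `|w|^(-m) Re (c z^(m+1))` -/
noncomputable def ps (c : ℂ) (m : ℕ) (w : C2) : ℝ :=
  ‖w‖ ^ (-(m : ℤ)) * (c * zc w ^ (m + 1)).re

theorem nrm_fderiv (x : C2) (hx : x ≠ 0) :
    HasFDerivAt (fun w : C2 => ‖w‖) (‖x‖⁻¹ • innerSL ℝ x) x := by
  have h1 := (hasStrictFDerivAt_norm_sq x).hasFDerivAt
  have h2 := h1.sqrt (pow_ne_zero 2 (norm_ne_zero_iff.2 hx))
  have h3 : (fun y : C2 => √(‖y‖ ^ 2)) = fun y => ‖y‖ := by
    funext y
    exact Real.sqrt_sq (norm_nonneg y)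
  rw [h3, Real.sqrt_sq (norm_nonneg x)] at h2
  have h4 : (1 / (2 * ‖x‖)) • (2 • innerSL ℝ x) = ‖x‖⁻¹ • innerSL ℝ x := by
    ext v
    have hx' : ‖x‖ ≠ 0 := norm_ne_zero_iff.2 hx
    simp only [smul_apply, smul_eq_mul, nsmul_eq_mul]
    push_cast
    field_simp
  rw [h4] at h2
  exact h2

theorem nrm_zpow (j : ℤ) (x : C2) (hx : x ≠ 0) :
    HasFDerivAt (fun w : C2 => ‖w‖ ^ j) (((j : ℝ) * ‖x‖ ^ (j - 1)) • (‖x‖⁻¹ • innerSL ℝ x)) x :=
  (hasDerivAt_zpow j ‖x‖ (Or.inl (norm_ne_zero_iff.2 hx))).comp_hasFDerivAt x (nrm_fderiv x hx)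

theorem zpw (m : ℕ) (x : C2) :
    HasFDerivAt (fun w : C2 => zc w ^ m) (((m : ℂ) * zc x ^ (m - 1)) • zL) x := by
  have h := (zL.hasFDerivAt (x := x)).pow m
  have h2 : (fun w : C2 => zL w ^ m) = fun w => zc w ^ m := rfl
  rw [h2] at h
  refine h.congr_fderiv (ContinuousLinearMap.ext fun v => ?_)
  simp [zL_apply]

theorem czpw (c : ℂ) (m : ℕ) (x : C2) :
    HasFDerivAt (fun w : C2 => (c * zc w ^ m).re)
      (innerSL ℝ (gL (c * ((m : ℂ) * zc x ^ (m - 1))))) x := by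
  have h := (zpw m x).const_mul c
  have h2 := Complex.reCLM.hasFDerivAt.comp x h
  refine HasFDerivAt.congr_fderiv h2 (ContinuousLinearMap.ext fun v => ?_)
  rw [innerSL_apply_apply, gL_inner]
  simp only [ContinuousLinearMap.comp_apply, ContinuousLinearMap.smul_apply, zL_apply,
    Complex.reCLM_apply, smul_eq_mul]
  ring_nf

/-- the gradient of `ps` -/
noncomputable def gps (c : ℂ) (m : ℕ) (w : C2) : C2 :=
  (-(m : ℝ) * ‖w‖ ^ (-(m : ℤ) - 2) * (c * zc w ^ (m + 1)).re) • w +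
    ‖w‖ ^ (-(m : ℤ)) • gL (c * (((m + 1 : ℕ) : ℂ) * zc w ^ m))

theorem ps_hasGradientAt (c : ℂ) (m : ℕ) {x : C2} (hx : x ≠ 0) :
    HasGradientAt (ps c m) (gps c m x) x := by
  rw [hasGradientAt_iff_hasFDerivAt]
  have h := (nrm_zpow (-(m : ℤ)) x hx).mul (czpw c (m + 1) x)
  have hn : ‖x‖ ≠ 0 := norm_ne_zero_iff.2 hx
  refine HasFDerivAt.congr_fderiv h (ContinuousLinearMap.ext fun v => ?_)
  have e1 : ‖x‖ ^ (-(m : ℤ) - 1) * ‖x‖⁻¹ = ‖x‖ ^ (-(m : ℤ) - 2) := by
    rw [← zpow_neg_one, ← zpow_add₀ hn]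
    congr 1
    ring
  have e2 : (InnerProductSpace.toDual ℝ C2) (gps c m x) v = inner ℝ (gps c m x) v := rfl
  rw [e2]
  simp only [gps, inner_add_left, inner_smul_left, add_apply, smul_apply, smul_eq_mul,
    innerSL_apply_apply, conj_trivial, Nat.add_sub_cancel, Int.cast_neg, Int.cast_natCast]
  rw [← e1]
  ring

theorem ps_gradient (c : ℂ) (m : ℕ) {x : C2} (hx : x ≠ 0) :
    gradient (ps c m) x = gps c m x := (ps_hasGradientAt c m hx).gradient

theorem norm_ne {n : C2} (hn : ‖n‖ = 1) : n ≠ 0 := by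
  intro h
  rw [h, norm_zero] at hn
  exact zero_ne_one hn

theorem inner_J_self (w : C2) : (inner ℝ w (J w) : ℝ) = 0 := by
  have h := IbpAux.self JL (fun x => J_J x) w
  rw [real_inner_comm]
  exact h

theorem inner_self_eq (w : C2) : (inner ℝ w w : ℝ) = ‖w‖ ^ 2 := real_inner_self_eq_norm_sq w

theorem ps_xi (c : ℂ) (m : ℕ) {w : C2} (hw : w ≠ 0) :
    inner ℝ (gradient (ps c m) w) (J w) = ((m : ℝ) + 1) * ps (c * Complex.I) m w := by
  rw [ps_gradient c m hw]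
  simp only [gps, inner_add_left, inner_smul_left, inner_J_self, gL_inner, zc_J, ps,
    conj_trivial]
  have : c * (((m + 1 : ℕ) : ℂ) * zc w ^ m) * (Complex.I * zc w) =
      (((m : ℝ) + 1 : ℝ) : ℂ) * (c * Complex.I * zc w ^ (m + 1)) := by
    push_cast
    ring
  rw [this, Complex.re_ofReal_mul]
  ring

theorem ps_laplace (c : ℂ) (m : ℕ) {n : C2} (hn : ‖n‖ = 1) :
    s1 (hess (ps c m) n) = -((m : ℝ) * ((m : ℝ) + 4)) * ps c m n := by
  have hn0 := norm_ne hn
  have h1 : gradient (ps c m) =ᶠ[nhds n] gps c m := by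
    filter_upwards [isOpen_compl_singleton.mem_nhds hn0] with x hx
    exact ps_gradient c m hx
  unfold hess
  rw [h1.fderiv_eq]
  have hf : HasFDerivAt (fun w : C2 => -(m : ℝ) * ‖w‖ ^ (-(m : ℤ) - 2) * (c * zc w ^ (m + 1)).re)
      _ n := ((nrm_zpow (-(m : ℤ) - 2) n hn0).const_mul (-(m : ℝ))).mul (czpw c (m + 1) n)
  have h2 := hf.smul (hasFDerivAt_id n)
  have h3 : HasFDerivAt (fun w : C2 => gL (c * (((m + 1 : ℕ) : ℂ) * zc w ^ m)))
      (gL ∘L ((c * (((m + 1 : ℕ) : ℂ) * ((m : ℂ) * zc n ^ (m - 1)))) • zL)) n := by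
    have h4 := ((zpw m n).const_mul ((m + 1 : ℕ) : ℂ)).const_mul c
    have h5 := gL.hasFDerivAt.comp n h4
    refine HasFDerivAt.congr_fderiv h5 (ContinuousLinearMap.ext fun v => ?_)
    simp only [ContinuousLinearMap.comp_apply, ContinuousLinearMap.smul_apply, smul_eq_mul]
    congr 1
    ring
  have h6 := (nrm_zpow (-(m : ℤ)) n hn0).smul h3
  have h7 := h2.add h6
  have h8 : gps c m = (fun w : C2 => (-(m : ℝ) * ‖w‖ ^ (-(m : ℤ) - 2) * (c * zc w ^ (m + 1)).re) • w)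
      + fun w => ‖w‖ ^ (-(m : ℤ)) • gL (c * (((m + 1 : ℕ) : ℂ) * zc w ^ m)) := rfl
  have h9 : HasFDerivAt (gps c m) _ n := h7
  rw [h9.fderiv]
  simp only [IbpAux.s1_add, IbpAux.s1_smul, IbpAux.s1_smulRight, s1_gz]
  have h10 : s1 (ContinuousLinearMap.id ℝ C2) = 4 := by
    unfold s1
    have : ((ContinuousLinearMap.id ℝ C2 : C2 →L[ℝ] C2) : C2 →ₗ[ℝ] C2) = LinearMap.id := rfl
    rw [this, LinearMap.trace_id]
    simp
  rw [h10]
  simp only [add_apply, smul_apply, smul_eq_mul, innerSL_apply_apply, id_eq, hn,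
    one_zpow, inv_one, one_mul, mul_one, gL_inner, inner_self_eq, ps, Nat.add_sub_cancel]
  rw [real_inner_comm, gL_inner]
  have e : (c * (((m + 1 : ℕ) : ℂ) * zc n ^ m) * zc n).re =
      ((m : ℝ) + 1) * (c * zc n ^ (m + 1)).re := by
    have : c * (((m + 1 : ℕ) : ℂ) * zc n ^ m) * zc n =
      (((m : ℝ) + 1 : ℝ) : ℂ) * (c * zc n ^ (m + 1)) := by
      push_cast
      ring
    rw [this, Complex.re_ofReal_mul]
  rw [e]
  push_cast
  ring

theorem ps_smooth (c : ℂ) (m : ℕ) : ContDiffOn ℝ 3 (ps c m) {0}ᶜ := by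
  intro x hx
  have hx0 : x ≠ 0 := hx
  have h1 : ContDiffAt ℝ 3 (fun w : C2 => (‖w‖ ^ m)⁻¹) x :=
    ((contDiffAt_norm ℝ hx0).pow m).inv (pow_ne_zero m (norm_ne_zero_iff.2 hx0))
  have h2 : ContDiffAt ℝ 3 (fun w : C2 => (c * zL w ^ (m + 1)).re) x :=
    (Complex.reCLM.contDiff.comp (contDiff_const.mul (zL.contDiff.pow (m + 1)))).contDiffAt
  have h3 : ps c m = fun w => (‖w‖ ^ m)⁻¹ * (c * zL w ^ (m + 1)).re := by
    funext w
    simp only [ps, zpow_neg, zpow_natCast, zL_apply]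
  rw [h3]
  exact (h1.mul h2).contDiffWithinAt

theorem ps_pert (c : ℂ) (m : ℕ) : Pert (ps c m) := by
  refine ⟨ps_smooth c m, ?_⟩
  intro r w hr
  unfold ps
  rw [norm_smul, Real.norm_of_nonneg hr.le, zc_smul, mul_zpow, mul_pow]
  have : c * ((r : ℂ) ^ (m + 1) * zc w ^ (m + 1)) =
      ((r ^ (m + 1) : ℝ) : ℂ) * (c * zc w ^ (m + 1)) := by
    push_cast
    ring
  have e : r ^ (-(m : ℤ)) * r ^ (m + 1) = r := by
    rw [zpow_neg, zpow_natCast, pow_succ, ← mul_assoc, inv_mul_cancel₀ (pow_ne_zero m hr.ne'), one_mul]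
  rw [this, Complex.re_ofReal_mul]
  calc r ^ (-(m : ℤ)) * ‖w‖ ^ (-(m : ℤ)) * (r ^ (m + 1) * (c * zc w ^ (m + 1)).re)
      = (r ^ (-(m : ℤ)) * r ^ (m + 1)) * (‖w‖ ^ (-(m : ℤ)) * (c * zc w ^ (m + 1)).re) := by ring
    _ = _ := by rw [e]

theorem psi_eq (m : ℕ) : psi (m + 1) = ps 1 m := by
  funext w
  unfold psi ps
  congr 1
  · congr 1
    push_cast
    ring
  · rw [one_mul]

theorem psj_eq (m : ℕ) : psj (m + 1) = ps (-Complex.I) m := by
  funext w
  unfold psj ps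
  congr 1
  · congr 1
    push_cast
    ring
  · simp

theorem ps_cont (c : ℂ) (m : ℕ) : ContinuousOn (ps c m) {0}ᶜ := (ps_smooth c m).continuousOn

end HarmAux

open HarmAux

theorem psi_pert (k : ℕ) (hk : 1 ≤ k) : Pert (psi k) := by
  obtain ⟨m, rfl⟩ : ∃ m, k = m + 1 := ⟨k - 1, by omega⟩
  rw [psi_eq]
  exact ps_pert _ _

theorem psj_pert (k : ℕ) (hk : 1 ≤ k) : Pert (psj k) := by
  obtain ⟨m, rfl⟩ : ∃ m, k = m + 1 := ⟨k - 1, by omega⟩
  rw [psj_eq]
  exact ps_pert _ _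

theorem psi_xi (k : ℕ) (hk : 1 ≤ k) {w : C2} (hw : w ≠ 0) :
    inner ℝ (gradient (psi k) w) (J w) = -(k : ℝ) * psj k w := by
  obtain ⟨m, rfl⟩ : ∃ m, k = m + 1 := ⟨k - 1, by omega⟩
  rw [psi_eq, psj_eq, ps_xi 1 m hw]
  unfold ps
  simp
  ring

theorem psj_xi (k : ℕ) (hk : 1 ≤ k) {w : C2} (hw : w ≠ 0) :
    inner ℝ (gradient (psj k) w) (J w) = (k : ℝ) * psi k w := by
  obtain ⟨m, rfl⟩ : ∃ m, k = m + 1 := ⟨k - 1, by omega⟩
  rw [psi_eq, psj_eq, ps_xi (-Complex.I) m hw]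
  have : -Complex.I * Complex.I = 1 := by simp
  rw [this]
  push_cast
  ring

theorem psi_laplace (k : ℕ) (hk : 1 ≤ k) {n : C2} (hn : ‖n‖ = 1) :
    s1 (hess (psi k) n) = (3 - 2 * (k : ℝ) - (k : ℝ) ^ 2) * psi k n := by
  obtain ⟨m, rfl⟩ : ∃ m, k = m + 1 := ⟨k - 1, by omega⟩
  rw [psi_eq, ps_laplace 1 m hn]
  push_cast
  ring

/-- divergence of `f • J w` -/
theorem harm_div {f : C2 → ℝ} (hf : ContDiffOn ℝ 1 f {0}ᶜ) (d : ℤ)
    (hd : ∀ (c : ℝ) (w : C2), 0 < c → w ≠ 0 → f (c • w) = c ^ d * f w) :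
    Sph (fun n => inner ℝ (gradient f n) (J n)) = 0 := by
  have hV : ContDiffOn ℝ 1 (fun w => f w • (JL w : C2)) {0}ᶜ :=
    hf.smul JL.contDiff.contDiffOn
  have h := sph_div (fun w => f w • (JL w : C2)) hV (d + 1) (by
    intro c w hc hw
    rw [hd c w hc hw, map_smul, smul_smul, smul_smul, zpow_add₀ hc.ne', zpow_one]
    congr 1
    ring)
  have h2 : Sph (fun n => inner ℝ (f n • (JL n : C2)) n) = 0 := by
    have : Sph (fun n => inner ℝ (f n • (JL n : C2)) n) = Sph (fun _ => 0) := by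
      apply sph_congr
      intro n _
      rw [inner_smul_left, IbpAux.self JL (fun x => J_J x) n, mul_zero]
    rw [this]
    simp [Sph]
  rw [h2, mul_zero] at h
  rw [← h]
  apply sph_congr
  intro n hn
  have hn0 := HarmAux.norm_ne hn
  have hfd : DifferentiableAt ℝ f n :=
    (hf.contDiffAt (isOpen_compl_singleton.mem_nhds hn0)).differentiableAt (by simp)
  have hJ : HasFDerivAt (fun w => (JL w : C2)) (JL : C2 →L[ℝ] C2) n :=
    (JL : C2 →L[ℝ] C2).hasFDerivAt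
  have h3 := hfd.hasFDerivAt.smul hJ
  have h4 : HasFDerivAt (fun w => f w • (JL w : C2)) _ n := h3
  rw [h4.fderiv, IbpAux.s1_add, IbpAux.s1_smul, IbpAux.s1_smulRight,
    IbpAux.s1_u JL (fun x => J_J x), mul_zero, zero_add]
  have h5 : fderiv ℝ f n (JL n) = inner ℝ (gradient f n) (JL n) := by
    have := calc_fderiv (h := f) n (JL n)
    exact this
  rw [h5]
  rfl

theorem psi_mean (k : ℕ) (hk : 1 ≤ k) : Sph (psi k) = 0 := by
  have hp := psj_pert k hk
  have h := harm_div (f := psj k) (hp.smooth.of_le (by norm_num)) 1 (by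
    intro c w hc _
    rw [hp.homog c w hc, zpow_one])
  have h2 : Sph (fun n => inner ℝ (gradient (psj k) n) (J n)) = Sph (fun n => (k : ℝ) * psi k n) :=
    sph_congr _ _ fun n hn => psj_xi k hk (HarmAux.norm_ne hn)
  rw [h2, sph_smul] at h
  have hk0 : (k : ℝ) ≠ 0 := by
    have : k ≠ 0 := by omega
    exact_mod_cast this
  exact (mul_eq_zero.1 h).resolve_left hk0

theorem psi_sq_eq (k : ℕ) (hk : 1 ≤ k) :
    Sph (fun n => psi k n ^ 2) = Sph (fun n => psj k n ^ 2) := by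
  have hp := psi_pert k hk
  have hq := psj_pert k hk
  have h := harm_div (f := fun w => psi k w * psj k w)
    ((hp.smooth.mul hq.smooth).of_le (by norm_num)) 2 (by
    intro c w hc _
    rw [hp.homog c w hc, hq.homog c w hc]
    have : c ^ (2 : ℤ) = c * c := by
      rw [show (2 : ℤ) = ((2 : ℕ) : ℤ) from rfl, zpow_natCast, pow_two]
    rw [this]
    ring)
  have h2 : Sph (fun n => inner ℝ (gradient (fun w => psi k w * psj k w) n) (J n)) =
      Sph (fun n => (k : ℝ) * (psi k n ^ 2 - psj k n ^ 2)) := by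
    apply sph_congr
    intro n hn
    have hn0 := HarmAux.norm_ne hn
    have d1 : DifferentiableAt ℝ (psi k) n :=
      (hp.smooth.contDiffAt (isOpen_compl_singleton.mem_nhds hn0)).differentiableAt (by norm_num)
    have d2 : DifferentiableAt ℝ (psj k) n :=
      (hq.smooth.contDiffAt (isOpen_compl_singleton.mem_nhds hn0)).differentiableAt (by norm_num)
    have h3 := calc_fderiv (h := fun w => psi k w * psj k w) n (J n)
    rw [← h3]
    have h4 := d1.hasFDerivAt.mul d2.hasFDerivAt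
    have h5 : HasFDerivAt (fun w => psi k w * psj k w) _ n := h4
    rw [h5.fderiv]
    simp only [add_apply, smul_apply, smul_eq_mul]
    rw [calc_fderiv, calc_fderiv, psi_xi k hk hn0, psj_xi k hk hn0]
    ring
  rw [h2, sph_smul, sph_sub (fun n => psi k n ^ 2) (fun n => psj k n ^ 2)
    (hp.smooth.continuousOn.pow 2) (hq.smooth.continuousOn.pow 2)] at h
  have hk0 : (k : ℝ) ≠ 0 := by
    have : k ≠ 0 := by omega
    exact_mod_cast this
  have := (mul_eq_zero.1 h).resolve_left hk0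
  linarith

theorem psi_pos (k : ℕ) (hk : 1 ≤ k) : 0 < Sph (fun n => psi k n ^ 2) := by
  have hp := psi_pert k hk
  let e : C2 := EuclideanSpace.single 0 1
  have he : ‖e‖ = 1 := by simp [e]
  have hz : zc e = 1 := by
    apply Complex.ext <;> simp [zc, e]
  have hv : psi k e = 1 := by
    unfold psi
    rw [he, hz]
    simp
  have hmem : e ∈ sphere (0 : C2) 1 := by
    rw [mem_sphere_zero_iff_norm]
    exact he
  exact (sph_cont _ (hp.smooth.continuousOn.pow 2)).integral_pos_of_hasCompactSupport_nonneg_nonzero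
    (HasCompactSupport.of_compactSpace _) (fun n => sq_nonneg _)
    (x := ⟨e, hmem⟩) (by
      show psi k e ^ 2 ≠ 0
      rw [hv]
      norm_num)

theorem psi_grad (k : ℕ) (hk : 1 ≤ k) : Sph (fun n => ‖gradient (psi k) n‖ ^ 2) =
    ((k : ℝ) + 1) ^ 2 * Sph (fun n => psi k n ^ 2) := by
  have h := sph_mul_s1 (psi_pert k hk)
  have h2 : Sph (fun n => psi k n * s1 (hess (psi k) n)) =
      Sph (fun n => (3 - 2 * (k : ℝ) - (k : ℝ) ^ 2) * psi k n ^ 2) := by
    apply sph_congr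
    intro n hn
    rw [psi_laplace k hk hn]
    ring
  rw [h2, sph_smul] at h
  linarith

theorem psi_W (k : ℕ) (hk : 1 ≤ k) :
    Sph (fun n => inner ℝ (gradient (psi k) n) (J n) ^ 2) =
      (k : ℝ) ^ 2 * Sph (fun n => psi k n ^ 2) := by
  rw [psi_sq_eq k hk, ← sph_smul]
  apply sph_congr
  intro n hn
  rw [psi_xi k hk (HarmAux.norm_ne hn)]
  ring

end Pool.Agent.HVM
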