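import Pool.Agent.HVM.SphN

/-! # Cauchy-Schwarz along the characteristic field (module KEYA) -/

set_option autoImplicit false

namespace Pool.Agent.HVM

open MeasureTheory Metric Set
open Pool.Agent.Helper85.Herm Pool.Agent.Helper85.Cap

/-- the profile `tau t / sqrt(tau^2 + t^2)` -/
noncomputable def kaP (tau t : ℝ) : ℝ := tau * t / Real.sqrt (tau ^ 2 + t ^ 2)

/-- the derivative of the profile -/
noncomputable def kaQ (tau t : ℝ) : ℝ := tau ^ 3 / Real.sqrt (tau ^ 2 + t ^ 2) ^ 3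

theorem ka_pos {tau : ℝ} (ht : 0 < tau) (t : ℝ) : 0 < tau ^ 2 + t ^ 2 := by positivity

theorem ka_sqrt_pos {tau : ℝ} (ht : 0 < tau) (t : ℝ) : 0 < Real.sqrt (tau ^ 2 + t ^ 2) :=
  Real.sqrt_pos.2 (ka_pos ht t)

theorem kaP_contDiff {tau : ℝ} (ht : 0 < tau) : ContDiff ℝ 1 (kaP tau) := by
  unfold kaP
  refine ContDiff.div (by fun_prop) (ContDiff.sqrt (by fun_prop) (fun t => (ka_pos ht t).ne'))
    (fun t => (ka_sqrt_pos ht t).ne')

theorem kaQ_continuous {tau : ℝ} (ht : 0 < tau) : Continuous (kaQ tau) := by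
  unfold kaQ
  refine Continuous.div (by fun_prop) (by fun_prop) (fun t => pow_ne_zero 3 (ka_sqrt_pos ht t).ne')

theorem kaP_deriv {tau : ℝ} (ht : 0 < tau) (t : ℝ) : HasDerivAt (kaP tau) (kaQ tau t) t := by
  have h1 : HasDerivAt (fun t : ℝ => tau ^ 2 + t ^ 2) (2 * t) t := by
    simpa using (hasDerivAt_pow 2 t).const_add (tau ^ 2)
  have h2 := h1.sqrt (ka_pos ht t).ne'
  have h3 : HasDerivAt (fun t : ℝ => tau * t) tau t := by
    simpa using (hasDerivAt_id t).const_mul tau
  have h4 := h3.div h2 (ka_sqrt_pos ht t).ne'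
  refine h4.congr_deriv ?_
  unfold kaQ
  have hp := ka_sqrt_pos ht t
  have hsq := Real.sq_sqrt (ka_pos ht t).le
  set s := Real.sqrt (tau ^ 2 + t ^ 2) with hs
  field_simp
  nlinarith [hsq]

theorem kaQ_nonneg {tau : ℝ} (ht : 0 < tau) (t : ℝ) : 0 ≤ kaQ tau t := by
  unfold kaQ
  have := ka_sqrt_pos ht t
  positivity

theorem kaQ_le_one {tau : ℝ} (ht : 0 < tau) (t : ℝ) : kaQ tau t ≤ 1 := by
  unfold kaQ
  have hp := ka_sqrt_pos ht t
  rw [div_le_one (by positivity)]
  refine pow_le_pow_left₀ ht.le ?_ 3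
  refine Real.le_sqrt_of_sq_le ?_
  nlinarith [sq_nonneg t]

theorem kaP_mul {tau : ℝ} (t : ℝ) :
    kaP tau t * t = tau * t ^ 2 / Real.sqrt (tau ^ 2 + t ^ 2) := by
  unfold kaP
  ring

theorem kaP_mul_le {tau : ℝ} (ht : 0 < tau) (t : ℝ) (h1 : |t| ≤ 1) : kaP tau t * t ≤ tau := by
  rw [kaP_mul, div_le_iff₀ (ka_sqrt_pos ht t)]
  have h2 : |t| ≤ Real.sqrt (tau ^ 2 + t ^ 2) := by
    refine Real.le_sqrt_of_sq_le ?_
    rw [sq_abs]
    nlinarith [sq_nonneg tau]
  have h3 : t ^ 2 ≤ |t| := by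
    rw [← sq_abs]
    nlinarith [abs_nonneg t]
  nlinarith

/-- the zero homogeneous extension of `⟨n, e⟩` -/
noncomputable def kaT (e w : C2) : ℝ := inner ℝ w e * ‖w‖⁻¹

theorem kaT_contDiffOn (e : C2) : ContDiffOn ℝ 1 (kaT e) {0}ᶜ := by
  intro w hw
  have hw0 : w ≠ 0 := hw
  refine ContDiffAt.contDiffWithinAt ?_
  unfold kaT
  exact (ContDiffAt.inner ℝ contDiffAt_id contDiffAt_const).mul
    ((contDiffAt_norm ℝ hw0).inv (norm_ne_zero_iff.2 hw0))

theorem kaT_smul (e : C2) (c : ℝ) (w : C2) (hc : 0 < c) : kaT e (c • w) = kaT e w := by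
  unfold kaT
  rw [inner_smul_left, norm_smul, Real.norm_of_nonneg hc.le]
  simp only [conj_trivial, mul_inv]
  field_simp

theorem kaT_unit (e : C2) {n : C2} (hn : ‖n‖ = 1) : kaT e n = inner ℝ n e := by
  unfold kaT
  rw [hn]
  simp

theorem kaT_gradient (e : C2) {n : C2} (hn : ‖n‖ = 1) :
    HasGradientAt (kaT e) (e - (inner ℝ n e : ℝ) • n) n := by
  have hn0 : n ≠ 0 := by
    intro h
    rw [h] at hn
    simp at hn
  have h1 : HasFDerivAt (fun w : C2 => (inner ℝ w e : ℝ)) (innerSL ℝ e) n := by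
    have := (innerSL ℝ e).hasFDerivAt (x := n)
    refine this.congr_of_eventuallyEq (Filter.Eventually.of_forall fun w => ?_)
    simp [real_inner_comm]
  have h2 : HasFDerivAt (fun w : C2 => ‖w‖) (innerSL ℝ n) n := by
    have h0 : HasFDerivAt (fun w : C2 => Real.sqrt (‖w‖ ^ 2)) ((1 / (2 * Real.sqrt (‖n‖ ^ 2))) • (2 • innerSL ℝ n)) n := by
      exact (HasStrictFDerivAt.hasFDerivAt (hasStrictFDerivAt_norm_sq n)).sqrt (by rw [hn]; norm_num)
    have h00 : HasFDerivAt (fun w : C2 => ‖w‖) ((1 / (2 * Real.sqrt (‖n‖ ^ 2))) • (2 • innerSL ℝ n)) n := by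
      refine h0.congr_of_eventuallyEq (Filter.Eventually.of_forall fun w => ?_)
      simp [Real.sqrt_sq]
    refine h00.congr_fderiv ?_
    ext v
    rw [hn]
    simp
  have h3 : HasFDerivAt (fun w : C2 => ‖w‖⁻¹) (-(‖n‖ ^ 2)⁻¹ • innerSL ℝ n) n := by
    have := (hasDerivAt_inv (norm_ne_zero_iff.2 hn0)).comp_hasFDerivAt n h2
    exact this
  have h4 := h1.mul h3
  rw [hasGradientAt_iff_hasFDerivAt]
  refine h4.congr_fderiv ?_
  ext v
  simp only [add_apply, smul_apply, innerSL_apply_apply,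
    InnerProductSpace.toDual_apply_apply, inner_sub_left, inner_smul_left, hn, smul_eq_mul]
  simp only [conj_trivial]
  ring

theorem kaPT_contDiffOn {tau : ℝ} (ht : 0 < tau) (e : C2) :
    ContDiffOn ℝ 1 (fun w => kaP tau (kaT e w)) {0}ᶜ :=
  (kaP_contDiff ht).comp_contDiffOn (kaT_contDiffOn e)

theorem kaPT_gradient {tau : ℝ} (ht : 0 < tau) (e : C2) {n : C2} (hn : ‖n‖ = 1) :
    HasGradientAt (fun w => kaP tau (kaT e w))
      (kaQ tau (inner ℝ n e) • (e - (inner ℝ n e : ℝ) • n)) n := by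
  have h1 := (kaT_gradient e hn).hasFDerivAt
  have h2 : HasDerivAt (kaP tau) (kaQ tau (inner ℝ n e)) (kaT e n) := by
    rw [kaT_unit e hn]
    exact kaP_deriv ht _
  have h3 := h2.comp_hasFDerivAt n h1
  rw [hasGradientAt_iff_hasFDerivAt]
  refine h3.congr_fderiv ?_
  ext v
  simp only [smul_apply, InnerProductSpace.toDual_apply_apply, inner_smul_left, smul_eq_mul]
  simp only [conj_trivial]

/-- the test function of `sph_newton` -/
noncomputable def kaF (tau : ℝ) (h : C2 → ℝ) (e a w : C2) : ℝ :=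
  kaP tau (kaT e w) * inner ℝ (gradient h w) a

theorem kaF_contDiffOn {h : C2 → ℝ} (hs : SmoothSupp h) {tau : ℝ} (ht : 0 < tau) (e a : C2) :
    ContDiffOn ℝ 1 (kaF tau h e a) {0}ᶜ := by
  unfold kaF
  refine (kaPT_contDiffOn ht e).mul ?_
  exact ContDiffOn.inner ℝ (hs.gradient_contDiffOn.of_le (by norm_num)) contDiffOn_const

theorem kaF_smul {h : C2 → ℝ} (hs : SmoothSupp h) (tau : ℝ) (e a : C2) (c : ℝ) (w : C2)
    (hc : 0 < c) (hw : w ≠ 0) : kaF tau h e a (c • w) = kaF tau h e a w := by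
  unfold kaF
  rw [kaT_smul e c w hc, hs.gradient_smul c hc w hw]

theorem kaF_gradient {h : C2 → ℝ} (hs : SmoothSupp h) {tau : ℝ} (ht : 0 < tau) (e a : C2)
    {n : C2} (hn : ‖n‖ = 1) :
    gradient (kaF tau h e a) n =
      (kaQ tau (inner ℝ n e) * inner ℝ (gradient h n) a) • (e - (inner ℝ n e : ℝ) • n) +
        kaP tau (inner ℝ n e) • hess h n a := by
  have hn0 : n ≠ 0 := by
    intro h
    rw [h] at hn
    simp at hn
  have h1 := (kaPT_gradient ht e hn).hasFDerivAt
  have h2 : HasFDerivAt (fun w => (inner ℝ (gradient h w) a : ℝ))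
      (innerSL ℝ (hess h n a)) n := by
    have h3 := (innerSL ℝ a).hasFDerivAt (x := gradient h n)
    have h4 := h3.comp n (hs.hasFDerivAt_gradient hn0)
    have h5 : HasFDerivAt (fun w => (inner ℝ (gradient h w) a : ℝ))
        ((innerSL ℝ a).comp (hess h n)) n := by
      refine h4.congr_of_eventuallyEq (Filter.Eventually.of_forall fun w => ?_)
      exact real_inner_comm _ _
    refine h5.congr_fderiv ?_
    ext v
    simp only [ContinuousLinearMap.comp_apply, innerSL_apply_apply]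
    rw [hs.hess_symm hn0 a v]
  have h6 := h1.mul h2
  have h7 : HasGradientAt (kaF tau h e a)
      ((kaQ tau (inner ℝ n e) * inner ℝ (gradient h n) a) • (e - (inner ℝ n e : ℝ) • n) +
        kaP tau (inner ℝ n e) • hess h n a) n := by
    rw [hasGradientAt_iff_hasFDerivAt]
    refine h6.congr_fderiv ?_
    ext v
    simp only [add_apply, smul_apply, innerSL_apply_apply,
      InnerProductSpace.toDual_apply_apply, inner_add_left, inner_smul_left, smul_eq_mul,
      kaT_unit e hn]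
    simp only [conj_trivial]
    ring
  exact h7.gradient

theorem ka_inner_self (u : C2 ≃ₗᵢ[ℝ] C2) (hu : ∀ x, u (u x) = -x) (x y : C2) :
    inner ℝ (u x) y = -inner ℝ x (u y) := by
  have h1 := u.inner_map_map (u x) y
  rw [hu] at h1
  rw [inner_neg_left] at h1
  linarith

theorem ka_inner_zero (u : C2 ≃ₗᵢ[ℝ] C2) (hu : ∀ x, u (u x) = -x) (x : C2) :
    inner ℝ (u x) x = (0 : ℝ) := by
  have h1 := ka_inner_self u hu x x
  have h2 : inner ℝ x (u x) = inner ℝ (u x) x := real_inner_comm _ _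
  linarith

/-- Cauchy-Schwarz along `u n` with the test function `tau t / sqrt(tau^2 + t^2)` -/
theorem key_cs {h : C2 → ℝ} (hs : SmoothSupp h) (u : C2 ≃ₗᵢ[ℝ] C2) (hu : ∀ x, u (u x) = -x)
    (e : C2) (he : ‖e‖ = 1) (A : ℝ) (hA : ∀ y ∈ wulff h, |inner ℝ y (u e)| ≤ A)
    (tau : ℝ) (ht : 0 < tau) :
    Sph (fun n => s3 (hess h n) n * (tau * inner ℝ n e ^ 2 / Real.sqrt (tau ^ 2 + inner ℝ n e ^ 2))) ^ 2
      ≤ Sph (fun n => inner ℝ (TH h n (u n)) (u n)) * (A ^ 2 * (tau * Sph (fun n => s2 (hess h n)))) := by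
  -- continuity facts
  have cT : ContinuousOn (TH h) {0}ᶜ := TH_continuousOn hs
  have cX : ContinuousOn (gradient h) {0}ᶜ := gradient_continuousOn hs
  have cu : Continuous fun n : C2 => u n := u.continuous
  have ct : Continuous fun n : C2 => (inner ℝ n e : ℝ) := by fun_prop
  have cQ : Continuous fun n : C2 => kaQ tau (inner ℝ n e) := (kaQ_continuous ht).comp ct
  have cP : Continuous fun n : C2 => kaP tau (inner ℝ n e) :=
    (kaP_contDiff ht).continuous.comp ct
  have ce : Continuous fun n : C2 => e - (inner ℝ n e : ℝ) • n := by fun_prop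
  have cTu : ContinuousOn (fun n => TH h n (u n)) {0}ᶜ := cT.clm_apply cu.continuousOn
  have cTe : ContinuousOn (fun n => TH h n (e - (inner ℝ n e : ℝ) • n)) {0}ᶜ :=
    cT.clm_apply ce.continuousOn
  have cI : ContinuousOn (fun n => kaQ tau (inner ℝ n e) * inner ℝ (gradient h n) (u e) *
      inner ℝ (TH h n (u n)) (e - (inner ℝ n e : ℝ) • n)) {0}ᶜ :=
    (cQ.continuousOn.mul (cX.inner continuousOn_const)).mul (cTu.inner ce.continuousOn)
  have cF : ContinuousOn (fun n => (inner ℝ (TH h n (u n)) (u n) : ℝ)) {0}ᶜ :=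
    cTu.inner cu.continuousOn
  have cG0 : ContinuousOn (fun n => kaQ tau (inner ℝ n e) *
      inner ℝ (TH h n (e - (inner ℝ n e : ℝ) • n)) (e - (inner ℝ n e : ℝ) • n)) {0}ᶜ :=
    cQ.continuousOn.mul (cTe.inner ce.continuousOn)
  have cG : ContinuousOn (fun n => A ^ 2 * (kaQ tau (inner ℝ n e) *
      inner ℝ (TH h n (e - (inner ℝ n e : ℝ) • n)) (e - (inner ℝ n e : ℝ) • n))) {0}ᶜ :=
    continuousOn_const.mul cG0
  have cS3 : ContinuousOn (fun n => s3 (hess h n) n *
      (tau * inner ℝ n e ^ 2 / Real.sqrt (tau ^ 2 + inner ℝ n e ^ 2))) {0}ᶜ := by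
    refine (s3_continuousOn hs).mul ?_
    have : Continuous fun n : C2 => kaP tau (inner ℝ n e) * inner ℝ n e := cP.mul ct
    refine this.continuousOn.congr fun n _ => ?_
    exact (kaP_mul _).symm
  have hne : ∀ n : C2, ‖n‖ = 1 → n ≠ 0 := by
    intro n hn h
    rw [h] at hn
    simp at hn
  -- step 1
  have step1 : Sph (fun n => kaQ tau (inner ℝ n e) * inner ℝ (gradient h n) (u e) *
      inner ℝ (TH h n (u n)) (e - (inner ℝ n e : ℝ) • n)) +
      Sph (fun n => s3 (hess h n) n *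
        (tau * inner ℝ n e ^ 2 / Real.sqrt (tau ^ 2 + inner ℝ n e ^ 2))) = 0 := by
    rw [← sph_add _ _ cI cS3, ← sph_newton hs (u : C2 →L[ℝ] C2) (ka_inner_self u hu)
      (kaF tau h e (u e)) (kaF_contDiffOn hs ht e (u e))
      (fun c w hc hw => kaF_smul hs tau e (u e) c w hc hw)]
    refine sph_congr _ _ fun n hn => ?_
    have hn0 := hne n hn
    rw [kaF_gradient hs ht e (u e) hn, inner_add_right, inner_smul_right, inner_smul_right]
    have h1 : inner ℝ (TH h n ((u : C2 →L[ℝ] C2) n)) (hess h n (u e)) =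
        s3 (hess h n) n * inner ℝ n e := by
      rw [← hs.hess_symm hn0]
      have h2 := M_NT (hs.pk hn0) (u n) (ka_inner_zero u hu n)
      have h3 : hess h n (TH h n ((u : C2 →L[ℝ] C2) n)) = s3 (hess h n) n • u n := h2
      rw [h3, inner_smul_left, u.inner_map_map]
      simp
    rw [h1, ← kaP_mul]
    have h4 : ((u : C2 →L[ℝ] C2) n) = u n := rfl
    rw [h4]
    ring
  have step1' : Sph (fun n => s3 (hess h n) n *
        (tau * inner ℝ n e ^ 2 / Real.sqrt (tau ^ 2 + inner ℝ n e ^ 2))) ^ 2 =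
      Sph (fun n => kaQ tau (inner ℝ n e) * inner ℝ (gradient h n) (u e) *
      inner ℝ (TH h n (u n)) (e - (inner ℝ n e : ℝ) • n)) ^ 2 := by
    rw [eq_neg_of_add_eq_zero_right step1]
    ring
  -- step 2
  have step2 := sph_cs _ _ _ cI cF cG (fun n hn => NT_psd (hs.pk (hne n hn)) (u n))
    (fun n hn => mul_nonneg (sq_nonneg A)
      (mul_nonneg (kaQ_nonneg ht _) (NT_psd (hs.pk (hne n hn)) _)))
    (fun n hn => by
      have hn0 := hne n hn
      have h1 := NT_cs (hs.pk hn0) (u n) (e - (inner ℝ n e : ℝ) • n)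
      have h2 := hA _ (hs.gradient_mem hn0)
      have h3 : inner ℝ (gradient h n) (u e) ^ 2 ≤ A ^ 2 := by
        rw [← sq_abs (inner ℝ (gradient h n) (u e))]
        exact pow_le_pow_left₀ (abs_nonneg _) h2 2
      have h4 := kaQ_nonneg ht (inner ℝ n e)
      have h5 := kaQ_le_one ht (inner ℝ n e)
      have h6 : kaQ tau (inner ℝ n e) ^ 2 ≤ kaQ tau (inner ℝ n e) := by nlinarith
      have h7 := NT_psd (hs.pk hn0) (u n)
      have h8 := NT_psd (hs.pk hn0) (e - (inner ℝ n e : ℝ) • n)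
      have h9 : 0 ≤ inner ℝ (NT (hess h n) (u n)) (u n) *
        inner ℝ (NT (hess h n) (e - (inner ℝ n e : ℝ) • n)) (e - (inner ℝ n e : ℝ) • n) :=
        mul_nonneg h7 h8
      have h10 : kaQ tau (inner ℝ n e) ^ 2 * inner ℝ (gradient h n) (u e) ^ 2 ≤
          kaQ tau (inner ℝ n e) * A ^ 2 :=
        mul_le_mul h6 h3 (sq_nonneg _) h4
      calc (kaQ tau (inner ℝ n e) * inner ℝ (gradient h n) (u e) *
            inner ℝ (TH h n (u n)) (e - (inner ℝ n e : ℝ) • n)) ^ 2
          = (kaQ tau (inner ℝ n e) ^ 2 * inner ℝ (gradient h n) (u e) ^ 2) *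
            inner ℝ (NT (hess h n) (u n)) (e - (inner ℝ n e : ℝ) • n) ^ 2 := by
              unfold TH
              ring
        _ ≤ (kaQ tau (inner ℝ n e) * A ^ 2) *
            (inner ℝ (NT (hess h n) (u n)) (u n) *
        inner ℝ (NT (hess h n) (e - (inner ℝ n e : ℝ) • n)) (e - (inner ℝ n e : ℝ) • n)) :=
              mul_le_mul h10 h1 (sq_nonneg _) (mul_nonneg h4 (sq_nonneg _))
        _ = _ := by
              unfold TH
              ring)
  -- step 3
  have step3 : Sph (fun n => kaQ tau (inner ℝ n e) *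
      inner ℝ (TH h n (e - (inner ℝ n e : ℝ) • n)) (e - (inner ℝ n e : ℝ) • n)) ≤
      tau * Sph (fun n => s2 (hess h n)) := by
    have h1 := sph_newton_const hs e (fun w => kaP tau (kaT e w)) (kaPT_contDiffOn ht e)
      (fun c w hc hw => by simp only [kaT_smul e c w hc])
    have h2 : Sph (fun n => kaQ tau (inner ℝ n e) *
      inner ℝ (TH h n (e - (inner ℝ n e : ℝ) • n)) (e - (inner ℝ n e : ℝ) • n)) =
      Sph (fun n => inner ℝ (TH h n e) (gradient (fun w => kaP tau (kaT e w)) n)) := by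
      refine sph_congr _ _ fun n hn => ?_
      have hn0 := hne n hn
      rw [(kaPT_gradient ht e hn).gradient, inner_smul_right, map_sub, map_smul,
        inner_sub_left, inner_smul_left]
      have h3 : TH h n n = s2 (hess h n) • n := NT_ker (hs.pk hn0)
      have h4 : inner ℝ n (e - (inner ℝ n e : ℝ) • n) = (0 : ℝ) := by
        rw [inner_sub_right, inner_smul_right, real_inner_self_eq_norm_sq, hn]
        ring
      rw [h3, inner_smul_left, h4]
      ring
    rw [h2, h1, ← sph_smul]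
    refine sph_mono _ _ ?_ ?_ fun n hn => ?_
    · exact ((kaPT_contDiffOn ht e).continuousOn.mul (s2_continuousOn hs)).mul (by fun_prop)
    · exact continuousOn_const.mul (s2_continuousOn hs)
    · have hn0 := hne n hn
      have h3 : |(inner ℝ n e : ℝ)| ≤ 1 := by
        have := abs_real_inner_le_norm n e
        rw [hn, he] at this
        simpa using this
      have h4 := kaP_mul_le ht _ h3
      have h5 := s2_nonneg (hs.pk hn0)
      simp only [kaT_unit e hn]
      rw [real_inner_comm n e]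
      nlinarith
  rw [step1']
  refine step2.trans ?_
  refine mul_le_mul_of_nonneg_left ?_ (sph_nonneg _ fun n hn => NT_psd (hs.pk (hne n hn)) (u n))
  rw [sph_smul]
  exact mul_le_mul_of_nonneg_left step3 (sq_nonneg A)

end Pool.Agent.HVM
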