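import Pool.Agent.HVM.SphN
import Pool.Agent.HVM.AlgB
import Pool.Agent.HVM.Cov

/-! # Volume of a smooth body as a spherical integral (module VOL) -/

set_option autoImplicit false

namespace Pool.Agent.HVM

open MeasureTheory Metric Set
open Pool.Agent.Helper85.Herm Pool.Agent.Helper85.Cap

/-- the density of degree zero -/
noncomputable def volDens (h : C2 → ℝ) (w : C2) : ℝ := h w * ‖w‖ ^ 2 * s3 (hess h w) w

theorem volDens_det {h : C2 → ℝ} (hs : SmoothSupp h) {w : C2} (hw : w ≠ 0) :
    |(dPsi h w).det| = volDens h w := by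
  have h1 : (dPsi h w).det = volDens h w := by
    unfold dPsi volDens
    rw [det_rank_one (hs.pk hw), hs.gradient_inner hw]
  rw [h1, abs_of_nonneg]
  unfold volDens
  have := s3_nonneg (hs.pk hw)
  have := hs.pos w hw
  positivity

theorem volDens_smul {h : C2 → ℝ} (hs : SmoothSupp h) (c : ℝ) (w : C2) (hc : 0 < c)
    (hw : w ≠ 0) : volDens h (c • w) = c ^ (0 : ℤ) * volDens h w := by
  unfold volDens
  rw [hs.hess_smul c hc w hw, s3_smul (hs.pk hw) c hc, hs.homog c w hc, norm_smul,
    Real.norm_eq_abs, abs_of_pos hc, zpow_zero]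
  field_simp

theorem vol_smooth {h : C2 → ℝ} (hs : SmoothSupp h) :
    (volume (wulff h)).toReal = (1 / 4) * Sph (fun n => h n * s3 (hess h n) n) := by
  have h1 := volume_wulff (by norm_num : 2 ≤ 4) h hs
  rw [h1]
  have h2 : ∫ w in ball (0 : EuclideanSpace ℝ (Fin 4)) 1, |(dPsi h w).det| =
      ∫ w : C2, (Iio (1 : ℝ)).indicator (fun _ => (1 : ℝ)) ‖w‖ * volDens h w := by
    rw [← integral_indicator measurableSet_ball]
    apply integral_congr_ae
    have h0 : ∀ᵐ w : C2, w ≠ 0 := by
      have : (volume : Measure C2) {0} = 0 := measure_singleton 0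
      rw [ae_iff]
      simpa using this
    filter_upwards [h0] with w hw
    by_cases hb : ‖w‖ < 1
    · rw [indicator_of_mem (by simpa using hb), indicator_of_mem (by simpa using hb), one_mul]
      exact volDens_det hs hw
    · rw [indicator_of_notMem (by simpa using hb), indicator_of_notMem (by simpa using hb),
        zero_mul]
  rw [h2, polar (volDens h) 0 (fun c w hc hw => volDens_smul hs c w hc hw)]
  have h3 : ∫ r in Ioi (0 : ℝ), (Iio (1 : ℝ)).indicator (fun _ => (1 : ℝ)) r * r ^ ((0 : ℤ) + 3) =
      1 / 4 := by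
    have h4 : ∀ r : ℝ, (Iio (1 : ℝ)).indicator (fun _ => (1 : ℝ)) r * r ^ ((0 : ℤ) + 3) =
        (Iio (1 : ℝ)).indicator (fun r => r ^ 3) r := by
      intro r
      by_cases hr : r ∈ Iio (1 : ℝ)
      · rw [indicator_of_mem hr, indicator_of_mem hr, one_mul]
        norm_cast
      · rw [indicator_of_notMem hr, indicator_of_notMem hr, zero_mul]
    simp only [h4]
    rw [setIntegral_indicator measurableSet_Iio, Ioi_inter_Iio,
      ← integral_Ioc_eq_integral_Ioo, ← intervalIntegral.integral_of_le zero_le_one,
      integral_pow]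
    norm_num
  rw [h3]
  congr 1
  apply sph_congr
  intro n hn
  unfold volDens
  rw [hn]
  ring

theorem gradient_pair {h : C2 → ℝ} (hs : SmoothSupp h) (e e' : C2) {w : C2} (hw : w ≠ 0) :
    gradient (fun x => inner ℝ (gradient h x) e * inner ℝ (gradient h x) e') w =
      (inner ℝ (gradient h w) e') • hess h w e + (inner ℝ (gradient h w) e) • hess h w e' := by
  apply HasGradientAt.gradient
  rw [hasGradientAt_iff_hasFDerivAt]
  have hg := hs.hasFDerivAt_gradient hw
  have h1 : HasFDerivAt (fun x => inner ℝ (gradient h x) e)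
      ((innerSL ℝ e) ∘L (hess h w)) w := by
    have h2 := ((innerSL ℝ e).hasFDerivAt (x := gradient h w)).comp w hg
    have h3 : (fun x => inner ℝ (gradient h x) e) = (innerSL ℝ e) ∘ (gradient h) := by
      funext x
      exact real_inner_comm _ _
    rw [h3]
    exact h2
  have h1' : HasFDerivAt (fun x => inner ℝ (gradient h x) e')
      ((innerSL ℝ e') ∘L (hess h w)) w := by
    have h2 := ((innerSL ℝ e').hasFDerivAt (x := gradient h w)).comp w hg
    have h3 : (fun x => inner ℝ (gradient h x) e') = (innerSL ℝ e') ∘ (gradient h) := by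
      funext x
      exact real_inner_comm _ _
    rw [h3]
    exact h2
  have h4 := h1.mul h1'
  apply h4.congr_fderiv
  ext v
  simp only [ContinuousLinearMap.add_apply, ContinuousLinearMap.smul_apply,
    ContinuousLinearMap.comp_apply, innerSL_apply_apply, smul_eq_mul,
    InnerProductSpace.toDual_apply_apply, inner_add_left, real_inner_smul_left]
  rw [hs.hess_symm hw e v, hs.hess_symm hw e' v]
  ring

theorem vol_pair {h : C2 → ℝ} (hs : SmoothSupp h) (e e' : C2) (he : ‖e‖ = 1) (he' : ‖e'‖ = 1)
    (hee : inner ℝ e e' = 0) :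
    Sph (fun n => inner ℝ (gradient h n) e * inner ℝ n e * s3 (hess h n) n) =
      Sph (fun n => inner ℝ (gradient h n) e' * inner ℝ n e' * s3 (hess h n) n) := by
  have hX : ContinuousOn (gradient h) {0}ᶜ := gradient_continuousOn hs
  have hs3 := s3_continuousOn hs
  have hc : ∀ v : C2, ContinuousOn
      (fun n : C2 => inner ℝ (gradient h n) v * inner ℝ n v * s3 (hess h n) n) {0}ᶜ := by
    intro v
    exact ((hX.inner continuousOn_const).mul
      (continuousOn_id.inner continuousOn_const)).mul hs3
  set B : C2 →L[ℝ] C2 := rk e e' - rk e' e with hB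
  have hBv : ∀ v, B v = (inner ℝ e' v) • e - (inner ℝ e v) • e' := by
    intro v
    rw [hB]
    simp [rk]
  have hskew : ∀ x y, inner ℝ (B x) y = -inner ℝ x (B y) := by
    intro x y
    rw [hBv, hBv]
    simp only [inner_sub_left, inner_sub_right, real_inner_smul_left, real_inner_smul_right]
    rw [real_inner_comm e x, real_inner_comm e' x]
    ring
  set f : C2 → ℝ := fun x => inner ℝ (gradient h x) e * inner ℝ (gradient h x) e' with hf
  have hfC : ContDiffOn ℝ 1 f {0}ᶜ := by
    have h1 : ContDiffOn ℝ 1 (gradient h) {0}ᶜ := hs.gradient_contDiffOn.of_le (by norm_num)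
    exact (h1.inner ℝ contDiffOn_const).mul (h1.inner ℝ contDiffOn_const)
  have hf0 : ∀ (c : ℝ) (w : C2), 0 < c → w ≠ 0 → f (c • w) = f w := by
    intro c w hc hw
    simp only [hf]
    rw [hs.gradient_smul c hc w hw]
  have key := sph_newton hs B hskew f hfC hf0
  have h2 : Sph (fun n => inner ℝ (TH h n (B n)) (gradient f n)) =
      Sph (fun n => inner ℝ (gradient h n) e' * inner ℝ n e' * s3 (hess h n) n -
        inner ℝ (gradient h n) e * inner ℝ n e * s3 (hess h n) n) := by
    apply sph_congr
    intro n hn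
    have hn0 : n ≠ 0 := by
      intro h0
      rw [h0, norm_zero] at hn
      exact zero_ne_one hn
    have hpk := hs.pk hn0
    have hBn : inner ℝ (B n) n = 0 := by
      have h3 := hskew n n
      rw [real_inner_comm (B n) n] at h3
      linarith [h3, real_inner_comm (B n) n]
    rw [gradient_pair hs e e' hn0, inner_add_right, real_inner_smul_right, real_inner_smul_right]
    have h4 : ∀ v : C2, inner ℝ (TH h n (B n)) (hess h n v) = s3 (hess h n) n * inner ℝ (B n) v := by
      intro v
      rw [← hs.hess_symm hn0]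
      unfold TH
      rw [M_NT hpk (B n) hBn, real_inner_smul_left]
    rw [h4, h4, hBv]
    simp only [inner_sub_left, real_inner_smul_left]
    rw [real_inner_self_eq_norm_sq, real_inner_self_eq_norm_sq, he, he', hee,
      real_inner_comm e e', hee, real_inner_comm e' n, real_inner_comm e n]
    ring
  rw [h2, sph_sub _ _ (hc e') (hc e)] at key
  linarith

theorem vol_dir {h : C2 → ℝ} (hs : SmoothSupp h) (e : C2) (he : ‖e‖ = 1) :
    (volume (wulff h)).toReal =
      Sph (fun n => inner ℝ (gradient h n) e * inner ℝ n e * s3 (hess h n) n) := by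
  have hX : ContinuousOn (gradient h) {0}ᶜ := gradient_continuousOn hs
  have hs3 := s3_continuousOn hs
  have hc : ∀ v : C2, ContinuousOn
      (fun n : C2 => inner ℝ (gradient h n) v * inner ℝ n v * s3 (hess h n) n) {0}ᶜ := by
    intro v
    exact ((hX.inner continuousOn_const).mul
      (continuousOn_id.inner continuousOn_const)).mul hs3
  have hcard : Module.finrank ℝ C2 = Fintype.card (Fin 4) := by
    simp
  have horth : Orthonormal ℝ (({0} : Set (Fin 4)).restrict (fun _ : Fin 4 => e)) := by
    constructor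
    · intro i
      exact he
    · intro i j hij
      exact absurd (Subsingleton.elim i j) hij
  obtain ⟨b, hb⟩ := horth.exists_orthonormalBasis_extension_of_card_eq hcard
  have hb0 : b 0 = e := hb 0 rfl
  set F : Fin 4 → ℝ := fun i =>
    Sph (fun n => inner ℝ (gradient h n) (b i) * inner ℝ n (b i) * s3 (hess h n) n) with hF
  have hall : ∀ i, F i = F 0 := by
    intro i
    rcases eq_or_ne i 0 with hi | hi
    · rw [hi]
    · exact vol_pair hs (b i) (b 0) (b.orthonormal.1 i) (b.orthonormal.1 0) (b.orthonormal.2 hi)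
  have hsum : Sph (fun n => h n * s3 (hess h n) n) = F 0 + F 1 + F 2 + F 3 := by
    have a1 := sph_add (fun n : C2 => inner ℝ (gradient h n) (b 0) * inner ℝ n (b 0) *
      s3 (hess h n) n) (fun n : C2 => inner ℝ (gradient h n) (b 1) * inner ℝ n (b 1) *
      s3 (hess h n) n) (hc _) (hc _)
    have a2 := sph_add (fun n : C2 => inner ℝ (gradient h n) (b 0) * inner ℝ n (b 0) *
      s3 (hess h n) n + inner ℝ (gradient h n) (b 1) * inner ℝ n (b 1) *
      s3 (hess h n) n) (fun n : C2 => inner ℝ (gradient h n) (b 2) * inner ℝ n (b 2) *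
      s3 (hess h n) n) ((hc _).add (hc _)) (hc _)
    have a3 := sph_add (fun n : C2 => inner ℝ (gradient h n) (b 0) * inner ℝ n (b 0) *
      s3 (hess h n) n + inner ℝ (gradient h n) (b 1) * inner ℝ n (b 1) *
      s3 (hess h n) n + inner ℝ (gradient h n) (b 2) * inner ℝ n (b 2) *
      s3 (hess h n) n) (fun n : C2 => inner ℝ (gradient h n) (b 3) * inner ℝ n (b 3) *
      s3 (hess h n) n) (((hc _).add (hc _)).add (hc _)) (hc _)
    simp only [hF]
    rw [← a1, ← a2, ← a3]
    apply sph_congr
    intro n hn
    have hn0 : n ≠ 0 := by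
      intro h0
      rw [h0, norm_zero] at hn
      exact zero_ne_one hn
    have h5 := b.sum_inner_mul_inner (gradient h n) n
    rw [Fin.sum_univ_four, hs.gradient_inner hn0] at h5
    rw [← h5, real_inner_comm n (b 0), real_inner_comm n (b 1), real_inner_comm n (b 2),
      real_inner_comm n (b 3)]
    ring
  rw [vol_smooth hs, hsum, hall 1, hall 2, hall 3]
  simp only [hF, hb0]
  ring

end Pool.Agent.HVM
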