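import Pool.Agent.HVM.KeyA
import Pool.Agent.HVM.Vol
import Pool.Agent.HVM.Cont
import Pool.Agent.HVM.Polar

/-! # The key inequality for smooth bodies (module KEYB) -/

set_option autoImplicit false

namespace Pool.Agent.HVM

open MeasureTheory Metric Set
open Pool.Agent.Helper85.Herm Pool.Agent.Helper85.Cap

theorem keyb_norm_ne {n : C2} (hn : ‖n‖ = 1) : n ≠ 0 := by
  intro h0
  rw [h0, norm_zero] at hn
  exact zero_ne_one hn

/-- pointwise lower bound for the test function -/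
theorem keyb_pointwise (tau t : ℝ) (ht : 0 < tau) :
    tau * |t| - tau ^ 2 ≤ tau * t ^ 2 / Real.sqrt (tau ^ 2 + t ^ 2) := by
  have hpos : 0 < tau ^ 2 + t ^ 2 := by positivity
  have hs : 0 < Real.sqrt (tau ^ 2 + t ^ 2) := Real.sqrt_pos.mpr hpos
  have hle : Real.sqrt (tau ^ 2 + t ^ 2) ≤ |t| + tau := by
    rw [Real.sqrt_le_left (by positivity)]
    have h1 : |t| ^ 2 = t ^ 2 := sq_abs t
    nlinarith [abs_nonneg t]
  rw [le_div_iff₀ hs]
  have h1 : |t| ^ 2 = t ^ 2 := sq_abs t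
  rcases le_total tau |t| with hc | hc
  · have h2 : (|t| - tau) * Real.sqrt (tau ^ 2 + t ^ 2) ≤ (|t| - tau) * (|t| + tau) :=
      mul_le_mul_of_nonneg_left hle (by linarith)
    have h3 : tau * ((|t| - tau) * Real.sqrt (tau ^ 2 + t ^ 2)) ≤
        tau * ((|t| - tau) * (|t| + tau)) := mul_le_mul_of_nonneg_left h2 ht.le
    have h4 : tau * ((|t| - tau) * (|t| + tau)) = tau * (t ^ 2 - tau ^ 2) := by
      rw [← h1]; ring
    have h5 : 0 ≤ tau * tau ^ 2 := by positivity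
    nlinarith
  · have h2 : (tau * |t| - tau ^ 2) * Real.sqrt (tau ^ 2 + t ^ 2) ≤ 0 := by
      apply mul_nonpos_of_nonpos_of_nonneg _ hs.le
      nlinarith
    have h3 : 0 ≤ tau * t ^ 2 := by positivity
    linarith

theorem keyb_ip_continuousOn (e : C2) :
    ContinuousOn (fun n : C2 => (inner ℝ n e : ℝ)) {0}ᶜ :=
  (continuous_id.inner continuous_const).continuousOn

theorem keyb_test_continuousOn {h : C2 → ℝ} (hs : SmoothSupp h) (e : C2) (tau : ℝ) (ht : 0 < tau) :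
    ContinuousOn (fun n => s3 (hess h n) n *
      (tau * inner ℝ n e ^ 2 / Real.sqrt (tau ^ 2 + inner ℝ n e ^ 2))) {0}ᶜ := by
  refine (s3_continuousOn hs).mul ?_
  refine ContinuousOn.div ?_ ?_ ?_
  · exact continuousOn_const.mul ((keyb_ip_continuousOn e).pow 2)
  · exact (continuousOn_const.add ((keyb_ip_continuousOn e).pow 2)).sqrt
  · intro n _
    have hpos : 0 < tau ^ 2 + (inner ℝ n e : ℝ) ^ 2 := by positivity
    exact (Real.sqrt_pos.mpr hpos).ne'

/-- final arithmetic -/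
theorem keyb_arith (V S3 P ST S2 A B r I tau : ℝ) (hr : 0 < r) (hV : 0 ≤ V) (hB : 0 ≤ B)
    (hP : 0 ≤ P) (hST : 0 ≤ ST) (hS2 : 0 ≤ S2) (ha : r * S3 ≤ 4 * V) (hb : V ≤ B * P)
    (hc : P ≤ S3) (htau : tau = P / (2 * S3)) (hI : tau * P - tau ^ 2 * S3 ≤ I)
    (hcs : 0 < tau → I ^ 2 ≤ ST * (A ^ 2 * (tau * S2))) :
    r * V ^ 2 ≤ 32 * ST * S2 * A ^ 2 * B ^ 3 := by
  have hR : 0 ≤ 32 * ST * S2 * A ^ 2 * B ^ 3 := by positivity
  rcases hV.eq_or_lt with h0 | hVpos
  · rw [← h0]; simpa using hR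
  have hBP : 0 < B * P := lt_of_lt_of_le hVpos hb
  have hPpos : 0 < P := by
    rcases hP.eq_or_lt with h | h
    · rw [← h, mul_zero] at hBP; exact absurd hBP (lt_irrefl 0)
    · exact h
  have hS3 : 0 < S3 := lt_of_lt_of_le hPpos hc
  have htp : 0 < tau := by rw [htau]; positivity
  have hcs' := hcs htp
  have h1 : tau * P - tau ^ 2 * S3 = P ^ 2 / (4 * S3) := by
    rw [htau]; field_simp; ring
  have h2 : 0 ≤ P ^ 2 / (4 * S3) := by positivity
  have h3 : (P ^ 2 / (4 * S3)) ^ 2 ≤ I ^ 2 := by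
    rw [← h1] at h2 ⊢
    exact pow_le_pow_left₀ h2 hI 2
  have h4 : (P ^ 2 / (4 * S3)) ^ 2 ≤ ST * (A ^ 2 * (P / (2 * S3) * S2)) := by
    rw [← htau]; exact h3.trans hcs'
  have h5 : P ^ 3 ≤ 8 * ST * A ^ 2 * S2 * S3 := by
    have h6 : (P ^ 2 / (4 * S3)) ^ 2 = P ^ 3 * (P / (16 * S3 ^ 2)) := by
      field_simp; ring
    have h7 : ST * (A ^ 2 * (P / (2 * S3) * S2)) =
        (8 * ST * A ^ 2 * S2 * S3) * (P / (16 * S3 ^ 2)) := by
      field_simp; ring
    rw [h6, h7] at h4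
    exact le_of_mul_le_mul_right h4 (by positivity)
  have h8 : V ^ 3 ≤ (B * P) ^ 3 := pow_le_pow_left₀ hV hb 3
  have h9 : (B * P) ^ 3 ≤ B ^ 3 * (8 * ST * A ^ 2 * S2 * S3) := by
    rw [mul_pow]
    exact mul_le_mul_of_nonneg_left h5 (by positivity)
  have h10 : r * V ^ 3 ≤ r * (B ^ 3 * (8 * ST * A ^ 2 * S2 * S3)) :=
    mul_le_mul_of_nonneg_left (h8.trans h9) hr.le
  have h11 : r * (B ^ 3 * (8 * ST * A ^ 2 * S2 * S3)) =
      (8 * ST * A ^ 2 * S2 * B ^ 3) * (r * S3) := by ring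
  have h12 : (8 * ST * A ^ 2 * S2 * B ^ 3) * (r * S3) ≤
      (8 * ST * A ^ 2 * S2 * B ^ 3) * (4 * V) :=
    mul_le_mul_of_nonneg_left ha (by positivity)
  have h13 : (r * V ^ 2) * V ≤ (32 * ST * S2 * A ^ 2 * B ^ 3) * V := by
    calc (r * V ^ 2) * V = r * V ^ 3 := by ring
      _ ≤ (8 * ST * A ^ 2 * S2 * B ^ 3) * (4 * V) := by rw [h11] at h10; exact h10.trans h12
      _ = (32 * ST * S2 * A ^ 2 * B ^ 3) * V := by ring
  exact le_of_mul_le_mul_right h13 hVpos

theorem key_spherical {h : C2 → ℝ} (hs : SmoothSupp h) (u : C2 ≃ₗᵢ[ℝ] C2)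
    (hu : ∀ x, u (u x) = -x) (e : C2) (he : ‖e‖ = 1) (A B r : ℝ) (hr : 0 < r)
    (hrh : ∀ w, r * ‖w‖ ≤ h w)
    (hA : ∀ y ∈ wulff h, |inner ℝ y (u e)| ≤ A) (hB : ∀ y ∈ wulff h, |inner ℝ y e| ≤ B) :
    r * (volume (wulff h)).toReal ^ 2 ≤
      32 * Sph (fun n => inner ℝ (TH h n (u n)) (u n)) * Sph (fun n => s2 (hess h n)) * A ^ 2 * B ^ 3 := by
  have he0 : e ≠ 0 := keyb_norm_ne he
  have hB0 : 0 ≤ B := (abs_nonneg _).trans (hB _ (hs.gradient_mem he0))
  have hs3 : ∀ n : C2, ‖n‖ = 1 → 0 ≤ s3 (hess h n) n := fun n hn =>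
    s3_nonneg (hs.pk (keyb_norm_ne hn))
  have c3 := s3_continuousOn hs
  have cip := keyb_ip_continuousOn e
  have cP : ContinuousOn (fun n => s3 (hess h n) n * |(inner ℝ n e : ℝ)|) {0}ᶜ := c3.mul cip.abs
  have hip : ∀ n : C2, ‖n‖ = 1 → |(inner ℝ n e : ℝ)| ≤ 1 := by
    intro n hn
    have := abs_real_inner_le_norm n e
    rw [hn, he, one_mul] at this
    exact this
  set S3 := Sph (fun n => s3 (hess h n) n) with hS3
  set P := Sph (fun n => s3 (hess h n) n * |(inner ℝ n e : ℝ)|) with hP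
  have hP0 : 0 ≤ P := sph_nonneg _ fun n hn => mul_nonneg (hs3 n hn) (abs_nonneg _)
  have hST0 : 0 ≤ Sph (fun n => inner ℝ (TH h n (u n)) (u n)) :=
    sph_nonneg _ fun n hn => NT_psd (hs.pk (keyb_norm_ne hn)) (u n)
  have hS20 : 0 ≤ Sph (fun n => s2 (hess h n)) :=
    sph_nonneg _ fun n hn => s2_nonneg (hs.pk (keyb_norm_ne hn))
  have hPS : P ≤ S3 := by
    refine sph_mono _ _ cP c3 fun n hn => ?_
    have := mul_le_mul_of_nonneg_left (hip n hn) (hs3 n hn)
    rwa [mul_one] at this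
  have ha : r * S3 ≤ 4 * (volume (wulff h)).toReal := by
    rw [vol_smooth hs, hS3, ← sph_smul]
    have : Sph (fun n => r * s3 (hess h n) n) ≤ Sph (fun n => h n * s3 (hess h n) n) := by
      refine sph_mono _ _ (continuousOn_const.mul c3) (hs.continuous.continuousOn.mul c3)
        fun n hn => ?_
      refine mul_le_mul_of_nonneg_right ?_ (hs3 n hn)
      have := hrh n
      rwa [hn, mul_one] at this
    linarith
  have hb : (volume (wulff h)).toReal ≤ B * P := by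
    rw [vol_dir hs e he, hP, ← sph_smul]
    refine sph_mono _ _ ?_ (continuousOn_const.mul cP) fun n hn => ?_
    · exact (((gradient_continuousOn hs).inner continuousOn_const).mul cip).mul c3
    · have h1 : (inner ℝ (gradient h n) e : ℝ) * inner ℝ n e ≤ B * |(inner ℝ n e : ℝ)| := by
        refine (le_abs_self _).trans ?_
        rw [abs_mul]
        exact mul_le_mul_of_nonneg_right (hB _ (hs.gradient_mem (keyb_norm_ne hn)))
          (abs_nonneg _)
      calc (inner ℝ (gradient h n) e : ℝ) * inner ℝ n e * s3 (hess h n) n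
          ≤ (B * |(inner ℝ n e : ℝ)|) * s3 (hess h n) n :=
            mul_le_mul_of_nonneg_right h1 (hs3 n hn)
        _ = B * (s3 (hess h n) n * |(inner ℝ n e : ℝ)|) := by ring
  by_cases htau : 0 < P / (2 * S3)
  · refine keyb_arith _ S3 P _ _ A B r
      (Sph (fun n => s3 (hess h n) n *
        (P / (2 * S3) * inner ℝ n e ^ 2 /
          Real.sqrt ((P / (2 * S3)) ^ 2 + inner ℝ n e ^ 2)))) (P / (2 * S3)) hr
      ENNReal.toReal_nonneg hB0 hP0 hST0 hS20 ha hb hPS rfl ?_ ?_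
    · set tau := P / (2 * S3) with htd
      have h1 : tau * P - tau ^ 2 * S3 =
          Sph (fun n => s3 (hess h n) n * (tau * |(inner ℝ n e : ℝ)| - tau ^ 2)) := by
        rw [hP, hS3, ← sph_smul, ← sph_smul, ← sph_sub]
        · congr 1
          funext n
          ring
        · exact continuousOn_const.mul cP
        · exact continuousOn_const.mul c3
      rw [h1]
      refine sph_mono _ _ ?_ (keyb_test_continuousOn hs e tau htau) fun n hn => ?_
      · exact c3.mul ((continuousOn_const.mul cip.abs).sub continuousOn_const)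
      · exact mul_le_mul_of_nonneg_left (keyb_pointwise tau _ htau) (hs3 n hn)
    · intro ht
      exact key_cs hs u hu e he A hA _ ht
  · refine keyb_arith _ S3 P _ _ A B r (P / (2 * S3) * P - (P / (2 * S3)) ^ 2 * S3)
      (P / (2 * S3)) hr
      ENNReal.toReal_nonneg hB0 hP0 hST0 hS20 ha hb hPS rfl le_rfl ?_
    intro ht
    exact absurd ht htau

end Pool.Agent.HVM
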