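import Pool.Agent.HVM.UpD
import Pool.Agent.HVM.Att
import Pool.Agent.Helper85.Herm

/-! # The order of magnitude of the minimum (module MAIN) -/

set_option autoImplicit false

namespace Pool.Agent.HVM

open MeasureTheory Metric Set
open Pool.Agent.Helper85.Herm Pool.Agent.Helper85.Cap

theorem muab_lin (a b : ℝ) (K : Body) : muab a b K = a * muab 1 0 K + b * muab 0 1 K := by
  unfold muab; ring

theorem V2_eq (K : Body) : V2 K = muab 1 0 K + muab 0 1 K := by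
  unfold V2; rw [muab_lin 1 1]; ring

theorem muab_nonneg' {a b : ℝ} (ha : 0 ≤ a) (hb : 0 ≤ b) (K : Body) : 0 ≤ muab a b K := by
  rw [muab_lin]
  have h := muab_nonneg K
  exact add_nonneg (mul_nonneg ha h.1) (mul_nonneg hb h.2)

theorem main_order : ∃ c C : ℝ, 0 < c ∧ 0 < C ∧ ∀ a b : ℝ, 0 ≤ a → 0 ≤ b →
    ∃ μ : Body → ℝ, IsHermVal a b μ ∧ (∀ K, 0 ≤ μ K) ∧
      ∃ m : ℝ, IsGLB {r | ∃ K : Body, UnitVolume K ∧ μ K = r} m ∧
        (0 < a → 0 < b → ∃ K : Body, UnitVolume K ∧ μ K = m) ∧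
        (b ≤ a → c * Real.sqrt (a * b) ≤ m ∧ m ≤ C * Real.sqrt (a * b)) ∧
        (a ≤ b → c * (a ^ ((7 : ℝ) / 12) * b ^ ((5 : ℝ) / 12)) ≤ m ∧
          m ≤ C * (a ^ ((7 : ℝ) / 12) * b ^ ((5 : ℝ) / 12))) := by
  obtain ⟨c0, hc0, hlow⟩ := lower_bounds
  obtain ⟨c, hc, hnum⟩ := num_lower c0 hc0
  obtain ⟨C, hC, hup⟩ := upper
  refine ⟨c, max C (4 * (1 + Real.sqrt 2)), hc, lt_max_of_lt_left hC, ?_⟩
  intro a b ha hb
  have hpos : ∀ K, 0 ≤ muab a b K := muab_nonneg' ha hb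
  refine ⟨muab a b, isHermVal_muab a b, hpos, ?_⟩
  obtain ⟨m, hm, hm0, hm1, hm2⟩ := main a b (muab a b) (isHermVal_muab a b) hpos
  refine ⟨m, hm, ?_, ?_, ?_⟩
  · intro ha' hb'
    obtain ⟨m', hm'⟩ := attained a b ha' hb'
    obtain ⟨K, hK, hK2⟩ := hm'.1
    refine ⟨K, hK, ?_⟩
    rw [hK2]
    exact hm'.isGLB.unique hm
  · intro hab
    refine ⟨?_, (hm1 hab).trans ?_⟩
    · rcases ha.eq_or_lt with h0 | ha'
      · subst h0; simpa using hm0
      rcases hb.eq_or_lt with h0 | hb'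
      · subst h0; simpa using hm0
      refine hm.2 ?_
      rintro r ⟨K, hK, rfl⟩
      obtain ⟨l1, l2, l3⟩ := hlow K hK
      rw [V2_eq] at l1 l2 l3
      have := (hnum a b (muab 1 0 K) (muab 0 1 K) ha' hb' (muab_nonneg K).1 (muab_nonneg K).2
        l1 l2 l3).1 hab
      rwa [← muab_lin] at this
    · exact mul_le_mul_of_nonneg_right (le_max_right _ _) (Real.sqrt_nonneg _)
  · intro hab
    rcases ha.eq_or_lt with h0 | ha'
    · subst h0
      have h1 := hm2 hab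
      rw [zero_mul, Real.sqrt_zero, mul_zero] at h1
      rw [Real.zero_rpow (by norm_num)]
      simp only [zero_mul, mul_zero]
      exact ⟨hm0, h1⟩
    have hb' : 0 < b := lt_of_lt_of_le ha' hab
    constructor
    · refine hm.2 ?_
      rintro r ⟨K, hK, rfl⟩
      obtain ⟨l1, l2, l3⟩ := hlow K hK
      rw [V2_eq] at l1 l2 l3
      have := (hnum a b (muab 1 0 K) (muab 0 1 K) ha' hb' (muab_nonneg K).1 (muab_nonneg K).2
        l1 l2 l3).2 hab
      rwa [← muab_lin] at this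
    · obtain ⟨K, hK, hK2⟩ := hup a b ha' hab
      refine (hm.1 ⟨K, hK, rfl⟩).trans (hK2.trans ?_)
      exact mul_le_mul_of_nonneg_right (le_max_left _ _) (by positivity)

end Pool.Agent.HVM
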