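import Pool.Agent.HVM.Defs

/-! # The Newton tensor of a Hessian is divergence free (module NEWT) -/

set_option autoImplicit false

namespace Pool.Agent.HVM

open MeasureTheory Metric Set
open Pool.Agent.Helper85.Herm Pool.Agent.Helper85.Cap

/-- the trace as a continuous linear map -/
noncomputable def newt_tr : (C2 →L[ℝ] C2) →L[ℝ] ℝ :=
  LinearMap.toContinuousLinearMap
    ((LinearMap.trace ℝ C2).comp (ContinuousLinearMap.coeLM ℝ : (C2 →L[ℝ] C2) →ₗ[ℝ] (C2 →ₗ[ℝ] C2)))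

theorem newt_tr_apply (M : C2 →L[ℝ] C2) : newt_tr M = s1 M := rfl

theorem newt_s1_sum (M : C2 →L[ℝ] C2) :
    s1 M = ∑ i, inner ℝ (EuclideanSpace.basisFun (Fin 4) ℝ i)
      (M (EuclideanSpace.basisFun (Fin 4) ℝ i)) := by
  unfold s1
  rw [LinearMap.trace_eq_sum_inner _ (EuclideanSpace.basisFun (Fin 4) ℝ)]
  rfl

theorem newt_s1_comm (M N : C2 →L[ℝ] C2) : s1 (M ∘L N) = s1 (N ∘L M) := by
  unfold s1
  exact LinearMap.trace_mul_comm ℝ (M : C2 →ₗ[ℝ] C2) (N : C2 →ₗ[ℝ] C2)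

theorem newt_NT_eq (M : C2 →L[ℝ] C2) : NT M =
    ((newt_tr M ^ 2 - newt_tr (M ∘L M)) / 2) • ContinuousLinearMap.id ℝ C2 - newt_tr M • M
      + M ∘L M := rfl

theorem newt_grad_contDiffAt (h : C2 → ℝ) (hs : ContDiffOn ℝ 3 h {0}ᶜ) {w : C2} (hw : w ≠ 0) :
    ContDiffAt ℝ 2 (gradient h) w := by
  have h1 : ContDiffAt ℝ 3 h w := hs.contDiffAt (isOpen_compl_singleton.mem_nhds hw)
  have h2 : ContDiffAt ℝ 2 (fderiv ℝ h) w := h1.fderiv_right (by norm_num)
  have h3 : gradient h = fun z => (InnerProductSpace.toDual ℝ C2).symm (fderiv ℝ h z) := rfl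
  rw [h3]
  exact (InnerProductSpace.toDual ℝ C2).symm.toContinuousLinearEquiv.contDiff.contDiffAt.comp w h2

theorem newt_hess_contDiffAt (h : C2 → ℝ) (hs : ContDiffOn ℝ 3 h {0}ᶜ) {w : C2} (hw : w ≠ 0) :
    ContDiffAt ℝ 1 (hess h) w :=
  (newt_grad_contDiffAt h hs hw).fderiv_right (by norm_num)

theorem newt_NT_contDiff : ContDiff ℝ 1 (NT : (C2 →L[ℝ] C2) → (C2 →L[ℝ] C2)) := by
  have h0 : (NT : (C2 →L[ℝ] C2) → (C2 →L[ℝ] C2)) = fun M =>
    ((newt_tr M ^ 2 - newt_tr (M ∘L M)) / 2) • ContinuousLinearMap.id ℝ C2 - newt_tr M • M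
      + M ∘L M := by funext M; exact newt_NT_eq M
  rw [h0]
  have hc : ContDiff ℝ 1 (fun M : C2 →L[ℝ] C2 => M ∘L M) := contDiff_id.clm_comp contDiff_id
  have ht : ContDiff ℝ 1 (fun M : C2 →L[ℝ] C2 => newt_tr M) := newt_tr.contDiff
  have ht2 : ContDiff ℝ 1 (fun M : C2 →L[ℝ] C2 => newt_tr (M ∘L M)) := newt_tr.contDiff.comp hc
  exact ((((ht.pow 2).sub ht2).div_const 2).smul contDiff_const).sub (ht.smul contDiff_id)
    |>.add hc

theorem TH_contDiffOn (h : C2 → ℝ) (hs : ContDiffOn ℝ 3 h {0}ᶜ) : ContDiffOn ℝ 1 (TH h) {0}ᶜ := by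
  intro w hw
  exact (newt_NT_contDiff.contDiffAt.comp w (newt_hess_contDiffAt h hs hw)).contDiffWithinAt

/-- derivative of `NT` along `D` at `M` -/
theorem newt_NT_hasFDerivAt (M : C2 →L[ℝ] C2) :
    HasFDerivAt (NT : (C2 →L[ℝ] C2) → (C2 →L[ℝ] C2)) (fderiv ℝ NT M) M :=
  (newt_NT_contDiff.differentiable (by norm_num) M).hasFDerivAt

theorem newt_NT_deriv (M D : C2 →L[ℝ] C2) :
    fderiv ℝ NT M D = (s1 M * s1 D - s1 (D ∘L M)) • ContinuousLinearMap.id ℝ C2
      - (s1 D • M + s1 M • D) + (D ∘L M + M ∘L D) := by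
  have h1 := newt_NT_hasFDerivAt M
  have hl : HasDerivAt (fun t : ℝ => M + t • D) D 0 := by
    have := ((hasDerivAt_id (0 : ℝ)).smul_const D).const_add M
    simpa using this
  have h2 : HasDerivAt (fun t : ℝ => NT (M + t • D)) (fderiv ℝ NT M D) 0 := by
    have e0 : M + (0 : ℝ) • D = M := by
      ext1 x
      change M x + (0 : ℝ) • D x = M x
      rw [zero_smul, add_zero]
    have h1' : HasFDerivAt (NT : (C2 →L[ℝ] C2) → (C2 →L[ℝ] C2)) (fderiv ℝ NT M) (M + (0 : ℝ) • D) := by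
      rw [e0]; exact h1
    exact h1'.comp_hasDerivAt (0 : ℝ) hl
  have h3 : (fun t : ℝ => NT (M + t • D)) = fun t : ℝ =>
      NT M + t • ((s1 M * s1 D - s1 (D ∘L M)) • ContinuousLinearMap.id ℝ C2
      - (s1 D • M + s1 M • D) + (D ∘L M + M ∘L D)) + t ^ 2 • NT D := by
    funext t
    have e1 : (M + t • D) ∘L (M + t • D) = M ∘L M + t • (D ∘L M + M ∘L D) + t ^ 2 • (D ∘L D) := by
      ext1 x
      simp only [ContinuousLinearMap.comp_apply, _root_.add_apply,
        _root_.smul_apply, map_add, map_smul, smul_add, smul_smul]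
      rw [pow_two]
      abel
    simp only [newt_NT_eq, e1, map_add, map_smul, smul_eq_mul, ← newt_tr_apply]
    have e2 : newt_tr (M ∘L D) = newt_tr (D ∘L M) := newt_s1_comm M D
    rw [e2]
    ext1 x
    simp only [_root_.add_apply, _root_.sub_apply,
      _root_.smul_apply, ContinuousLinearMap.id_apply, ContinuousLinearMap.comp_apply]
    module
  rw [h3] at h2
  have h4 : HasDerivAt (fun t : ℝ =>
      NT M + t • ((s1 M * s1 D - s1 (D ∘L M)) • ContinuousLinearMap.id ℝ C2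
      - (s1 D • M + s1 M • D) + (D ∘L M + M ∘L D)) + t ^ 2 • NT D)
      ((s1 M * s1 D - s1 (D ∘L M)) • ContinuousLinearMap.id ℝ C2
      - (s1 D • M + s1 M • D) + (D ∘L M + M ∘L D)) 0 := by
    have a1 := ((hasDerivAt_id (0 : ℝ)).smul_const
      ((s1 M * s1 D - s1 (D ∘L M)) • ContinuousLinearMap.id ℝ C2
      - (s1 D • M + s1 M • D) + (D ∘L M + M ∘L D))).const_add (NT M)
    have a2 := ((hasDerivAt_pow 2 (0 : ℝ))).smul_const (NT D)
    have a3 := a1.add a2
    refine a3.congr_deriv ?_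
    simp
  exact h2.unique h4

/-- `div (T V) = tr (T A)` for `V w = A w + b` -/
theorem div_TH (h : C2 → ℝ) (hs : ContDiffOn ℝ 3 h {0}ᶜ) (A : C2 →L[ℝ] C2) (b w : C2)
    (hw : w ≠ 0) :
    s1 (fderiv ℝ (fun x => TH h x (A x + b)) w) = s1 (TH h w ∘L A) := by
  set X := gradient h with hX
  set M := hess h w with hM
  set D : C2 →L[ℝ] (C2 →L[ℝ] C2) := fderiv ℝ (hess h) w with hD
  set V : C2 := A w + b with hV
  have hMd : HasFDerivAt (hess h) D w :=
    ((newt_hess_contDiffAt h hs hw).differentiableAt (by norm_num)).hasFDerivAt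
  have hT : HasFDerivAt (TH h) ((fderiv ℝ NT M).comp D) w :=
    (newt_NT_hasFDerivAt M).comp w hMd
  have hVd : HasFDerivAt (fun x => A x + b) A w := A.hasFDerivAt.add_const b
  have hF := hT.clm_apply hVd
  have hsymm : ∀ x y, D x y = D y x := by
    intro x y
    have h1 : IsSymmSndFDerivAt ℝ X w :=
      (newt_grad_contDiffAt h hs hw).isSymmSndFDerivAt (by simp)
    exact h1.eq x y
  rw [hF.fderiv]
  rw [newt_s1_sum, newt_s1_sum]
  simp only [_root_.add_apply, ContinuousLinearMap.comp_apply,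
    ContinuousLinearMap.flip_apply, inner_add_right, Finset.sum_add_distrib]
  have key : ∑ i, inner ℝ (EuclideanSpace.basisFun (Fin 4) ℝ i)
      ((fderiv ℝ NT M (D (EuclideanSpace.basisFun (Fin 4) ℝ i))) V) = (0 : ℝ) := by
    set e := EuclideanSpace.basisFun (Fin 4) ℝ with he
    have hrep : ∀ y : C2, ∑ i, (inner ℝ (e i) y : ℝ) • e i = y := fun y => e.sum_repr' y
    have hlin : ∀ (φ : C2 →ₗ[ℝ] ℝ) (y : C2), ∑ i, φ (e i) * inner ℝ (e i) y = φ y := by
      intro φ y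
      conv_rhs => rw [← hrep y]
      rw [map_sum]
      refine Finset.sum_congr rfl fun i _ => ?_
      rw [map_smul, smul_eq_mul, mul_comm]
    have t1 : ∀ y, ∑ i, s1 (D (e i)) * inner ℝ (e i) y = s1 (D y) := by
      intro y
      exact hlin ((newt_tr : (C2 →L[ℝ] C2) →ₗ[ℝ] ℝ).comp (D : C2 →ₗ[ℝ] (C2 →L[ℝ] C2))) y
    have t2 : ∀ y, ∑ i, s1 (D (e i) ∘L M) * inner ℝ (e i) y = s1 (D y ∘L M) := by
      intro y
      let φ : C2 →ₗ[ℝ] ℝ :=
        { toFun := fun x => newt_tr (D x ∘L M)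
          map_add' := by
            intro x y
            rw [map_add, ContinuousLinearMap.add_comp, map_add]
          map_smul' := by
            intro c x
            rw [map_smul, ContinuousLinearMap.smul_comp, map_smul, RingHom.id_apply] }
      exact hlin φ y
    have t3 : ∀ y, ∑ i, inner ℝ (e i) (D (e i) y) = s1 (D y) := by
      intro y
      rw [newt_s1_sum]
      refine Finset.sum_congr rfl fun i _ => ?_
      rw [hsymm]
    have t4 : ∑ i, inner ℝ (e i) (M (D (e i) V)) = s1 (M ∘L D V) := by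
      rw [newt_s1_sum]
      refine Finset.sum_congr rfl fun i _ => ?_
      rw [hsymm]; rfl
    have hterm : ∀ i, (inner ℝ (e i) ((fderiv ℝ NT M (D (e i))) V) : ℝ) =
        s1 M * (s1 (D (e i)) * inner ℝ (e i) V) - s1 (D (e i) ∘L M) * inner ℝ (e i) V
        - s1 (D (e i)) * inner ℝ (e i) (M V) - s1 M * inner ℝ (e i) (D (e i) V)
        + inner ℝ (e i) (D (e i) (M V)) + inner ℝ (e i) (M (D (e i) V)) := by
      intro i
      rw [newt_NT_deriv]
      simp only [_root_.add_apply, _root_.sub_apply,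
        _root_.smul_apply, ContinuousLinearMap.id_apply,
        ContinuousLinearMap.comp_apply, inner_add_right, inner_sub_right, inner_smul_right]
      ring
    simp only [hterm, Finset.sum_add_distrib, Finset.sum_sub_distrib, ← Finset.mul_sum, t1, t2, t3,
      t4]
    rw [newt_s1_comm M (D V)]
    ring
  rw [key, add_zero]

end Pool.Agent.HVM
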