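import Mathlib

/-! # The numerical deduction (module NUM) -/

set_option autoImplicit false

namespace Pool.Agent.HVM

/-- from the inequalities for `F`, `G`, `V = F + G` to the two orders of magnitude -/
theorem num_lower (c : ℝ) (hc : 0 < c) : ∃ c' : ℝ, 0 < c' ∧ ∀ a b F G : ℝ, 0 < a → 0 < b →
    0 ≤ F → 0 ≤ G → c ≤ F + G → c ≤ F * (F + G) → c ≤ G ^ 5 * (F + G) ^ 7 →
    (b ≤ a → c' * Real.sqrt (a * b) ≤ a * F + b * G) ∧
    (a ≤ b → c' * (a ^ ((7 : ℝ) / 12) * b ^ ((5 : ℝ) / 12)) ≤ a * F + b * G) := by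
  refine ⟨min (Real.sqrt c) (c ^ ((1 : ℝ) / 12)), lt_min (Real.sqrt_pos.2 hc) (Real.rpow_pos_of_pos hc _), ?_⟩
  intro a b F G ha hb hF hG _ h2 h3
  have hV : 0 ≤ F + G := add_nonneg hF hG
  have hX : 0 ≤ a * F + b * G := add_nonneg (mul_nonneg ha.le hF) (mul_nonneg hb.le hG)
  constructor
  · intro hba
    have h5 : Real.sqrt c * Real.sqrt (a * b) ≤ a * F + b * G := by
      rw [← Real.sqrt_mul hc.le]
      apply Real.sqrt_le_iff.2
      refine ⟨hX, ?_⟩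
      have h6 : a * F ≤ a * F + b * G := le_add_of_nonneg_right (mul_nonneg hb.le hG)
      have h7 : b * (F + G) ≤ a * F + b * G := by nlinarith [mul_le_mul_of_nonneg_right hba hF]
      calc c * (a * b) ≤ (F * (F + G)) * (a * b) :=
            mul_le_mul_of_nonneg_right h2 (mul_nonneg ha.le hb.le)
        _ = (a * F) * (b * (F + G)) := by ring
        _ ≤ (a * F + b * G) * (a * F + b * G) :=
            mul_le_mul h6 h7 (mul_nonneg hb.le hV) hX
        _ = (a * F + b * G) ^ 2 := by ring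
    exact le_trans (mul_le_mul_of_nonneg_right (min_le_left _ _) (Real.sqrt_nonneg _)) h5
  · intro hab
    have h6 : b * G ≤ a * F + b * G := le_add_of_nonneg_left (mul_nonneg ha.le hF)
    have h7 : a * (F + G) ≤ a * F + b * G := by nlinarith [mul_le_mul_of_nonneg_right hab hG]
    have h8 : c * (a ^ 7 * b ^ 5) ≤ (a * F + b * G) ^ 12 := by
      calc c * (a ^ 7 * b ^ 5) ≤ (G ^ 5 * (F + G) ^ 7) * (a ^ 7 * b ^ 5) :=
            mul_le_mul_of_nonneg_right h3 (mul_nonneg (pow_nonneg ha.le _) (pow_nonneg hb.le _))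
        _ = (b * G) ^ 5 * (a * (F + G)) ^ 7 := by ring
        _ ≤ (a * F + b * G) ^ 5 * (a * F + b * G) ^ 7 :=
            mul_le_mul (pow_le_pow_left₀ (mul_nonneg hb.le hG) h6 5)
              (pow_le_pow_left₀ (mul_nonneg ha.le hV) h7 7)
              (pow_nonneg (mul_nonneg ha.le hV) _) (pow_nonneg hX _)
        _ = (a * F + b * G) ^ 12 := by ring
    have key : c ^ ((1 : ℝ) / 12) * (a ^ ((7 : ℝ) / 12) * b ^ ((5 : ℝ) / 12)) ≤ a * F + b * G := by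
      have hL : 0 ≤ c ^ ((1 : ℝ) / 12) * (a ^ ((7 : ℝ) / 12) * b ^ ((5 : ℝ) / 12)) := by positivity
      refine le_of_pow_le_pow_left₀ (n := 12) (by norm_num) hX ?_
      have e1 : (c ^ ((1 : ℝ) / 12)) ^ 12 = c := by
        rw [← Real.rpow_natCast, ← Real.rpow_mul hc.le]
        norm_num
      have e2 : (a ^ ((7 : ℝ) / 12)) ^ 12 = a ^ 7 := by
        rw [← Real.rpow_natCast, ← Real.rpow_mul ha.le, ← Real.rpow_natCast]
        norm_num
      have e3 : (b ^ ((5 : ℝ) / 12)) ^ 12 = b ^ 5 := by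
        rw [← Real.rpow_natCast, ← Real.rpow_mul hb.le, ← Real.rpow_natCast]
        norm_num
      rw [mul_pow, mul_pow, e1, e2, e3]
      exact h8
    refine le_trans (mul_le_mul_of_nonneg_right (min_le_right _ _) ?_) key
    positivity

/-- choice of the parameter in the upper bound -/
theorem num_upper (a b : ℝ) (ha : 0 < a) (hab : a ≤ b) : ∃ t : ℝ, 1 ≤ t ∧
    a * t = a ^ ((7 : ℝ) / 12) * b ^ ((5 : ℝ) / 12) ∧
    b * t ^ (-(7 : ℝ) / 5) = a ^ ((7 : ℝ) / 12) * b ^ ((5 : ℝ) / 12) := by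
  have hb : 0 < b := lt_of_lt_of_le ha hab
  refine ⟨(b / a) ^ ((5 : ℝ) / 12), ?_, ?_, ?_⟩
  · exact Real.one_le_rpow ((one_le_div ha).2 hab) (by norm_num)
  · rw [Real.div_rpow hb.le ha.le]
    have h1 : a = a ^ ((7 : ℝ) / 12) * a ^ ((5 : ℝ) / 12) := by
      rw [← Real.rpow_add ha]; norm_num
    have h2 : 0 < a ^ ((5 : ℝ) / 12) := Real.rpow_pos_of_pos ha _
    calc a * (b ^ ((5 : ℝ) / 12) / a ^ ((5 : ℝ) / 12))
        = (a ^ ((7 : ℝ) / 12) * a ^ ((5 : ℝ) / 12)) * (b ^ ((5 : ℝ) / 12) / a ^ ((5 : ℝ) / 12)) := by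
          rw [← h1]
      _ = a ^ ((7 : ℝ) / 12) * b ^ ((5 : ℝ) / 12) := by
          field_simp
  · rw [← Real.rpow_mul (div_pos hb ha).le, Real.div_rpow hb.le ha.le]
    have e : (5 : ℝ) / 12 * (-(7 : ℝ) / 5) = -(7 / 12) := by norm_num
    rw [e, Real.rpow_neg hb.le, Real.rpow_neg ha.le]
    have h1 : b = b ^ ((7 : ℝ) / 12) * b ^ ((5 : ℝ) / 12) := by
      rw [← Real.rpow_add hb]; norm_num
    have h2 : 0 < b ^ ((7 : ℝ) / 12) := Real.rpow_pos_of_pos hb _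
    have h3 : 0 < a ^ ((7 : ℝ) / 12) := Real.rpow_pos_of_pos ha _
    calc b * ((b ^ ((7 : ℝ) / 12))⁻¹ / (a ^ ((7 : ℝ) / 12))⁻¹)
        = (b ^ ((7 : ℝ) / 12) * b ^ ((5 : ℝ) / 12)) * ((b ^ ((7 : ℝ) / 12))⁻¹ / (a ^ ((7 : ℝ) / 12))⁻¹) := by
          rw [← h1]
      _ = a ^ ((7 : ℝ) / 12) * b ^ ((5 : ℝ) / 12) := by
          field_simp

end Pool.Agent.HVM
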