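import Pool.Agent.HVM.Cont

/-! # Smooth perturbations of the unit ball (module PERT1) -/

set_option autoImplicit false

namespace Pool.Agent.HVM

open MeasureTheory Metric Set Filter Topology
open Pool.Agent.Helper85.Herm Pool.Agent.Helper85.Cap

/-- `C^3` off the origin and positively homogeneous of degree one -/
structure Pert (φ : C2 → ℝ) : Prop where
  smooth : ContDiffOn ℝ 3 φ {0}ᶜ
  homog : ∀ (c : ℝ) (w : C2), 0 < c → φ (c • w) = c * φ w

/-- the perturbed norm -/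
noncomputable def pn (φ : C2 → ℝ) (ε : ℝ) (w : C2) : ℝ := ‖w‖ + ε * φ w

theorem Pert.cda {φ : C2 → ℝ} (h : Pert φ) {w : C2} (hw : w ≠ 0) : ContDiffAt ℝ 3 φ w :=
  h.smooth.contDiffAt (calc_nhds hw)

theorem Pert.da {φ : C2 → ℝ} (h : Pert φ) {w : C2} (hw : w ≠ 0) : DifferentiableAt ℝ φ w :=
  (h.cda hw).differentiableAt (by norm_num)

theorem Pert.gradient_contDiffOn {φ : C2 → ℝ} (h : Pert φ) :
    ContDiffOn ℝ 2 (gradient φ) {0}ᶜ := by
  rw [calc_grad]
  exact (calcT C2).contDiff.comp_contDiffOn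
    (h.smooth.fderiv_of_isOpen isOpen_compl_singleton (by norm_num))

theorem Pert.hasFDerivAt_gradient {φ : C2 → ℝ} (h : Pert φ) {w : C2} (hw : w ≠ 0) :
    HasFDerivAt (gradient φ) (hess φ w) w :=
  ((h.gradient_contDiffOn.contDiffAt (calc_nhds hw)).differentiableAt (by norm_num)).hasFDerivAt

theorem Pert.hess_contDiffOn {φ : C2 → ℝ} (h : Pert φ) : ContDiffOn ℝ 1 (hess φ) {0}ᶜ :=
  h.gradient_contDiffOn.fderiv_of_isOpen isOpen_compl_singleton (by norm_num)

theorem Pert.gradient_smul {φ : C2 → ℝ} (h : Pert φ) (c : ℝ) (hc : 0 < c) (w : C2) (hw : w ≠ 0) :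
    gradient φ (c • w) = gradient φ w := by
  have hcw : c • w ≠ 0 := smul_ne_zero hc.ne' hw
  have h1 : HasFDerivAt (fun z => φ (c • z))
      ((fderiv ℝ φ (c • w)).comp (c • ContinuousLinearMap.id ℝ C2)) w := by
    refine HasFDerivAt.comp w (h.da hcw).hasFDerivAt ?_
    exact (hasFDerivAt_id w).const_smul c
  have h2 : HasFDerivAt (fun z => φ (c • z)) (c • fderiv ℝ φ w) w := by
    have h3 := (h.da hw).hasFDerivAt.const_mul c
    refine h3.congr_of_eventuallyEq (Eventually.of_forall fun z => ?_)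
    exact h.homog c z hc
  have h4 := h1.unique h2
  have h5 : fderiv ℝ φ (c • w) = fderiv ℝ φ w := by
    ext v
    have h6 := DFunLike.congr_fun h4 v
    simp only [ContinuousLinearMap.comp_apply, smul_apply, ContinuousLinearMap.id_apply,
      map_smul, smul_eq_mul] at h6
    exact mul_left_cancel₀ hc.ne' h6
  rw [calc_grad]
  simp only [h5]

theorem Pert.gradient_inner {φ : C2 → ℝ} (h : Pert φ) {w : C2} (hw : w ≠ 0) :
    inner ℝ (gradient φ w) w = φ w := by
  have h1 : HasDerivAt (fun c : ℝ => φ (c • w)) (fderiv ℝ φ w w) 1 := by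
    have h0 : HasDerivAt (fun c : ℝ => c • w) w 1 := by
      have := (hasDerivAt_id (1 : ℝ)).smul_const w
      rwa [one_smul] at this
    have h2 : HasFDerivAt φ (fderiv ℝ φ w) ((1 : ℝ) • w) := by
      rw [one_smul]
      exact (h.da hw).hasFDerivAt
    exact h2.comp_hasDerivAt 1 h0
  have h2 : HasDerivAt (fun c : ℝ => φ (c • w)) (φ w) 1 := by
    have h3 : HasDerivAt (fun c : ℝ => c * φ w) (1 * φ w) 1 := (hasDerivAt_id (1 : ℝ)).mul_const _
    rw [one_mul] at h3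
    refine h3.congr_of_eventuallyEq ?_
    filter_upwards [isOpen_Ioi.mem_nhds (zero_lt_one : (0 : ℝ) < 1)] with c hc
    exact h.homog c w hc
  rw [← calc_fderiv]
  exact h1.unique h2

theorem Pert.hess_self {φ : C2 → ℝ} (h : Pert φ) {w : C2} (hw : w ≠ 0) : hess φ w w = 0 := by
  have h1 : HasDerivAt (fun c : ℝ => gradient φ (c • w)) (hess φ w w) 1 := by
    have h0 : HasDerivAt (fun c : ℝ => c • w) w 1 := by
      have := (hasDerivAt_id (1 : ℝ)).smul_const w
      rwa [one_smul] at this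
    have h2 : HasFDerivAt (gradient φ) (hess φ w) ((1 : ℝ) • w) := by
      rw [one_smul]
      exact h.hasFDerivAt_gradient hw
    exact h2.comp_hasDerivAt 1 h0
  have h2 : HasDerivAt (fun c : ℝ => gradient φ (c • w)) 0 1 := by
    refine (hasDerivAt_const (1 : ℝ) (gradient φ w)).congr_of_eventuallyEq ?_
    filter_upwards [isOpen_Ioi.mem_nhds (zero_lt_one : (0 : ℝ) < 1)] with c hc
    exact h.gradient_smul c hc w hw
  exact h1.unique h2

theorem Pert.hess_symm {φ : C2 → ℝ} (h : Pert φ) {w : C2} (hw : w ≠ 0) (a b : C2) :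
    inner ℝ (hess φ w a) b = inner ℝ a (hess φ w b) := by
  have h0 : DifferentiableAt ℝ (fderiv ℝ φ) w :=
    ((h.smooth.fderiv_of_isOpen isOpen_compl_singleton (m := 2) (by norm_num)).contDiffAt
      (calc_nhds hw)).differentiableAt (by norm_num)
  have h1 : hess φ w = (calcT C2).comp (fderiv ℝ (fderiv ℝ φ) w) := by
    have h2 : HasFDerivAt (gradient φ) ((calcT C2).comp (fderiv ℝ (fderiv ℝ φ) w)) w := by
      rw [calc_grad]
      exact (calcT C2).hasFDerivAt.comp w h0.hasFDerivAt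
    exact h2.fderiv
  have h3 : ∀ a b, inner ℝ (hess φ w a) b = fderiv ℝ (fderiv ℝ φ) w a b := by
    intro a b
    rw [h1, ContinuousLinearMap.comp_apply, calcT_inner]
  have h4 : IsSymmSndFDerivAt ℝ φ w :=
    (h.cda hw).isSymmSndFDerivAt (by
      rw [minSmoothness_of_isRCLikeNormedField]
      exact_mod_cast (by norm_num : (2 : ℕ) ≤ 3))
  rw [h3, real_inner_comm, h3]
  exact h4 a b

theorem Pert.hess_smul {φ : C2 → ℝ} (h : Pert φ) (c : ℝ) (hc : 0 < c) (w : C2) (hw : w ≠ 0) :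
    hess φ (c • w) = c⁻¹ • hess φ w := by
  have hcw : c • w ≠ 0 := smul_ne_zero hc.ne' hw
  have h1 : HasFDerivAt (fun z => gradient φ (c • z))
      ((hess φ (c • w)).comp (c • ContinuousLinearMap.id ℝ C2)) w := by
    refine HasFDerivAt.comp w (h.hasFDerivAt_gradient hcw) ?_
    exact (hasFDerivAt_id w).const_smul c
  have h2 : HasFDerivAt (fun z => gradient φ (c • z)) (hess φ w) w := by
    refine (h.hasFDerivAt_gradient hw).congr_of_eventuallyEq ?_
    filter_upwards [calc_nhds hw] with z hz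
    exact h.gradient_smul c hc z hz
  have h4 := h1.unique h2
  ext v
  have h6 := DFunLike.congr_fun h4 v
  simp only [ContinuousLinearMap.comp_apply, smul_apply, ContinuousLinearMap.id_apply,
    map_smul] at h6
  rw [smul_apply, ← h6, smul_smul, inv_mul_cancel₀ hc.ne', one_smul]

theorem pert_sphere_ne {n : C2} (hn : n ∈ sphere (0 : C2) 1) : n ≠ 0 :=
  ne_zero_of_mem_unit_sphere ⟨n, hn⟩

/-- uniform bounds on the sphere -/
theorem Pert.bdd {φ : C2 → ℝ} (h : Pert φ) : ∃ C : ℝ, 0 < C ∧ ∀ n : C2, ‖n‖ = 1 →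
    |φ n| ≤ C ∧ ‖gradient φ n‖ ≤ C ∧ ‖hess φ n‖ ≤ C := by
  have hsub : sphere (0 : C2) 1 ⊆ {0}ᶜ := fun n hn => pert_sphere_ne hn
  obtain ⟨A, hA⟩ := (isCompact_sphere (0 : C2) 1).exists_bound_of_continuousOn
    (h.smooth.continuousOn.mono hsub)
  obtain ⟨B, hB⟩ := (isCompact_sphere (0 : C2) 1).exists_bound_of_continuousOn
    (h.gradient_contDiffOn.continuousOn.mono hsub)
  obtain ⟨C, hC⟩ := (isCompact_sphere (0 : C2) 1).exists_bound_of_continuousOn
    (h.hess_contDiffOn.continuousOn.mono hsub)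
  refine ⟨|A| + |B| + |C| + 1, by positivity, fun n hn => ?_⟩
  have hn' : n ∈ sphere (0 : C2) 1 := mem_sphere_zero_iff_norm.2 hn
  have h1 := hA n hn'
  have h2 := hB n hn'
  have h3 := hC n hn'
  rw [Real.norm_eq_abs] at h1
  have a1 := le_abs_self A
  have a2 := le_abs_self B
  have a3 := le_abs_self C
  have b1 := abs_nonneg A
  have b2 := abs_nonneg B
  have b3 := abs_nonneg C
  refine ⟨by linarith, by linarith, by linarith⟩

theorem pert_norm_hasFDerivAt {w : C2} (hw : w ≠ 0) :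
    HasFDerivAt (fun z : C2 => ‖z‖) (‖w‖⁻¹ • innerSL ℝ w) w := by
  have h1 : HasFDerivAt (fun z : C2 => ‖z‖ ^ 2) (2 • innerSL ℝ w) w :=
    (hasStrictFDerivAt_norm_sq w).hasFDerivAt
  have hn : ‖w‖ ≠ 0 := norm_ne_zero_iff.2 hw
  have h2 := h1.sqrt (pow_ne_zero 2 hn)
  have h3 : (fun z : C2 => Real.sqrt (‖z‖ ^ 2)) = fun z => ‖z‖ := by
    funext z
    exact Real.sqrt_sq (norm_nonneg z)
  rw [h3, Real.sqrt_sq (norm_nonneg w)] at h2
  refine h2.congr_fderiv ?_
  rw [← Nat.cast_smul_eq_nsmul ℝ, smul_smul]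
  congr 1
  push_cast
  field_simp

theorem pn_pert {φ : C2 → ℝ} (h : Pert φ) (ε : ℝ) : Pert (pn φ ε) := by
  refine ⟨?_, ?_⟩
  · have h1 : ContDiffOn ℝ 3 (fun w : C2 => ‖w‖) {0}ᶜ := by
      intro w hw
      exact (contDiffAt_norm ℝ hw).contDiffWithinAt
    exact h1.add (contDiffOn_const.mul h.smooth)
  · intro c w hc
    simp only [pn]
    rw [norm_smul, Real.norm_eq_abs, abs_of_pos hc, h.homog c w hc]
    ring

theorem pn_gradient {φ : C2 → ℝ} (h : Pert φ) (ε : ℝ) {w : C2} (hw : w ≠ 0) :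
    gradient (pn φ ε) w = ‖w‖⁻¹ • w + ε • gradient φ w := by
  have h1 : HasFDerivAt (pn φ ε) (‖w‖⁻¹ • innerSL ℝ w + ε • fderiv ℝ φ w) w :=
    (pert_norm_hasFDerivAt hw).add ((h.da hw).hasFDerivAt.const_mul ε)
  refine ext_inner_right ℝ fun v => ?_
  rw [← calc_fderiv, h1.fderiv, inner_add_left, real_inner_smul_left, real_inner_smul_left,
    ← calc_fderiv]
  simp

theorem pn_hess {φ : C2 → ℝ} (h : Pert φ) (ε : ℝ) {n : C2} (hn : ‖n‖ = 1) :
    hess (pn φ ε) n = ContinuousLinearMap.id ℝ C2 - rk n n + ε • hess φ n := by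
  have hn0 : n ≠ 0 := pert_sphere_ne (mem_sphere_zero_iff_norm.2 hn)
  have h1 : HasFDerivAt (fun w : C2 => ‖w‖⁻¹) (-(‖n‖ ^ 2)⁻¹ • (‖n‖⁻¹ • innerSL ℝ n)) n := by
    have h2 := (hasDerivAt_inv (norm_ne_zero_iff.2 hn0)).comp_hasFDerivAt n (pert_norm_hasFDerivAt hn0)
    exact h2
  have h2 : HasFDerivAt (fun w : C2 => ‖w‖⁻¹ • w + ε • gradient φ w)
      ((‖n‖⁻¹ • ContinuousLinearMap.id ℝ C2 +
        (-(‖n‖ ^ 2)⁻¹ • (‖n‖⁻¹ • innerSL ℝ n)).smulRight n) + ε • hess φ n) n :=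
    (h1.smul (hasFDerivAt_id n)).add ((h.hasFDerivAt_gradient hn0).const_smul ε)
  have h3 : HasFDerivAt (gradient (pn φ ε))
      ((‖n‖⁻¹ • ContinuousLinearMap.id ℝ C2 +
        (-(‖n‖ ^ 2)⁻¹ • (‖n‖⁻¹ • innerSL ℝ n)).smulRight n) + ε • hess φ n) n := by
    refine h2.congr_of_eventuallyEq ?_
    filter_upwards [calc_nhds hn0] with z hz
    exact pn_gradient h ε hz
  have h4 : hess (pn φ ε) n = (‖n‖⁻¹ • ContinuousLinearMap.id ℝ C2 +
        (-(‖n‖ ^ 2)⁻¹ • (‖n‖⁻¹ • innerSL ℝ n)).smulRight n) + ε • hess φ n := h3.fderiv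
  rw [h4, hn]
  congr 1
  refine ContinuousLinearMap.ext fun v => ?_
  have e : (-((1 : ℝ) ^ 2)⁻¹ • ((1 : ℝ)⁻¹ • innerSL ℝ n)) v = - inner ℝ n v := by
    simp
  simp only [add_apply, sub_apply, ContinuousLinearMap.id_apply,
    ContinuousLinearMap.smulRight_apply, innerSL_apply_apply, rk]
  rw [e, inv_one, one_smul, ContinuousLinearMap.id_apply, neg_smul, sub_eq_add_neg]

/-- quadratic form of the Hessian of the perturbed norm -/
theorem pn_hess_form {φ : C2 → ℝ} (h : Pert φ) (ε : ℝ) {w : C2} (hw : w ≠ 0) (v : C2) :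
    inner ℝ (hess (pn φ ε) w v) v = ‖w‖⁻¹ * (‖v‖ ^ 2 - (inner ℝ (‖w‖⁻¹ • w) v) ^ 2 +
      ε * inner ℝ (hess φ (‖w‖⁻¹ • w) v) v) := by
  have hnw : 0 < ‖w‖ := norm_pos_iff.2 hw
  obtain ⟨n, hnd⟩ : ∃ n : C2, n = ‖w‖⁻¹ • w := ⟨_, rfl⟩
  have hn : ‖n‖ = 1 := by
    rw [hnd, norm_smul, norm_inv, norm_norm, inv_mul_cancel₀ hnw.ne']
  have hn0 : n ≠ 0 := pert_sphere_ne (mem_sphere_zero_iff_norm.2 hn)
  have hwn : w = ‖w‖ • n := by rw [hnd, smul_smul, mul_inv_cancel₀ hnw.ne', one_smul]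
  have h1 : hess (pn φ ε) w = ‖w‖⁻¹ • hess (pn φ ε) n := by
    conv_lhs => rw [hwn]
    exact (pn_pert h ε).hess_smul _ hnw n hn0
  rw [← hnd, h1, pn_hess h ε hn]
  simp only [smul_apply, add_apply, sub_apply, ContinuousLinearMap.id_apply, rk,
    ContinuousLinearMap.smulRight_apply, innerSL_apply_apply]
  rw [real_inner_smul_left, inner_add_left, inner_sub_left, real_inner_smul_left,
    real_inner_smul_left, real_inner_self_eq_norm_sq]
  ring

/-- homogeneous functions with nonnegative Hessian are subadditive -/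
theorem Pert.subadd {f : C2 → ℝ} (h : Pert f) (hpos : ∀ w, 0 ≤ f w)
    (hh : ∀ w v : C2, w ≠ 0 → 0 ≤ inner ℝ (hess f w v) v) (v w : C2) : f (v + w) ≤ f v + f w := by
  have h00 : f 0 = 0 := by
    have := h.homog 2 0 (by norm_num)
    rw [smul_zero] at this
    linarith
  by_cases hv : v = 0
  · rw [hv, zero_add, h00, zero_add]
  by_cases hw : w = 0
  · rw [hw, add_zero, h00, add_zero]
  by_cases hseg : ∃ t : ℝ, t ∈ Icc (0 : ℝ) 1 ∧ v + t • (w - v) = 0
  · obtain ⟨t, ht, h0⟩ := hseg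
    have ht0 : t ≠ 0 := by
      rintro rfl
      rw [zero_smul, add_zero] at h0
      exact hv h0
    have ht1 : t ≠ 1 := by
      rintro rfl
      rw [one_smul] at h0
      apply hw
      rw [← h0]
      abel
    have ht0' : 0 < t := lt_of_le_of_ne ht.1 (Ne.symm ht0)
    have ht1' : 0 < 1 - t := by
      have := lt_of_le_of_ne ht.2 ht1
      linarith
    obtain ⟨c, hcd⟩ : ∃ c : ℝ, c = t / (1 - t) := ⟨_, rfl⟩
    have hc : 0 < c := by rw [hcd]; exact div_pos ht0' ht1'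
    have h1 : (1 - t) • v + t • w = 0 := by
      rw [← h0]
      module
    have hvc : v = c • (-w) := by
      have h2 : (1 - t) • v = t • (-w) := by
        rw [smul_neg]
        exact eq_neg_of_add_eq_zero_left h1
      have h3 : v = (1 - t)⁻¹ • ((1 - t) • v) := by
        rw [smul_smul, inv_mul_cancel₀ ht1'.ne', one_smul]
      rw [h3, h2, smul_smul, hcd]
      congr 1
      field_simp
    have hfv : f v = c * f (-w) := by rw [hvc, h.homog c _ hc]
    have hsum : v + w = (1 - c) • w := by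
      rw [hvc]
      module
    rcases lt_trichotomy c 1 with hc1 | hc1 | hc1
    · rw [hsum, h.homog _ _ (by linarith)]
      have := hpos v
      have := hpos w
      nlinarith
    · rw [hsum, hc1, sub_self, zero_smul, h00]
      exact add_nonneg (hpos v) (hpos w)
    · have h5 : (1 - c) • w = (c - 1) • (-w) := by module
      rw [hsum, h5, h.homog _ _ (by linarith), hfv]
      have := hpos (-w)
      have := hpos w
      nlinarith
  · push Not at hseg
    have hne : ∀ t ∈ Icc (0 : ℝ) 1, v + t • (w - v) ≠ 0 := hseg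
    have hcurve : ∀ t : ℝ, HasDerivAt (fun s : ℝ => v + s • (w - v)) (w - v) t := by
      intro t
      have := ((hasDerivAt_id t).smul_const (w - v)).const_add v
      rwa [one_smul] at this
    have hd1 : ∀ t ∈ Icc (0 : ℝ) 1, HasDerivAt (fun s : ℝ => f (v + s • (w - v)))
        (inner ℝ (gradient f (v + t • (w - v))) (w - v)) t := by
      intro t ht
      rw [← calc_fderiv]
      exact (h.da (hne t ht)).hasFDerivAt.comp_hasDerivAt t (hcurve t)
    have hd2 : ∀ t ∈ Icc (0 : ℝ) 1,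
        HasDerivAt (fun s : ℝ => inner ℝ (gradient f (v + s • (w - v))) (w - v))
        (inner ℝ (hess f (v + t • (w - v)) (w - v)) (w - v)) t := by
      intro t ht
      have h1 : HasDerivAt (fun s : ℝ => gradient f (v + s • (w - v)))
          (hess f (v + t • (w - v)) (w - v)) t := by
        have h0 := (h.hasFDerivAt_gradient (hne t ht)).comp_hasDerivAt t (hcurve t)
        exact h0
      have h2 := h1.inner ℝ (hasDerivAt_const t (w - v))
      simpa using h2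
    have hint : interior (Icc (0 : ℝ) 1) ⊆ Icc 0 1 := interior_subset
    have hconv : ConvexOn ℝ (Icc (0 : ℝ) 1) (fun s : ℝ => f (v + s • (w - v))) := by
      refine convexOn_of_hasDerivWithinAt2_nonneg (convex_Icc 0 1)
        (f' := fun s => inner ℝ (gradient f (v + s • (w - v))) (w - v))
        (f'' := fun s => inner ℝ (hess f (v + s • (w - v)) (w - v)) (w - v)) ?_ ?_ ?_ ?_
      · exact fun t ht => (hd1 t ht).continuousAt.continuousWithinAt
      · exact fun t ht => (hd1 t (hint ht)).hasDerivWithinAt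
      · exact fun t ht => (hd2 t (hint ht)).hasDerivWithinAt
      · exact fun t ht => hh _ _ (hne t (hint ht))
    have h1 := hconv.2 (show (0 : ℝ) ∈ Icc (0 : ℝ) 1 from ⟨le_refl _, zero_le_one⟩)
      (show (1 : ℝ) ∈ Icc (0 : ℝ) 1 from ⟨zero_le_one, le_refl _⟩)
      (show (0 : ℝ) ≤ 1 / 2 by norm_num) (show (0 : ℝ) ≤ 1 / 2 by norm_num) (by norm_num)
    simp only [smul_eq_mul, mul_zero, mul_one, zero_add, zero_smul, add_zero, one_smul] at h1
    have h2 : v + (1 / 2 : ℝ) • (w - v) = (1 / 2 : ℝ) • (v + w) := by module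
    have h3 : v + (w - v) = w := by abel
    rw [h2, h3, h.homog _ _ (by norm_num)] at h1
    linarith

theorem pn_smoothSupp {φ : C2 → ℝ} (h : Pert φ) :
    ∃ ε₀ : ℝ, 0 < ε₀ ∧ ∀ ε : ℝ, |ε| ≤ ε₀ → SmoothSupp (pn φ ε) := by
  obtain ⟨C, hC, hb⟩ := h.bdd
  refine ⟨1 / (2 * C), by positivity, fun ε hε => ?_⟩
  have hεC : |ε| * C ≤ 1 / 2 := by
    calc |ε| * C ≤ 1 / (2 * C) * C := mul_le_mul_of_nonneg_right hε hC.le
      _ = 1 / 2 := by field_simp
  have hp := pn_pert h ε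
  have h00 : φ 0 = 0 := by
    have := h.homog 2 0 (by norm_num)
    rw [smul_zero] at this
    linarith
  have hunit : ∀ w : C2, w ≠ 0 → ‖(‖w‖⁻¹ • w)‖ = 1 := by
    intro w hw
    rw [norm_smul, norm_inv, norm_norm, inv_mul_cancel₀ (norm_ne_zero_iff.2 hw)]
  have hφ : ∀ w : C2, |φ w| ≤ C * ‖w‖ := by
    intro w
    by_cases hw : w = 0
    · rw [hw, h00, norm_zero, mul_zero, abs_zero]
    · have hnw : 0 < ‖w‖ := norm_pos_iff.2 hw
      have h1 : w = ‖w‖ • (‖w‖⁻¹ • w) := by rw [smul_smul, mul_inv_cancel₀ hnw.ne', one_smul]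
      have h2 : φ w = ‖w‖ * φ (‖w‖⁻¹ • w) := by
        conv_lhs => rw [h1]
        exact h.homog _ _ hnw
      rw [h2, abs_mul, abs_of_pos hnw, mul_comm]
      exact mul_le_mul_of_nonneg_right (hb _ (hunit w hw)).1 hnw.le
  have hlow : ∀ w : C2, ‖w‖ / 2 ≤ pn φ ε w := by
    intro w
    unfold pn
    have h1 : |ε * φ w| ≤ ‖w‖ / 2 := by
      rw [abs_mul]
      calc |ε| * |φ w| ≤ |ε| * (C * ‖w‖) := mul_le_mul_of_nonneg_left (hφ w) (abs_nonneg _)
        _ = (|ε| * C) * ‖w‖ := by ring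
        _ ≤ 1 / 2 * ‖w‖ := mul_le_mul_of_nonneg_right hεC (norm_nonneg _)
        _ = ‖w‖ / 2 := by ring
    have h2 := (abs_le.1 h1).1
    linarith
  have hform : ∀ w v : C2, w ≠ 0 → ‖w‖⁻¹ * (‖v‖ ^ 2 / 2 - (inner ℝ (‖w‖⁻¹ • w) v) ^ 2) ≤
      inner ℝ (hess (pn φ ε) w v) v := by
    intro w v hw
    have hnw : 0 < ‖w‖ := norm_pos_iff.2 hw
    rw [pn_hess_form h ε hw]
    refine mul_le_mul_of_nonneg_left ?_ (inv_nonneg.2 hnw.le)
    have h1 : |ε * inner ℝ (hess φ (‖w‖⁻¹ • w) v) v| ≤ ‖v‖ ^ 2 / 2 := by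
      rw [abs_mul]
      have h2 : |inner ℝ (hess φ (‖w‖⁻¹ • w) v) v| ≤ C * ‖v‖ ^ 2 := by
        refine (abs_real_inner_le_norm _ _).trans ?_
        have h3 := (hess φ (‖w‖⁻¹ • w)).le_opNorm v
        have h4 := (hb _ (hunit w hw)).2.2
        calc ‖hess φ (‖w‖⁻¹ • w) v‖ * ‖v‖ ≤ (‖hess φ (‖w‖⁻¹ • w)‖ * ‖v‖) * ‖v‖ :=
              mul_le_mul_of_nonneg_right h3 (norm_nonneg _)
          _ ≤ (C * ‖v‖) * ‖v‖ := mul_le_mul_of_nonneg_right
              (mul_le_mul_of_nonneg_right h4 (norm_nonneg _)) (norm_nonneg _)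
          _ = C * ‖v‖ ^ 2 := by ring
      calc |ε| * |inner ℝ (hess φ (‖w‖⁻¹ • w) v) v| ≤ |ε| * (C * ‖v‖ ^ 2) :=
            mul_le_mul_of_nonneg_left h2 (abs_nonneg _)
        _ = (|ε| * C) * ‖v‖ ^ 2 := by ring
        _ ≤ 1 / 2 * ‖v‖ ^ 2 := mul_le_mul_of_nonneg_right hεC (by positivity)
        _ = ‖v‖ ^ 2 / 2 := by ring
    have h2 := (abs_le.1 h1).1
    linarith
  have hstrict : ∀ w v : C2, w ≠ 0 → inner ℝ v w = 0 → v ≠ 0 →
      0 < inner ℝ (hess (pn φ ε) w v) v := by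
    intro w v hw hvw hv
    refine lt_of_lt_of_le ?_ (hform w v hw)
    have hnw : 0 < ‖w‖ := norm_pos_iff.2 hw
    have hnv : 0 < ‖v‖ := norm_pos_iff.2 hv
    rw [real_inner_smul_left, real_inner_comm, hvw, mul_zero]
    have h5 : (0 : ℝ) < ‖v‖ ^ 2 / 2 := by positivity
    refine mul_pos (inv_pos.2 hnw) ?_
    simpa using h5
  have hnonneg : ∀ w v : C2, w ≠ 0 → 0 ≤ inner ℝ (hess (pn φ ε) w v) v := by
    intro w v hw
    obtain ⟨c, v', rfl, hv'⟩ := calc_decomp hw v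
    have h1 : hess (pn φ ε) w (c • w + v') = hess (pn φ ε) w v' := by
      rw [map_add, map_smul, hp.hess_self hw, smul_zero, zero_add]
    rw [h1, inner_add_right, real_inner_smul_right, hp.hess_symm hw, hp.hess_self hw,
      inner_zero_right, mul_zero, zero_add]
    by_cases h0 : v' = 0
    · rw [h0, inner_zero_right]
    · exact (hstrict w v' hw hv' h0).le
  refine ⟨hp.smooth, ?_, hp.homog, ?_, ?_, hstrict⟩
  · simp [pn, h00]
  · intro w hw
    have := hlow w
    have hnw : 0 < ‖w‖ := norm_pos_iff.2 hw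
    linarith
  · refine hp.subadd (fun w => ?_) hnonneg
    have := hlow w
    have := norm_nonneg w
    linarith

end Pool.Agent.HVM
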