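import Pool.Agent.HVM.Pert1
import Pool.Agent.HVM.KeyC

/-! # The valuations of a perturbed ball (module PERT2) -/

set_option autoImplicit false

namespace Pool.Agent.HVM

open MeasureTheory Metric Set
open Pool.Agent.Helper85.Herm Pool.Agent.Helper85.Cap

theorem pert2_vol_ball : (volume : Measure C2) (ball (0 : C2) 1) =
    ENNReal.ofReal (Real.pi ^ 2 / 2) := by
  rw [EuclideanSpace.volume_ball, ENNReal.ofReal_one, one_pow, one_mul]
  congr 1
  have hG : Real.Gamma ((Fintype.card (Fin 4) : ℝ) / 2 + 1) = 2 := by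
    have : (Fintype.card (Fin 4) : ℝ) / 2 + 1 = ((2 : ℕ) : ℝ) + 1 := by norm_num
    rw [this, Real.Gamma_nat_eq_factorial]
    norm_num
  rw [hG]
  have hs : Real.sqrt Real.pi ^ Fintype.card (Fin 4) = Real.pi ^ 2 := by
    have : Fintype.card (Fin 4) = 2 * 2 := rfl
    rw [this, pow_mul, Real.sq_sqrt Real.pi_pos.le]
  rw [hs]

theorem sph_one : Sph (fun _ => 1) = 2 * Real.pi ^ 2 := by
  unfold Sph
  rw [integral_const, smul_eq_mul, mul_one, Measure.toSphere_real_apply_univ, measureReal_def,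
    pert2_vol_ball, ENNReal.toReal_ofReal (by positivity)]
  have : (Module.finrank ℝ C2 : ℝ) = 4 := by
    have h4 : Module.finrank ℝ C2 = 4 := finrank_euclideanSpace_fin
    rw [h4]
    norm_num
  rw [this]
  ring

/-- the valuation as a first order quadratic functional -/
theorem muab_smooth {h : C2 → ℝ} (hs : SmoothSupp h) (K : Body) (hK : pts K = wulff h) (a b : ℝ) :
    2 * Real.pi * muab a b K = Sph (fun n => 4 * a * h n ^ 2 + (b - 2 * a) * ‖gradient h n‖ ^ 2
      - 4 * (b - a) * inner ℝ (gradient h n) (J n) ^ 2) := by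
  have h1 := keyc_Mu hs K hK JL J_J
  have h2 := V2_smooth hs K hK
  rw [keyc_s2 hs] at h2
  simp only [JL_coe] at h1
  have cH : ContinuousOn (fun n => 4 * a * h n ^ 2) {0}ᶜ :=
    continuousOn_const.mul (hs.continuous.pow 2).continuousOn
  have cG : ContinuousOn (fun n => (b - 2 * a) * ‖gradient h n‖ ^ 2) {0}ᶜ :=
    continuousOn_const.mul ((gradient_continuousOn hs).norm.pow 2)
  have cQ0 : ContinuousOn (fun n => (inner ℝ (gradient h n) (J n) : ℝ)) {0}ᶜ := keyc_cont_q hs JL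
  have cQ : ContinuousOn (fun n => 4 * (b - a) * (inner ℝ (gradient h n) (J n) : ℝ) ^ 2) {0}ᶜ :=
    continuousOn_const.mul (cQ0.pow 2)
  have cHG : ContinuousOn (fun n => 4 * a * h n ^ 2 + (b - 2 * a) * ‖gradient h n‖ ^ 2) {0}ᶜ :=
    cH.add cG
  rw [sph_sub _ _ cHG cQ, sph_add _ _ cH cG, sph_smul, sph_smul, sph_smul]
  unfold V2 muab at h2
  unfold muab
  linear_combination 4 * (b - a) * h1 + (2 * a - b) * h2

theorem pert_mu {φ : C2 → ℝ} (h : Pert φ) (h0 : Sph φ = 0) (ε : ℝ) (hs : SmoothSupp (pn φ ε))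
    (K : Body) (hK : pts K = wulff (pn φ ε)) (a b : ℝ) :
    2 * Real.pi * muab a b K = (2 * a + b) * (2 * Real.pi ^ 2) +
      ε ^ 2 * (4 * a * Sph (fun n => φ n ^ 2) + (b - 2 * a) * Sph (fun n => ‖gradient φ n‖ ^ 2)
        - 4 * (b - a) * Sph (fun n => inner ℝ (gradient φ n) (J n) ^ 2)) := by
  rw [muab_smooth hs K hK]
  have cφ : ContinuousOn φ {0}ᶜ := h.smooth.continuousOn
  have cg : ContinuousOn (gradient φ) {0}ᶜ := h.gradient_contDiffOn.continuousOn
  have cJ0 : ContinuousOn (fun n => (inner ℝ (gradient φ n) (J n) : ℝ)) {0}ᶜ :=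
    cg.inner (show Continuous (JL : C2 → C2) from JL.continuous).continuousOn
  have c1 : ContinuousOn (fun _ : C2 => (2 * a + b) * (1 : ℝ)) {0}ᶜ := continuousOn_const
  have c2 : ContinuousOn (fun n => (8 * a * ε + 2 * (b - 2 * a) * ε) * φ n) {0}ᶜ :=
    continuousOn_const.mul cφ
  have c3 : ContinuousOn (fun n => (4 * a * ε ^ 2) * φ n ^ 2) {0}ᶜ :=
    continuousOn_const.mul (cφ.pow 2)
  have c4 : ContinuousOn (fun n => ((b - 2 * a) * ε ^ 2) * ‖gradient φ n‖ ^ 2) {0}ᶜ :=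
    continuousOn_const.mul (cg.norm.pow 2)
  have c5 : ContinuousOn (fun n => (4 * (b - a) * ε ^ 2) *
      (inner ℝ (gradient φ n) (J n) : ℝ) ^ 2) {0}ᶜ := continuousOn_const.mul (cJ0.pow 2)
  have e : Sph (fun n => 4 * a * pn φ ε n ^ 2 + (b - 2 * a) * ‖gradient (pn φ ε) n‖ ^ 2
      - 4 * (b - a) * inner ℝ (gradient (pn φ ε) n) (J n) ^ 2) =
      Sph (fun n => (2 * a + b) * 1 + (8 * a * ε + 2 * (b - 2 * a) * ε) * φ n +
        (4 * a * ε ^ 2) * φ n ^ 2 + ((b - 2 * a) * ε ^ 2) * ‖gradient φ n‖ ^ 2 -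
        (4 * (b - a) * ε ^ 2) * (inner ℝ (gradient φ n) (J n) : ℝ) ^ 2) := by
    apply sph_congr
    intro n hn
    have hn0 : n ≠ 0 := by
      intro h0
      rw [h0, norm_zero] at hn
      exact zero_ne_one hn
    have hJ : (inner ℝ n (J n) : ℝ) = 0 := by
      rw [C2_inner]
      simp only [J_apply0, J_apply1, J_apply2, J_apply3]
      ring
    have hg := h.gradient_inner hn0
    have hp : pn φ ε n = 1 + ε * φ n := by
      unfold pn
      rw [hn]
    have hgr : gradient (pn φ ε) n = n + ε • gradient φ n := by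
      rw [pn_gradient h ε hn0, hn, inv_one, one_smul]
    have hN : ‖gradient (pn φ ε) n‖ ^ 2 = 1 + 2 * ε * φ n + ε ^ 2 * ‖gradient φ n‖ ^ 2 := by
      rw [hgr, norm_add_sq_real, inner_smul_right, real_inner_comm, hg, norm_smul, hn, mul_pow,
        Real.norm_eq_abs, sq_abs]
      ring
    have hI : (inner ℝ (gradient (pn φ ε) n) (J n) : ℝ) = ε * inner ℝ (gradient φ n) (J n) := by
      rw [hgr, inner_add_left, hJ, inner_smul_left, zero_add]
      rfl
    rw [hp, hN, hI]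
    ring
  have c12 : ContinuousOn (fun n => (2 * a + b) * 1 +
      (8 * a * ε + 2 * (b - 2 * a) * ε) * φ n) {0}ᶜ := c1.add c2
  have c123 : ContinuousOn (fun n => (2 * a + b) * 1 +
      (8 * a * ε + 2 * (b - 2 * a) * ε) * φ n + (4 * a * ε ^ 2) * φ n ^ 2) {0}ᶜ := c12.add c3
  have c1234 : ContinuousOn (fun n => (2 * a + b) * 1 +
      (8 * a * ε + 2 * (b - 2 * a) * ε) * φ n + (4 * a * ε ^ 2) * φ n ^ 2 +
      ((b - 2 * a) * ε ^ 2) * ‖gradient φ n‖ ^ 2) {0}ᶜ := c123.add c4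
  rw [e, sph_sub _ _ c1234 c5, sph_add _ _ c123 c4,
    sph_add _ _ c12 c3, sph_add _ _ c1 c2, sph_smul, sph_smul, sph_smul, sph_smul,
    sph_smul, sph_one, h0]
  ring

end Pool.Agent.HVM
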