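import Pool.Agent.HVM.Pert1
import Pool.Agent.HVM.Pert2
import Pool.Agent.HVM.Vol

/-! # The volume of a perturbed ball (module PERT3) -/

set_option autoImplicit false

namespace Pool.Agent.HVM

open MeasureTheory Metric Set
open Pool.Agent.Helper85.Herm Pool.Agent.Helper85.Cap

theorem pert3_ne {n : C2} (hn : ‖n‖ = 1) : n ≠ 0 := by
  rintro rfl
  simp at hn

theorem pert3_cont_s1 {φ : C2 → ℝ} (h : Pert φ) :
    ContinuousOn (fun n => s1 (hess φ n)) {0}ᶜ :=
  s1_continuous.comp_continuousOn h.hess_contDiffOn.continuousOn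

theorem pert3_cont_s2 {φ : C2 → ℝ} (h : Pert φ) :
    ContinuousOn (fun n => s2 (hess φ n)) {0}ᶜ :=
  s2_continuous.comp_continuousOn h.hess_contDiffOn.continuousOn

theorem sph_s1 {φ : C2 → ℝ} (h : Pert φ) :
    Sph (fun n => s1 (hess φ n)) = 3 * Sph φ := by
  have hV : ContDiffOn ℝ 1 (gradient φ) {0}ᶜ := h.gradient_contDiffOn.of_le (by norm_num)
  have hk : ∀ (c : ℝ) (w : C2), 0 < c → w ≠ 0 →
      gradient φ (c • w) = c ^ (0 : ℤ) • gradient φ w := by
    intro c w hc hw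
    rw [h.gradient_smul c hc w hw, zpow_zero, one_smul]
  have h1 := sph_div (gradient φ) hV 0 hk
  have h2 : Sph (fun n => inner ℝ (gradient φ n) n) = Sph φ :=
    sph_congr _ _ fun n hn => h.gradient_inner (pert3_ne hn)
  rw [h2] at h1
  have h3 : Sph (fun n => s1 (hess φ n)) = Sph (fun n => s1 (fderiv ℝ (gradient φ) n)) := rfl
  rw [h3, h1]
  push_cast
  ring

theorem sph_mul_s1 {φ : C2 → ℝ} (h : Pert φ) :
    Sph (fun n => φ n * s1 (hess φ n)) =
      4 * Sph (fun n => φ n ^ 2) - Sph (fun n => ‖gradient φ n‖ ^ 2) := by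
  have hg : ContDiffOn ℝ 1 (gradient φ) {0}ᶜ := h.gradient_contDiffOn.of_le (by norm_num)
  have hf : ContDiffOn ℝ 1 φ {0}ᶜ := h.smooth.of_le (by norm_num)
  have hV : ContDiffOn ℝ 1 (fun x => φ x • gradient φ x) {0}ᶜ := hf.smul hg
  have hk : ∀ (c : ℝ) (w : C2), 0 < c → w ≠ 0 → (fun x => φ x • gradient φ x) (c • w) =
      c ^ (1 : ℤ) • (fun x => φ x • gradient φ x) w := by
    intro c w hc hw
    show φ (c • w) • gradient φ (c • w) = c ^ (1 : ℤ) • (φ w • gradient φ w)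
    rw [h.gradient_smul c hc w hw, h.homog c w hc, zpow_one, smul_smul]
  have h1 := sph_div _ hV 1 hk
  have h2 : Sph (fun n => inner ℝ ((fun x => φ x • gradient φ x) n) n) =
      Sph (fun n => φ n ^ 2) := by
    refine sph_congr _ _ fun n hn => ?_
    show inner ℝ (φ n • gradient φ n) n = φ n ^ 2
    rw [real_inner_smul_left, h.gradient_inner (pert3_ne hn)]
    ring
  have h3 : Sph (fun n => s1 (fderiv ℝ (fun x => φ x • gradient φ x) n)) =
      Sph (fun n => φ n * s1 (hess φ n) + ‖gradient φ n‖ ^ 2) := by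
    refine sph_congr _ _ fun n hn => ?_
    have hn0 := pert3_ne hn
    have hnm : ({0}ᶜ : Set C2) ∈ nhds n := isOpen_compl_singleton.mem_nhds hn0
    have hfd : DifferentiableAt ℝ φ n := (hf.contDiffAt hnm).differentiableAt (by simp)
    have hgd : DifferentiableAt ℝ (gradient φ) n :=
      (hg.contDiffAt hnm).differentiableAt (by simp)
    rw [fderiv_fun_smul hfd hgd, sphn_s1_add, sphn_s1_smul, sphn_s1_smulRight]
    congr 1
    rw [← InnerProductSpace.toDual_symm_apply (𝕜 := ℝ), ← real_inner_self_eq_norm_sq]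
    rfl
  have c1 : ContinuousOn (fun n => φ n * s1 (hess φ n)) {0}ᶜ :=
    h.smooth.continuousOn.mul (pert3_cont_s1 h)
  have c2 : ContinuousOn (fun n => ‖gradient φ n‖ ^ 2) {0}ᶜ :=
    h.gradient_contDiffOn.continuousOn.norm.pow 2
  rw [h3, h2, sph_add _ _ c1 c2] at h1
  push_cast at h1
  linarith

theorem sph_s2 {φ : C2 → ℝ} (h : Pert φ) :
    Sph (fun n => s2 (hess φ n)) = Sph (fun n => φ n * s1 (hess φ n)) := by
  have hg : ContDiffOn ℝ 1 (gradient φ) {0}ᶜ := h.gradient_contDiffOn.of_le (by norm_num)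
  have hH : ContDiffOn ℝ 1 (hess φ) {0}ᶜ := h.hess_contDiffOn
  have hτ : ContDiffOn ℝ 1 (fun x => s1 (hess φ x)) {0}ᶜ :=
    newt_tr.contDiff.comp_contDiffOn hH
  have hV : ContDiffOn ℝ 1
      (fun x => s1 (hess φ x) • gradient φ x - hess φ x (gradient φ x)) {0}ᶜ :=
    (hτ.smul hg).sub (hH.clm_apply hg)
  have hk : ∀ (c : ℝ) (w : C2), 0 < c → w ≠ 0 →
      (fun x => s1 (hess φ x) • gradient φ x - hess φ x (gradient φ x)) (c • w) =
      c ^ (-1 : ℤ) • (fun x => s1 (hess φ x) • gradient φ x - hess φ x (gradient φ x)) w := by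
    intro c w hc hw
    show s1 (hess φ (c • w)) • gradient φ (c • w) - hess φ (c • w) (gradient φ (c • w)) =
      c ^ (-1 : ℤ) • (s1 (hess φ w) • gradient φ w - hess φ w (gradient φ w))
    rw [h.gradient_smul c hc w hw, h.hess_smul c hc w hw, sphn_s1_smul, zpow_neg_one, smul_sub,
      smul_smul, ContinuousLinearMap.smul_apply]
  have h1 := sph_div _ hV (-1) hk
  have h2 : Sph (fun n => inner ℝ
      ((fun x => s1 (hess φ x) • gradient φ x - hess φ x (gradient φ x)) n) n) =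
      Sph (fun n => φ n * s1 (hess φ n)) := by
    refine sph_congr _ _ fun n hn => ?_
    have hn0 := pert3_ne hn
    show inner ℝ (s1 (hess φ n) • gradient φ n - hess φ n (gradient φ n)) n =
      φ n * s1 (hess φ n)
    rw [inner_sub_left, real_inner_smul_left, h.gradient_inner hn0, h.hess_symm hn0,
      h.hess_self hn0, inner_zero_right]
    ring
  have h3 : Sph (fun n => s1 (fderiv ℝ
      (fun x => s1 (hess φ x) • gradient φ x - hess φ x (gradient φ x)) n)) =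
      Sph (fun n => 2 * s2 (hess φ n)) := by
    refine sph_congr _ _ fun n hn => ?_
    have hn0 := pert3_ne hn
    have hnm : ({0}ᶜ : Set C2) ∈ nhds n := isOpen_compl_singleton.mem_nhds hn0
    set X := gradient φ with hX
    set M := hess φ n with hM
    set D : C2 →L[ℝ] (C2 →L[ℝ] C2) := fderiv ℝ (hess φ) n with hD
    have hMd : HasFDerivAt (hess φ) D n :=
      ((hH.contDiffAt hnm).differentiableAt (by simp)).hasFDerivAt
    have hXd : HasFDerivAt X M n :=
      ((hg.contDiffAt hnm).differentiableAt (by simp)).hasFDerivAt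
    have hτd : HasFDerivAt (fun x => s1 (hess φ x)) (newt_tr.comp D) n :=
      newt_tr.hasFDerivAt.comp n hMd
    have hF := (hτd.smul hXd).sub (hMd.clm_apply hXd)
    have hsymm : ∀ x y, D x y = D y x := by
      intro x y
      have h1 : IsSymmSndFDerivAt ℝ X n :=
        (newt_grad_contDiffAt φ h.smooth hn0).isSymmSndFDerivAt (by simp)
      exact h1.eq x y
    have hFe : fderiv ℝ (fun x => s1 (hess φ x) • X x - hess φ x (X x)) n =
      s1 M • M + (newt_tr.comp D).smulRight (X n) - (M.comp M + D.flip (X n)) := hF.fderiv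
    have hsub : ∀ A B : C2 →L[ℝ] C2, s1 (A - B) = s1 A - s1 B := by
      intro A B
      rw [← newt_tr_apply, map_sub]
      rfl
    rw [hFe, hsub, sphn_s1_add, sphn_s1_add, sphn_s1_smul, sphn_s1_smulRight]
    have e1 : s1 (D.flip (X n)) = s1 (D (X n)) := by
      rw [newt_s1_sum, newt_s1_sum]
      refine Finset.sum_congr rfl fun i _ => ?_
      rw [ContinuousLinearMap.flip_apply, hsymm]
    have e2 : (newt_tr.comp D) (X n) = s1 (D (X n)) := rfl
    rw [e1, e2, s2]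
    ring
  rw [h3, h2, sph_smul] at h1
  push_cast at h1
  linarith

theorem pert3_abs2 {C a b : ℝ} (hC : 0 < C) (ha : |a| ≤ C) (hb : |b| ≤ C) : |a * b| ≤ C ^ 2 := by
  rw [abs_mul, pow_two]
  exact mul_le_mul ha hb (abs_nonneg _) hC.le

theorem pert3_abs3 {C a b c : ℝ} (hC : 0 < C) (ha : |a| ≤ C) (hb : |b| ≤ C) (hc : |c| ≤ C) :
    |a * b * c| ≤ C ^ 3 := by
  rw [abs_mul, pow_succ]
  exact mul_le_mul (pert3_abs2 hC ha hb) hc (abs_nonneg _) (by positivity)

theorem pert3_abs4 {C a b c d : ℝ} (hC : 0 < C) (ha : |a| ≤ C) (hb : |b| ≤ C) (hc : |c| ≤ C)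
    (hd : |d| ≤ C) : |a * b * c * d| ≤ C ^ 4 := by
  rw [abs_mul, pow_succ]
  exact mul_le_mul (pert3_abs3 hC ha hb hc) hd (abs_nonneg _) (by positivity)

theorem pert3_abs5 {C a b c d e : ℝ} (hC : 0 < C) (ha : |a| ≤ C) (hb : |b| ≤ C) (hc : |c| ≤ C)
    (hd : |d| ≤ C) (he : |e| ≤ C) : |a * b * c * d * e| ≤ C ^ 5 := by
  rw [abs_mul, pow_succ]
  exact mul_le_mul (pert3_abs4 hC ha hb hc hd) he (abs_nonneg _) (by positivity)

/-- the scalar expansion -/
theorem pert3_expand {C f a b c d : ℝ} (hC : 0 < C) (hf : |f| ≤ C) (ha : |a| ≤ C) (hb : |b| ≤ C)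
    (hc : |c| ≤ C) (hd : |d| ≤ C) (ε : ℝ) (hε : |ε| ≤ 1) :
    |(1 + ε * f) * ((1 + ε * a) * (1 + ε * b) * (1 + ε * c) * (1 + ε * d)) -
      (1 + ε * (f + (a + b + c + d)) + ε ^ 2 * (f * (a + b + c + d) +
        (a * b + a * c + a * d + b * c + b * d + c * d)))| ≤
      (10 * C ^ 3 + 5 * C ^ 4 + C ^ 5) * |ε| ^ 3 := by
  have e : (1 + ε * f) * ((1 + ε * a) * (1 + ε * b) * (1 + ε * c) * (1 + ε * d)) -
      (1 + ε * (f + (a + b + c + d)) + ε ^ 2 * (f * (a + b + c + d) +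
        (a * b + a * c + a * d + b * c + b * d + c * d))) =
      ((a * b * c + a * b * d + a * c * d + b * c * d + f * a * b + f * a * c + f * a * d +
        f * b * c + f * b * d + f * c * d) +
        ε * (a * b * c * d + f * a * b * c + f * a * b * d + f * a * c * d + f * b * c * d) +
        ε ^ 2 * (f * a * b * c * d)) * ε ^ 3 := by ring
  rw [e, abs_mul, abs_pow]
  refine mul_le_mul_of_nonneg_right ?_ (by positivity)
  have b1 : |a * b * c + a * b * d + a * c * d + b * c * d + f * a * b + f * a * c + f * a * d +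
        f * b * c + f * b * d + f * c * d| ≤ 10 * C ^ 3 := by
    have k1 := abs_le.1 (pert3_abs3 hC ha hb hc)
    have k2 := abs_le.1 (pert3_abs3 hC ha hb hd)
    have k3 := abs_le.1 (pert3_abs3 hC ha hc hd)
    have k4 := abs_le.1 (pert3_abs3 hC hb hc hd)
    have k5 := abs_le.1 (pert3_abs3 hC hf ha hb)
    have k6 := abs_le.1 (pert3_abs3 hC hf ha hc)
    have k7 := abs_le.1 (pert3_abs3 hC hf ha hd)
    have k8 := abs_le.1 (pert3_abs3 hC hf hb hc)
    have k9 := abs_le.1 (pert3_abs3 hC hf hb hd)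
    have k10 := abs_le.1 (pert3_abs3 hC hf hc hd)
    rw [abs_le]
    constructor
    · linarith [k1.1, k2.1, k3.1, k4.1, k5.1, k6.1, k7.1, k8.1, k9.1, k10.1]
    · linarith [k1.2, k2.2, k3.2, k4.2, k5.2, k6.2, k7.2, k8.2, k9.2, k10.2]
  have b2 : |a * b * c * d + f * a * b * c + f * a * b * d + f * a * c * d + f * b * c * d| ≤
      5 * C ^ 4 := by
    have k1 := abs_le.1 (pert3_abs4 hC ha hb hc hd)
    have k2 := abs_le.1 (pert3_abs4 hC hf ha hb hc)
    have k3 := abs_le.1 (pert3_abs4 hC hf ha hb hd)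
    have k4 := abs_le.1 (pert3_abs4 hC hf ha hc hd)
    have k5 := abs_le.1 (pert3_abs4 hC hf hb hc hd)
    rw [abs_le]
    constructor
    · linarith [k1.1, k2.1, k3.1, k4.1, k5.1]
    · linarith [k1.2, k2.2, k3.2, k4.2, k5.2]
  have b3 : |f * a * b * c * d| ≤ C ^ 5 := pert3_abs5 hC hf ha hb hc hd
  have hε2 : |ε ^ 2| ≤ 1 := by
    rw [abs_pow]
    exact pow_le_one₀ (abs_nonneg _) hε
  have b2' : |ε * (a * b * c * d + f * a * b * c + f * a * b * d + f * a * c * d +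
      f * b * c * d)| ≤ 5 * C ^ 4 := by
    rw [abs_mul]
    calc |ε| * |a * b * c * d + f * a * b * c + f * a * b * d + f * a * c * d + f * b * c * d|
        ≤ 1 * (5 * C ^ 4) := mul_le_mul hε b2 (abs_nonneg _) zero_le_one
      _ = 5 * C ^ 4 := one_mul _
  have b3' : |ε ^ 2 * (f * a * b * c * d)| ≤ C ^ 5 := by
    rw [abs_mul]
    calc |ε ^ 2| * |f * a * b * c * d| ≤ 1 * C ^ 5 :=
          mul_le_mul hε2 b3 (abs_nonneg _) zero_le_one
      _ = C ^ 5 := one_mul _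
  refine (abs_add_le _ _).trans ?_
  have := abs_add_le (a * b * c + a * b * d + a * c * d + b * c * d + f * a * b + f * a * c +
    f * a * d + f * b * c + f * b * d + f * c * d)
    (ε * (a * b * c * d + f * a * b * c + f * a * b * d + f * a * c * d + f * b * c * d))
  linarith

/-- pointwise expansion of the volume density -/
theorem pert_density {φ : C2 → ℝ} (h : Pert φ) : ∃ C : ℝ, ∀ (ε : ℝ) (n : C2), |ε| ≤ 1 → ‖n‖ = 1 →
    |pn φ ε n * s3 (hess (pn φ ε) n) n - (1 + ε * (φ n + s1 (hess φ n)) +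
      ε ^ 2 * (φ n * s1 (hess φ n) + s2 (hess φ n)))| ≤ C * |ε| ^ 3 := by
  obtain ⟨C, hC, hbd⟩ := h.bdd
  refine ⟨10 * C ^ 3 + 5 * C ^ 4 + C ^ 5, ?_⟩
  intro ε n hε hn
  obtain ⟨hf, -, hMC⟩ := hbd n hn
  have hn0 := pert3_ne hn
  have hp : pn φ ε n = 1 + ε * φ n := by
    unfold pn
    rw [hn]
  have e1 : hess (pn φ ε) n + (‖n‖ ^ 2)⁻¹ • rk n n =
      ContinuousLinearMap.id ℝ C2 + ε • hess φ n := by
    rw [pn_hess h ε hn, hn, one_pow, inv_one, one_smul]
    abel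
  have hsy : ∀ a b : C2, inner ℝ (hess φ n a) b = inner ℝ a (hess φ n b) :=
    fun a b => h.hess_symm hn0 a b
  generalize hess φ n = M at *
  have hT : (M : C2 →ₗ[ℝ] C2).IsSymmetric := fun a b => hsy a b
  have hfr : Module.finrank ℝ C2 = 4 := by simp
  obtain ⟨b, m, hb⟩ : ∃ (b : OrthonormalBasis (Fin 4) ℝ C2) (m : Fin 4 → ℝ),
      ∀ i, M (b i) = m i • b i :=
    ⟨hT.eigenvectorBasis hfr, hT.eigenvalues hfr, fun i => hT.apply_eigenvectorBasis hfr i⟩
  have hm : ∀ i, |m i| ≤ C := by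
    intro i
    have e2 := M.le_opNorm (b i)
    rw [hb i, norm_smul, b.orthonormal.1 i, mul_one, mul_one, Real.norm_eq_abs] at e2
    exact e2.trans hMC
  have hs1 : s1 M = m 0 + m 1 + m 2 + m 3 := alg_s1 b m M hb
  have hMM : ∀ i, (M ∘L M) (b i) = (m i ^ 2) • b i := by
    intro i
    rw [ContinuousLinearMap.comp_apply, hb, map_smul, hb, smul_smul]
    congr 1
    ring
  have hs2 : s2 M = m 0 * m 1 + m 0 * m 2 + m 0 * m 3 + m 1 * m 2 + m 1 * m 3 + m 2 * m 3 := by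
    rw [s2, hs1, alg_s1 b (fun i => m i ^ 2) (M ∘L M) hMM]
    ring
  have hs3 : s3 (hess (pn φ ε) n) n =
      (1 + ε * m 0) * (1 + ε * m 1) * (1 + ε * m 2) * (1 + ε * m 3) := by
    rw [s3, e1]
    apply alg_det b (fun i => 1 + ε * m i)
    intro i
    show b i + ε • M (b i) = (1 + ε * m i) • b i
    rw [hb i]
    module
  rw [hp, hs1, hs2, hs3]
  exact pert3_expand hC hf (hm 0) (hm 1) (hm 2) (hm 3) ε hε

theorem pert_vol {φ : C2 → ℝ} (h : Pert φ) (h0 : Sph φ = 0) : ∃ C : ℝ, ∀ ε : ℝ, |ε| ≤ 1 →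
    SmoothSupp (pn φ ε) →
    (1 / 4) * (2 * Real.pi ^ 2 + 2 * ε ^ 2 * (4 * Sph (fun n => φ n ^ 2)
      - Sph (fun n => ‖gradient φ n‖ ^ 2))) - C * |ε| ^ 3 ≤
      (volume (wulff (pn φ ε))).toReal := by
  obtain ⟨C, hC⟩ := pert_density h
  refine ⟨1 / 4 * (C * (2 * Real.pi ^ 2)), ?_⟩
  intro ε hε hs
  rw [vol_smooth hs]
  have cφ : ContinuousOn φ {0}ᶜ := h.smooth.continuousOn
  have c1 : ContinuousOn (fun n => s1 (hess φ n)) {0}ᶜ := pert3_cont_s1 h
  have c2 : ContinuousOn (fun n => s2 (hess φ n)) {0}ᶜ := pert3_cont_s2 h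
  have cφ1 : ContinuousOn (fun n => φ n * s1 (hess φ n)) {0}ᶜ := cφ.mul c1
  have cc : ∀ c : ℝ, ContinuousOn (fun _ : C2 => c) {0}ᶜ := fun c => continuousOn_const
  have cA : ContinuousOn (fun n => φ n + s1 (hess φ n)) {0}ᶜ := cφ.add c1
  have cB : ContinuousOn (fun n => φ n * s1 (hess φ n) + s2 (hess φ n)) {0}ᶜ := cφ1.add c2
  have cA' : ContinuousOn (fun n => ε * (φ n + s1 (hess φ n))) {0}ᶜ := (cc ε).mul cA
  have cB' : ContinuousOn (fun n => ε ^ 2 * (φ n * s1 (hess φ n) + s2 (hess φ n))) {0}ᶜ :=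
    (cc (ε ^ 2)).mul cB
  have cE : ContinuousOn (fun n => 1 + ε * (φ n + s1 (hess φ n))) {0}ᶜ := (cc 1).add cA'
  have cF : ContinuousOn (fun n => 1 + ε * (φ n + s1 (hess φ n)) +
      ε ^ 2 * (φ n * s1 (hess φ n) + s2 (hess φ n))) {0}ᶜ := cE.add cB'
  have cG : ContinuousOn (fun _ : C2 => (C * |ε| ^ 3) * (1 : ℝ)) {0}ᶜ := continuousOn_const
  have cH : ContinuousOn (fun n => pn φ ε n * s3 (hess (pn φ ε) n) n) {0}ᶜ :=
    hs.smooth.continuousOn.mul (s3_continuousOn hs)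
  have h1 := sph_mono (fun n => (1 + ε * (φ n + s1 (hess φ n)) +
      ε ^ 2 * (φ n * s1 (hess φ n) + s2 (hess φ n))) - (C * |ε| ^ 3) * 1)
      (fun n => pn φ ε n * s3 (hess (pn φ ε) n) n) (cF.sub cG) cH (by
        intro n hn
        have := (abs_le.1 (hC ε n hε hn)).1
        show (1 + ε * (φ n + s1 (hess φ n)) +
          ε ^ 2 * (φ n * s1 (hess φ n) + s2 (hess φ n))) - (C * |ε| ^ 3) * 1 ≤
          pn φ ε n * s3 (hess (pn φ ε) n) n
        linarith)
  rw [sph_sub _ _ cF cG, sph_add _ _ cE cB', sph_add _ _ (cc 1) cA', sph_smul, sph_smul, sph_smul,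
    sph_add _ _ cφ c1, sph_add _ _ cφ1 c2, sph_one, sph_s1 h, sph_s2 h, sph_mul_s1 h, h0] at h1
  linarith

end Pool.Agent.HVM
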