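import Pool.Agent.HVM.Pert2
import Pool.Agent.HVM.Pert3
import Pool.Agent.HVM.AppB
import Pool.Agent.Helper85.Cap.G4

/-! # A sufficient condition for the ball not to be a minimiser (module PERT4) -/

set_option autoImplicit false

namespace Pool.Agent.HVM

open MeasureTheory Metric Set
open scoped Pointwise
open Pool.Agent.Helper85.Herm Pool.Agent.Helper85.Cap

/-- rescaling to volume one -/
theorem unit_of (a b : ℝ) (K : Body) (hv : 0 < (volume (pts K)).toReal) (t : ℝ) (_ht : 0 ≤ t)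
    (h : muab a b K < t * Real.sqrt (volume (pts K)).toReal) :
    ∃ L : Body, UnitVolume L ∧ muab a b L < t := by
  set V := (volume (pts K)).toReal with hVdef
  have hfin : volume (pts K) ≠ ⊤ := K.isCompact.measure_lt_top.ne
  set c := V ^ (-(1 : ℝ) / 4) with hc
  have hc0 : 0 < c := Real.rpow_pos_of_pos hv _
  have hc4 : c ^ 4 * V = 1 := by
    rw [hc, ← Real.rpow_natCast, ← Real.rpow_mul hv.le]
    nth_rewrite 2 [← Real.rpow_one V]
    rw [← Real.rpow_add hv]
    norm_num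
  have hs0 : 0 < Real.sqrt V := Real.sqrt_pos.2 hv
  have hc2 : c ^ 2 * Real.sqrt V = 1 := by
    have h1 : (c ^ 2 * Real.sqrt V) ^ 2 = 1 := by
      rw [mul_pow, Real.sq_sqrt hv.le, ← pow_mul]
      exact hc4
    have h2 : 0 ≤ c ^ 2 * Real.sqrt V := by positivity
    nlinarith
  refine ⟨c • K, ?_, ?_⟩
  · have hset : pts (c • K) = c • pts K := ConvexBody.coe_smul c K
    unfold UnitVolume
    rw [hset, Measure.addHaar_smul, finrank_euclideanSpace, Fintype.card_fin,
      abs_of_nonneg (by positivity), ← ENNReal.ofReal_toReal hfin, ← hVdef,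
      ← ENNReal.ofReal_mul (by positivity), hc4, ENNReal.ofReal_one]
  · have hset : pts (c • K) = (fun x => c • x) '' pts K := by
      have : pts (c • K) = c • pts K := ConvexBody.coe_smul c K
      rw [this]
      rfl
    rw [muab_homogeneous a b c hc0.le K (c • K) hset]
    have h1 : c ^ 2 * muab a b K < c ^ 2 * (t * Real.sqrt V) :=
      mul_lt_mul_of_pos_left h (by positivity)
    have h2 : c ^ 2 * (t * Real.sqrt V) = t := by
      rw [mul_left_comm, hc2, mul_one]
    rwa [h2] at h1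

theorem pert_beats {φ : C2 → ℝ} (h : Pert φ) (h0 : Sph φ = 0) (a b : ℝ) (hab : 0 < 2 * a + b)
    (hc : b * Sph (fun n => ‖gradient φ n‖ ^ 2)
      + 2 * (a - b) * Sph (fun n => inner ℝ (gradient φ n) (J n) ^ 2)
      < 2 * (a + b) * Sph (fun n => φ n ^ 2)) :
    ∃ K : Body, UnitVolume K ∧ muab a b K < Real.sqrt 2 * (2 * a + b) := by
  obtain ⟨C, hC⟩ := pert_vol h h0
  obtain ⟨ε₀, hε₀, hsupp⟩ := pn_smoothSupp h
  set N := Sph (fun n => φ n ^ 2) with hN
  set D := Sph (fun n => ‖gradient φ n‖ ^ 2) with hD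
  set W := Sph (fun n => inner ℝ (gradient φ n) (J n) ^ 2) with hW
  have hpi := Real.pi_pos
  -- `X` and `Y` are the second order coefficients
  set X := (4 * a * N + (b - 2 * a) * D - 4 * (b - a) * W) / ((2 * a + b) * 2) with hX
  set Y := 4 * N - D with hY
  have hXe : 4 * a * N + (b - 2 * a) * D - 4 * (b - a) * W = (2 * a + b) * 2 * X := by
    rw [hX, mul_div_cancel₀]
    positivity
  have hXY : 2 * X < Y := by
    have h1 : (2 * a + b) * (2 * X) < (2 * a + b) * Y := by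
      have : (2 * a + b) * (2 * X) = 4 * a * N + (b - 2 * a) * D - 4 * (b - a) * W := by
        rw [hXe]; ring
      rw [this, hY]
      nlinarith
    exact lt_of_mul_lt_mul_left h1 hab.le
  set B := X ^ 2 / Real.pi ^ 2 + 2 * |C| + 1 with hB
  have hB0 : 0 < B := by positivity
  set ε := min (min ε₀ 1) ((Y - 2 * X) / (2 * B)) with hε
  have hδ : 0 < (Y - 2 * X) / (2 * B) := div_pos (by linarith) (by positivity)
  have hεpos : 0 < ε := lt_min (lt_min hε₀ one_pos) hδ
  have hε1 : ε ≤ 1 := (min_le_left _ _).trans (min_le_right _ _)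
  have hεε₀ : ε ≤ ε₀ := (min_le_left _ _).trans (min_le_left _ _)
  have hεδ : ε ≤ (Y - 2 * X) / (2 * B) := min_le_right _ _
  have hBε : B * ε < Y - 2 * X := by
    have h1 : B * ε ≤ B * ((Y - 2 * X) / (2 * B)) := mul_le_mul_of_nonneg_left hεδ hB0.le
    have h2 : B * ((Y - 2 * X) / (2 * B)) = (Y - 2 * X) / 2 := by field_simp
    rw [h2] at h1
    linarith
  have habs : |ε| = ε := abs_of_pos hεpos
  have hs : SmoothSupp (pn φ ε) := hsupp ε (by rw [habs]; exact hεε₀)
  have hvol := hC ε (by rw [habs]; exact hε1) hs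
  rw [habs] at hvol
  have hpts : pts (wbody (pn φ ε) hs) = wulff (pn φ ε) := rfl
  have hmu := pert_mu h h0 ε hs (wbody (pn φ ε) hs) hpts a b
  rw [← hN, ← hD, ← hW, hXe] at hmu
  set K := wbody (pn φ ε) hs with hK
  set V := (volume (wulff (pn φ ε))).toReal with hV
  -- `mu = (2a+b)(pi + eps^2 X / pi)`
  have hmu' : muab a b K = (2 * a + b) * (Real.pi + ε ^ 2 * X / Real.pi) := by
    have h1 : 2 * Real.pi * muab a b K =
        2 * Real.pi * ((2 * a + b) * (Real.pi + ε ^ 2 * X / Real.pi)) := by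
      rw [hmu]; field_simp
    exact mul_left_cancel₀ (by positivity) h1
  have hsq : (Real.pi + ε ^ 2 * X / Real.pi) ^ 2 < 2 * V := by
    have e1 : (Real.pi + ε ^ 2 * X / Real.pi) ^ 2 =
        Real.pi ^ 2 + ε ^ 2 * (2 * X) + ε ^ 4 * (X ^ 2 / Real.pi ^ 2) := by
      field_simp
      ring
    have e2 : Real.pi ^ 2 + ε ^ 2 * Y - 2 * C * ε ^ 3 ≤ 2 * V := by nlinarith
    have e3 : ε ^ 4 * (X ^ 2 / Real.pi ^ 2) ≤ ε ^ 3 * (X ^ 2 / Real.pi ^ 2) := by
      refine mul_le_mul_of_nonneg_right ?_ (by positivity)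
      calc ε ^ 4 = ε ^ 3 * ε := by ring
        _ ≤ ε ^ 3 * 1 := mul_le_mul_of_nonneg_left hε1 (by positivity)
        _ = ε ^ 3 := mul_one _
    have e4 : 2 * C * ε ^ 3 ≤ 2 * |C| * ε ^ 3 :=
      mul_le_mul_of_nonneg_right (by linarith [le_abs_self C]) (by positivity)
    have e5 : ε ^ 2 * (B * ε) < ε ^ 2 * (Y - 2 * X) :=
      mul_lt_mul_of_pos_left hBε (by positivity)
    have e6 : ε ^ 2 * (B * ε) = ε ^ 3 * (X ^ 2 / Real.pi ^ 2) + 2 * |C| * ε ^ 3 + ε ^ 3 := by
      rw [hB]; ring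
    have e7 : 0 < ε ^ 3 := by positivity
    rw [e1]
    nlinarith
  have hV0 : 0 < V := by nlinarith [sq_nonneg (Real.pi + ε ^ 2 * X / Real.pi)]
  refine unit_of a b K hV0 _ (by positivity) ?_
  change muab a b K < Real.sqrt 2 * (2 * a + b) * Real.sqrt V
  rw [hmu']
  have h1 : Real.pi + ε ^ 2 * X / Real.pi < Real.sqrt (2 * V) := Real.lt_sqrt_of_sq_lt hsq
  rw [Real.sqrt_mul (by norm_num)] at h1
  calc (2 * a + b) * (Real.pi + ε ^ 2 * X / Real.pi) < (2 * a + b) * (Real.sqrt 2 * Real.sqrt V) :=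
        mul_lt_mul_of_pos_left h1 hab
    _ = Real.sqrt 2 * (2 * a + b) * Real.sqrt V := by ring

end Pool.Agent.HVM
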