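import Pool.Agent.HVM.Cont
import Pool.Agent.HVM.Newt
import Pool.Agent.HVM.Div

/-! # Integration by parts on the sphere (module SPHN) -/

set_option autoImplicit false

namespace Pool.Agent.HVM

open MeasureTheory Metric Set
open Pool.Agent.Helper85.Herm Pool.Agent.Helper85.Cap

theorem sphn_s1_add (a b : C2 →L[ℝ] C2) : s1 (a + b) = s1 a + s1 b := by
  simp [s1]

theorem sphn_s1_smul (c : ℝ) (a : C2 →L[ℝ] C2) : s1 (c • a) = c * s1 a := by
  simp [s1]

theorem sphn_s1_smulRight (φ : C2 →L[ℝ] ℝ) (v : C2) : s1 (φ.smulRight v) = φ v := by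
  unfold s1
  have : ((φ.smulRight v : C2 →L[ℝ] C2) : C2 →ₗ[ℝ] C2) = (φ : C2 →ₗ[ℝ] ℝ).smulRight v := by
    ext x; simp
  rw [this, LinearMap.trace_smulRight]
  rfl

/-- trace of the composition of a symmetric and a skew map -/
theorem sphn_trace_skew (T B : C2 →L[ℝ] C2)
    (hT : ∀ a b, inner ℝ (T a) b = inner ℝ a (T b))
    (hB : ∀ x y, inner ℝ (B x) y = -inner ℝ x (B y)) : s1 (T ∘L B) = 0 := by
  have h1 : s1 (T ∘L B) = - s1 (B ∘L T) := by
    unfold s1
    rw [LinearMap.trace_eq_sum_inner _ (stdOrthonormalBasis ℝ C2),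
      LinearMap.trace_eq_sum_inner _ (stdOrthonormalBasis ℝ C2), ← Finset.sum_neg_distrib]
    refine Finset.sum_congr rfl fun i _ => ?_
    simp only [ContinuousLinearMap.coe_coe, ContinuousLinearMap.comp_apply]
    rw [← hT, real_inner_comm, hB]
  have h2 : s1 (B ∘L T) = s1 (T ∘L B) := by
    unfold s1
    exact LinearMap.trace_mul_comm ℝ (B : C2 →ₗ[ℝ] C2) (T : C2 →ₗ[ℝ] C2)
  linarith

/-- the divergence of `f • T (B x + e)` -/
theorem sphn_div {h : C2 → ℝ} (hs : SmoothSupp h) (B : C2 →L[ℝ] C2) (e : C2) (f : C2 → ℝ)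
    (hf : ContDiffOn ℝ 1 f {0}ᶜ) {n : C2} (hn : n ≠ 0) :
    s1 (fderiv ℝ (fun x => f x • TH h x (B x + e)) n) =
      f n * s1 (TH h n ∘L B) + inner ℝ (TH h n (B n + e)) (gradient f n) := by
  have hopen : IsOpen ({0}ᶜ : Set C2) := isOpen_compl_singleton
  have hnm : ({0}ᶜ : Set C2) ∈ nhds n := hopen.mem_nhds hn
  have hfd : DifferentiableAt ℝ f n := (hf.contDiffAt hnm).differentiableAt (by simp)
  have hTd : DifferentiableAt ℝ (TH h) n :=
    ((TH_contDiffOn h hs.smooth).contDiffAt hnm).differentiableAt (by simp)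
  have hGd : DifferentiableAt ℝ (fun x => TH h x (B x + e)) n := by
    refine hTd.clm_apply ?_
    exact (B.differentiableAt).add_const e
  rw [fderiv_fun_smul hfd hGd, sphn_s1_add, sphn_s1_smul, sphn_s1_smulRight,
    div_TH h hs.smooth B e n hn]
  congr 1
  rw [← InnerProductSpace.toDual_symm_apply (𝕜 := ℝ), real_inner_comm]
  rfl

theorem sphn_TH_smul {h : C2 → ℝ} (hs : SmoothSupp h) (c : ℝ) (w : C2) (hc : 0 < c)
    (hw : w ≠ 0) : TH h (c • w) = (c ^ 2)⁻¹ • TH h w := by
  unfold TH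
  rw [hs.hess_smul c hc w hw, NT_smul, inv_pow]

/-- `B` skew, `f` homogeneous of degree zero -/
theorem sph_newton {h : C2 → ℝ} (hs : SmoothSupp h) (B : C2 →L[ℝ] C2)
    (hB : ∀ x y, inner ℝ (B x) y = -inner ℝ x (B y)) (f : C2 → ℝ)
    (hf : ContDiffOn ℝ 1 f {0}ᶜ) (hf0 : ∀ (c : ℝ) (w : C2), 0 < c → w ≠ 0 → f (c • w) = f w) :
    Sph (fun n => inner ℝ (TH h n (B n)) (gradient f n)) = 0 := by
  have hV : ContDiffOn ℝ 1 (fun x => f x • TH h x (B x + 0)) {0}ᶜ := by
    refine hf.smul ((TH_contDiffOn h hs.smooth).clm_apply ?_)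
    exact (B.contDiff.add contDiff_const).contDiffOn
  have hk : ∀ (c : ℝ) (w : C2), 0 < c → w ≠ 0 →
      (fun x => f x • TH h x (B x + 0)) (c • w) =
        c ^ (-1 : ℤ) • (fun x => f x • TH h x (B x + 0)) w := by
    intro c w hc hw
    simp only [add_zero]
    rw [hf0 c w hc hw, sphn_TH_smul hs c w hc hw]
    simp only [ContinuousLinearMap.smul_apply, map_smul, smul_smul]
    congr 1
    have : c ≠ 0 := hc.ne'
    rw [zpow_neg_one]
    field_simp
  have h1 := sph_div _ hV (-1) hk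
  have h2 : Sph (fun n => inner ℝ ((fun x => f x • TH h x (B x + 0)) n) n) = Sph (fun _ => 0) := by
    refine sph_congr _ _ fun n hn => ?_
    have hn0 : n ≠ 0 := by
      rintro rfl
      simp at hn
    have hpk := hs.pk hn0
    have hb : inner ℝ (B n) n = 0 := by
      have := hB n n
      rw [real_inner_comm n (B n)] at this
      rw [real_inner_comm]
      linarith
    simp only [add_zero]
    rw [real_inner_smul_left, TH, NT_symm hpk, NT_ker hpk, real_inner_smul_right, hb]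
    ring
  have h3 : Sph (fun _ : C2 => (0 : ℝ)) = 0 := by simp [Sph]
  have h4 : Sph (fun n => s1 (fderiv ℝ (fun x => f x • TH h x (B x + 0)) n)) =
      Sph (fun n => inner ℝ (TH h n (B n)) (gradient f n)) := by
    refine sph_congr _ _ fun n hn => ?_
    have hn0 : n ≠ 0 := by
      rintro rfl
      simp at hn
    have hpk := hs.pk hn0
    rw [sphn_div hs B 0 f hf hn0, sphn_trace_skew (TH h n) B (NT_symm hpk) hB]
    simp
  rw [← h4, h1, h2, h3, mul_zero]

/-- constant vector field -/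
theorem sph_newton_const {h : C2 → ℝ} (hs : SmoothSupp h) (e : C2) (f : C2 → ℝ)
    (hf : ContDiffOn ℝ 1 f {0}ᶜ) (hf0 : ∀ (c : ℝ) (w : C2), 0 < c → w ≠ 0 → f (c • w) = f w) :
    Sph (fun n => inner ℝ (TH h n e) (gradient f n)) =
      Sph (fun n => f n * s2 (hess h n) * inner ℝ e n) := by
  have hV : ContDiffOn ℝ 1 (fun x => f x • TH h x ((0 : C2 →L[ℝ] C2) x + e)) {0}ᶜ := by
    refine hf.smul ((TH_contDiffOn h hs.smooth).clm_apply ?_)
    exact ((0 : C2 →L[ℝ] C2).contDiff.add contDiff_const).contDiffOn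
  have hk : ∀ (c : ℝ) (w : C2), 0 < c → w ≠ 0 →
      (fun x => f x • TH h x ((0 : C2 →L[ℝ] C2) x + e)) (c • w) =
        c ^ (-2 : ℤ) • (fun x => f x • TH h x ((0 : C2 →L[ℝ] C2) x + e)) w := by
    intro c w hc hw
    simp only [ContinuousLinearMap.zero_apply, zero_add]
    rw [hf0 c w hc hw, sphn_TH_smul hs c w hc hw]
    simp only [ContinuousLinearMap.smul_apply, smul_smul]
    congr 1
    rw [zpow_neg, mul_comm]
    norm_cast
  have h1 := sph_div _ hV (-2) hk
  have h2 : Sph (fun n => inner ℝ ((fun x => f x • TH h x ((0 : C2 →L[ℝ] C2) x + e)) n) n) =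
      Sph (fun n => f n * s2 (hess h n) * inner ℝ e n) := by
    refine sph_congr _ _ fun n hn => ?_
    have hn0 : n ≠ 0 := by
      rintro rfl
      simp at hn
    have hpk := hs.pk hn0
    simp only [ContinuousLinearMap.zero_apply, zero_add]
    rw [real_inner_smul_left, TH, NT_symm hpk, NT_ker hpk, real_inner_smul_right]
    ring
  have h4 : Sph (fun n => s1 (fderiv ℝ (fun x => f x • TH h x ((0 : C2 →L[ℝ] C2) x + e)) n)) =
      Sph (fun n => inner ℝ (TH h n e) (gradient f n)) := by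
    refine sph_congr _ _ fun n hn => ?_
    have hn0 : n ≠ 0 := by
      rintro rfl
      simp at hn
    rw [sphn_div hs 0 e f hf hn0]
    simp [s1]
  rw [← h4, h1, h2]
  norm_num

end Pool.Agent.HVM
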