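import Pool.Agent.HVM.Pert4
import Pool.Agent.HVM.Harm
import Pool.Agent.HVM.CapT
import Pool.Agent.Helper85.Cap.G4

/-! # For which `a / b` is the ball a minimiser (module THR) -/

set_option autoImplicit false

namespace Pool.Agent.HVM

open MeasureTheory Metric Set
open Pool.Agent.Helper85.Herm Pool.Agent.Helper85.Cap

theorem low_end (a b : ℝ) (ha : 0 ≤ a) (hab : 2 * a < b) :
    ∃ K : Body, UnitVolume K ∧ muab a b K < Real.sqrt 2 * (2 * a + b) := by
  have hb : 0 < b := by linarith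
  have hd : 0 < b - 2 * a := by linarith
  obtain ⟨m, hm⟩ := exists_nat_gt ((2 * a + b) / (b - 2 * a))
  obtain ⟨k, hk⟩ : ∃ k : ℕ, k = m + 2 := ⟨_, rfl⟩
  have hk1 : 1 ≤ k := by omega
  have hk2 : (2 : ℝ) ≤ k := by
    have : 2 ≤ k := by omega
    exact_mod_cast this
  have hkm : (m : ℝ) ≤ k := by
    have : m ≤ k := by omega
    exact_mod_cast this
  have hk3 : 2 * a + b < k * (b - 2 * a) := by
    rw [div_lt_iff₀ hd] at hm
    have := mul_le_mul_of_nonneg_right hkm hd.le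
    linarith
  have hN := psi_pos k hk1
  refine pert_beats (psi_pert k hk1) (psi_mean k hk1) a b (by linarith) ?_
  rw [psi_grad k hk1, psi_W k hk1]
  obtain ⟨N, hN'⟩ : ∃ N, N = Sph (fun n => psi k n ^ 2) := ⟨_, rfl⟩
  rw [← hN'] at hN ⊢
  have h1 : b * ((k : ℝ) + 1) ^ 2 + 2 * (a - b) * (k : ℝ) ^ 2 < 2 * (a + b) := by
    have h2 : 0 < ((k : ℝ) - 1) * (k * (b - 2 * a) - (2 * a + b)) :=
      mul_pos (by linarith) (by linarith)
    nlinarith
  have h3 := mul_lt_mul_of_pos_right h1 hN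
  nlinarith

theorem ball_value (a b : ℝ) (K : Body) (hK : UnitVolume K) (x : C2) (r : ℝ) (hr : 0 ≤ r)
    (hKr : pts K = closedBall x r) : muab a b K = Real.sqrt 2 * (2 * a + b) := by
  have h1 := muab_ball 1 1 (by norm_num) (by norm_num) K hK x r hr hKr
  have h2 := muab_ball 1 2 (by norm_num) (by norm_num) K hK x r hr hKr
  unfold muab at h1 h2 ⊢
  linear_combination (2 * a - b) * h1 + (b - a) * h2

theorem threshold : ∃ t : ℝ, 3 / 2 ≤ t ∧ t ≤ 5 / 2 ∧ ∀ a b : ℝ, 0 < a → 0 < b →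
    ∃ μ : Body → ℝ, IsHermVal a b μ ∧
      (∀ (K : Body) (x : C2) (r : ℝ), 0 ≤ r → pts K = closedBall x r → UnitVolume K →
        μ K = Real.sqrt 2 * (2 * a + b)) ∧
      ((∀ K : Body, UnitVolume K → Real.sqrt 2 * (2 * a + b) ≤ μ K) ↔
        b ≤ 2 * a ∧ a ≤ t * b) := by
  obtain ⟨T, hT⟩ : ∃ T : Set ℝ, T = {r | 1 / 2 ≤ r ∧ ∀ K : Body, UnitVolume K →
    Real.sqrt 2 * (2 * r + 1) ≤ muab r 1 K} := ⟨_, rfl⟩
  have hmem : ∀ r, r ∈ T ↔ 1 / 2 ≤ r ∧ ∀ K : Body, UnitVolume K →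
      Real.sqrt 2 * (2 * r + 1) ≤ muab r 1 K := by
    intro r
    rw [hT]
    rfl
  have h12 : (1 / 2 : ℝ) ∈ T := by
    rw [hmem]
    refine ⟨le_rfl, fun K hK => ?_⟩
    exact muab_ge (1 / 2) 1 (by norm_num) (by norm_num) K hK
  have h32 : (3 / 2 : ℝ) ∈ T := by
    rw [hmem]
    refine ⟨by norm_num, fun K hK => ?_⟩
    exact muab_ge (3 / 2) 1 (by norm_num) (by norm_num) K hK
  have hub : ∀ r ∈ T, r ≤ 5 / 2 := by
    intro r hr
    rw [hmem] at hr
    by_contra hcon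
    push Not at hcon
    obtain ⟨K, hK, hlt⟩ := high_end r 1 one_pos (by linarith)
    exact absurd (hr.2 K hK) (not_le.2 hlt)
  have hbdd : BddAbove T := ⟨5 / 2, hub⟩
  have hclosed : IsClosed T := by
    have : T = Ici (1 / 2) ∩ ⋂ (K : Body) (_ : UnitVolume K),
        {r : ℝ | Real.sqrt 2 * (2 * r + 1) ≤ muab r 1 K} := by
      ext r
      rw [hmem]
      simp only [mem_inter_iff, mem_Ici, mem_iInter, mem_ofPred_eq]
    rw [this]
    refine isClosed_Ici.inter (isClosed_iInter fun K => isClosed_iInter fun _ => ?_)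
    refine isClosed_le (by fun_prop) ?_
    unfold muab
    fun_prop
  have htT : sSup T ∈ T := hclosed.csSup_mem ⟨_, h12⟩ hbdd
  refine ⟨sSup T, le_csSup hbdd h32, csSup_le ⟨_, h12⟩ hub, ?_⟩
  have hP : ∀ r, 1 / 2 ≤ r → r ≤ sSup T → r ∈ T := by
    intro r h1 h2
    rw [hmem]
    refine ⟨h1, fun K hK => ?_⟩
    have e1 := ((hmem _).1 h12).2 K hK
    have e2 := ((hmem _).1 htT).2 K hK
    obtain ⟨t, ht⟩ : ∃ t, t = sSup T := ⟨_, rfl⟩
    rw [← ht] at e2 h2
    have h32t : 3 / 2 ≤ t := by rw [ht]; exact le_csSup hbdd h32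
    have e3 := mul_le_mul_of_nonneg_left e1 (by linarith : 0 ≤ t - r)
    have e4 := mul_le_mul_of_nonneg_left e2 (by linarith : 0 ≤ r - 1 / 2)
    have e5 : (t - r) * muab (1 / 2) 1 K + (r - 1 / 2) * muab t 1 K =
        (t - 1 / 2) * muab r 1 K := by
      unfold muab
      ring
    have e6 : (t - r) * (Real.sqrt 2 * (2 * (1 / 2) + 1)) +
        (r - 1 / 2) * (Real.sqrt 2 * (2 * t + 1)) =
        (t - 1 / 2) * (Real.sqrt 2 * (2 * r + 1)) := by ring
    have e7 : (t - 1 / 2) * (Real.sqrt 2 * (2 * r + 1)) ≤ (t - 1 / 2) * muab r 1 K := by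
      linarith
    exact le_of_mul_le_mul_left e7 (by linarith)
  intro a b ha hb
  refine ⟨muab a b, isHermVal_muab a b, fun K x r hr hKr hK => ball_value a b K hK x r hr hKr, ?_⟩
  have hscale : ∀ K : Body, muab a b K = b * muab (a / b) 1 K := by
    intro K
    unfold muab
    field_simp
  have hscale2 : Real.sqrt 2 * (2 * a + b) = b * (Real.sqrt 2 * (2 * (a / b) + 1)) := by
    field_simp
  constructor
  · intro hall
    have h1 : b ≤ 2 * a := by
      by_contra hcon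
      push Not at hcon
      obtain ⟨K, hK, hlt⟩ := low_end a b ha.le hcon
      exact absurd (hall K hK) (not_le.2 hlt)
    refine ⟨h1, ?_⟩
    have h2 : a / b ∈ T := by
      rw [hmem]
      refine ⟨?_, fun K hK => ?_⟩
      · rw [le_div_iff₀ hb]
        linarith
      · have h3 := hall K hK
        rw [hscale K, hscale2] at h3
        exact le_of_mul_le_mul_left h3 hb
    have h3 := le_csSup hbdd h2
    rwa [div_le_iff₀ hb] at h3
  · rintro ⟨h1, h2⟩ K hK
    have h3 : a / b ∈ T := hP _ (by rw [le_div_iff₀ hb]; linarith) (by rwa [div_le_iff₀ hb])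
    rw [hscale K, hscale2]
    exact mul_le_mul_of_nonneg_left (((hmem _).1 h3).2 K hK) hb.le

end Pool.Agent.HVM
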