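import Pool.Agent.HVM.Defs
import Pool.Agent.Helper85.Cap.I1

/-! # The cross body: volume and `V2` (module UPA) -/

set_option autoImplicit false

namespace Pool.Agent.HVM

open MeasureTheory Metric Set
open Pool.Agent.Helper85.Herm Pool.Agent.Helper85.Cap

/-- norm of the second complex coordinate -/
noncomputable def nrm2 (w : C2) : ℝ := Real.sqrt (w 2 ^ 2 + w 3 ^ 2)

/-- the cross body: rhombus (semi-diagonals `p`, `s`) in the first complex line, disc of radius
`q` in the second one -/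
def crossSet (p q s : ℝ) : Set C2 := {x | |x 0| / p + |x 1| / s + nrm2 x / q ≤ 1}

/-- its support function -/
noncomputable def crossH (p q s : ℝ) (w : C2) : ℝ :=
  max (max (p * |w 0|) (s * |w 1|)) (q * nrm2 w)

theorem UpA_inner (x w : C2) :
    inner ℝ x w = x 0 * w 0 + x 1 * w 1 + x 2 * w 2 + x 3 * w 3 := by
  simp [PiLp.inner_apply, Fin.sum_univ_four]
  ring

theorem UpA_nrm2_nonneg (w : C2) : 0 ≤ nrm2 w := Real.sqrt_nonneg _

theorem UpA_nrm2_sq (w : C2) : nrm2 w ^ 2 = w 2 ^ 2 + w 3 ^ 2 := by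
  unfold nrm2
  rw [Real.sq_sqrt (by positivity)]

theorem UpA_cs (x w : C2) : x 2 * w 2 + x 3 * w 3 ≤ nrm2 x * nrm2 w := by
  unfold nrm2
  rw [← Real.sqrt_mul (by positivity)]
  apply Real.le_sqrt_of_sq_le
  nlinarith [sq_nonneg (x 2 * w 3 - x 3 * w 2)]

theorem UpA_crossH_nonneg (p q s : ℝ) (hq : 0 < q) (w : C2) : 0 ≤ crossH p q s w :=
  le_max_of_le_right (mul_nonneg hq.le (UpA_nrm2_nonneg w))

theorem cross_eq_wulff (p q s : ℝ) (hp : 0 < p) (hq : 0 < q) (hs : 0 < s) :
    crossSet p q s = wulff (crossH p q s) := by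
  ext x
  constructor
  · intro hx w
    have hx' : |x 0| / p + |x 1| / s + nrm2 x / q ≤ 1 := hx
    have h0 : x 0 * w 0 ≤ |x 0| / p * (p * |w 0|) := by
      have : |x 0| / p * (p * |w 0|) = |x 0 * w 0| := by
        rw [abs_mul]; field_simp
      rw [this]
      exact le_abs_self _
    have h1 : x 1 * w 1 ≤ |x 1| / s * (s * |w 1|) := by
      have : |x 1| / s * (s * |w 1|) = |x 1 * w 1| := by
        rw [abs_mul]; field_simp
      rw [this]
      exact le_abs_self _
    have h2 : x 2 * w 2 + x 3 * w 3 ≤ nrm2 x / q * (q * nrm2 w) := by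
      have : nrm2 x / q * (q * nrm2 w) = nrm2 x * nrm2 w := by field_simp
      rw [this]
      exact UpA_cs x w
    have k0 : p * |w 0| ≤ crossH p q s w := le_max_of_le_left (le_max_left _ _)
    have k1 : s * |w 1| ≤ crossH p q s w := le_max_of_le_left (le_max_right _ _)
    have k2 : q * nrm2 w ≤ crossH p q s w := le_max_right _ _
    have m0 : |x 0| / p * (p * |w 0|) ≤ |x 0| / p * crossH p q s w :=
      mul_le_mul_of_nonneg_left k0 (by positivity)
    have m1 : |x 1| / s * (s * |w 1|) ≤ |x 1| / s * crossH p q s w :=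
      mul_le_mul_of_nonneg_left k1 (by positivity)
    have m2 : nrm2 x / q * (q * nrm2 w) ≤ nrm2 x / q * crossH p q s w :=
      mul_le_mul_of_nonneg_left k2 (div_nonneg (UpA_nrm2_nonneg x) hq.le)
    have hH := UpA_crossH_nonneg p q s hq w
    rw [UpA_inner]
    nlinarith [mul_le_mul_of_nonneg_right hx' hH]
  · intro hx
    show |x 0| / p + |x 1| / s + nrm2 x / q ≤ 1
    have h := hx (WithLp.toLp 2 ![SignType.sign (x 0) / p, SignType.sign (x 1) / s,
      x 2 / (q * nrm2 x), x 3 / (q * nrm2 x)])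
    rw [UpA_inner] at h
    simp only [Matrix.cons_val_zero, Matrix.cons_val_one, Matrix.cons_val] at h
    have e0 : x 0 * ((SignType.sign (x 0) : ℝ) / p) = |x 0| / p := by
      rw [mul_div_assoc', self_mul_sign]
    have e1 : x 1 * ((SignType.sign (x 1) : ℝ) / s) = |x 1| / s := by
      rw [mul_div_assoc', self_mul_sign]
    have e2 : x 2 * (x 2 / (q * nrm2 x)) + x 3 * (x 3 / (q * nrm2 x)) = nrm2 x / q := by
      by_cases hn : nrm2 x = 0
      · rw [hn]; simp
      · have := UpA_nrm2_sq x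
        field_simp
        linarith
    have sg : ∀ t : ℝ, |(SignType.sign t : ℝ)| ≤ 1 := by
      intro t
      rcases lt_trichotomy t 0 with h | h | h
      · simp [sign_neg h]
      · simp [h]
      · simp [sign_pos h]
    have hH : crossH p q s (WithLp.toLp 2 ![(SignType.sign (x 0) : ℝ) / p,
        (SignType.sign (x 1) : ℝ) / s, x 2 / (q * nrm2 x), x 3 / (q * nrm2 x)]) ≤ 1 := by
      unfold crossH
      refine max_le (max_le ?_ ?_) ?_
      · show p * |(SignType.sign (x 0) : ℝ) / p| ≤ 1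
        rw [abs_div, abs_of_pos hp, mul_div_cancel₀ _ hp.ne']
        exact sg _
      · show s * |(SignType.sign (x 1) : ℝ) / s| ≤ 1
        rw [abs_div, abs_of_pos hs, mul_div_cancel₀ _ hs.ne']
        exact sg _
      · show q * Real.sqrt ((x 2 / (q * nrm2 x)) ^ 2 + (x 3 / (q * nrm2 x)) ^ 2) ≤ 1
        have e : (x 2 / (q * nrm2 x)) ^ 2 + (x 3 / (q * nrm2 x)) ^ 2 =
            (nrm2 x / (q * nrm2 x)) ^ 2 := by
          rw [div_pow, div_pow, div_pow, ← add_div, UpA_nrm2_sq]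
        rw [e, Real.sqrt_sq (div_nonneg (UpA_nrm2_nonneg x) (mul_nonneg hq.le
          (UpA_nrm2_nonneg x)))]
        by_cases hn : nrm2 x = 0
        · rw [hn]; simp
        · have : q * (nrm2 x / (q * nrm2 x)) = 1 := by field_simp
          rw [this]
    linarith

theorem UpA_bounds (p q s : ℝ) (hp : 0 < p) (hq : 0 < q) (hs : 0 < s) (x : C2)
    (hx : x ∈ crossSet p q s) : |x 0| ≤ p ∧ |x 1| ≤ s ∧ |x 2| ≤ q ∧ |x 3| ≤ q := by
  have hx' : |x 0| / p + |x 1| / s + nrm2 x / q ≤ 1 := hx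
  have h0 : 0 ≤ |x 0| / p := by positivity
  have h1 : 0 ≤ |x 1| / s := by positivity
  have h2 : 0 ≤ nrm2 x / q := div_nonneg (UpA_nrm2_nonneg x) hq.le
  have k2 : |x 2| ≤ nrm2 x := by
    rw [← Real.sqrt_sq_eq_abs]
    exact Real.sqrt_le_sqrt (by nlinarith [sq_nonneg (x 3)])
  have k3 : |x 3| ≤ nrm2 x := by
    rw [← Real.sqrt_sq_eq_abs]
    exact Real.sqrt_le_sqrt (by nlinarith [sq_nonneg (x 2)])
  have e0 : |x 0| / p ≤ 1 := by linarith
  have e1 : |x 1| / s ≤ 1 := by linarith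
  have e2 : nrm2 x / q ≤ 1 := by linarith
  rw [div_le_one hp] at e0
  rw [div_le_one hs] at e1
  rw [div_le_one hq] at e2
  exact ⟨e0, e1, k2.trans e2, k3.trans e2⟩

theorem UpA_wulff_convex (h : C2 → ℝ) : Convex ℝ (wulff h) := by
  intro x hx y hy a b ha hb hab w
  rw [inner_add_left, inner_smul_left, inner_smul_left]
  simp only [conj_trivial]
  have h1 := mul_le_mul_of_nonneg_left (hx w) ha
  have h2 := mul_le_mul_of_nonneg_left (hy w) hb
  have h3 : a * h w + b * h w = h w := by rw [← add_mul, hab, one_mul]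
  linarith

theorem UpA_wulff_closed (h : C2 → ℝ) : IsClosed (wulff h) := by
  have : wulff h = ⋂ w : C2, {x | inner ℝ x w ≤ h w} := by
    ext x
    simp [wulff]
  rw [this]
  refine isClosed_iInter fun w => ?_
  exact isClosed_le (by fun_prop) continuous_const

theorem cross_exists (p q s : ℝ) (hp : 0 < p) (hq : 0 < q) (hs : 0 < s) :
    ∃ K : Body, pts K = crossSet p q s := by
  have hc : IsCompact (crossSet p q s) := by
    apply isCompact_of_isClosed_isBounded
    · rw [cross_eq_wulff p q s hp hq hs]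
      exact UpA_wulff_closed _
    · rw [isBounded_iff_forall_norm_le]
      refine ⟨Real.sqrt (p ^ 2 + s ^ 2 + q ^ 2 + q ^ 2), fun x hx => ?_⟩
      obtain ⟨h0, h1, h2, h3⟩ := UpA_bounds p q s hp hq hs x hx
      rw [EuclideanSpace.norm_eq]
      apply Real.sqrt_le_sqrt
      simp only [Fin.sum_univ_four, Real.norm_eq_abs]
      have k0 := pow_le_pow_left₀ (abs_nonneg _) h0 2
      have k1 := pow_le_pow_left₀ (abs_nonneg _) h1 2
      have k2 := pow_le_pow_left₀ (abs_nonneg _) h2 2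
      have k3 := pow_le_pow_left₀ (abs_nonneg _) h3 2
      linarith
  refine ⟨⟨crossSet p q s, ?_, hc, ⟨0, ?_⟩⟩, rfl⟩
  · rw [cross_eq_wulff p q s hp hq hs]
    exact UpA_wulff_convex _
  · show |(0 : C2) 0| / p + |(0 : C2) 1| / s + nrm2 0 / q ≤ 1
    simp [nrm2]

theorem UpA_box_volume (a : Fin 4 → ℝ) (ha : ∀ i, 0 ≤ a i) :
    (volume {x : C2 | ∀ i, |x i| ≤ a i}).toReal = ∏ i, (2 * a i) := by
  have h1 : {x : C2 | ∀ i, |x i| ≤ a i} = (@WithLp.ofLp 2 (Fin 4 → ℝ)) ⁻¹' (Icc (-a) a) := by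
    ext x
    simp only [mem_ofPred_eq, mem_preimage, mem_Icc, Pi.le_def, Pi.neg_apply, abs_le]
    exact ⟨fun h => ⟨fun i => (h i).1, fun i => (h i).2⟩, fun h i => ⟨h.1 i, h.2 i⟩⟩
  rw [h1, (PiLp.volume_preserving_ofLp (Fin 4)).measure_preimage
    measurableSet_Icc.nullMeasurableSet, Real.volume_Icc_pi_toReal]
  · refine Finset.prod_congr rfl fun i _ => ?_
    rw [Pi.neg_apply]
    ring
  · intro i
    have := ha i
    rw [Pi.neg_apply]
    linarith

theorem cross_volume (p q s : ℝ) (hp : 0 < p) (hq : 0 < q) (hs : 0 < s) (K : Body)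
    (hK : pts K = crossSet p q s) :
    p * q ^ 2 * s / 100 ≤ (volume (pts K)).toReal := by
  have hfin : volume (pts K) ≠ ⊤ := K.isCompact.measure_lt_top.ne
  have hsub : {x : C2 | ∀ i, |x i| ≤ ![p / 3, s / 3, q / 5, q / 5] i} ⊆ pts K := by
    intro x hx
    rw [hK]
    show |x 0| / p + |x 1| / s + nrm2 x / q ≤ 1
    have h0 : |x 0| ≤ p / 3 := hx 0
    have h1 : |x 1| ≤ s / 3 := hx 1
    have h2 : |x 2| ≤ q / 5 := hx 2
    have h3 : |x 3| ≤ q / 5 := hx 3
    have k0 : |x 0| / p ≤ 1 / 3 := by rw [div_le_iff₀ hp]; linarith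
    have k1 : |x 1| / s ≤ 1 / 3 := by rw [div_le_iff₀ hs]; linarith
    have k2 : nrm2 x / q ≤ 1 / 3 := by
      rw [div_le_iff₀ hq]
      unfold nrm2
      rw [Real.sqrt_le_left (by positivity)]
      have l2 := pow_le_pow_left₀ (abs_nonneg _) h2 2
      have l3 := pow_le_pow_left₀ (abs_nonneg _) h3 2
      rw [sq_abs] at l2 l3
      nlinarith [sq_nonneg q]
    linarith
  have hpos : ∀ i, 0 ≤ (![p / 3, s / 3, q / 5, q / 5] : Fin 4 → ℝ) i := by
    intro i
    fin_cases i
    · show 0 ≤ p / 3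
      positivity
    · show 0 ≤ s / 3
      positivity
    · show 0 ≤ q / 5
      positivity
    · show 0 ≤ q / 5
      positivity
  have h1 := ENNReal.toReal_mono hfin (measure_mono hsub)
  rw [UpA_box_volume _ hpos] at h1
  refine le_trans ?_ h1
  rw [Fin.prod_univ_four]
  show p * q ^ 2 * s / 100 ≤ 2 * (p / 3) * (2 * (s / 3)) * (2 * (q / 5)) * (2 * (q / 5))
  have : 0 < p * q ^ 2 * s := by positivity
  nlinarith

theorem UpA_shear1 (c R B : ℝ) (hR : 0 ≤ R) (hB : 0 ≤ B) :
    volume {z : ℝ × ℝ | |z.1 - c * z.2| ≤ R ∧ |z.2| ≤ B} ≤ ENNReal.ofReal (4 * R * B) := by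
  have hm : MeasurableSet {z : ℝ × ℝ | |z.1 - c * z.2| ≤ R ∧ |z.2| ≤ B} := by
    have h1 : IsClosed {z : ℝ × ℝ | |z.1 - c * z.2| ≤ R} :=
      isClosed_le (by fun_prop) continuous_const
    have h2 : IsClosed {z : ℝ × ℝ | |z.2| ≤ B} := isClosed_le (by fun_prop) continuous_const
    exact (h1.inter h2).measurableSet
  rw [Measure.volume_eq_prod, Measure.prod_apply_symm hm]
  have h1 : ∀ y : ℝ, volume ((fun x : ℝ => (x, y)) ⁻¹'
      {z : ℝ × ℝ | |z.1 - c * z.2| ≤ R ∧ |z.2| ≤ B}) ≤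
      (Icc (-B) B).indicator (fun _ => ENNReal.ofReal (2 * R)) y := by
    intro y
    by_cases hy : y ∈ Icc (-B) B
    · rw [indicator_of_mem hy]
      have : ((fun x : ℝ => (x, y)) ⁻¹' {z : ℝ × ℝ | |z.1 - c * z.2| ≤ R ∧ |z.2| ≤ B}) ⊆
          Icc (c * y - R) (c * y + R) := by
        intro x hx
        have hx1 : |x - c * y| ≤ R := hx.1
        rw [abs_le] at hx1
        constructor
        · linarith [hx1.1]
        · linarith [hx1.2]
      refine (measure_mono this).trans ?_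
      rw [Real.volume_Icc]
      apply ENNReal.ofReal_le_ofReal
      linarith
    · rw [indicator_of_notMem hy]
      have : ((fun x : ℝ => (x, y)) ⁻¹' {z : ℝ × ℝ | |z.1 - c * z.2| ≤ R ∧ |z.2| ≤ B}) = ∅ := by
        ext x
        simp only [mem_preimage, mem_ofPred_eq, mem_empty_iff_false, iff_false, not_and]
        intro _ h2
        exact hy (abs_le.1 h2)
      rw [this, measure_empty]
  refine (lintegral_mono h1).trans ?_
  rw [lintegral_indicator measurableSet_Icc, setLIntegral_const, Real.volume_Icc,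
    ← ENNReal.ofReal_mul (by positivity)]
  apply ENNReal.ofReal_le_ofReal
  nlinarith

theorem UpA_shear2 (c R B : ℝ) (hR : 0 ≤ R) (hB : 0 ≤ B) :
    volume {z : ℝ × ℝ | |z.2 - c * z.1| ≤ R ∧ |z.1| ≤ B} ≤ ENNReal.ofReal (4 * R * B) := by
  have hm : MeasurableSet {z : ℝ × ℝ | |z.2 - c * z.1| ≤ R ∧ |z.1| ≤ B} := by
    have h1 : IsClosed {z : ℝ × ℝ | |z.2 - c * z.1| ≤ R} :=
      isClosed_le (by fun_prop) continuous_const
    have h2 : IsClosed {z : ℝ × ℝ | |z.1| ≤ B} := isClosed_le (by fun_prop) continuous_const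
    exact (h1.inter h2).measurableSet
  rw [Measure.volume_eq_prod, Measure.prod_apply hm]
  have h1 : ∀ y : ℝ, volume (Prod.mk y ⁻¹'
      {z : ℝ × ℝ | |z.2 - c * z.1| ≤ R ∧ |z.1| ≤ B}) ≤
      (Icc (-B) B).indicator (fun _ => ENNReal.ofReal (2 * R)) y := by
    intro y
    by_cases hy : y ∈ Icc (-B) B
    · rw [indicator_of_mem hy]
      have : (Prod.mk y ⁻¹' {z : ℝ × ℝ | |z.2 - c * z.1| ≤ R ∧ |z.1| ≤ B}) ⊆
          Icc (c * y - R) (c * y + R) := by
        intro x hx
        have hx1 : |x - c * y| ≤ R := hx.1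
        rw [abs_le] at hx1
        constructor
        · linarith [hx1.1]
        · linarith [hx1.2]
      refine (measure_mono this).trans ?_
      rw [Real.volume_Icc]
      apply ENNReal.ofReal_le_ofReal
      linarith
    · rw [indicator_of_notMem hy]
      have : (Prod.mk y ⁻¹' {z : ℝ × ℝ | |z.2 - c * z.1| ≤ R ∧ |z.1| ≤ B}) = ∅ := by
        ext x
        simp only [mem_preimage, mem_ofPred_eq, mem_empty_iff_false, iff_false, not_and]
        intro _ h2
        exact hy (abs_le.1 h2)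
      rw [this, measure_empty]
  refine (lintegral_mono h1).trans ?_
  rw [lintegral_indicator measurableSet_Icc, setLIntegral_const, Real.volume_Icc,
    ← ENNReal.ofReal_mul (by positivity)]
  apply ENNReal.ofReal_le_ofReal
  nlinarith

/-- the area of a neighbourhood of a segment -/
theorem UpA_strip (v0 v1 p R : ℝ) (hp : 0 ≤ p) (hR : 0 ≤ R) (S : Set (ℝ × ℝ))
    (hS : ∀ z ∈ S, ∃ t : ℝ, |t| ≤ p ∧ |z.1 - t * v0| ≤ R ∧ |z.2 - t * v1| ≤ R) (W : ℝ)
    (h0 : |v0| ≤ W) (h1 : |v1| ≤ W) :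
    (volume S).toReal ≤ 8 * R * (p * W + R) := by
  have hW : 0 ≤ W := (abs_nonneg _).trans h0
  have hB : 0 ≤ p * W + R := by positivity
  have key : volume S ≤ ENNReal.ofReal (4 * (2 * R) * (p * W + R)) := by
    rcases le_total |v0| |v1| with h | h
    · refine (measure_mono ?_).trans (UpA_shear1 (v0 / v1) (2 * R) (p * W + R)
        (by positivity) hB)
      intro z hz
      obtain ⟨t, ht, hz0, hz1⟩ := hS z hz
      refine ⟨?_, ?_⟩
      · have hc : |v0 / v1| ≤ 1 := by
          rw [abs_div]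
          exact div_le_one_of_le₀ h (abs_nonneg _)
        have hv : v0 / v1 * v1 = v0 := by
          by_cases hv1 : v1 = 0
          · have : |v0| ≤ 0 := by rw [hv1] at h; simpa using h
            have : v0 = 0 := abs_nonpos_iff.1 this
            rw [this]; simp
          · field_simp
        have e : z.1 - v0 / v1 * z.2 = (z.1 - t * v0) - v0 / v1 * (z.2 - t * v1) := by
          have : v0 / v1 * (z.2 - t * v1) = v0 / v1 * z.2 - t * (v0 / v1 * v1) := by ring
          rw [this, hv]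
          ring
        rw [e]
        calc |(z.1 - t * v0) - v0 / v1 * (z.2 - t * v1)|
            ≤ |z.1 - t * v0| + |v0 / v1 * (z.2 - t * v1)| := abs_sub _ _
          _ ≤ R + 1 * R := by
              rw [abs_mul]
              exact add_le_add hz0 (mul_le_mul hc hz1 (abs_nonneg _) zero_le_one)
          _ = 2 * R := by ring
      · have e : z.2 = t * v1 + (z.2 - t * v1) := by ring
        rw [e]
        calc |t * v1 + (z.2 - t * v1)| ≤ |t * v1| + |z.2 - t * v1| := abs_add_le _ _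
          _ ≤ p * W + R := by
              rw [abs_mul]
              exact add_le_add (mul_le_mul ht h1 (abs_nonneg _) hp) hz1
    · refine (measure_mono ?_).trans (UpA_shear2 (v1 / v0) (2 * R) (p * W + R)
        (by positivity) hB)
      intro z hz
      obtain ⟨t, ht, hz0, hz1⟩ := hS z hz
      refine ⟨?_, ?_⟩
      · have hc : |v1 / v0| ≤ 1 := by
          rw [abs_div]
          exact div_le_one_of_le₀ h (abs_nonneg _)
        have hv : v1 / v0 * v0 = v1 := by
          by_cases hv1 : v0 = 0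
          · have : |v1| ≤ 0 := by rw [hv1] at h; simpa using h
            have : v1 = 0 := abs_nonpos_iff.1 this
            rw [this]; simp
          · field_simp
        have e : z.2 - v1 / v0 * z.1 = (z.2 - t * v1) - v1 / v0 * (z.1 - t * v0) := by
          have : v1 / v0 * (z.1 - t * v0) = v1 / v0 * z.1 - t * (v1 / v0 * v0) := by ring
          rw [this, hv]
          ring
        rw [e]
        calc |(z.2 - t * v1) - v1 / v0 * (z.1 - t * v0)|
            ≤ |z.2 - t * v1| + |v1 / v0 * (z.1 - t * v0)| := abs_sub _ _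
          _ ≤ R + 1 * R := by
              rw [abs_mul]
              exact add_le_add hz1 (mul_le_mul hc hz0 (abs_nonneg _) zero_le_one)
          _ = 2 * R := by ring
      · have e : z.1 = t * v0 + (z.1 - t * v0) := by ring
        rw [e]
        calc |t * v0 + (z.1 - t * v0)| ≤ |t * v0| + |z.1 - t * v0| := abs_add_le _ _
          _ ≤ p * W + R := by
              rw [abs_mul]
              exact add_le_add (mul_le_mul ht h0 (abs_nonneg _) hp) hz0
  have h2 := ENNReal.toReal_mono ENNReal.ofReal_ne_top key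
  rw [ENNReal.toReal_ofReal (by positivity)] at h2
  linarith

theorem UpA_coord (w : C2) (i : Fin 4) : |w i| ≤ ‖w‖ := by
  have := PiLp.norm_apply_le w i
  rwa [Real.norm_eq_abs] at this

theorem UpA_rest (q s : ℝ) (hsq : s ≤ q) (x w : C2) (h1 : |x 1| ≤ s) (h2 : |x 2| ≤ q)
    (h3 : |x 3| ≤ q) : |inner ℝ x w - x 0 * w 0| ≤ 3 * q * ‖w‖ := by
  have hq : 0 ≤ q := (abs_nonneg _).trans h2
  rw [UpA_inner]
  have e : x 0 * w 0 + x 1 * w 1 + x 2 * w 2 + x 3 * w 3 - x 0 * w 0 =
    x 1 * w 1 + x 2 * w 2 + x 3 * w 3 := by ring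
  rw [e]
  have k1 : |x 1 * w 1| ≤ q * ‖w‖ := by
    rw [abs_mul]
    exact mul_le_mul (h1.trans hsq) (UpA_coord w 1) (abs_nonneg _) hq
  have k2 : |x 2 * w 2| ≤ q * ‖w‖ := by
    rw [abs_mul]
    exact mul_le_mul h2 (UpA_coord w 2) (abs_nonneg _) hq
  have k3 : |x 3 * w 3| ≤ q * ‖w‖ := by
    rw [abs_mul]
    exact mul_le_mul h3 (UpA_coord w 3) (abs_nonneg _) hq
  have := abs_add_three (x 1 * w 1) (x 2 * w 2) (x 3 * w 3)
  linarith

theorem UpA_area (u : C2 → C2) (hu : ∀ w, ‖u w‖ = ‖w‖) (p q s : ℝ) (K : Body) (hs : 0 < s)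
    (hsq : s ≤ q) (hqp : q ≤ p) (hK : pts K = crossSet p q s) (w : C2) :
    area u K w ≤ 96 * (p * q) * ‖w‖ ^ 2 := by
  have hq : 0 < q := lt_of_lt_of_le hs hsq
  have hp : 0 < p := lt_of_lt_of_le hq hqp
  have hw := norm_nonneg w
  have h := UpA_strip (w 0) (u w 0) p (3 * q * ‖w‖) hp.le (by positivity)
    ((fun x : C2 => ((inner ℝ x w : ℝ), (inner ℝ x (u w) : ℝ))) '' pts K) (by
      rintro _ ⟨x, hx, rfl⟩
      rw [hK] at hx
      obtain ⟨h0, h1, h2, h3⟩ := UpA_bounds p q s hp hq hs x hx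
      refine ⟨x 0, h0, UpA_rest q s hsq x w h1 h2 h3, ?_⟩
      have := UpA_rest q s hsq x (u w) h1 h2 h3
      rw [hu] at this
      exact this) ‖w‖ (UpA_coord w 0) (by
      have := UpA_coord (u w) 0
      rwa [hu] at this)
  refine h.trans ?_
  have : 0 ≤ ‖w‖ ^ 2 := by positivity
  have h5 : q * q ≤ p * q := mul_le_mul_of_nonneg_right hqp hq.le
  nlinarith [mul_le_mul_of_nonneg_right h5 this]

theorem UpA_Mu (u : C2 → C2) (hc : Continuous u) (hu : ∀ w, ‖u w‖ = ‖w‖) (p q s : ℝ) (K : Body)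
    (hs : 0 < s) (hsq : s ≤ q) (hqp : q ≤ p) (hK : pts K = crossSet p q s) :
    Mu u K ≤ (2 * Real.pi ^ 2)⁻¹ * (96 * ∫ w : C2, ‖w‖ ^ 2 * Real.exp (-‖w‖ ^ 2)) * (p * q) := by
  unfold Mu
  rw [mul_assoc]
  apply mul_le_mul_of_nonneg_left _ (by positivity)
  rw [mul_right_comm, ← integral_const_mul]
  refine integral_mono (I1_area_integrable u hc hu K) (I1_gauss.const_mul _) fun w => ?_
  have := UpA_area u hu p q s K hs hsq hqp hK w
  show area u K w * Real.exp (-‖w‖ ^ 2) ≤ 96 * (p * q) * (‖w‖ ^ 2 * Real.exp (-‖w‖ ^ 2))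
  rw [← mul_assoc]
  exact mul_le_mul_of_nonneg_right this (Real.exp_pos _).le

theorem cross_V2 : ∃ C : ℝ, 0 < C ∧ ∀ (p q s : ℝ) (K : Body), 0 < s → s ≤ q → q ≤ p →
    pts K = crossSet p q s → V2 K ≤ C * (p * q) := by
  set C0 : ℝ := (2 * Real.pi ^ 2)⁻¹ * (96 * ∫ w : C2, ‖w‖ ^ 2 * Real.exp (-‖w‖ ^ 2)) with hC0
  have hC0n : 0 ≤ C0 := by
    have : 0 ≤ ∫ w : C2, ‖w‖ ^ 2 * Real.exp (-‖w‖ ^ 2) :=
      integral_nonneg fun w => by positivity
    positivity
  refine ⟨3 * C0 + 1, by positivity, fun p q s K hs hsq hqp hK => ?_⟩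
  have hq : 0 < q := lt_of_lt_of_le hs hsq
  have hp : 0 < p := lt_of_lt_of_le hq hqp
  have h1 : Mu J K ≤ C0 * (p * q) := UpA_Mu J I1_contJ I1_normJ p q s K hs hsq hqp hK
  have h2 : MLag K ≤ C0 * (p * q) := by
    unfold MLag
    have h3 : ∫ α in (0 : ℝ)..(2 * Real.pi), Mu (Uq α) K ≤
        ∫ α in (0 : ℝ)..(2 * Real.pi), C0 * (p * q) := by
      apply intervalIntegral.integral_mono_on (by positivity)
        ((Mu_continuous_alpha K).intervalIntegrable _ _) (by simp)
      intro α _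
      exact UpA_Mu (Uq α) (I1_contUq' α) (I1_normUq α) p q s K hs hsq hqp hK
    rw [intervalIntegral.integral_const, smul_eq_mul, sub_zero] at h3
    have h4 := mul_le_mul_of_nonneg_left h3 (by positivity : (0 : ℝ) ≤ (2 * Real.pi)⁻¹)
    refine h4.trans (le_of_eq ?_)
    have := Real.pi_pos
    field_simp
  unfold V2 muab
  have : 0 < p * q := by positivity
  nlinarith

end Pool.Agent.HVM
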