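import Pool.Agent.HVM.UpA

/-! # The cross body: the integral (module UPC) -/

set_option autoImplicit false

namespace Pool.Agent.HVM

open MeasureTheory Metric Set
open Pool.Agent.Helper85.Herm Pool.Agent.Helper85.Cap

/-- coordinates: `w i = t`, the other ones `v` -/
noncomputable def upcMap (i : Fin 4) : (ℝ × (Fin 3 → ℝ)) ≃ᵐ C2 :=
  (MeasurableEquiv.piFinSuccAbove (fun _ => ℝ) i).symm.trans (MeasurableEquiv.toLp 2 (Fin 4 → ℝ))

theorem upcMap_mp (i : Fin 4) : MeasurePreserving (upcMap i) :=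
  ((volume_preserving_piFinSuccAbove (fun _ : Fin 4 => ℝ) i).symm _).trans
    (PiLp.volume_preserving_toLp (Fin 4))

theorem upcMap_apply (i : Fin 4) (x : ℝ × (Fin 3 → ℝ)) :
    upcMap i x = WithLp.toLp 2 (Fin.insertNth i x.1 x.2) := rfl

theorem upcMap_norm (i : Fin 4) (x : ℝ × (Fin 3 → ℝ)) :
    ‖upcMap i x‖ ^ 2 = x.1 ^ 2 + (x.2 0 ^ 2 + x.2 1 ^ 2 + x.2 2 ^ 2) := by
  rw [upcMap_apply, EuclideanSpace.real_norm_sq_eq]
  rw [Fin.sum_univ_succAbove _ i]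
  simp [Fin.sum_univ_succ, add_assoc]

/-- the one variable Gaussian integral -/
theorem upc_gauss (c : ℝ) (hc : 0 < c) :
    ∫ t : ℝ, |t| ^ 5 * Real.exp (-(c * t ^ 2)) = 2 / c ^ 3 := by
  have h1 : ∫ t : ℝ, |t| ^ 5 * Real.exp (-(c * t ^ 2))
      = ∫ t : ℝ, (fun x : ℝ => x ^ 5 * Real.exp (-(c * x ^ 2))) |t| := by
    refine integral_congr_ae (Filter.Eventually.of_forall fun t => ?_)
    simp only [sq_abs]
  rw [h1, integral_comp_abs (f := fun x : ℝ => x ^ 5 * Real.exp (-(c * x ^ 2)))]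
  have h2 : ∫ x in Ioi (0:ℝ), x ^ 5 * Real.exp (-(c * x ^ 2))
      = ∫ x in Ioi (0:ℝ), x ^ (5:ℝ) * Real.exp (-c * x ^ (2:ℝ)) := by
    refine setIntegral_congr_fun measurableSet_Ioi fun x hx => ?_
    have e1 : x ^ (5:ℝ) = x ^ 5 := by
      rw [← Real.rpow_natCast]; norm_num
    have e2 : x ^ (2:ℝ) = x ^ 2 := by
      rw [← Real.rpow_natCast]; norm_num
    simp only [e1, e2, neg_mul]
  rw [h2, integral_rpow_mul_exp_neg_mul_rpow (by norm_num) (by norm_num) hc]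
  have e3 : (-((5:ℝ) + 1) / 2) = -((3:ℕ):ℝ) := by norm_num
  have e4 : (((5:ℝ) + 1) / 2) = ((2:ℕ):ℝ) + 1 := by norm_num
  rw [e3, e4, Real.Gamma_nat_eq_factorial, Real.rpow_neg hc.le, Real.rpow_natCast]
  norm_num [Nat.factorial]
  field_simp

theorem upc_int (c : ℝ) (hc : 0 < c) :
    Integrable fun t : ℝ => |t| ^ 5 * Real.exp (-(c * t ^ 2)) := by
  have h := (integrable_rpow_mul_exp_neg_mul_sq hc (s := 5) (by norm_num)).abs
  refine h.congr (Filter.Eventually.of_forall fun t => ?_)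
  have e1 : t ^ (5:ℝ) = t ^ 5 := by
    rw [← Real.rpow_natCast]; norm_num
  simp only [e1, abs_mul, abs_pow, Real.abs_exp, neg_mul]

/-- the region in the last three variables -/
def upcCyl (A B : ℝ) : Set (Fin 3 → ℝ) := {y | |y 0| ≤ A ∧ Real.sqrt (y 1 ^ 2 + y 2 ^ 2) ≤ B}

theorem upcCyl_meas (A B : ℝ) : MeasurableSet (upcCyl A B) := by
  have h1 : Measurable fun y : Fin 3 → ℝ => |y 0| := (measurable_pi_apply 0).abs
  have h2 : Measurable fun y : Fin 3 → ℝ => Real.sqrt (y 1 ^ 2 + y 2 ^ 2) :=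
    (((measurable_pi_apply 1).pow_const 2).add ((measurable_pi_apply 2).pow_const 2)).sqrt
  exact (measurableSet_le h1 measurable_const).inter (measurableSet_le h2 measurable_const)

theorem upcCyl_fin (A B : ℝ) : volume (upcCyl A B) < ⊤ := by
  refine lt_of_le_of_lt (measure_mono ?_) (measure_closedBall_lt_top (x := 0) (r := |A| + |B|))
  intro y hy
  obtain ⟨h0, h1⟩ := hy
  have hA := le_abs_self A
  have hB := le_abs_self B
  have hA0 := abs_nonneg A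
  have hB0 := abs_nonneg B
  rw [mem_closedBall, dist_zero_right, pi_norm_le_iff_of_nonneg (by positivity)]
  have e1 : |y 1| ≤ Real.sqrt (y 1 ^ 2 + y 2 ^ 2) := by
    rw [← Real.sqrt_sq_eq_abs]; exact Real.sqrt_le_sqrt (by nlinarith [sq_nonneg (y 2)])
  have e2 : |y 2| ≤ Real.sqrt (y 1 ^ 2 + y 2 ^ 2) := by
    rw [← Real.sqrt_sq_eq_abs]; exact Real.sqrt_le_sqrt (by nlinarith [sq_nonneg (y 1)])
  intro j
  rw [Real.norm_eq_abs]
  fin_cases j
  · show |y 0| ≤ _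
    linarith
  · show |y 1| ≤ _
    linarith
  · show |y 2| ≤ _
    linarith

theorem upcCyl_bd {A B : ℝ} {y : Fin 3 → ℝ} (hy : y ∈ upcCyl A B) :
    y 0 ^ 2 ≤ A ^ 2 ∧ y 1 ^ 2 + y 2 ^ 2 ≤ B ^ 2 := by
  obtain ⟨h0, h1⟩ := hy
  constructor
  · have hA : 0 ≤ A := (abs_nonneg _).trans h0
    rw [← sq_abs]
    exact pow_le_pow_left₀ (abs_nonneg _) h0 2
  · have hB : 0 ≤ B := (Real.sqrt_nonneg _).trans h1
    have := pow_le_pow_left₀ (Real.sqrt_nonneg _) h1 2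
    rwa [Real.sq_sqrt (by positivity)] at this

/-- the double integrand -/
noncomputable def upcH (A B : ℝ) (t : ℝ) (y : Fin 3 → ℝ) : ℝ :=
  (upcCyl A B).indicator (fun y => |t| ^ 5 *
    Real.exp (-((1 + (y 0 ^ 2 + y 1 ^ 2 + y 2 ^ 2)) * t ^ 2)) *
      (1 + (y 0 ^ 2 + y 1 ^ 2 + y 2 ^ 2) - 4 * y 0 ^ 2)) y

theorem upcH_int (A B : ℝ) :
    Integrable (Function.uncurry (upcH A B))
      ((volume : Measure ℝ).prod (volume : Measure (Fin 3 → ℝ))) := by
  have hg : Integrable (fun z : ℝ × (Fin 3 → ℝ) => (|z.1| ^ 5 * Real.exp (-(1 * z.1 ^ 2))) *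
      ((upcCyl A B).indicator (fun _ => 1 + 5 * A ^ 2 + B ^ 2) z.2))
      ((volume : Measure ℝ).prod (volume : Measure (Fin 3 → ℝ))) := by
    refine Integrable.mul_prod (upc_int 1 one_pos) ?_
    rw [integrable_indicator_iff (upcCyl_meas A B)]
    exact integrableOn_const (upcCyl_fin A B).ne
  refine hg.mono' ?_ (Filter.Eventually.of_forall fun z => ?_)
  · have hm : Measurable (Function.uncurry (upcH A B)) := by
      have e : Function.uncurry (upcH A B) = (Prod.snd ⁻¹' (upcCyl A B)).indicator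
          (fun z : ℝ × (Fin 3 → ℝ) => |z.1| ^ 5 *
            Real.exp (-((1 + (z.2 0 ^ 2 + z.2 1 ^ 2 + z.2 2 ^ 2)) * z.1 ^ 2)) *
            (1 + (z.2 0 ^ 2 + z.2 1 ^ 2 + z.2 2 ^ 2) - 4 * z.2 0 ^ 2)) := by
        funext z
        by_cases hz : z.2 ∈ upcCyl A B
        · have hz' : z ∈ Prod.snd ⁻¹' (upcCyl A B) := hz
          simp only [Function.uncurry, upcH]
          rw [indicator_of_mem hz, indicator_of_mem hz']
        · have hz' : z ∉ Prod.snd ⁻¹' (upcCyl A B) := hz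
          simp only [Function.uncurry, upcH]
          rw [indicator_of_notMem hz, indicator_of_notMem hz']
      rw [e]
      refine Measurable.indicator ?_ (measurable_snd (upcCyl_meas A B))
      have hc : Continuous fun z : ℝ × (Fin 3 → ℝ) => |z.1| ^ 5 *
            Real.exp (-((1 + (z.2 0 ^ 2 + z.2 1 ^ 2 + z.2 2 ^ 2)) * z.1 ^ 2)) *
            (1 + (z.2 0 ^ 2 + z.2 1 ^ 2 + z.2 2 ^ 2) - 4 * z.2 0 ^ 2) := by
        fun_prop
      exact hc.measurable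
    exact hm.aestronglyMeasurable
  · obtain ⟨t, y⟩ := z
    simp only [Function.uncurry, upcH]
    by_cases hy : y ∈ upcCyl A B
    · rw [indicator_of_mem hy, indicator_of_mem hy]
      obtain ⟨h0, h1⟩ := upcCyl_bd hy
      have h2 : |1 + (y 0 ^ 2 + y 1 ^ 2 + y 2 ^ 2) - 4 * y 0 ^ 2| ≤ 1 + 5 * A ^ 2 + B ^ 2 := by
        rw [abs_le]
        constructor <;> nlinarith [sq_nonneg (y 0), sq_nonneg (y 1), sq_nonneg (y 2),
          sq_nonneg B, sq_nonneg A]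
      have h3 : Real.exp (-((1 + (y 0 ^ 2 + y 1 ^ 2 + y 2 ^ 2)) * t ^ 2))
          ≤ Real.exp (-(1 * t ^ 2)) := by
        apply Real.exp_le_exp.2
        nlinarith [mul_nonneg (by positivity : 0 ≤ y 0 ^ 2 + y 1 ^ 2 + y 2 ^ 2) (sq_nonneg t)]
      rw [norm_mul, norm_mul, Real.norm_of_nonneg (by positivity : 0 ≤ |t| ^ 5),
        Real.norm_of_nonneg (Real.exp_pos _).le, Real.norm_eq_abs]
      exact mul_le_mul (mul_le_mul_of_nonneg_left h3 (by positivity)) h2 (abs_nonneg _)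
        (by positivity)
    · rw [indicator_of_notMem hy, indicator_of_notMem hy]
      simp

/-- the integral over `t` -/
theorem upcH_t (A B : ℝ) (y : Fin 3 → ℝ) : ∫ t : ℝ, upcH A B t y =
    (upcCyl A B).indicator (fun y => 2 * (1 + (y 0 ^ 2 + y 1 ^ 2 + y 2 ^ 2) - 4 * y 0 ^ 2) /
      (1 + (y 0 ^ 2 + y 1 ^ 2 + y 2 ^ 2)) ^ 3) y := by
  by_cases hy : y ∈ upcCyl A B
  · simp only [upcH, indicator_of_mem hy]
    rw [integral_mul_const, upc_gauss _ (by positivity)]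
    ring
  · simp only [upcH, indicator_of_notMem hy, integral_zero]

/-- the scaling step -/
theorem upc_scale (A B : ℝ) (t : ℝ) (ht : t ≠ 0) (G : ℝ → (Fin 3 → ℝ) → ℝ)
    (hG : ∀ y, |t| ^ 3 * G t (t • y) = upcH A B t y) :
    ∫ v : Fin 3 → ℝ, G t v = ∫ y : Fin 3 → ℝ, upcH A B t y := by
  have h := Measure.integral_comp_smul (volume : Measure (Fin 3 → ℝ)) (fun v => G t v) t
  have h3 : (Module.finrank ℝ (Fin 3 → ℝ)) = 3 := by simp
  rw [h3, smul_eq_mul] at h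
  have hpos : 0 < |t| ^ 3 := by positivity
  have h4 : |(t ^ 3)⁻¹| = (|t| ^ 3)⁻¹ := by rw [abs_inv, abs_pow]
  rw [h4] at h
  have h5 : ∫ v : Fin 3 → ℝ, G t v = |t| ^ 3 * ∫ y : Fin 3 → ℝ, G t (t • y) := by
    rw [h]; field_simp
  rw [h5, ← integral_const_mul]
  exact integral_congr_ae (Filter.Eventually.of_forall fun y => hG y)

/-- the region of `C2` seen in the coordinates -/
def upcCone (A B : ℝ) : Set (ℝ × (Fin 3 → ℝ)) :=
  {x | |x.2 0| ≤ A * |x.1| ∧ Real.sqrt (x.2 1 ^ 2 + x.2 2 ^ 2) ≤ B * |x.1|}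

/-- the integrand in the coordinates -/
noncomputable def upcG (A B : ℝ) (x : ℝ × (Fin 3 → ℝ)) : ℝ :=
  (upcCone A B).indicator (fun x => Real.exp (-(x.1 ^ 2 + (x.2 0 ^ 2 + x.2 1 ^ 2 + x.2 2 ^ 2))) *
    (x.1 ^ 2 + (x.2 0 ^ 2 + x.2 1 ^ 2 + x.2 2 ^ 2) - 4 * x.2 0 ^ 2)) x

theorem upcG_smul (A B : ℝ) (t : ℝ) (ht : t ≠ 0) (y : Fin 3 → ℝ) :
    |t| ^ 3 * upcG A B (t, t • y) = upcH A B t y := by
  have hpos : 0 < |t| := abs_pos.2 ht
  have e0 : |(t • y) 0| = |t| * |y 0| := by simp [abs_mul]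
  have e1 : Real.sqrt ((t • y) 1 ^ 2 + (t • y) 2 ^ 2) = |t| * Real.sqrt (y 1 ^ 2 + y 2 ^ 2) := by
    have : (t • y) 1 ^ 2 + (t • y) 2 ^ 2 = t ^ 2 * (y 1 ^ 2 + y 2 ^ 2) := by
      simp only [Pi.smul_apply, smul_eq_mul]; ring
    rw [this, Real.sqrt_mul (sq_nonneg t), Real.sqrt_sq_eq_abs]
  have hiff : ((t, t • y) : ℝ × (Fin 3 → ℝ)) ∈ upcCone A B ↔ y ∈ upcCyl A B := by
    unfold upcCone upcCyl
    simp only [mem_ofPred_eq]
    rw [e0, e1, mul_comm A, mul_comm B, mul_le_mul_iff_right₀ hpos, mul_le_mul_iff_right₀ hpos]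
  by_cases hy : y ∈ upcCyl A B
  · have hc := hiff.2 hy
    unfold upcG upcH
    rw [indicator_of_mem hc, indicator_of_mem hy]
    simp only [Pi.smul_apply, smul_eq_mul]
    have e3 : t ^ 2 + ((t * y 0) ^ 2 + (t * y 1) ^ 2 + (t * y 2) ^ 2)
        = (1 + (y 0 ^ 2 + y 1 ^ 2 + y 2 ^ 2)) * t ^ 2 := by ring
    rw [e3]
    have e5 : |t| ^ 5 = |t| ^ 3 * t ^ 2 := by rw [← sq_abs t]; ring
    rw [e5]; ring
  · have hc : ((t, t • y) : ℝ × (Fin 3 → ℝ)) ∉ upcCone A B := fun h => hy (hiff.1 h)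
    unfold upcG upcH
    rw [indicator_of_notMem hc, indicator_of_notMem hy, mul_zero]

theorem upc_gauss3 : Integrable fun v : Fin 3 → ℝ =>
    Real.exp (-((v 0 ^ 2 + v 1 ^ 2 + v 2 ^ 2) / 2)) := by
  have h1 : ∀ i : Fin 3, Integrable (fun x : ℝ => Real.exp (-(1 / 2) * x ^ 2)) := fun _ =>
    integrable_exp_neg_mul_sq (by norm_num)
  have h := Integrable.fintype_prod (μ := fun _ : Fin 3 => (volume : Measure ℝ)) h1
  refine h.congr (Filter.Eventually.of_forall fun v => ?_)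
  simp only [Fin.prod_univ_three]
  rw [← Real.exp_add, ← Real.exp_add]
  congr 1
  ring

theorem upc_gauss4 : Integrable (fun x : ℝ × (Fin 3 → ℝ) =>
    Real.exp (-((x.1 ^ 2 + (x.2 0 ^ 2 + x.2 1 ^ 2 + x.2 2 ^ 2)) / 2)))
      ((volume : Measure ℝ).prod (volume : Measure (Fin 3 → ℝ))) := by
  have h1 : Integrable (fun x : ℝ => Real.exp (-(1 / 2) * x ^ 2)) :=
    integrable_exp_neg_mul_sq (by norm_num)
  refine (Integrable.mul_prod h1 upc_gauss3).congr (Filter.Eventually.of_forall fun v => ?_)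
  simp only
  rw [← Real.exp_add]
  congr 1
  ring

theorem upc_exp_bd (S : ℝ) : Real.exp (-S) * S ≤ 2 * Real.exp (-(S / 2)) := by
  have h1 : S ≤ 2 * Real.exp (S / 2) := by nlinarith [Real.add_one_le_exp (S / 2)]
  have h2 : Real.exp (-S) = Real.exp (-(S / 2)) * Real.exp (-(S / 2)) := by
    rw [← Real.exp_add]; congr 1; ring
  have h3 : Real.exp (-(S / 2)) * Real.exp (S / 2) = 1 := by
    rw [← Real.exp_add]; simp
  calc Real.exp (-S) * S ≤ Real.exp (-S) * (2 * Real.exp (S / 2)) :=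
        mul_le_mul_of_nonneg_left h1 (Real.exp_pos _).le
    _ = 2 * Real.exp (-(S / 2)) * (Real.exp (-(S / 2)) * Real.exp (S / 2)) := by rw [h2]; ring
    _ = 2 * Real.exp (-(S / 2)) := by rw [h3, mul_one]

theorem upcCone_meas (A B : ℝ) : MeasurableSet (upcCone A B) := by
  have h1 : Measurable fun x : ℝ × (Fin 3 → ℝ) => |x.2 0| :=
    (Continuous.abs (by fun_prop)).measurable
  have h2 : Measurable fun x : ℝ × (Fin 3 → ℝ) => Real.sqrt (x.2 1 ^ 2 + x.2 2 ^ 2) :=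
    (Continuous.sqrt (by fun_prop)).measurable
  have h3 : Measurable fun x : ℝ × (Fin 3 → ℝ) => A * |x.1| := by
    have : Continuous fun x : ℝ × (Fin 3 → ℝ) => A * |x.1| := by fun_prop
    exact this.measurable
  have h4 : Measurable fun x : ℝ × (Fin 3 → ℝ) => B * |x.1| := by
    have : Continuous fun x : ℝ × (Fin 3 → ℝ) => B * |x.1| := by fun_prop
    exact this.measurable
  exact (measurableSet_le h1 h3).inter (measurableSet_le h2 h4)

theorem upcG_int (A B : ℝ) :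
    Integrable (upcG A B) ((volume : Measure ℝ).prod (volume : Measure (Fin 3 → ℝ))) := by
  refine (upc_gauss4.const_mul 10).mono' ?_ (Filter.Eventually.of_forall fun x => ?_)
  · refine (Measurable.indicator ?_ (upcCone_meas A B)).aestronglyMeasurable
    have hc : Continuous fun x : ℝ × (Fin 3 → ℝ) =>
        Real.exp (-(x.1 ^ 2 + (x.2 0 ^ 2 + x.2 1 ^ 2 + x.2 2 ^ 2))) *
        (x.1 ^ 2 + (x.2 0 ^ 2 + x.2 1 ^ 2 + x.2 2 ^ 2) - 4 * x.2 0 ^ 2) := by fun_prop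
    exact hc.measurable
  · unfold upcG
    refine (norm_indicator_le_norm_self _ _).trans ?_
    have h1 := upc_exp_bd (x.1 ^ 2 + (x.2 0 ^ 2 + x.2 1 ^ 2 + x.2 2 ^ 2))
    rw [norm_mul, Real.norm_of_nonneg (Real.exp_pos _).le, Real.norm_eq_abs]
    have h2 : |x.1 ^ 2 + (x.2 0 ^ 2 + x.2 1 ^ 2 + x.2 2 ^ 2) - 4 * x.2 0 ^ 2|
        ≤ 5 * (x.1 ^ 2 + (x.2 0 ^ 2 + x.2 1 ^ 2 + x.2 2 ^ 2)) := by
      rw [abs_le]
      constructor <;> nlinarith [sq_nonneg (x.1), sq_nonneg (x.2 0), sq_nonneg (x.2 1),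
        sq_nonneg (x.2 2)]
    calc Real.exp (-(x.1 ^ 2 + (x.2 0 ^ 2 + x.2 1 ^ 2 + x.2 2 ^ 2))) *
          |x.1 ^ 2 + (x.2 0 ^ 2 + x.2 1 ^ 2 + x.2 2 ^ 2) - 4 * x.2 0 ^ 2|
        ≤ Real.exp (-(x.1 ^ 2 + (x.2 0 ^ 2 + x.2 1 ^ 2 + x.2 2 ^ 2))) *
          (5 * (x.1 ^ 2 + (x.2 0 ^ 2 + x.2 1 ^ 2 + x.2 2 ^ 2))) :=
          mul_le_mul_of_nonneg_left h2 (Real.exp_pos _).le
      _ = 5 * (Real.exp (-(x.1 ^ 2 + (x.2 0 ^ 2 + x.2 1 ^ 2 + x.2 2 ^ 2))) *
          (x.1 ^ 2 + (x.2 0 ^ 2 + x.2 1 ^ 2 + x.2 2 ^ 2))) := by ring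
      _ ≤ 5 * (2 * Real.exp (-((x.1 ^ 2 + (x.2 0 ^ 2 + x.2 1 ^ 2 + x.2 2 ^ 2)) / 2))) :=
          mul_le_mul_of_nonneg_left h1 (by norm_num)
      _ = _ := by ring

/-- the integral over the cone, reduced to the last three variables -/
theorem upcG_eq (A B : ℝ) :
    ∫ x, upcG A B x ∂((volume : Measure ℝ).prod (volume : Measure (Fin 3 → ℝ)))
    = ∫ y : Fin 3 → ℝ, (upcCyl A B).indicator
      (fun y => 2 * (1 + (y 0 ^ 2 + y 1 ^ 2 + y 2 ^ 2) - 4 * y 0 ^ 2) /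
      (1 + (y 0 ^ 2 + y 1 ^ 2 + y 2 ^ 2)) ^ 3) y := by
  rw [integral_prod _ (upcG_int A B)]
  have h0 : ∀ᵐ t : ℝ, ∫ v : Fin 3 → ℝ, upcG A B (t, v) = ∫ y : Fin 3 → ℝ, upcH A B t y := by
    have : ∀ᵐ t : ℝ, t ≠ 0 := by
      rw [ae_iff]; simp
    filter_upwards [this] with t ht
    exact upc_scale A B t ht (fun t v => upcG A B (t, v)) (fun y => upcG_smul A B t ht y)
  rw [integral_congr_ae h0, integral_integral_swap (upcH_int A B)]
  exact integral_congr_ae (Filter.Eventually.of_forall fun y => upcH_t A B y)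

theorem upcL_int (A B : ℝ) : Integrable ((upcCyl A B).indicator
      (fun y : Fin 3 → ℝ => 2 * (1 + (y 0 ^ 2 + y 1 ^ 2 + y 2 ^ 2) - 4 * y 0 ^ 2) /
      (1 + (y 0 ^ 2 + y 1 ^ 2 + y 2 ^ 2)) ^ 3)) := by
  have hg : Integrable ((upcCyl A B).indicator (fun _ : Fin 3 → ℝ =>
      2 * (1 + 5 * A ^ 2 + B ^ 2))) := by
    rw [integrable_indicator_iff (upcCyl_meas A B)]
    exact integrableOn_const (upcCyl_fin A B).ne
  refine hg.mono' ?_ (Filter.Eventually.of_forall fun y => ?_)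
  · refine (Measurable.indicator ?_ (upcCyl_meas A B)).aestronglyMeasurable
    have hc : Continuous fun y : Fin 3 → ℝ =>
        2 * (1 + (y 0 ^ 2 + y 1 ^ 2 + y 2 ^ 2) - 4 * y 0 ^ 2) /
      (1 + (y 0 ^ 2 + y 1 ^ 2 + y 2 ^ 2)) ^ 3 := by
      refine Continuous.div (by fun_prop) (by fun_prop) fun y => ?_
      have : 0 < 1 + (y 0 ^ 2 + y 1 ^ 2 + y 2 ^ 2) := by positivity
      positivity
    exact hc.measurable
  · by_cases hy : y ∈ upcCyl A B
    · rw [indicator_of_mem hy, indicator_of_mem hy]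
      obtain ⟨h0, h1⟩ := upcCyl_bd hy
      have h2 : |1 + (y 0 ^ 2 + y 1 ^ 2 + y 2 ^ 2) - 4 * y 0 ^ 2| ≤ 1 + 5 * A ^ 2 + B ^ 2 := by
        rw [abs_le]
        constructor <;> nlinarith [sq_nonneg (y 0), sq_nonneg (y 1), sq_nonneg (y 2),
          sq_nonneg B, sq_nonneg A]
      have hc1 : 1 ≤ 1 + (y 0 ^ 2 + y 1 ^ 2 + y 2 ^ 2) := by
        nlinarith [sq_nonneg (y 0), sq_nonneg (y 1), sq_nonneg (y 2)]
      have hc3 : 1 ≤ (1 + (y 0 ^ 2 + y 1 ^ 2 + y 2 ^ 2)) ^ 3 := one_le_pow₀ hc1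
      rw [norm_div, Real.norm_of_nonneg (by positivity : 0 ≤ (1 + (y 0 ^ 2 + y 1 ^ 2 + y 2 ^ 2)) ^ 3),
        norm_mul, Real.norm_eq_abs, Real.norm_eq_abs, abs_of_pos (by norm_num : (0:ℝ) < 2)]
      exact (div_le_self (by positivity) hc3).trans (mul_le_mul_of_nonneg_left h2 (by norm_num))
    · rw [indicator_of_notMem hy, indicator_of_notMem hy]
      simp

/-- the disc -/
def upcDisc (B : ℝ) : Set (Fin 2 → ℝ) := {z | Real.sqrt (z 0 ^ 2 + z 1 ^ 2) ≤ B}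

theorem upcDisc_eq (B : ℝ) : upcDisc B =
    (WithLp.toLp 2 : (Fin 2 → ℝ) → EuclideanSpace ℝ (Fin 2)) ⁻¹' closedBall 0 B := by
  ext z
  simp only [upcDisc, mem_ofPred_eq, mem_preimage, mem_closedBall, dist_zero_right,
    EuclideanSpace.norm_eq, Fin.sum_univ_two, Real.norm_eq_abs, sq_abs]

theorem upcDisc_vol (B : ℝ) (hB : 0 ≤ B) : volume (upcDisc B) = ENNReal.ofReal (B ^ 2 * Real.pi) := by
  rw [upcDisc_eq, (PiLp.volume_preserving_toLp (Fin 2)).measure_preimage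
    measurableSet_closedBall.nullMeasurableSet, EuclideanSpace.volume_closedBall_fin_two,
    ENNReal.ofReal_mul (by positivity), ENNReal.ofReal_pow hB]

theorem upcDisc_meas (B : ℝ) : MeasurableSet (upcDisc B) := by
  rw [upcDisc_eq]
  exact (PiLp.volume_preserving_toLp (Fin 2)).measurable measurableSet_closedBall

/-- the integral over one variable -/
theorem upc_inner (A ρ : ℝ) (hA : 0 < A) (hρ : 0 < ρ) :
    ∫ a in (-A)..A, 2 * (ρ + a ^ 2 - 4 * a ^ 2) / (ρ + a ^ 2) ^ 3 = 4 * A / (ρ + A ^ 2) ^ 2 := by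
  have hne : ∀ a : ℝ, ρ + a ^ 2 ≠ 0 := fun a => by positivity
  have hd : ∀ a ∈ uIcc (-A) A, HasDerivAt (fun a : ℝ => 2 * a / (ρ + a ^ 2) ^ 2)
      (2 * (ρ + a ^ 2 - 4 * a ^ 2) / (ρ + a ^ 2) ^ 3) a := by
    intro a _
    have h1 : HasDerivAt (fun a : ℝ => 2 * a) 2 a := by
      simpa using (hasDerivAt_id a).const_mul 2
    have h2 : HasDerivAt (fun a : ℝ => (ρ + a ^ 2) ^ 2) (2 * (ρ + a ^ 2) * (2 * a)) a := by
      have h3 : HasDerivAt (fun a : ℝ => ρ + a ^ 2) (2 * a) a := by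
        simpa using (hasDerivAt_pow 2 a).const_add ρ
      simpa using h3.fun_pow 2
    have h4 := h1.div h2 (pow_ne_zero 2 (hne a))
    refine h4.congr_deriv ?_
    have := hne a
    field_simp
    ring
  rw [intervalIntegral.integral_eq_sub_of_hasDerivAt hd]
  · have h1 := hne A
    have h2 : (-A) ^ 2 = A ^ 2 := by ring
    rw [h2]
    field_simp
    ring
  · apply Continuous.intervalIntegrable
    refine Continuous.div (by fun_prop) (by fun_prop) fun y => pow_ne_zero 3 (hne y)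

/-- the integral over `y` -/
theorem upcL_le (A B K : ℝ) (hA : 0 < A) (hB : 0 ≤ B)
    (hK : ∀ ρ, 1 ≤ ρ → 4 * A / (ρ + A ^ 2) ^ 2 ≤ K) :
    ∫ y : Fin 3 → ℝ, (upcCyl A B).indicator
      (fun y => 2 * (1 + (y 0 ^ 2 + y 1 ^ 2 + y 2 ^ 2) - 4 * y 0 ^ 2) /
      (1 + (y 0 ^ 2 + y 1 ^ 2 + y 2 ^ 2)) ^ 3) y ≤ K * (B ^ 2 * Real.pi) := by
  have hmp := (volume_preserving_piFinSuccAbove (fun _ : Fin 3 => ℝ) 0).symm _
  rw [← hmp.integral_comp' ]
  have hint := (hmp.integrable_comp_emb (MeasurableEquiv.measurableEmbedding _)).2 (upcL_int A B)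
  rw [Measure.volume_eq_prod] at hint ⊢
  have hint' : Integrable (fun x : ℝ × (Fin 2 → ℝ) => (upcCyl A B).indicator
      (fun y => 2 * (1 + (y 0 ^ 2 + y 1 ^ 2 + y 2 ^ 2) - 4 * y 0 ^ 2) /
      (1 + (y 0 ^ 2 + y 1 ^ 2 + y 2 ^ 2)) ^ 3)
      ((MeasurableEquiv.piFinSuccAbove (fun _ : Fin 3 => ℝ) 0).symm x))
      ((volume : Measure ℝ).prod (volume : Measure (Fin 2 → ℝ))) := hint
  rw [integral_prod_symm _ hint']
  have hz : ∀ z : Fin 2 → ℝ, ∫ a : ℝ, (upcCyl A B).indicator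
      (fun y => 2 * (1 + (y 0 ^ 2 + y 1 ^ 2 + y 2 ^ 2) - 4 * y 0 ^ 2) /
      (1 + (y 0 ^ 2 + y 1 ^ 2 + y 2 ^ 2)) ^ 3)
      ((MeasurableEquiv.piFinSuccAbove (fun _ : Fin 3 => ℝ) 0).symm (a, z)) =
      (upcDisc B).indicator (fun z => 4 * A / (1 + (z 0 ^ 2 + z 1 ^ 2) + A ^ 2) ^ 2) z := by
    intro z
    have e0 : ∀ a : ℝ, (MeasurableEquiv.piFinSuccAbove (fun _ : Fin 3 => ℝ) 0).symm (a, z) 0 = a :=
      fun a => rfl
    have e1 : ∀ a : ℝ, (MeasurableEquiv.piFinSuccAbove (fun _ : Fin 3 => ℝ) 0).symm (a, z) 1 = z 0 :=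
      fun a => rfl
    have e2 : ∀ a : ℝ, (MeasurableEquiv.piFinSuccAbove (fun _ : Fin 3 => ℝ) 0).symm (a, z) 2 = z 1 :=
      fun a => rfl
    by_cases hz : z ∈ upcDisc B
    · rw [indicator_of_mem hz]
      have h1 : ∀ a : ℝ, (upcCyl A B).indicator
          (fun y => 2 * (1 + (y 0 ^ 2 + y 1 ^ 2 + y 2 ^ 2) - 4 * y 0 ^ 2) /
          (1 + (y 0 ^ 2 + y 1 ^ 2 + y 2 ^ 2)) ^ 3)
          ((MeasurableEquiv.piFinSuccAbove (fun _ : Fin 3 => ℝ) 0).symm (a, z)) =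
          (Icc (-A) A).indicator (fun a => 2 * ((1 + (z 0 ^ 2 + z 1 ^ 2)) + a ^ 2 - 4 * a ^ 2) /
            ((1 + (z 0 ^ 2 + z 1 ^ 2)) + a ^ 2) ^ 3) a := by
        intro a
        by_cases ha : a ∈ Icc (-A) A
        · have hm : (MeasurableEquiv.piFinSuccAbove (fun _ : Fin 3 => ℝ) 0).symm (a, z)
              ∈ upcCyl A B := by
            refine ⟨?_, ?_⟩
            · rw [e0]; exact abs_le.2 ha
            · rw [e1, e2]; exact hz
          rw [indicator_of_mem hm, indicator_of_mem ha, e0, e1, e2]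
          have e : 1 + (a ^ 2 + z 0 ^ 2 + z 1 ^ 2) = (1 + (z 0 ^ 2 + z 1 ^ 2)) + a ^ 2 := by ring
          rw [e]
        · have hm : (MeasurableEquiv.piFinSuccAbove (fun _ : Fin 3 => ℝ) 0).symm (a, z)
              ∉ upcCyl A B := by
            intro hm
            have := hm.1
            rw [e0] at this
            exact ha (abs_le.1 this)
          rw [indicator_of_notMem hm, indicator_of_notMem ha]
      rw [integral_congr_ae (Filter.Eventually.of_forall h1), integral_indicator measurableSet_Icc,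
        integral_Icc_eq_integral_Ioc, ← intervalIntegral.integral_of_le (by linarith),
        upc_inner A _ hA (by positivity)]
    · rw [indicator_of_notMem hz]
      have h1 : ∀ a : ℝ, (upcCyl A B).indicator
          (fun y => 2 * (1 + (y 0 ^ 2 + y 1 ^ 2 + y 2 ^ 2) - 4 * y 0 ^ 2) /
          (1 + (y 0 ^ 2 + y 1 ^ 2 + y 2 ^ 2)) ^ 3)
          ((MeasurableEquiv.piFinSuccAbove (fun _ : Fin 3 => ℝ) 0).symm (a, z)) = 0 := by
        intro a
        apply indicator_of_notMem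
        intro hm
        have := hm.2
        rw [e1, e2] at this
        exact hz this
      rw [integral_congr_ae (Filter.Eventually.of_forall h1), integral_zero]
  rw [integral_congr_ae (Filter.Eventually.of_forall hz)]
  have hK0 : 0 ≤ K := le_trans (by positivity) (hK 1 le_rfl)
  have hfin : volume (upcDisc B) ≠ ⊤ := by
    rw [upcDisc_vol B hB]; exact ENNReal.ofReal_ne_top
  have hKint : Integrable ((upcDisc B).indicator fun _ : Fin 2 → ℝ => K) := by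
    rw [integrable_indicator_iff (upcDisc_meas B)]
    exact integrableOn_const hfin
  calc ∫ z : Fin 2 → ℝ, (upcDisc B).indicator
        (fun z => 4 * A / (1 + (z 0 ^ 2 + z 1 ^ 2) + A ^ 2) ^ 2) z
      ≤ ∫ z : Fin 2 → ℝ, (upcDisc B).indicator (fun _ => K) z := by
        refine integral_mono_of_nonneg (Filter.Eventually.of_forall fun z => ?_) hKint
          (Filter.Eventually.of_forall fun z => ?_)
        · apply indicator_nonneg
          intro z _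
          positivity
        · apply indicator_le_indicator
          exact hK _ (by nlinarith [sq_nonneg (z 0), sq_nonneg (z 1)])
    _ = K * (B ^ 2 * Real.pi) := by
        rw [integral_indicator (upcDisc_meas B), setIntegral_const, measureReal_def,
          upcDisc_vol B hB, ENNReal.toReal_ofReal (by positivity), smul_eq_mul]
        ring

theorem upc_main (A B K : ℝ) (hA : 0 < A) (hB : 0 ≤ B)
    (hK : ∀ ρ, 1 ≤ ρ → 4 * A / (ρ + A ^ 2) ^ 2 ≤ K) :
    ∫ x, upcG A B x ∂((volume : Measure ℝ).prod (volume : Measure (Fin 3 → ℝ)))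
      ≤ K * (B ^ 2 * Real.pi) := by
  rw [upcG_eq]
  exact upcL_le A B K hA hB hK

/-- first cone -/
theorem cone_one (p q s : ℝ) (hp : 0 < p) (hq : 0 < q) (hs : 0 < s) :
    ∫ w : C2, Set.indicator {w : C2 | s * |w 1| ≤ p * |w 0| ∧ q * nrm2 w ≤ p * |w 0|}
      (fun w => Real.exp (-‖w‖ ^ 2) * (‖w‖ ^ 2 - 4 * w 1 ^ 2)) w
      ≤ 4 * Real.pi * (p / q) ^ 2 * (s / p) ^ 3 := by
  rw [← (upcMap_mp 0).integral_comp' , Measure.volume_eq_prod]
  have hG : ∀ x : ℝ × (Fin 3 → ℝ),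
      Set.indicator {w : C2 | s * |w 1| ≤ p * |w 0| ∧ q * nrm2 w ≤ p * |w 0|}
      (fun w => Real.exp (-‖w‖ ^ 2) * (‖w‖ ^ 2 - 4 * w 1 ^ 2)) (upcMap 0 x)
      = upcG (p / s) (p / q) x := by
    intro x
    have e0 : upcMap 0 x 0 = x.1 := rfl
    have e1 : upcMap 0 x 1 = x.2 0 := rfl
    have e2 : upcMap 0 x 2 = x.2 1 := rfl
    have e3 : upcMap 0 x 3 = x.2 2 := rfl
    have hiff : upcMap 0 x ∈ {w : C2 | s * |w 1| ≤ p * |w 0| ∧ q * nrm2 w ≤ p * |w 0|}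
        ↔ x ∈ upcCone (p / s) (p / q) := by
      simp only [mem_ofPred_eq, upcCone, nrm2, e0, e1, e2, e3]
      rw [div_mul_eq_mul_div, div_mul_eq_mul_div, le_div_iff₀ hs, le_div_iff₀ hq,
        mul_comm s, mul_comm q]
    by_cases hx : x ∈ upcCone (p / s) (p / q)
    · unfold upcG
      rw [indicator_of_mem (hiff.2 hx), indicator_of_mem hx, upcMap_norm, e1]
    · unfold upcG
      rw [indicator_of_notMem (fun h => hx (hiff.1 h)), indicator_of_notMem hx]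
  rw [integral_congr_ae (Filter.Eventually.of_forall hG)]
  refine (upc_main (p / s) (p / q) (4 * (s / p) ^ 3) (by positivity) (by positivity) ?_).trans
    (le_of_eq (by ring))
  intro ρ hρ
  have h1 : (p / s) ^ 4 ≤ (ρ + (p / s) ^ 2) ^ 2 := by
    have : (p / s) ^ 4 = ((p / s) ^ 2) ^ 2 := by ring
    rw [this]
    exact pow_le_pow_left₀ (by positivity) (by linarith) 2
  calc 4 * (p / s) / (ρ + (p / s) ^ 2) ^ 2 ≤ 4 * (p / s) / (p / s) ^ 4 :=
        div_le_div_of_nonneg_left (by positivity) (by positivity) h1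
    _ = 4 * (s / p) ^ 3 := by field_simp

/-- second cone -/
theorem cone_two (p q s : ℝ) (hp : 0 < p) (hq : 0 < q) (hs : 0 < s) :
    ∫ w : C2, Set.indicator {w : C2 | p * |w 0| ≤ s * |w 1| ∧ q * nrm2 w ≤ s * |w 1|}
      (fun w => Real.exp (-‖w‖ ^ 2) * (‖w‖ ^ 2 - 4 * w 0 ^ 2)) w
      ≤ 4 * Real.pi * (s / q) ^ 2 * (s / p) := by
  rw [← (upcMap_mp 1).integral_comp' , Measure.volume_eq_prod]
  have hG : ∀ x : ℝ × (Fin 3 → ℝ),
      Set.indicator {w : C2 | p * |w 0| ≤ s * |w 1| ∧ q * nrm2 w ≤ s * |w 1|}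
      (fun w => Real.exp (-‖w‖ ^ 2) * (‖w‖ ^ 2 - 4 * w 0 ^ 2)) (upcMap 1 x)
      = upcG (s / p) (s / q) x := by
    intro x
    have e0 : upcMap 1 x 1 = x.1 := rfl
    have e1 : upcMap 1 x 0 = x.2 0 := rfl
    have e2 : upcMap 1 x 2 = x.2 1 := rfl
    have e3 : upcMap 1 x 3 = x.2 2 := rfl
    have hiff : upcMap 1 x ∈ {w : C2 | p * |w 0| ≤ s * |w 1| ∧ q * nrm2 w ≤ s * |w 1|}
        ↔ x ∈ upcCone (s / p) (s / q) := by
      simp only [mem_ofPred_eq, upcCone, nrm2, e0, e1, e2, e3]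
      rw [div_mul_eq_mul_div, div_mul_eq_mul_div, le_div_iff₀ hp, le_div_iff₀ hq,
        mul_comm p, mul_comm q]
    by_cases hx : x ∈ upcCone (s / p) (s / q)
    · unfold upcG
      rw [indicator_of_mem (hiff.2 hx), indicator_of_mem hx, upcMap_norm, e1]
    · unfold upcG
      rw [indicator_of_notMem (fun h => hx (hiff.1 h)), indicator_of_notMem hx]
  rw [integral_congr_ae (Filter.Eventually.of_forall hG)]
  refine (upc_main (s / p) (s / q) (4 * (s / p)) (by positivity) (by positivity) ?_).trans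
    (le_of_eq (by ring))
  intro ρ hρ
  apply div_le_self (by positivity)
  apply one_le_pow₀
  nlinarith [sq_nonneg (s / p)]

theorem upc_gauss3' : Integrable fun v : Fin 3 → ℝ =>
    Real.exp (-((v 0 ^ 2 + v 1 ^ 2 + v 2 ^ 2) / 4)) := by
  have h1 : ∀ i : Fin 3, Integrable (fun x : ℝ => Real.exp (-(1 / 4) * x ^ 2)) := fun _ =>
    integrable_exp_neg_mul_sq (by norm_num)
  have h := Integrable.fintype_prod (μ := fun _ : Fin 3 => (volume : Measure ℝ)) h1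
  refine h.congr (Filter.Eventually.of_forall fun v => ?_)
  simp only [Fin.prod_univ_three]
  rw [← Real.exp_add, ← Real.exp_add]
  congr 1
  ring

theorem upc_n_int : Integrable fun v : Fin 3 → ℝ =>
    4 * Real.sqrt (v 1 ^ 2 + v 2 ^ 2) * Real.exp (-((v 0 ^ 2 + v 1 ^ 2 + v 2 ^ 2) / 2)) := by
  refine (upc_gauss3'.const_mul 4).mono' ?_ (Filter.Eventually.of_forall fun v => ?_)
  · have hc : Continuous fun v : Fin 3 → ℝ =>
        4 * Real.sqrt (v 1 ^ 2 + v 2 ^ 2) * Real.exp (-((v 0 ^ 2 + v 1 ^ 2 + v 2 ^ 2) / 2)) := by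
      refine Continuous.mul (Continuous.mul continuous_const (Continuous.sqrt (by fun_prop)))
        (by fun_prop)
    exact hc.aestronglyMeasurable
  · rw [Real.norm_of_nonneg (by positivity)]
    have h1 : Real.sqrt (v 1 ^ 2 + v 2 ^ 2) ≤ 1 + (v 0 ^ 2 + v 1 ^ 2 + v 2 ^ 2) / 4 := by
      rw [Real.sqrt_le_left (by positivity)]
      nlinarith [sq_nonneg ((v 1 ^ 2 + v 2 ^ 2) / 4 - 1), sq_nonneg (v 0),
        sq_nonneg (v 1), sq_nonneg (v 2), mul_nonneg (sq_nonneg (v 0)) (sq_nonneg (v 1)),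
        mul_nonneg (sq_nonneg (v 0)) (sq_nonneg (v 2)), mul_nonneg (sq_nonneg (v 0)) (sq_nonneg (v 0))]
    have h2 : 1 + (v 0 ^ 2 + v 1 ^ 2 + v 2 ^ 2) / 4
        ≤ Real.exp ((v 0 ^ 2 + v 1 ^ 2 + v 2 ^ 2) / 4) := by
      linarith [Real.add_one_le_exp ((v 0 ^ 2 + v 1 ^ 2 + v 2 ^ 2) / 4)]
    calc 4 * Real.sqrt (v 1 ^ 2 + v 2 ^ 2) * Real.exp (-((v 0 ^ 2 + v 1 ^ 2 + v 2 ^ 2) / 2))
        ≤ 4 * Real.exp ((v 0 ^ 2 + v 1 ^ 2 + v 2 ^ 2) / 4) *
          Real.exp (-((v 0 ^ 2 + v 1 ^ 2 + v 2 ^ 2) / 2)) := by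
          refine mul_le_mul_of_nonneg_right ?_ (Real.exp_pos _).le
          exact mul_le_mul_of_nonneg_left (h1.trans h2) (by norm_num)
      _ = 4 * Real.exp (-((v 0 ^ 2 + v 1 ^ 2 + v 2 ^ 2) / 4)) := by
          rw [mul_assoc, ← Real.exp_add]
          congr 2
          ring

/-- the third region in the coordinates -/
noncomputable def upcF (p q : ℝ) (x : ℝ × (Fin 3 → ℝ)) : ℝ :=
  {x : ℝ × (Fin 3 → ℝ) | p * |x.1| ≤ q * Real.sqrt (x.2 1 ^ 2 + x.2 2 ^ 2)}.indicator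
    (fun x => Real.exp (-(x.1 ^ 2 + (x.2 0 ^ 2 + x.2 1 ^ 2 + x.2 2 ^ 2))) *
    (x.1 ^ 2 + (x.2 0 ^ 2 + x.2 1 ^ 2 + x.2 2 ^ 2))) x

theorem upcF_nonneg (p q : ℝ) (x : ℝ × (Fin 3 → ℝ)) : 0 ≤ upcF p q x := by
  unfold upcF
  apply indicator_nonneg
  intro x _
  positivity

theorem upcF_int (p q : ℝ) :
    Integrable (upcF p q) ((volume : Measure ℝ).prod (volume : Measure (Fin 3 → ℝ))) := by
  refine (upc_gauss4.const_mul 2).mono' ?_ (Filter.Eventually.of_forall fun x => ?_)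
  · refine (Measurable.indicator ?_ ?_).aestronglyMeasurable
    · have hc : Continuous fun x : ℝ × (Fin 3 → ℝ) =>
          Real.exp (-(x.1 ^ 2 + (x.2 0 ^ 2 + x.2 1 ^ 2 + x.2 2 ^ 2))) *
          (x.1 ^ 2 + (x.2 0 ^ 2 + x.2 1 ^ 2 + x.2 2 ^ 2)) := by fun_prop
      exact hc.measurable
    · have h2 : Continuous fun x : ℝ × (Fin 3 → ℝ) => q * Real.sqrt (x.2 1 ^ 2 + x.2 2 ^ 2) :=
        continuous_const.mul (Continuous.sqrt (by fun_prop))
      have h3 : Continuous fun x : ℝ × (Fin 3 → ℝ) => p * |x.1| := by fun_prop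
      exact measurableSet_le h3.measurable h2.measurable
  · unfold upcF
    refine (norm_indicator_le_norm_self _ _).trans ?_
    rw [Real.norm_of_nonneg (by positivity)]
    exact upc_exp_bd _

theorem upcF_t (p q : ℝ) (hp : 0 < p) (hq : 0 < q) (v : Fin 3 → ℝ) :
    ∫ t : ℝ, upcF p q (t, v) ≤ (q / p) * (4 * Real.sqrt (v 1 ^ 2 + v 2 ^ 2) *
      Real.exp (-((v 0 ^ 2 + v 1 ^ 2 + v 2 ^ 2) / 2))) := by
  have hn : 0 ≤ Real.sqrt (v 1 ^ 2 + v 2 ^ 2) := Real.sqrt_nonneg _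
  have hb : 0 ≤ q / p * Real.sqrt (v 1 ^ 2 + v 2 ^ 2) := by positivity
  calc ∫ t : ℝ, upcF p q (t, v)
      ≤ ∫ t : ℝ, (Icc (-(q / p * Real.sqrt (v 1 ^ 2 + v 2 ^ 2)))
          (q / p * Real.sqrt (v 1 ^ 2 + v 2 ^ 2))).indicator
          (fun _ => 2 * Real.exp (-((v 0 ^ 2 + v 1 ^ 2 + v 2 ^ 2) / 2))) t := by
        refine integral_mono_of_nonneg (Filter.Eventually.of_forall fun t => upcF_nonneg p q _)
          ?_ (Filter.Eventually.of_forall fun t => ?_)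
        · rw [integrable_indicator_iff measurableSet_Icc]
          exact integrableOn_const (by simp)
        · by_cases ht : t ∈ Icc (-(q / p * Real.sqrt (v 1 ^ 2 + v 2 ^ 2)))
              (q / p * Real.sqrt (v 1 ^ 2 + v 2 ^ 2))
          · simp only
            rw [indicator_of_mem ht]
            unfold upcF
            refine (indicator_le_self' (fun _ _ => by positivity) _).trans ?_
            refine (upc_exp_bd _).trans ?_
            refine mul_le_mul_of_nonneg_left (Real.exp_le_exp.2 ?_) (by norm_num)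
            simp only
            nlinarith [sq_nonneg t]
          · simp only
            rw [indicator_of_notMem ht]
            unfold upcF
            rw [indicator_of_notMem]
            intro hmem
            have h1 : p * |t| ≤ q * Real.sqrt (v 1 ^ 2 + v 2 ^ 2) := hmem
            apply ht
            apply abs_le.1
            rw [div_mul_eq_mul_div, le_div_iff₀ hp, mul_comm]
            exact h1
    _ = _ := by
        rw [integral_indicator measurableSet_Icc, setIntegral_const, measureReal_def,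
          Real.volume_Icc, ENNReal.toReal_ofReal (by linarith), smul_eq_mul]
        ring

/-- third region -/
theorem cone_three : ∃ C : ℝ, 0 < C ∧ ∀ p q : ℝ, 0 < p → 0 < q →
    ∫ w : C2, Set.indicator {w : C2 | p * |w 0| ≤ q * nrm2 w}
      (fun w => Real.exp (-‖w‖ ^ 2) * ‖w‖ ^ 2) w ≤ C * (q / p) := by
  have hI : 0 ≤ ∫ v : Fin 3 → ℝ, 4 * Real.sqrt (v 1 ^ 2 + v 2 ^ 2) *
      Real.exp (-((v 0 ^ 2 + v 1 ^ 2 + v 2 ^ 2) / 2)) := integral_nonneg fun v => by positivity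
  refine ⟨(∫ v : Fin 3 → ℝ, 4 * Real.sqrt (v 1 ^ 2 + v 2 ^ 2) *
      Real.exp (-((v 0 ^ 2 + v 1 ^ 2 + v 2 ^ 2) / 2))) + 1, by linarith, ?_⟩
  intro p q hp hq
  rw [← (upcMap_mp 0).integral_comp' , Measure.volume_eq_prod]
  have hG : ∀ x : ℝ × (Fin 3 → ℝ),
      Set.indicator {w : C2 | p * |w 0| ≤ q * nrm2 w}
      (fun w => Real.exp (-‖w‖ ^ 2) * ‖w‖ ^ 2) (upcMap 0 x) = upcF p q x := by
    intro x
    have e0 : upcMap 0 x 0 = x.1 := rfl
    have e2 : upcMap 0 x 2 = x.2 1 := rfl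
    have e3 : upcMap 0 x 3 = x.2 2 := rfl
    have hiff : upcMap 0 x ∈ {w : C2 | p * |w 0| ≤ q * nrm2 w}
        ↔ x ∈ {x : ℝ × (Fin 3 → ℝ) | p * |x.1| ≤ q * Real.sqrt (x.2 1 ^ 2 + x.2 2 ^ 2)} := by
      simp only [mem_ofPred_eq, nrm2, e0, e2, e3]
    by_cases hx : x ∈ {x : ℝ × (Fin 3 → ℝ) | p * |x.1| ≤ q * Real.sqrt (x.2 1 ^ 2 + x.2 2 ^ 2)}
    · unfold upcF
      rw [indicator_of_mem (hiff.2 hx), indicator_of_mem hx, upcMap_norm]
    · unfold upcF
      rw [indicator_of_notMem (fun h => hx (hiff.1 h)), indicator_of_notMem hx]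
  rw [integral_congr_ae (Filter.Eventually.of_forall hG), integral_prod_symm _ (upcF_int p q)]
  calc ∫ v : Fin 3 → ℝ, ∫ t : ℝ, upcF p q (t, v)
      ≤ ∫ v : Fin 3 → ℝ, (q / p) * (4 * Real.sqrt (v 1 ^ 2 + v 2 ^ 2) *
        Real.exp (-((v 0 ^ 2 + v 1 ^ 2 + v 2 ^ 2) / 2))) :=
        integral_mono_of_nonneg (Filter.Eventually.of_forall fun v =>
          integral_nonneg fun t => upcF_nonneg p q _) (upc_n_int.const_mul _)
          (Filter.Eventually.of_forall fun v => upcF_t p q hp hq v)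
    _ = (q / p) * ∫ v : Fin 3 → ℝ, (4 * Real.sqrt (v 1 ^ 2 + v 2 ^ 2) *
        Real.exp (-((v 0 ^ 2 + v 1 ^ 2 + v 2 ^ 2) / 2))) := integral_const_mul _ _
    _ ≤ _ := by
        have : 0 < q / p := by positivity
        nlinarith

end Pool.Agent.HVM
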