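import Pool.Agent.HVM.UpB
import Pool.Agent.HVM.UpC
import Pool.Agent.HVM.Num
import Pool.Agent.HVM.Fin

/-! # The upper bound (module UPD) -/

set_option autoImplicit false

namespace Pool.Agent.HVM

open MeasureTheory Metric Set
open scoped Pointwise
open Pool.Agent.Helper85.Herm Pool.Agent.Helper85.Cap

namespace UpDAux

theorem sq_le (w : C2) (i : Fin 4) : w i ^ 2 ≤ ‖w‖ ^ 2 := by
  rw [EuclideanSpace.real_norm_sq_eq]
  exact Finset.single_le_sum (f := fun j => w j ^ 2) (fun j _ => sq_nonneg _) (Finset.mem_univ i)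

theorem cont_coord (i : Fin 4) : Continuous (fun w : C2 => w i) :=
  (EuclideanSpace.proj i : C2 →L[ℝ] ℝ).continuous

theorem cont_nrm2 : Continuous nrm2 := by
  unfold nrm2
  exact Real.continuous_sqrt.comp (((cont_coord 2).pow 2).add ((cont_coord 3).pow 2))

theorem hyp_null (p s : ℝ) (hp : 0 < p) : volume {w : C2 | p * w 0 = s * w 1} = 0 := by
  let f : C2 →L[ℝ] ℝ := p • (EuclideanSpace.proj (0 : Fin 4) : C2 →L[ℝ] ℝ) -
    s • (EuclideanSpace.proj (1 : Fin 4) : C2 →L[ℝ] ℝ)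
  have hf : ∀ w : C2, f w = p * w 0 - s * w 1 := fun w => rfl
  have hne : LinearMap.ker (f : C2 →ₗ[ℝ] ℝ) ≠ ⊤ := by
    intro h
    have h1 : (EuclideanSpace.single (0 : Fin 4) (1 : ℝ)) ∈ LinearMap.ker (f : C2 →ₗ[ℝ] ℝ) := by
      rw [h]; trivial
    rw [LinearMap.mem_ker] at h1
    have h2 : f (EuclideanSpace.single (0 : Fin 4) (1 : ℝ)) = 0 := h1
    rw [hf] at h2
    simp at h2
    exact hp.ne' h2
  have h := Measure.addHaar_submodule (volume : Measure C2) (LinearMap.ker (f : C2 →ₗ[ℝ] ℝ)) hne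
  have hs : {w : C2 | p * w 0 = s * w 1} = (LinearMap.ker (f : C2 →ₗ[ℝ] ℝ) : Set C2) := by
    ext w
    constructor
    · intro hw
      have hw' : p * w 0 = s * w 1 := hw
      have : f w = 0 := by rw [hf, hw', sub_self]
      exact this
    · intro hw
      have h0 : f w = 0 := hw
      rw [hf] at h0
      change p * w 0 = s * w 1
      linarith
  rw [hs]
  exact h

theorem tie_null (p s : ℝ) (hp : 0 < p) :
    volume {w : C2 | p * |w 0| = s * |w 1|} = 0 := by
  have h1 := hyp_null p s hp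
  have h2 := hyp_null p (-s) hp
  refine measure_mono_null ?_ (measure_union_null h1 h2)
  intro w hw
  have hw' : p * |w 0| = s * |w 1| := hw
  rcases abs_choice (w 0) with ha | ha <;> rcases abs_choice (w 1) with hb | hb
  · left; change p * w 0 = s * w 1; rw [ha, hb] at hw'; exact hw'
  · right; change p * w 0 = -s * w 1; rw [ha, hb] at hw'; linarith
  · right; change p * w 0 = -s * w 1; rw [ha, hb] at hw'; linarith
  · left; change p * w 0 = s * w 1; rw [ha, hb] at hw'; linarith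

/-- integrability from a quadratic bound -/
theorem integrable_of_bound (f : C2 → ℝ) (hf : Measurable f) (c : ℝ)
    (hb : ∀ w, |f w| ≤ c * ‖w‖ ^ 2) :
    Integrable (fun w : C2 => Real.exp (-‖w‖ ^ 2) * f w) := by
  refine Integrable.mono' (I1_gauss.const_mul c) ?_ ?_
  · refine Measurable.aestronglyMeasurable ?_
    refine Measurable.mul ?_ hf
    exact (Real.continuous_exp.comp (continuous_norm.pow 2).neg).measurable
  · refine Filter.Eventually.of_forall fun w => ?_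
    rw [Real.norm_eq_abs, abs_mul, abs_of_pos (Real.exp_pos _)]
    have := hb w
    have he := (Real.exp_pos (-‖w‖ ^ 2)).le
    nlinarith [mul_le_mul_of_nonneg_left this he]

theorem ind_integrable (S : Set C2) (hS : MeasurableSet S) (f : C2 → ℝ) (hf : Measurable f) (c : ℝ)
    (hb : ∀ w, |f w| ≤ c * ‖w‖ ^ 2) :
    Integrable (fun w : C2 => Set.indicator S (fun w => Real.exp (-‖w‖ ^ 2) * f w) w) :=
  (integrable_of_bound f hf c hb).indicator hS

theorem quad_bound (w : C2) (i : Fin 4) : |‖w‖ ^ 2 - 4 * w i ^ 2| ≤ 3 * ‖w‖ ^ 2 := by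
  have h1 := sq_le w i
  have h2 := sq_nonneg (w i)
  rw [abs_le]
  constructor <;> nlinarith

theorem meas_quad (i : Fin 4) : Measurable (fun w : C2 => ‖w‖ ^ 2 - 4 * w i ^ 2) :=
  ((continuous_norm.pow 2).sub (((cont_coord i).pow 2).const_mul 4)).measurable

theorem ms1 (p q s : ℝ) :
    MeasurableSet {w : C2 | s * |w 1| ≤ p * |w 0| ∧ q * nrm2 w ≤ p * |w 0|} := by
  have c0 : Measurable (fun w : C2 => p * |w 0|) := ((cont_coord 0).abs.const_mul p).measurable
  have c1 : Measurable (fun w : C2 => s * |w 1|) := ((cont_coord 1).abs.const_mul s).measurable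
  have c2 : Measurable (fun w : C2 => q * nrm2 w) := (cont_nrm2.const_mul q).measurable
  exact (measurableSet_le c1 c0).inter (measurableSet_le c2 c0)

theorem ms2 (p q s : ℝ) :
    MeasurableSet {w : C2 | p * |w 0| ≤ s * |w 1| ∧ q * nrm2 w ≤ s * |w 1|} := by
  have c0 : Measurable (fun w : C2 => p * |w 0|) := ((cont_coord 0).abs.const_mul p).measurable
  have c1 : Measurable (fun w : C2 => s * |w 1|) := ((cont_coord 1).abs.const_mul s).measurable
  have c2 : Measurable (fun w : C2 => q * nrm2 w) := (cont_nrm2.const_mul q).measurable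
  exact (measurableSet_le c0 c1).inter (measurableSet_le c2 c1)

theorem ms3 (p q : ℝ) : MeasurableSet {w : C2 | p * |w 0| ≤ q * nrm2 w} := by
  have c0 : Measurable (fun w : C2 => p * |w 0|) := ((cont_coord 0).abs.const_mul p).measurable
  have c2 : Measurable (fun w : C2 => q * nrm2 w) := (cont_nrm2.const_mul q).measurable
  exact measurableSet_le c0 c2

theorem ms4 (q s : ℝ) : MeasurableSet {w : C2 | q * nrm2 w ≤ s * |w 1|} := by
  have c1 : Measurable (fun w : C2 => s * |w 1|) := ((cont_coord 1).abs.const_mul s).measurable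
  have c2 : Measurable (fun w : C2 => q * nrm2 w) := (cont_nrm2.const_mul q).measurable
  exact measurableSet_le c2 c1

theorem meas_crossD (p q s : ℝ) : Measurable (crossD p q s) := by
  unfold crossD
  refine Measurable.ite (ms1 p q s) ((meas_quad 1).const_mul _) ?_
  refine Measurable.ite (ms4 q s) ((meas_quad 0).const_mul _) ?_
  exact ((continuous_norm.pow 2).const_mul _).measurable

theorem crossD_bound (p q s : ℝ) (w : C2) :
    |crossD p q s w| ≤ (3 * p ^ 2 + 3 * s ^ 2 + q ^ 2) * ‖w‖ ^ 2 := by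
  have h1 := quad_bound w 1
  have h0 := quad_bound w 0
  have hw : 0 ≤ ‖w‖ ^ 2 := sq_nonneg _
  have hp := mul_nonneg (sq_nonneg p) hw
  have hq := mul_nonneg (sq_nonneg q) hw
  have hs := mul_nonneg (sq_nonneg s) hw
  unfold crossD
  split_ifs
  · rw [abs_mul, abs_of_nonneg (sq_nonneg p)]
    nlinarith [mul_le_mul_of_nonneg_left h1 (sq_nonneg p)]
  · rw [abs_mul, abs_of_nonneg (sq_nonneg s)]
    nlinarith [mul_le_mul_of_nonneg_left h0 (sq_nonneg s)]
  · rw [abs_of_nonneg hq]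
    nlinarith

theorem pointwise (p q s : ℝ) (w : C2) (hw : p * |w 0| ≠ s * |w 1|) :
    Real.exp (-‖w‖ ^ 2) * crossD p q s w ≤
      p ^ 2 * Set.indicator {w : C2 | s * |w 1| ≤ p * |w 0| ∧ q * nrm2 w ≤ p * |w 0|}
        (fun w => Real.exp (-‖w‖ ^ 2) * (‖w‖ ^ 2 - 4 * w 1 ^ 2)) w +
      s ^ 2 * Set.indicator {w : C2 | p * |w 0| ≤ s * |w 1| ∧ q * nrm2 w ≤ s * |w 1|}
        (fun w => Real.exp (-‖w‖ ^ 2) * (‖w‖ ^ 2 - 4 * w 0 ^ 2)) w +
      q ^ 2 * Set.indicator {w : C2 | p * |w 0| ≤ q * nrm2 w}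
        (fun w => Real.exp (-‖w‖ ^ 2) * ‖w‖ ^ 2) w := by
  have he : 0 < Real.exp (-‖w‖ ^ 2) := Real.exp_pos _
  have h3 : 0 ≤ q ^ 2 * Set.indicator {w : C2 | p * |w 0| ≤ q * nrm2 w}
        (fun w => Real.exp (-‖w‖ ^ 2) * ‖w‖ ^ 2) w := by
    refine mul_nonneg (sq_nonneg _) (Set.indicator_nonneg (fun w _ => ?_) w)
    positivity
  unfold crossD
  by_cases c1 : s * |w 1| ≤ p * |w 0| ∧ q * nrm2 w ≤ p * |w 0|
  · rw [if_pos c1, Set.indicator_of_mem (s := {w : C2 | s * |w 1| ≤ p * |w 0| ∧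
      q * nrm2 w ≤ p * |w 0|}) c1]
    have n2 : w ∉ {w : C2 | p * |w 0| ≤ s * |w 1| ∧ q * nrm2 w ≤ s * |w 1|} := by
      intro h
      exact hw (le_antisymm h.1 c1.1)
    rw [Set.indicator_of_notMem n2]
    linarith
  · rw [if_neg c1, Set.indicator_of_notMem (s := {w : C2 | s * |w 1| ≤ p * |w 0| ∧
      q * nrm2 w ≤ p * |w 0|}) c1]
    by_cases c2 : q * nrm2 w ≤ s * |w 1|
    · rw [if_pos c2]
      have m2 : w ∈ {w : C2 | p * |w 0| ≤ s * |w 1| ∧ q * nrm2 w ≤ s * |w 1|} := by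
        refine ⟨?_, c2⟩
        by_contra h
        have h' : s * |w 1| < p * |w 0| := not_le.1 h
        exact c1 ⟨h'.le, c2.trans h'.le⟩
      rw [Set.indicator_of_mem m2]
      linarith
    · rw [if_neg c2]
      have n2 : w ∉ {w : C2 | p * |w 0| ≤ s * |w 1| ∧ q * nrm2 w ≤ s * |w 1|} := fun h => c2 h.2
      rw [Set.indicator_of_notMem n2]
      have c2' : s * |w 1| < q * nrm2 w := not_le.1 c2
      have m3 : w ∈ {w : C2 | p * |w 0| ≤ q * nrm2 w} := by
        change p * |w 0| ≤ q * nrm2 w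
        by_contra h
        have h' : q * nrm2 w < p * |w 0| := not_le.1 h
        exact c1 ⟨(c2'.trans h').le, h'.le⟩
      rw [Set.indicator_of_mem m3]
      linarith

end UpDAux

open UpDAux in
theorem cross_G_le : ∃ C : ℝ, 0 < C ∧ ∀ (p q s : ℝ) (K : Body), 0 < s → s ≤ q → q ≤ p →
    pts K = crossSet p q s → 4 * Mu J K - V2 K ≤ C * (p * s ^ 3 / q ^ 2 + q ^ 3 / p) := by
  obtain ⟨C3, hC3, h3⟩ := cone_three
  have hpi := Real.pi_pos
  refine ⟨(4 * Real.pi + C3) / (2 * Real.pi), by positivity, ?_⟩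
  intro p q s K hs hsq hqp hK
  have hq : 0 < q := hs.trans_le hsq
  have hp : 0 < p := hq.trans_le hqp
  have hG := cross_G p q s hp hq hs K hK
  have k1 := cone_one p q s hp hq hs
  have k2 := cone_two p q s hp hq hs
  have k3 := h3 p q hp hq
  have i1 := ind_integrable _ (ms1 p q s) _ (meas_quad 1) 3 (fun w => quad_bound w 1)
  have i2 := ind_integrable _ (ms2 p q s) _ (meas_quad 0) 3 (fun w => quad_bound w 0)
  have i3 := ind_integrable _ (ms3 p q) (fun w => ‖w‖ ^ 2) (continuous_norm.pow 2).measurable 1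
    (fun w => by rw [one_mul, abs_of_nonneg (sq_nonneg _)])
  have iD := integrable_of_bound _ (meas_crossD p q s) _ (crossD_bound p q s)
  have key : ∫ w : C2, Real.exp (-‖w‖ ^ 2) * crossD p q s w ≤
      p ^ 2 * (∫ w : C2, Set.indicator {w : C2 | s * |w 1| ≤ p * |w 0| ∧ q * nrm2 w ≤ p * |w 0|}
        (fun w => Real.exp (-‖w‖ ^ 2) * (‖w‖ ^ 2 - 4 * w 1 ^ 2)) w) +
      s ^ 2 * (∫ w : C2, Set.indicator {w : C2 | p * |w 0| ≤ s * |w 1| ∧ q * nrm2 w ≤ s * |w 1|}
        (fun w => Real.exp (-‖w‖ ^ 2) * (‖w‖ ^ 2 - 4 * w 0 ^ 2)) w) +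
      q ^ 2 * (∫ w : C2, Set.indicator {w : C2 | p * |w 0| ≤ q * nrm2 w}
        (fun w => Real.exp (-‖w‖ ^ 2) * ‖w‖ ^ 2) w) := by
    have i12 : Integrable (fun w : C2 => p ^ 2 * Set.indicator {w : C2 | s * |w 1| ≤ p * |w 0| ∧
          q * nrm2 w ≤ p * |w 0|} (fun w => Real.exp (-‖w‖ ^ 2) * (‖w‖ ^ 2 - 4 * w 1 ^ 2)) w +
        s ^ 2 * Set.indicator {w : C2 | p * |w 0| ≤ s * |w 1| ∧ q * nrm2 w ≤ s * |w 1|}
          (fun w => Real.exp (-‖w‖ ^ 2) * (‖w‖ ^ 2 - 4 * w 0 ^ 2)) w) :=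
      (i1.const_mul _).add (i2.const_mul _)
    rw [← integral_const_mul, ← integral_const_mul, ← integral_const_mul,
      ← integral_add (i1.const_mul _) (i2.const_mul _),
      ← integral_add i12 (i3.const_mul _)]
    refine integral_mono_ae iD (i12.add (i3.const_mul _)) ?_
    have hae : ∀ᵐ w : C2, p * |w 0| ≠ s * |w 1| := by
      rw [ae_iff]
      simp only [ne_eq, not_not]
      exact tie_null p s hp
    filter_upwards [hae] with w hw
    exact pointwise p q s w hw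
  rw [div_mul_eq_mul_div, le_div_iff₀ (by positivity)]
  have e1 : p ^ 2 * (4 * Real.pi * (p / q) ^ 2 * (s / p) ^ 3) =
      4 * Real.pi * (p * s ^ 3 / q ^ 2) := by
    field_simp
  have e2 : s ^ 2 * (4 * Real.pi * (s / q) ^ 2 * (s / p)) ≤ 4 * Real.pi * (q ^ 3 / p) := by
    have : s ^ 2 * (4 * Real.pi * (s / q) ^ 2 * (s / p)) =
        4 * Real.pi * (s ^ 5 / (q ^ 2 * p)) := by
      field_simp
    rw [this]
    refine mul_le_mul_of_nonneg_left ?_ (by positivity)
    rw [div_le_div_iff₀ (by positivity) hp]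
    have h5 : s ^ 5 ≤ q ^ 5 := pow_le_pow_left₀ hs.le hsq 5
    calc s ^ 5 * p ≤ q ^ 5 * p := mul_le_mul_of_nonneg_right h5 hp.le
      _ = q ^ 3 * (q ^ 2 * p) := by ring
  have e3 : q ^ 2 * (C3 * (q / p)) = C3 * (q ^ 3 / p) := by
    field_simp
  have m1 := mul_le_mul_of_nonneg_left k1 (sq_nonneg p)
  have m2 := mul_le_mul_of_nonneg_left k2 (sq_nonneg s)
  have m3 := mul_le_mul_of_nonneg_left k3 (sq_nonneg q)
  have n1 : 0 ≤ C3 * (p * s ^ 3 / q ^ 2) := by positivity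
  rw [e1] at m1
  rw [e3] at m3
  nlinarith [m1, m2, m3, key, hG, n1, e2]

theorem upper : ∃ C : ℝ, 0 < C ∧ ∀ a b : ℝ, 0 < a → a ≤ b →
    ∃ K : Body, UnitVolume K ∧ muab a b K ≤ C * (a ^ ((7 : ℝ) / 12) * b ^ ((5 : ℝ) / 12)) := by
  obtain ⟨C1, hC1, hV⟩ := cross_V2
  obtain ⟨C2', hC2, hGle⟩ := cross_G_le
  refine ⟨10 * (C1 + 2 * C2'), by positivity, ?_⟩
  intro a b ha hab
  have hb : 0 < b := ha.trans_le hab
  obtain ⟨t, ht, hat, hbt⟩ := num_upper a b ha hab
  have ht0 : 0 < t := zero_lt_one.trans_le ht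
  set R := a ^ ((7 : ℝ) / 12) * b ^ ((5 : ℝ) / 12) with hR
  set p := t ^ ((11 : ℝ) / 10) with hp
  set q := t ^ (-(1 : ℝ) / 10) with hq
  set s := t ^ (-(9 : ℝ) / 10) with hs
  have hp0 : 0 < p := Real.rpow_pos_of_pos ht0 _
  have hq0 : 0 < q := Real.rpow_pos_of_pos ht0 _
  have hs0 : 0 < s := Real.rpow_pos_of_pos ht0 _
  have hsq : s ≤ q := Real.rpow_le_rpow_of_exponent_le ht (by norm_num)
  have hqp : q ≤ p := Real.rpow_le_rpow_of_exponent_le ht (by norm_num)
  obtain ⟨K0, hK0⟩ := cross_exists p q s hp0 hq0 hs0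
  have hpq : p * q = t := by
    rw [hp, hq, ← Real.rpow_add ht0]
    norm_num
  have hpqs : p * q ^ 2 * s = 1 := by
    rw [hp, hq, hs, ← Real.rpow_natCast, ← Real.rpow_mul ht0.le, ← Real.rpow_add ht0,
      ← Real.rpow_add ht0]
    norm_num
  have hg1 : p * s ^ 3 / q ^ 2 = t ^ (-(7 : ℝ) / 5) := by
    rw [hp, hq, hs, ← Real.rpow_natCast, ← Real.rpow_natCast, ← Real.rpow_mul ht0.le,
      ← Real.rpow_mul ht0.le, ← Real.rpow_add ht0, ← Real.rpow_sub ht0]
    norm_num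
  have hg2 : q ^ 3 / p = t ^ (-(7 : ℝ) / 5) := by
    rw [hp, hq, ← Real.rpow_natCast, ← Real.rpow_mul ht0.le, ← Real.rpow_sub ht0]
    norm_num
  have v1 := cross_volume p q s hp0 hq0 hs0 K0 hK0
  rw [hpqs] at v1
  have v2 := hV p q s K0 hs0 hsq hqp hK0
  rw [hpq] at v2
  have v3 := hGle p q s K0 hs0 hsq hqp hK0
  rw [hg1, hg2] at v3
  have hGn := (muab_nonneg K0).2
  -- the value of `muab a b` on the cross body
  have hval : muab a b K0 ≤ (C1 + 2 * C2') * R := by
    have e1 : muab a b K0 = a * V2 K0 + (b - a) * (4 * Mu J K0 - V2 K0) := by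
      unfold V2 muab; ring
    have e2 : muab 0 1 K0 = 4 * Mu J K0 - V2 K0 := by
      unfold V2 muab; ring
    rw [e2] at hGn
    have f1 : a * V2 K0 ≤ C1 * R := by
      rw [← hat]
      nlinarith [mul_le_mul_of_nonneg_left v2 ha.le]
    have f2 : b * (4 * Mu J K0 - V2 K0) ≤ 2 * C2' * R := by
      rw [← hbt]
      nlinarith [mul_le_mul_of_nonneg_left v3 hb.le]
    have f3 : 0 ≤ a * (4 * Mu J K0 - V2 K0) := mul_nonneg ha.le hGn
    rw [e1]
    nlinarith
  have hR0 : 0 < R := by positivity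
  -- rescaling
  set V := (volume (pts K0)).toReal with hVdef
  have hV0 : 0 < V := lt_of_lt_of_le (by norm_num) v1
  have hfin : volume (pts K0) ≠ ⊤ := K0.isCompact.measure_lt_top.ne
  set c := V ^ (-(1 : ℝ) / 4) with hc
  have hc0 : 0 < c := Real.rpow_pos_of_pos hV0 _
  have hc4 : c ^ 4 * V = 1 := by
    rw [hc, ← Real.rpow_natCast, ← Real.rpow_mul hV0.le]
    nth_rewrite 2 [← Real.rpow_one V]
    rw [← Real.rpow_add hV0]
    norm_num
  have hc2 : c ^ 2 ≤ 10 := by
    have h1 : (c ^ 2) ^ 2 ≤ 10 ^ 2 := by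
      have : c ^ 4 * (1 / 100) ≤ c ^ 4 * V := mul_le_mul_of_nonneg_left v1 (by positivity)
      nlinarith
    exact le_of_sq_le_sq h1 (by norm_num)
  refine ⟨c • K0, ?_, ?_⟩
  · have hset : pts (c • K0) = c • pts K0 := ConvexBody.coe_smul c K0
    unfold UnitVolume
    rw [hset, Measure.addHaar_smul, finrank_euclideanSpace, Fintype.card_fin,
      abs_of_nonneg (by positivity), ← ENNReal.ofReal_toReal hfin, ← hVdef,
      ← ENNReal.ofReal_mul (by positivity), hc4, ENNReal.ofReal_one]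
  · have hset : pts (c • K0) = (fun x => c • x) '' pts K0 := by
      have : pts (c • K0) = c • pts K0 := ConvexBody.coe_smul c K0
      rw [this]
      rfl
    rw [muab_homogeneous a b c hc0.le K0 (c • K0) hset]
    have h1 : c ^ 2 * muab a b K0 ≤ c ^ 2 * ((C1 + 2 * C2') * R) :=
      mul_le_mul_of_nonneg_left hval (by positivity)
    have h2 : c ^ 2 * ((C1 + 2 * C2') * R) ≤ 10 * ((C1 + 2 * C2') * R) :=
      mul_le_mul_of_nonneg_right hc2 (by positivity)
    linarith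

end Pool.Agent.HVM
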